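import Pool.Agent.Q65.TWO

/-!
# Central endomorphisms of the summands suffice
-/

set_option autoImplicit false
set_option linter.unusedSectionVars false
set_option linter.unusedVariables false

namespace Pool.Agent.Q65.KL

open NumberField IsDedekindDomain Module Polynomial TensorProduct Pool.Agent.TH118.SG
  Pool.Agent.Y114.MU Pool.Agent.Y114.TF Pool.Agent.Y114.GF Pool.Agent.H204R3.GP Pool.Agent.Y114.RM
  Pool.Agent.Y212.RM
open Pool.Agent.W569.FM Pool.Agent.W571.FM Pool.Agent.Y115.R Pool.Agent.Y115.T Pool.Agent.Y115.Chi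

section blk

variable {k : Type} [Field k] [CharZero k] [Algebra k ℂ] {ι : Type} [Fintype ι] [DecidableEq ι]
  {V : ι → Type} [∀ i, AddCommGroup (V i)] [∀ i, Module k (V i)] [∀ i, FiniteDimensional k (V i)]
  {Γ : Type} [Group Γ] (ρ : ∀ i, Representation k Γ (V i))

/-- A Lie subalgebra of maximal rank is everything if the block diagonal elements of the centre of
its commutant commute with the large Lie algebra. -/
theorem full_of_central (h : Inputs) {L G : Submodule k (End k (∀ i, V i))} (hL : IsLie L)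
    (hG : IsLie G) (hndG : NonDeg G) (hndL : NonDeg L) (hLG : L ≤ G) (γ₂ : Γ)
    (ht₂ : tor ((sumRep ρ γ₂).baseChange ℂ) ≤ bcS ℂ L)
    (hcen₂ : ∀ x ∈ bcS ℂ G, (∀ a ∈ tor ((sumRep ρ γ₂).baseChange ℂ), a * x = x * a) →
      x ∈ tor ((sumRep ρ γ₂).baseChange ℂ))
    (hz : ∀ z : End k (∀ i, V i), (∀ x i, z x i = z (Pi.single i (x i)) i) →
      (∀ X ∈ L, X * z = z * X) → (∀ Q, (∀ X ∈ L, X * Q = Q * X) → z * Q = Q * z) →
      ∀ X ∈ G, X * z = z * X) : L = G := by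
  classical
  have hLG' : bcS ℂ L ≤ bcS ℂ G := bcS_mono hLG
  have hLC : IsLie (bcS ℂ L) := (h.bc k ℂ _ L).2.1 hL
  have hLndC : NonDeg (bcS ℂ L) := (h.bc k ℂ _ L).2.2.1 hndL
  refine (h.bc k ℂ _ G).2.2.2.2.1 L hLG ?_
  refine eq_of_classes ((h.bc k ℂ _ G).2.1 hG) ((h.bc k ℂ _ G).2.2.1 hndG) hLG' hLC hLndC ht₂
    (tor_diag _) (tor_comm _) hcen₂ ?_
  rintro P ⟨χ₀, hP⟩ hPL
  -- the weights
  have h1 : ∀ c : ℂ, ∃ χ : tor ((sumRep ρ γ₂).baseChange ℂ) → ℂ,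
      ∀ x ∈ Module.End.maxGenEigenspace ((sumRep ρ γ₂).baseChange ℂ) c,
        ∀ a : tor ((sumRep ρ γ₂).baseChange ℂ), (a : End ℂ (ℂ ⊗[k] (∀ i, V i))) x = χ a • x :=
    fun c => gen_wt _ c
  choose wt hwt using h1
  obtain ⟨R, hR⟩ : ∃ R : AddSubgroup (tor ((sumRep ρ γ₂).baseChange ℂ) → ℂ),
    R = AddSubgroup.closure (Wts (tor ((sumRep ρ γ₂).baseChange ℂ)) (bcS ℂ L)) := ⟨_, rfl⟩
  rw [← hR] at hP
  obtain ⟨p, hp⟩ := exists_poly (g := (sumRep ρ γ₂).baseChange ℂ) (P := P)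
    (s := fun c => if wt c - χ₀ ∈ R then 1 else 0)
    (fun c => by
      by_cases hc : wt c - χ₀ ∈ R
      · left; exact if_pos hc
      · right; exact if_neg hc)
    (fun c x hx => hP (wt c) x (hwt c x hx))
  -- `P` commutes with the commutant of `L`
  have hPQ : ∀ Q : End ℂ (ℂ ⊗[k] (∀ i, V i)), (∀ X ∈ bcS ℂ L, X * Q = Q * X) →
      P * Q = Q * P := by
    intro Q hQ
    refine op_ext ((sumRep ρ γ₂).baseChange ℂ) fun c x hx => ?_
    rw [Module.End.mul_apply, Module.End.mul_apply, hP (wt c) x (hwt c x hx),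
      hP (wt c) (Q x), map_smul]
    intro a
    have h1 := LinearMap.congr_fun (hQ a (ht₂ a.2)) x
    rw [Module.End.mul_apply, Module.End.mul_apply, hwt c x hx, map_smul] at h1
    exact h1
  have hcomm : ∀ (π : ℂ →ₗ[k] k), ∀ X ∈ G, X * (pM π P : End k (∀ i, V i)) = pM π P * X := by
    intro π
    refine hz _ ?_ ?_ ?_
    · intro x i
      rw [← hp, pM_aeval, aeval_sumRep, aeval_sumRep, Pi.single_eq_same]
    · intro X hX
      rw [← pM_bc_mul, ← pM_mul_bc, hPL _ (mem_bcS hX)]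
    · intro Q hQ
      rw [← pM_bc_mul, ← pM_mul_bc, hPQ _ (bcS_comm hQ)]
  have h1 : ∀ X ∈ G, P * X.baseChange ℂ = X.baseChange ℂ * P := by
    intro X hX
    rw [← sub_eq_zero]
    apply pM_sep
    intro π
    rw [pM_sub, pM_mul_bc, pM_bc_mul, hcomm π X hX, sub_self]
  intro X hX
  induction hX using Submodule.span_induction with
  | mem X hX =>
    obtain ⟨X, hX, rfl⟩ := hX
    exact h1 X hX
  | zero => rw [mul_zero, zero_mul]
  | add X Y _ _ hX hY => rw [mul_add, add_mul, hX, hY]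
  | smul c X _ hX => rw [mul_smul_comm, smul_mul_assoc, hX]

end blk

section ext

variable {k : Type} [Field k] [CharZero k] {ι : Type} [Fintype ι] [DecidableEq ι]
  {V : ι → Type} [∀ i, AddCommGroup (V i)] [∀ i, Module k (V i)] [∀ i, FiniteDimensional k (V i)]
  {Γ : Type} [Group Γ] (ρ : ∀ i, Representation k Γ (V i))

/-- an endomorphism of a summand, extended by zero -/
def ext (i : ι) (y : End k (V i)) : End k (∀ i, V i) :=
  LinearMap.single k V i ∘ₗ y ∘ₗ LinearMap.proj i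

theorem ext_apply (i : ι) (y : End k (V i)) (x : ∀ i, V i) : ext i y x = Pi.single i (y (x i)) :=
  rfl

theorem sumRep_app (γ : Γ) (x : ∀ i, V i) (i : ι) : sumRep ρ γ x i = ρ i γ (x i) := rfl

theorem ext_comm {i : ι} {y : End k (V i)} {γ : Γ} (hy : y * ρ i γ = ρ i γ * y) :
    ext i y * sumRep ρ γ = sumRep ρ γ * ext i y := by
  refine LinearMap.ext fun x => ?_
  rw [Module.End.mul_apply, Module.End.mul_apply, ext_apply, ext_apply, sumRep_single,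
    sumRep_app, ← Module.End.mul_apply, hy, Module.End.mul_apply]

omit [CharZero k] [Fintype ι] [∀ i, FiniteDimensional k (V i)] in
theorem single_parts' {X : End k (∀ i, V i)} (hX : ∀ x i, X x i = X (Pi.single i (x i)) i) (i : ι)
    (y : V i) : X (Pi.single i y) = Pi.single i (X (Pi.single i y) i) := by
  funext j
  by_cases hj : j = i
  · subst hj
    rw [Pi.single_eq_same]
  · rw [Pi.single_eq_of_ne hj, hX, Pi.single_eq_of_ne hj, Pi.single_zero, map_zero, Pi.zero_apply]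

end ext

section cent

variable {Γ : Type} [Group Γ] {ι : Type} [Fintype ι] [DecidableEq ι] {n : ι → ℕ} {ℓ : ℕ}
  [hℓ : Fact ℓ.Prime] (ρ : ∀ i, Representation ℚ_[ℓ] Γ (Fin (n i) → ℚ_[ℓ]))

/-- `z` commutes with a subgroup of finite index. -/
def TateEnd1 (i : ι) (z : End ℚ_[ℓ] (Fin (n i) → ℚ_[ℓ])) : Prop :=
  ∃ Δ : Subgroup Γ, Δ.FiniteIndex ∧ ∀ γ ∈ Δ, z * ρ i γ = ρ i γ * z

/-- the central Tate endomorphisms of the summands commute with `𝔤` -/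
def CentTate (𝔤 : Submodule ℚ_[ℓ] (End ℚ_[ℓ] (∀ i, Fin (n i) → ℚ_[ℓ]))) : Prop :=
  ∀ (i : ι) (z : End ℚ_[ℓ] (Fin (n i) → ℚ_[ℓ])), TateEnd1 ρ i z →
    (∀ y, TateEnd1 ρ i y → z * y = y * z) → ∀ X ∈ 𝔤, ∀ x, X (Pi.single i (z x)) i =
      z (X (Pi.single i x) i)

theorem central_comm {L G : Submodule ℚ_[ℓ] (End ℚ_[ℓ] (∀ i, Fin (n i) → ℚ_[ℓ]))}
    (hL : ∀ X ∈ L, ∀ (m : ℕ) (φ : Tensor ℚ_[ℓ] (∀ i, Fin (n i) → ℚ_[ℓ]) m),
      TateTensor (sumRep ρ) φ → KillsTensor X φ)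
    (hparts : ∀ X ∈ G, ∀ x i, X x i = X (Pi.single i (x i)) i)
    {Δ : Subgroup Γ} (hΔ : Δ.FiniteIndex)
    (hΔL : ∀ s ∈ Δ, ∀ Q, (∀ X ∈ L, X * Q = Q * X) → sumRep ρ s * Q = Q * sumRep ρ s)
    (hcent : CentTate ρ G) (z : End ℚ_[ℓ] (∀ i, Fin (n i) → ℚ_[ℓ]))
    (hz1 : ∀ x i, z x i = z (Pi.single i (x i)) i) (hz2 : ∀ X ∈ L, X * z = z * X)
    (hz3 : ∀ Q, (∀ X ∈ L, X * Q = Q * X) → z * Q = Q * z) : ∀ X ∈ G, X * z = z * X := by
  have hzs := fun i y => single_parts' hz1 i y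
  have h1 : ∀ i, ∀ X ∈ G, ∀ x, X (Pi.single i (blk i z x)) i = blk i z (X (Pi.single i x) i) := by
    intro i
    refine hcent i (blk i z) ⟨Δ, hΔ, fun s hs => ?_⟩ ?_
    · refine LinearMap.ext fun x => ?_
      have h2 := congrFun (LinearMap.congr_fun (hΔL s hs z hz2) (Pi.single i x)) i
      rw [Module.End.mul_apply, Module.End.mul_apply, sumRep_single, sumRep_app] at h2
      rw [Module.End.mul_apply, Module.End.mul_apply, blk_apply, blk_apply, h2]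
    · rintro y ⟨Δ', hΔ', hy⟩
      have h2 : ∀ X ∈ L, X * ext i y = ext i y * X := fun X hX =>
        tate_comm (sumRep ρ) (hL X hX) hΔ' fun s hs => ext_comm ρ (hy s hs)
      refine LinearMap.ext fun x => ?_
      have h3 := congrFun (LinearMap.congr_fun (hz3 _ h2) (Pi.single i x)) i
      rw [Module.End.mul_apply, Module.End.mul_apply, ext_apply, ext_apply, Pi.single_eq_same,
        Pi.single_eq_same] at h3
      rw [Module.End.mul_apply, Module.End.mul_apply, blk_apply, blk_apply, h3]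
  intro X hX
  refine LinearMap.ext fun x => funext fun i => ?_
  rw [Module.End.mul_apply, Module.End.mul_apply, hparts X hX, hz1 (X x), hparts X hX x, hz1 x]
  exact h1 i X hX (x i)

end cent

section local1

variable {Γ : Type} [Group Γ] [TopologicalSpace Γ] [IsTopologicalGroup Γ] [CompactSpace Γ]
  {ι : Type} [Fintype ι] [DecidableEq ι] {n : ι → ℕ} {ℓ : ℕ} [hℓ : Fact ℓ.Prime]
  (ρ : ∀ i, Representation ℚ_[ℓ] Γ (Fin (n i) → ℚ_[ℓ]))

/-- semisimple representations -/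
theorem local_cent (h : Inputs) (h2 : Inputs2)
    (hρ : ∀ i, Continuous fun g => LinearMap.toMatrix' (ρ i g))
    {𝔤 : Submodule ℚ_[ℓ] (End ℚ_[ℓ] (∀ i, Fin (n i) → ℚ_[ℓ]))} (h𝔤 : IsMotivic ρ 𝔤)
    (g₀ : Γ) (P : ι → ℚ[X]) (hP : ∀ i, (ρ i g₀).charpoly = (P i).map (algebraMap ℚ ℚ_[ℓ]))
    {r : ℕ} (hr : IndependentRoots r P) (hrk : RankAtMost 𝔤 r)
    (hss : SemisimpleRep ρ) (hend : CentTate ρ 𝔤) :
    FiniteIndexSemisimple (sumRep ρ) ∧ ∀ (m : ℕ) (φ : Tensor ℚ_[ℓ] (∀ i, Fin (n i) → ℚ_[ℓ]) m),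
      TateTensor (sumRep ρ) φ → ∀ X ∈ 𝔤, KillsTensor X φ := by
  classical
  obtain ⟨j, hj⟩ := exists_j ℓ ℚ_[ℓ] ℚ (algebraMap ℚ ℚ_[ℓ]) (algebraMap ℚ ℂ)
  let _ : Algebra ℚ_[ℓ] ℂ := j.toAlgebra
  obtain ⟨L, hL, hLie, hAd, hlog⟩ := h.lie ℚ_[ℓ] (∀ i, Fin (n i) → ℚ_[ℓ]) _ (sumRep ρ)
  have hLG : L ≤ 𝔤 := fun X hX => h𝔤.algebraic X fun m φ hφ => ((hL X).1 hX).2 m φ (h𝔤.tate m φ hφ)
  obtain ⟨z, hz, hind⟩ := hr
  have hz' : ∀ i, End.HasEigenvalue ((sumRep ρ g₀).baseChange ℂ) (z i) := by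
    intro i
    obtain ⟨a, ha⟩ := hz i
    exact sumRep_eigen ρ g₀ (hP a) ha
  have hcen := torus_cen (sumRep ρ) h h2.jord h2.cartan hL hLG h𝔤.bracket h𝔤.nondeg h𝔤.algebraic
    hrk g₀ z hz' hind
  have htL := tor_le (sumRep ρ) h hL g₀
  have hND : NonDeg L := nonDeg_of_ss (sumRep ρ) h hL hLie hAd h𝔤.bracket h𝔤.nondeg hLG htL
    (tor_diag _) (tor_comm _) hcen hss
  obtain ⟨Δ', hΔ', hcomm⟩ := h2.tfr ℓ ι n _ ρ hρ (comm L) (comm_conj (sumRep ρ) hAd)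
    (comm_order (sumRep ρ) h h2 hL)
  have hfull : L = 𝔤 := full_of_central ρ h hLie h𝔤.bracket h𝔤.nondeg hND hLG g₀ htL hcen
    (central_comm ρ (fun X hX => ((hL X).1 hX).2) h𝔤.parts hΔ' (fun s hs Q hQ => hcomm s hs Q hQ)
      hend)
  refine ⟨h.concl _ ι _ _ ρ 𝔤 h𝔤 fun X hX => (hL X).1 (hfull ▸ hX), fun m φ hφ X hX => ?_⟩
  exact ((hL X).1 (hfull ▸ hX)).2 m φ hφ

end local1

section fg

variable {Γ : Type} [Group Γ] [TopologicalSpace Γ] [IsTopologicalGroup Γ] [CompactSpace Γ]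
  {ι : Type} [Fintype ι] [DecidableEq ι] {n : ι → ℕ} {ℓ : ℕ} [hℓ : Fact ℓ.Prime]
  {F : Type} [Field F] [NumberField F] {w : ι → ℤ}

/-- **Central endomorphisms suffice.** -/
theorem main_cent (h : Inputs) (h2 : Inputs2) (ρ : Reps Γ n ℓ) (hρ : Conts ρ) (𝔤 : EndSpace n ℓ)
    (h𝔤 : Motivic ρ 𝔤)
    (s : Gal(AlgebraicClosure F/F) →* Γ) (hs : Continuous s)
    (P : HeightOneSpectrum (𝓞 F) → ι → ℚ[X])
    (T : Set ℕ) (hT3 : 3 ≤ T.encard) (hT : ∀ p ∈ T, p.Prime ∧ p ≠ ℓ ∧ UnramifiedIn F p)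
    (hgood : ∀ p ∈ T, ∀ v, Above v p → GoodPlace (restrictTo ρ s) w v (P v))
    {p₀ : ℕ} (hp₀ : p₀ ∈ T) (hind₀ : IndependentPlaces P p₀) {v₀ : HeightOneSpectrum (𝓞 F)}
    (hv₀ : Above v₀ p₀) (r : ℕ) (hr : IndependentRoots r (P v₀)) (hrk : RankLE 𝔤 r)
    (hend : CentTate ρ 𝔤) : Semisimple ρ ∧ TateTensorsOf ρ 𝔤 := by
  classical
  obtain ⟨j, hj⟩ := exists_j ℓ ℚ_[ℓ] ℚ (algebraMap ℚ ℚ_[ℓ]) (algebraMap ℚ ℂ)
  let _ : Algebra ℚ_[ℓ] ℂ := j.toAlgebra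
  obtain ⟨L, hL, hLie, hAd, hlog⟩ := h.lie ℚ_[ℓ] (∀ i, Fin (n i) → ℚ_[ℓ]) _ (sumRep ρ)
  have h𝔤' : IsMotivic ρ 𝔤 := h𝔤
  have hLG : L ≤ 𝔤 := fun X hX => h𝔤'.algebraic X fun m φ hφ =>
    ((hL X).1 hX).2 m φ (h𝔤'.tate m φ hφ)
  have hρs : ∀ i, Continuous fun g => LinearMap.toMatrix' ((restrictTo ρ s) i g) := fun i =>
    (hρ i).comp hs
  have hAdS : ∀ γ, ∀ X ∈ L, AdE (sumRep (restrictTo ρ s) γ) (sumRep (restrictTo ρ s) γ⁻¹) X ∈ L := by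
    intro γ X hX
    have h1 := hAd (s γ) X hX
    rwa [← map_inv s] at h1
  obtain ⟨Q₀, σ₀, hQ₀, hQ₀v, hσ₀, htor⟩ := det_torsion (restrictTo ρ s) h h2 hρs j L
    (fun X hX => h𝔤'.parts X (hLG hX)) hAdS P T hT3 hT hgood hp₀ hind₀ hv₀
  obtain ⟨g₀, hg₀⟩ : ∃ g₀ : Γ, g₀ = s σ₀⁻¹ := ⟨_, rfl⟩
  obtain ⟨z, hz, hind⟩ := hr
  have hG₀ := hgood p₀ hp₀ v₀ hv₀
  have hz' : ∀ i, End.HasEigenvalue ((sumRep ρ g₀).baseChange ℂ) (z i) := by
    intro i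
    obtain ⟨a, ha⟩ := hz i
    rw [hg₀]
    exact sumRep_eigen ρ (s σ₀⁻¹) (hG₀.frobenius a Q₀ ⟨hQ₀.isPrime, hQ₀v⟩ σ₀ hσ₀) ha
  have hcen := torus_cen (sumRep ρ) h h2.jord h2.cartan hL hLG h𝔤'.bracket h𝔤'.nondeg
    h𝔤'.algebraic hrk g₀ z hz' hind
  have htL := tor_le (sumRep ρ) h hL g₀
  have hgg' : sumRep ρ g₀ * sumRep ρ (s (σ₀⁻¹)⁻¹) = 1 := by
    rw [← map_mul, hg₀, ← map_mul, mul_inv_cancel, map_one, map_one]
  have hg'g : sumRep ρ (s (σ₀⁻¹)⁻¹) * sumRep ρ g₀ = 1 := by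
    rw [← map_mul, hg₀, ← map_mul, inv_mul_cancel, map_one, map_one]
  have hAd₀ : ∀ X ∈ L, AdE (sumRep ρ g₀) (sumRep ρ (s (σ₀⁻¹)⁻¹)) X ∈ L := by
    intro X hX
    have h1 := hAd g₀ X hX
    rw [hg₀] at h1 ⊢
    rwa [← map_inv s] at h1
  have htr := trace_torus h hLie hgg' hg'g htL hAd₀ (by
    obtain ⟨m, hm, h1⟩ := htor
    subst hg₀
    exact ⟨m, hm, h1⟩)
  obtain ⟨hND, hproj⟩ := exists_proj h h2 hLie hLG h𝔤'.bracket h𝔤'.nondeg htL (tor_diag _)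
    (tor_comm _) hcen htr
  obtain ⟨Δ', hΔ', hcomm⟩ := h2.tfr ℓ ι n _ ρ hρ (comm L) (comm_conj (sumRep ρ) hAd)
    (comm_order (sumRep ρ) h h2 hL)
  have hss : FiniteIndexSemisimple (sumRep ρ) := by
    intro Δ hΔ U hU
    obtain ⟨P, hP1, hP2, hP3⟩ := hproj U fun X hX => ((hL X).1 hX).1 U ⟨Δ, hΔ, hU⟩
    exact Pool.Agent.Y41.RM.exists_compl_of_commute (sumRep ρ) Δ Δ' hΔ' U hU P hP2 hP3
      fun s hs => (hcomm s hs P hP1).symm
  have hNDL : NonDeg L := by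
    intro X hX hXY
    have h1 : X.baseChange ℂ = 0 := by
      refine hND _ (mem_bcS hX) fun Y hY => ?_
      induction hY using Submodule.span_induction with
      | mem Y hY =>
        obtain ⟨Z, hZ, rfl⟩ := hY
        rw [← bc_mul, LinearMap.trace_baseChange, hXY Z hZ, map_zero]
      | zero => rw [mul_zero, map_zero]
      | add Y Z _ _ hY hZ => rw [mul_add, map_add, hY, hZ, add_zero]
      | smul c Y _ hY => rw [mul_smul_comm, map_smul, hY, smul_zero]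
    exact bc_inj (h1.trans LinearMap.baseChange_zero.symm)
  have hfull : L = 𝔤 := full_of_central ρ h hLie h𝔤'.bracket h𝔤'.nondeg hNDL hLG g₀ htL hcen
    (central_comm ρ (fun X hX => ((hL X).1 hX).2) h𝔤'.parts hΔ' (fun s hs Q hQ => hcomm s hs Q hQ)
      hend)
  refine ⟨hss, fun m φ => ⟨fun hφ X hX => ?_, h𝔤'.tate m φ⟩⟩
  exact ((hL X).1 (hfull ▸ hX)).2 m φ hφ

/-- the converse -/
theorem cent_of_tate (ρ : Reps Γ n ℓ) (𝔤 : EndSpace n ℓ) (h : TateTensorsOf ρ 𝔤) :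
    CentTate ρ 𝔤 := by
  rintro i z ⟨Δ, hΔ, hz⟩ - X hX x
  have h1 := tate_comm (sumRep ρ) (X := X) (fun m φ hφ => (h m φ).1 hφ X hX) hΔ
    fun s hs => ext_comm ρ (hz s hs)
  have h2 := congrFun (LinearMap.congr_fun h1 (Pi.single i x)) i
  rw [Module.End.mul_apply, Module.End.mul_apply, ext_apply, ext_apply, Pi.single_eq_same,
    Pi.single_eq_same] at h2
  exact h2

end fg

end Pool.Agent.Q65.KL
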