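import Pool.Agent.Q65.LOC
import Pool.Agent.Y114.RM.Final

/-!
# Direct sums of representations which are separated by group elements
-/

set_option autoImplicit false
set_option linter.unusedSectionVars false
set_option linter.unusedVariables false

namespace Pool.Agent.Q65.KL

open Module Polynomial Pool.Agent.TH118.SG
  Pool.Agent.Y114.MU Pool.Agent.Y114.TF Pool.Agent.H204R3.GP Pool.Agent.Y114.RM

section alg

variable {k : Type} [Field k] [CharZero k] {ι : Type} [Fintype ι] [DecidableEq ι] {V : ι → Type}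
  [∀ i, AddCommGroup (V i)] [∀ i, Module k (V i)] [∀ i, FiniteDimensional k (V i)]
  {Γ : Type} [Group Γ] (ρ : ∀ i, Representation k Γ (V i))

/-- The projection to the `i`-th summand. -/
def pr (k : Type) [Field k] {ι : Type} [DecidableEq ι] (V : ι → Type)
    [∀ i, AddCommGroup (V i)] [∀ i, Module k (V i)] (i : ι) : End k (∀ i, V i) :=
  LinearMap.single k V i ∘ₗ LinearMap.proj i

theorem pr_apply (i : ι) (x : ∀ i, V i) : pr k V i x = Pi.single i (x i) := rfl

theorem aeval_sumRep (γ : Γ) (p : k[X]) (x : ∀ i, V i) (i : ι) :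
    aeval (sumRep ρ γ) p x i = aeval (ρ i γ) p (x i) := by
  induction p using Polynomial.induction_on' with
  | add p q hp hq =>
    rw [map_add, map_add, LinearMap.add_apply, LinearMap.add_apply, Pi.add_apply, hp, hq]
  | monomial n c =>
    have h1 : ∀ (m : ℕ) (y : ∀ i, V i), (sumRep ρ γ ^ m) y i = (ρ i γ ^ m) (y i) := by
      intro m
      induction m with
      | zero => intro y; rfl
      | succ m ih =>
        intro y
        rw [pow_succ, pow_succ, Module.End.mul_apply, Module.End.mul_apply, ih]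
        rfl
    rw [aeval_monomial, aeval_monomial, Module.End.mul_apply, Module.End.mul_apply,
      Module.algebraMap_end_apply, Module.algebraMap_end_apply, Pi.smul_apply, h1]

/-- `γ` separates two representations: all powers have disjoint sets of eigenvalues. -/
def Separates (γ : Γ) (i j : ι) : Prop :=
  ∀ m : ℕ, 0 < m → IsCoprime (ρ i (γ ^ m)).charpoly (ρ j (γ ^ m)).charpoly

/-- the algebra generated by a subgroup -/
def algOf (Δ : Subgroup Γ) : Subalgebra k (End k (∀ i, V i)) :=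
  Algebra.adjoin k {X | ∃ s ∈ Δ, X = sumRep ρ s}

theorem algOf_block {Δ : Subgroup Γ} {a : End k (∀ i, V i)} (ha : a ∈ algOf ρ Δ) (i : ι)
    (x : ∀ i, V i) : a x i = a (Pi.single i (x i)) i := by
  unfold algOf at ha
  induction ha using Algebra.adjoin_induction generalizing x with
  | mem a ha =>
    obtain ⟨s, -, rfl⟩ := ha
    rw [sumRep_single, Pi.single_eq_same]
    rfl
  | algebraMap c =>
    rw [Module.algebraMap_end_apply, Module.algebraMap_end_apply, Pi.smul_apply, Pi.smul_apply,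
      Pi.single_eq_same]
  | add a b _ _ ha hb =>
    rw [LinearMap.add_apply, LinearMap.add_apply, Pi.add_apply, Pi.add_apply, ha, hb]
  | mul a b _ _ ha hb =>
    rw [Module.End.mul_apply, Module.End.mul_apply, ha, hb, ← ha]

/-- the projections are in the algebra generated by every subgroup of finite index -/
theorem pr_mem (hsep : ∀ i j, i ≠ j → ∃ γ, Separates ρ γ i j) {Δ : Subgroup Γ}
    (hΔ : Δ.FiniteIndex) (i : ι) : pr k V i ∈ algOf ρ Δ := by
  have key : ∀ T : Finset ι, i ∉ T → ∃ a ∈ algOf ρ Δ, (∀ x : ∀ i, V i, a x i = x i) ∧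
      ∀ j ∈ T, ∀ x : ∀ i, V i, a x j = 0 := by
    intro T
    induction T using Finset.induction_on with
    | empty => exact fun _ => ⟨1, Subalgebra.one_mem _, fun x => rfl, fun j hj => absurd hj
        (Finset.notMem_empty j)⟩
    | insert j T hj ih =>
      intro hi
      rw [Finset.mem_insert, not_or] at hi
      obtain ⟨a, ha, ha1, ha2⟩ := ih hi.2
      obtain ⟨γ, hγ⟩ := hsep i j hi.1
      obtain ⟨m, hm0, -, hm⟩ := Subgroup.exists_pow_mem_of_index_ne_zero hΔ.index_ne_zero γ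
      obtain ⟨p, q, hpq⟩ := hγ m hm0
      obtain ⟨f, hf⟩ : ∃ f, f = aeval (sumRep ρ (γ ^ m)) (q * (ρ j (γ ^ m)).charpoly) := ⟨_, rfl⟩
      have hfi : ∀ x : ∀ i, V i, f x i = x i := by
        intro x
        have h1 : q * (ρ j (γ ^ m)).charpoly = 1 - p * (ρ i (γ ^ m)).charpoly := by
          rw [← hpq]; ring
        rw [hf, aeval_sumRep, h1, map_sub, map_mul, LinearMap.aeval_self_charpoly, mul_zero,
          map_one, sub_zero, Module.End.one_apply]
      have hfj : ∀ x : ∀ i, V i, f x j = 0 := by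
        intro x
        rw [hf, aeval_sumRep, map_mul, LinearMap.aeval_self_charpoly, mul_zero,
          LinearMap.zero_apply]
      have hfm : f ∈ algOf ρ Δ := by
        have h1 : sumRep ρ (γ ^ m) ∈ algOf ρ Δ := Algebra.subset_adjoin ⟨_, hm, rfl⟩
        rw [hf]
        have h2 := Polynomial.aeval_mem_adjoin_singleton k (sumRep ρ (γ ^ m))
          (p := q * (ρ j (γ ^ m)).charpoly)
        refine Algebra.adjoin_mono ?_ h2
        rintro _ rfl
        exact ⟨_, hm, rfl⟩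
      refine ⟨f * a, Subalgebra.mul_mem _ hfm ha, fun x => ?_, fun l hl x => ?_⟩
      · rw [Module.End.mul_apply, hfi, ha1]
      · rw [Module.End.mul_apply]
        rcases Finset.mem_insert.1 hl with rfl | hl
        · exact hfj _
        · rw [algOf_block ρ hfm l, ha2 l hl, Pi.single_zero, map_zero, Pi.zero_apply]
  obtain ⟨a, ha, ha1, ha2⟩ := key (Finset.univ.erase i) (Finset.notMem_erase i _)
  have h1 : pr k V i = a := by
    refine LinearMap.ext fun x => funext fun j => ?_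
    rw [pr_apply]
    by_cases hj : j = i
    · subst hj
      rw [Pi.single_eq_same, ha1]
    · rw [Pi.single_eq_of_ne hj, ha2 j (Finset.mem_erase.2 ⟨hj, Finset.mem_univ j⟩)]
  rw [h1]
  exact ha

theorem algOf_stable {Δ : Subgroup Γ} {W : Submodule k (∀ i, V i)}
    (hW : ∀ s ∈ Δ, ∀ x ∈ W, sumRep ρ s x ∈ W) {a : End k (∀ i, V i)} (ha : a ∈ algOf ρ Δ) :
    ∀ x ∈ W, a x ∈ W := by
  unfold algOf at ha
  induction ha using Algebra.adjoin_induction with
  | mem a ha =>
    obtain ⟨s, hs, rfl⟩ := ha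
    exact hW s hs
  | algebraMap c => exact fun x hx => W.smul_mem c hx
  | add a b _ _ ha hb => exact fun x hx => W.add_mem (ha x hx) (hb x hx)
  | mul a b _ _ ha hb => exact fun x hx => ha _ (hb x hx)

theorem algOf_comm {Δ : Subgroup Γ} {Q : End k (∀ i, V i)}
    (hQ : ∀ s ∈ Δ, Q * sumRep ρ s = sumRep ρ s * Q) {a : End k (∀ i, V i)}
    (ha : a ∈ algOf ρ Δ) : Q * a = a * Q := by
  unfold algOf at ha
  induction ha using Algebra.adjoin_induction with
  | mem a ha =>
    obtain ⟨s, hs, rfl⟩ := ha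
    exact hQ s hs
  | algebraMap c => exact (Algebra.commutes c Q).symm
  | add a b _ _ ha hb => rw [mul_add, add_mul, ha, hb]
  | mul a b _ _ ha hb => rw [← mul_assoc, ha, mul_assoc, hb, mul_assoc]

end alg

section top

variable {Γ : Type} [Group Γ] [TopologicalSpace Γ] [IsTopologicalGroup Γ] [CompactSpace Γ]
  {ι : Type} [Fintype ι] [DecidableEq ι] {n : ι → ℕ} {ℓ : ℕ} [hℓ : Fact ℓ.Prime]

/-- The endomorphisms of open subgroups are in `𝒞`, and the open subgroups act semisimply. -/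
def GoodOne {m : ℕ} (ρ : Representation ℚ_[ℓ] Γ (Fin m → ℚ_[ℓ]))
    (𝒞 : Set (End ℚ_[ℓ] (Fin m → ℚ_[ℓ]))) : Prop :=
  ∀ U : Subgroup Γ, IsOpen (U : Set Γ) →
    (∀ X, (∀ τ ∈ U, X * ρ τ = ρ τ * X) → X ∈ 𝒞) ∧
    ∀ W : Submodule ℚ_[ℓ] (Fin m → ℚ_[ℓ]), (∀ σ ∈ U, ∀ w ∈ W, ρ σ w ∈ W) →
    ∃ W' : Submodule ℚ_[ℓ] (Fin m → ℚ_[ℓ]), (∀ σ ∈ U, ∀ w ∈ W', ρ σ w ∈ W') ∧ IsCompl W W'

theorem isOpen_comm {m : ℕ} (ρ : Representation ℚ_[ℓ] Γ (Fin m → ℚ_[ℓ]))
    (hρ : Continuous fun g => LinearMap.toMatrix' (ρ g)) {Δ : Subgroup Γ} (hΔ : Δ.FiniteIndex)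
    (X : End ℚ_[ℓ] (Fin m → ℚ_[ℓ])) (hX : ∀ s ∈ Δ, X * ρ s = ρ s * X) :
    ∃ U : Subgroup Γ, IsOpen (U : Set Γ) ∧ ∀ s ∈ U, X * ρ s = ρ s * X := by
  let U : Subgroup Γ :=
    { carrier := {s | X * ρ s = ρ s * X}
      mul_mem' := by
        intro a b ha hb
        change X * ρ (a * b) = ρ (a * b) * X
        rw [map_mul, ← mul_assoc, ha, mul_assoc, hb, mul_assoc]
      one_mem' := by
        change X * ρ 1 = ρ 1 * X
        rw [map_one, mul_one, one_mul]
      inv_mem' := by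
        intro a ha
        change X * ρ a⁻¹ = ρ a⁻¹ * X
        have h1 : ρ a * ρ a⁻¹ = 1 := by rw [← map_mul, mul_inv_cancel, map_one]
        have h2 : ρ a⁻¹ * ρ a = 1 := by rw [← map_mul, inv_mul_cancel, map_one]
        have h3 : X * ρ a = ρ a * X := ha
        calc X * ρ a⁻¹ = ρ a⁻¹ * (ρ a * X) * ρ a⁻¹ := by
              rw [← mul_assoc, h2, one_mul]
          _ = ρ a⁻¹ * X := by rw [← h3, mul_assoc, mul_assoc, h1, mul_one] }
  have hle : Δ ≤ U := fun s hs => hX s hs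
  have hfi : U.FiniteIndex := Subgroup.finiteIndex_of_le hle
  have hcl : IsClosed (U : Set Γ) := by
    have h1 : (U : Set Γ) = {s | LinearMap.toMatrix' X * LinearMap.toMatrix' (ρ s) =
        LinearMap.toMatrix' (ρ s) * LinearMap.toMatrix' X} := by
      ext s
      change X * ρ s = ρ s * X ↔ _
      rw [Set.mem_ofPred_eq, ← LinearMap.toMatrix'_mul, ← LinearMap.toMatrix'_mul]
      exact (LinearMap.toMatrix'.injective.eq_iff).symm
    rw [h1]
    exact isClosed_eq (continuous_const.mul hρ) (hρ.mul continuous_const)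
  exact ⟨U, U.isOpen_of_isClosed_of_finiteIndex hcl, fun s hs => hs⟩

/-- Semisimplicity of the direct sum. -/
theorem semi_fam (ρ : ∀ i, Representation ℚ_[ℓ] Γ (Fin (n i) → ℚ_[ℓ]))
    (hsep : ∀ i j, i ≠ j → ∃ γ, Separates ρ γ i j)
    (𝒞 : ∀ i, Set (End ℚ_[ℓ] (Fin (n i) → ℚ_[ℓ]))) (hgood : ∀ i, GoodOne (ρ i) (𝒞 i)) :
    SemisimpleRep ρ := by
  intro W hW
  have hpr : ∀ i, ∀ x ∈ W, Pi.single i (x i) ∈ W := by
    intro i x hx
    exact algOf_stable ρ (Δ := ⊤) (fun s _ => hW s) (pr_mem ρ hsep inferInstance i) x hx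
  have hWi : ∀ i, ∃ W' : Submodule ℚ_[ℓ] (Fin (n i) → ℚ_[ℓ]),
      (∀ σ, ∀ w ∈ W', ρ i σ w ∈ W') ∧
        IsCompl (W.comap (LinearMap.single ℚ_[ℓ] (fun i => Fin (n i) → ℚ_[ℓ]) i)) W' := by
    intro i
    obtain ⟨W', h1, h2⟩ := (hgood i ⊤ isOpen_univ).2
      (W.comap (LinearMap.single ℚ_[ℓ] (fun i => Fin (n i) → ℚ_[ℓ]) i)) (by
      intro σ _ w hw
      have h3 := hW σ _ hw
      have h4 : sumRep ρ σ (LinearMap.single ℚ_[ℓ] (fun i => Fin (n i) → ℚ_[ℓ]) i w) =
        LinearMap.single ℚ_[ℓ] (fun i => Fin (n i) → ℚ_[ℓ]) i (ρ i σ w) := sumRep_single ρ σ i w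
      rw [h4] at h3
      exact h3)
    exact ⟨W', fun σ => h1 σ trivial, h2⟩
  choose W' hW'1 hW'2 using hWi
  refine ⟨Submodule.pi Set.univ W', fun γ x hx i _ => hW'1 i γ _ (hx i trivial), ?_⟩
  have hsum : ∀ x : ∀ i, Fin (n i) → ℚ_[ℓ], x = ∑ i, Pi.single i (x i) := fun x =>
    (Finset.univ_sum_single x).symm
  rw [isCompl_iff, Submodule.disjoint_def, codisjoint_iff, eq_top_iff]
  refine ⟨fun x hx hx' => ?_, fun x _ => ?_⟩
  · funext i
    exact Submodule.disjoint_def.1 (hW'2 i).disjoint (x i) (hpr i x hx) (hx' i trivial)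
  · have h1 : ∀ i, ∃ a ∈ W.comap (LinearMap.single ℚ_[ℓ] (fun i => Fin (n i) → ℚ_[ℓ]) i),
        ∃ b ∈ W' i, a + b = x i := by
      intro i
      have h2 : x i ∈ W.comap (LinearMap.single ℚ_[ℓ] (fun i => Fin (n i) → ℚ_[ℓ]) i) ⊔ W' i := by
        rw [(hW'2 i).sup_eq_top]
        trivial
      exact Submodule.mem_sup.1 h2
    choose a ha b hb hab using h1
    refine Submodule.mem_sup.2 ⟨a, ?_, b, fun i _ => hb i, funext hab⟩
    rw [hsum a]
    exact Submodule.sum_mem _ fun i _ => ha i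

/-- Endomorphisms of the direct sum. -/
theorem end_fam (ρ : ∀ i, Representation ℚ_[ℓ] Γ (Fin (n i) → ℚ_[ℓ]))
    (hρ : ∀ i, Continuous fun g => LinearMap.toMatrix' (ρ i g))
    (hsep : ∀ i j, i ≠ j → ∃ γ, Separates ρ γ i j)
    (𝒞 : ∀ i, Set (End ℚ_[ℓ] (Fin (n i) → ℚ_[ℓ]))) (hgood : ∀ i, GoodOne (ρ i) (𝒞 i))
    (𝔤 : Submodule ℚ_[ℓ] (End ℚ_[ℓ] (∀ i, Fin (n i) → ℚ_[ℓ])))
    (hparts : ∀ X ∈ 𝔤, ∀ x i, X x i = X (Pi.single i (x i)) i)
    (hC : ∀ i, ∀ c ∈ 𝒞 i, ∀ X ∈ 𝔤, blk i X * c = c * blk i X) : EndTate ρ 𝔤 := by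
  intro Q Δ hΔ hQ X hX
  have hQe : ∀ i, Q * pr ℚ_[ℓ] _ i = pr ℚ_[ℓ] _ i * Q := fun i =>
    algOf_comm ρ hQ (pr_mem ρ hsep hΔ i)
  have hQx : ∀ x i, Q x i = Q (Pi.single i (x i)) i := by
    intro x i
    have h1 := LinearMap.congr_fun (hQe i) x
    rw [Module.End.mul_apply, Module.End.mul_apply, pr_apply, pr_apply] at h1
    rw [h1, Pi.single_eq_same]
  have hblk : ∀ i, blk i Q ∈ 𝒞 i := by
    intro i
    have h1 : ∀ s ∈ Δ, blk i Q * ρ i s = ρ i s * blk i Q := by
      intro s hs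
      refine LinearMap.ext fun x => ?_
      rw [Module.End.mul_apply, Module.End.mul_apply, blk_apply, blk_apply]
      have h2 := congrFun (LinearMap.congr_fun (hQ s hs) (Pi.single i x)) i
      rw [Module.End.mul_apply, Module.End.mul_apply, sumRep_single] at h2
      exact h2
    obtain ⟨U, hU, h2⟩ := isOpen_comm (ρ i) (hρ i) hΔ (blk i Q) h1
    exact (hgood i U hU).1 _ h2
  refine LinearMap.ext fun x => funext fun i => ?_
  have h1 := LinearMap.congr_fun (hC i _ (hblk i) X hX) (x i)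
  rw [Module.End.mul_apply, Module.End.mul_apply, blk_apply, blk_apply, blk_apply,
    blk_apply] at h1
  rw [Module.End.mul_apply, Module.End.mul_apply, hparts X hX (Q x), hQx x, hQx (X x),
    hparts X hX x]
  exact h1

end top

end Pool.Agent.Q65.KL
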