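import Pool.Agent.Q65.SI
import Pool.Agent.Q65.FAM

/-!
# All tensors at 100 percent of the primes
-/

set_option autoImplicit false
set_option linter.unusedSectionVars false
set_option linter.unusedVariables false

namespace Pool.Agent.Q65.KL

open Polynomial Filter Topology NumberField IsDedekindDomain Module
open Pool.Agent.Y114.MU Pool.Agent.Y114.TF Pool.Agent.H204R3.GP Pool.Agent.Y114.RM
open Pool.Agent.TH118.SG Pool.Agent.Y115.R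
open Pool.Agent

section conv

variable {Γ : Type} [Group Γ] [TopologicalSpace Γ] [IsTopologicalGroup Γ] [CompactSpace Γ]
  {ℓ : ℕ} [hℓ : Fact ℓ.Prime] {m : ℕ}

/-- the matrices of a representation -/
noncomputable def matR (ρ : Representation ℚ_[ℓ] Γ (Fin m → ℚ_[ℓ])) :
    Γ →* Matrix (Fin m) (Fin m) ℚ_[ℓ] where
  toFun γ := LinearMap.toMatrix' (ρ γ)
  map_one' := by rw [map_one]; exact LinearMap.toMatrix'_one
  map_mul' a b := by rw [map_mul]; exact LinearMap.toMatrix'_mul _ _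

theorem matR_apply (ρ : Representation ℚ_[ℓ] Γ (Fin m → ℚ_[ℓ])) (γ : Γ) :
    matR ρ γ = LinearMap.toMatrix' (ρ γ) := rfl

/-- the matrices of an action of a ring -/
noncomputable def matE {E : Type} [Ring E] (ε : E →+* End ℚ_[ℓ] (Fin m → ℚ_[ℓ])) :
    E →+* Matrix (Fin m) (Fin m) ℚ_[ℓ] where
  toFun a := LinearMap.toMatrix' (ε a)
  map_one' := by rw [map_one]; exact LinearMap.toMatrix'_one
  map_mul' a b := by rw [map_mul]; exact LinearMap.toMatrix'_mul _ _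
  map_zero' := by rw [map_zero, map_zero]
  map_add' a b := by rw [map_add, map_add]

theorem matE_apply {E : Type} [Ring E] (ε : E →+* End ℚ_[ℓ] (Fin m → ℚ_[ℓ])) (a : E) :
    matE ε a = LinearMap.toMatrix' (ε a) := rfl

theorem charpoly_toMatrix' (A : End ℚ_[ℓ] (Fin m → ℚ_[ℓ])) :
    (LinearMap.toMatrix' A).charpoly = A.charpoly := by
  rw [← LinearMap.toMatrix_eq_toMatrix']
  exact LinearMap.charpoly_toMatrix A (Pi.basisFun ℚ_[ℓ] (Fin m))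

theorem trace_toMatrix' (A : End ℚ_[ℓ] (Fin m → ℚ_[ℓ])) :
    (LinearMap.toMatrix' A).trace = LinearMap.trace ℚ_[ℓ] _ A := by
  rw [← LinearMap.toMatrix_eq_toMatrix']
  exact (LinearMap.trace_eq_matrix_trace ℚ_[ℓ] (Pi.basisFun ℚ_[ℓ] (Fin m)) A).symm

theorem goodOne_of {E : IntermediateField ℚ (AlgebraicClosure ℚ)}
    (ρ : Representation ℚ_[ℓ] Γ (Fin m → ℚ_[ℓ])) (ε : E →+* End ℚ_[ℓ] (Fin m → ℚ_[ℓ]))
    (h : Y142.SI.GoodEnd ℓ E (matR ρ) (matE ε)) :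
    GoodOne ρ (Submodule.span ℚ_[ℓ] (Set.range ε) : Set (End ℚ_[ℓ] (Fin m → ℚ_[ℓ]))) := by
  have hmv : ∀ σ w, Matrix.mulVec (matR ρ σ) w = ρ σ w := fun σ w => by
    rw [matR_apply, LinearMap.toMatrix'_mulVec]
  intro U hU
  obtain ⟨h1, h2⟩ := h U hU
  refine ⟨fun X hX => ?_, fun W hW => ?_⟩
  · have h3 := h1 (LinearMap.toMatrix' X) fun τ hτ => by
      rw [matR_apply, ← LinearMap.toMatrix'_mul, ← LinearMap.toMatrix'_mul]
      exact congrArg _ (hX τ hτ)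
    have h4 : Set.range (matE ε) = LinearMap.toMatrix' '' Set.range ε := by
      rw [← Set.range_comp]
      rfl
    rw [h4] at h3
    have h5 : LinearMap.toMatrix' X ∈ (Submodule.span ℚ_[ℓ] (Set.range ε)).map
        (LinearMap.toMatrix' : End ℚ_[ℓ] (Fin m → ℚ_[ℓ]) ≃ₗ[ℚ_[ℓ]] _).toLinearMap := by
      rw [Submodule.map_span]
      exact h3
    obtain ⟨Y, hY, hXY⟩ := h5
    have h6 : Y = X := LinearMap.toMatrix'.injective hXY
    rw [← h6]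
    exact hY
  · obtain ⟨W', h3, h4⟩ := h2 W fun σ hσ w hw => by
      rw [hmv]
      exact hW σ hσ w hw
    exact ⟨W', fun σ hσ w hw => by rw [← hmv]; exact h3 σ hσ w hw, h4⟩

end conv

section sep

/-- roots of the characteristic polynomial of a power -/
theorem root_pow {V : Type} [AddCommGroup V] [Module ℂ V] [FiniteDimensional ℂ V] (A : End ℂ V)
    {m : ℕ} (hm : 0 < m) {a : ℂ} (ha : (A ^ m).charpoly.IsRoot a) :
    ∃ b : ℂ, A.charpoly.IsRoot b ∧ b ^ m = a := by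
  rw [← Module.End.hasEigenvalue_iff_isRoot_charpoly, Module.End.hasEigenvalue_iff_mem_spectrum,
    spectrum.map_pow_of_pos A hm] at ha
  obtain ⟨b, hb, hba⟩ := ha
  refine ⟨b, ?_, hba⟩
  rw [← Module.End.hasEigenvalue_iff_isRoot_charpoly, Module.End.hasEigenvalue_iff_mem_spectrum]
  exact hb

variable {Γ : Type} [Group Γ] {ι : Type} [Fintype ι] [DecidableEq ι] {n : ι → ℕ} {ℓ : ℕ}
  [hℓ : Fact ℓ.Prime]

theorem separates_of (ρ : ∀ i, Representation ℚ_[ℓ] Γ (Fin (n i) → ℚ_[ℓ])) (γ : Γ) {i j : ι}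
    {P Q : ℚ[X]} (hP : (ρ i γ).charpoly = P.map (algebraMap ℚ ℚ_[ℓ]))
    (hQ : (ρ j γ).charpoly = Q.map (algebraMap ℚ ℚ_[ℓ]))
    (hPQ : ∀ m : ℕ, 0 < m → ∀ x y : ℂ, aeval x P = 0 → aeval y Q = 0 → x ^ m ≠ y ^ m) :
    Separates ρ γ i j := by
  obtain ⟨c, hc⟩ := exists_j ℓ ℚ_[ℓ] ℚ (algebraMap ℚ ℚ_[ℓ]) (algebraMap ℚ ℂ)
  let _ : Algebra ℚ_[ℓ] ℂ := c.toAlgebra
  have key : ∀ (i : ι) (P : ℚ[X]), (ρ i γ).charpoly = P.map (algebraMap ℚ ℚ_[ℓ]) →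
      ∀ m : ℕ, 0 < m → ∀ a : ℂ, aeval a (ρ i (γ ^ m)).charpoly = 0 →
        ∃ b : ℂ, aeval b P = 0 ∧ b ^ m = a := by
    intro i P hP m hm a ha
    have h1 : (((ρ i γ).baseChange ℂ) ^ m).charpoly.IsRoot a := by
      have h2 : ((ρ i γ).baseChange ℂ) ^ m = (ρ i (γ ^ m)).baseChange ℂ := by
        rw [map_pow]
        exact (map_pow (Module.End.baseChangeHom ℚ_[ℓ] ℂ (Fin (n i) → ℚ_[ℓ])) (ρ i γ) m).symm
      rw [h2, LinearMap.charpoly_baseChange, IsRoot.def, eval_map_algebraMap]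
      exact ha
    obtain ⟨b, hb, hba⟩ := root_pow _ hm h1
    refine ⟨b, ?_, hba⟩
    rw [LinearMap.charpoly_baseChange, hP, Polynomial.map_map, IsRoot.def, eval_map] at hb
    rw [aeval_def, ← hb]
    congr 1
    exact Subsingleton.elim _ _
  intro m hm
  rw [Polynomial.isCoprime_iff_aeval_ne_zero_of_isAlgClosed (k := ℚ_[ℓ]) (K := ℂ)]
  intro a
  by_contra hcon
  rw [not_or, not_not, not_not] at hcon
  obtain ⟨x, hx, hxa⟩ := key i P hP m hm a hcon.1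
  obtain ⟨y, hy, hya⟩ := key j Q hQ m hm a hcon.2
  exact hPQ m hm x y hx hy (hxa.trans hya.symm)

end sep

section dens

theorem densityZero_le (b : ℕ) : Y142.ZI.DensityZero {ℓ : ℕ | ℓ ≤ b} := by
  have h1 : Tendsto (fun n : ℕ => ((b + 1 : ℕ) : ℝ) / (Nat.primeCounting n : ℝ)) atTop (𝓝 0) := by
    refine Tendsto.div_atTop tendsto_const_nhds ?_
    exact tendsto_natCast_atTop_atTop.comp Nat.tendsto_primeCounting
  refine squeeze_zero (fun n => by positivity) (fun n => ?_) h1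
  apply div_le_div_of_nonneg_right _ (Nat.cast_nonneg _)
  have h2 : Nat.card {ℓ : ℕ // ℓ ≤ n ∧ ℓ ∈ {ℓ : ℕ | ℓ ≤ b}} ≤ Nat.card (Fin (b + 1)) :=
    Nat.card_le_card_of_injective (fun x => (⟨x.1, Nat.lt_succ_of_le x.2.2⟩ : Fin (b + 1)))
      (fun x y h => by
        apply Subtype.ext
        exact congrArg (fun z : Fin (b + 1) => z.1) h)
  rw [Nat.card_fin] at h2
  exact_mod_cast h2

theorem densityZero_iUnion {ι : Type} [Fintype ι] [DecidableEq ι] {A : ι → Set ℕ}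
    (h : ∀ i, Y142.ZI.DensityZero (A i)) : Y142.ZI.DensityZero (⋃ i, A i) := by
  have key : ∀ T : Finset ι, Y142.ZI.DensityZero (⋃ i ∈ T, A i) := by
    intro T
    induction T using Finset.induction_on with
    | empty =>
      refine (densityZero_le 0).mono fun ℓ hℓ => ?_
      simp at hℓ
    | insert i T _ ih =>
      refine ((h i).union ih).mono fun ℓ hℓ => ?_
      rw [Finset.set_biUnion_insert] at hℓ
      exact hℓ
  refine (key Finset.univ).mono fun ℓ hℓ => ?_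
  simpa using hℓ

end dens

/-- **All tensors at 100 percent of the primes.** -/
theorem density_main (h : Inputs) (h2 : Inputs2)
    {K : Type} [Field K] [NumberField K] {Γ : Type} [Group Γ] [TopologicalSpace Γ]
    [IsTopologicalGroup Γ] [CompactSpace Γ] (s : AGal K →* Γ) (hs : Continuous s)
    {ι : Type} [Fintype ι] [DecidableEq ι] (N : ι → ℕ)
    (S : Set (HeightOneSpectrum (𝓞 K))) (hS : S.Finite)
    (P : ι → HeightOneSpectrum (𝓞 K) → ℚ[X])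
    (ρ : ∀ (ℓ : ℕ) [Fact ℓ.Prime], Reps Γ N ℓ) (hρ : ∀ (ℓ : ℕ) [Fact ℓ.Prime], Conts (ρ ℓ))
    (hP : ∀ (ℓ : ℕ) [Fact ℓ.Prime] (i : ι), ∀ v ∉ S, (ℓ : 𝓞 K) ∉ v.asIdeal →
      ∀ σ : AGal K, Y142.ZO.IsFrobenius v σ → HasPoly (ρ ℓ) i (s σ⁻¹) (P i v))
    (E : ι → IntermediateField ℚ (AlgebraicClosure ℚ)) [∀ i, FiniteDimensional ℚ (E i)]
    [∀ i, Normal ℚ (E i)] (n : ι → ℕ) (hn : ∀ i, 0 < n i)
    (hN : ∀ i, N i = n i * Module.finrank ℚ (E i))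
    (ε : ∀ (ℓ : ℕ) [Fact ℓ.Prime] (i : ι), E i →+* End ℚ_[ℓ] (Fin (N i) → ℚ_[ℓ]))
    (hε : ∀ (ℓ : ℕ) [Fact ℓ.Prime] (i : ι) (a : E i) (γ : Γ),
      ε ℓ i a * ρ ℓ i γ = ρ ℓ i γ * ε ℓ i a)
    (htr : ∀ (ℓ : ℕ) [Fact ℓ.Prime] (i : ι) (a : E i),
      LinearMap.trace ℚ_[ℓ] _ (ε ℓ i a) = (n i : ℚ_[ℓ]) * ((Algebra.trace ℚ (E i) a : ℚ) : ℚ_[ℓ]))
    (hM : ∀ i, ManyPlaces S (P i) (E i) (n i) (N i))
    (hsep : ∀ i j, i ≠ j → ∃ v ∉ S, ∀ m : ℕ, 0 < m → ∀ x y : ℂ, aeval x (P i v) = 0 →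
      aeval y (P j v) = 0 → x ^ m ≠ y ^ m)
    (𝔤 : ∀ (ℓ : ℕ) [Fact ℓ.Prime], EndSpace N ℓ)
    (h𝔤 : ∀ (ℓ : ℕ) [Fact ℓ.Prime], Motivic (ρ ℓ) (𝔤 ℓ))
    (hε𝔤 : ∀ (ℓ : ℕ) [Fact ℓ.Prime] (i : ι) (a : E i),
      ∀ X ∈ (show Submodule ℚ_[ℓ] (End ℚ_[ℓ] (∀ i, Fin (N i) → ℚ_[ℓ])) from 𝔤 ℓ),
        blk i X * ε ℓ i a = ε ℓ i a * blk i X)
    (v₀ : HeightOneSpectrum (𝓞 K)) (hv₀ : v₀ ∉ S) (r : ℕ)
    (hr : IndependentRoots r (fun i => P i v₀))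
    (hrk : ∀ (ℓ : ℕ) [Fact ℓ.Prime], RankLE (𝔤 ℓ) r) :
    Y142.ZI.DensityZero {ℓ | ∃ _ : Fact ℓ.Prime,
      ¬ (Semisimple (ρ ℓ) ∧ TateTensorsOf (ρ ℓ) (𝔤 ℓ))} := by
  classical
  choose v hv hvsep using hsep
  obtain ⟨b, hb⟩ : ∃ b : ℕ, Ideal.absNorm v₀.asIdeal ≤ b ∧
      ∀ i j (hij : i ≠ j), Ideal.absNorm (v i j hij).asIdeal ≤ b := by
    refine ⟨Ideal.absNorm v₀.asIdeal + ∑ i, ∑ j, if hij : i ≠ j then
      Ideal.absNorm (v i j hij).asIdeal else 0, by omega, fun i j hij => ?_⟩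
    have h1 : (if hij : i ≠ j then Ideal.absNorm (v i j hij).asIdeal else 0) ≤
        ∑ j, if hij : i ≠ j then Ideal.absNorm (v i j hij).asIdeal else 0 :=
      Finset.single_le_sum (f := fun j => if hij : i ≠ j then Ideal.absNorm (v i j hij).asIdeal
        else 0) (fun _ _ => Nat.zero_le _) (Finset.mem_univ j)
    have h2 : (∑ j, if hij : i ≠ j then Ideal.absNorm (v i j hij).asIdeal else 0) ≤
        ∑ i, ∑ j, if hij : i ≠ j then Ideal.absNorm (v i j hij).asIdeal else 0 :=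
      Finset.single_le_sum (f := fun i => ∑ j, if hij : i ≠ j then
        Ideal.absNorm (v i j hij).asIdeal else 0) (fun _ _ => Nat.zero_le _) (Finset.mem_univ i)
    rw [dif_pos hij] at h1
    omega
  have hgs : ∀ i (ℓ : ℕ) [Fact ℓ.Prime],
      Y142.SI.GenSys K s (N i) ℓ (matR (ρ ℓ i)) S (P i) := fun i ℓ _ =>
    ⟨hρ ℓ i, fun v hv hvℓ σ hσ => by
      rw [matR_apply, charpoly_toMatrix']
      exact hP ℓ i v hv hvℓ σ hσ⟩
  have hdens : ∀ i, Y142.ZI.DensityZero {ℓ | ∃ _ : Fact ℓ.Prime,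
      ¬ Y142.SI.GoodEnd ℓ (E i) (matR (ρ ℓ i)) (matE (ε ℓ i))} := fun i =>
    densitySI1 s hs hS (fun ℓ _ => matR (ρ ℓ i)) (fun ℓ _ => hgs i ℓ) (E i) (n i) (hn i) (hN i)
      (fun ℓ _ => matE (ε ℓ i))
      (fun ℓ _ a γ => by
        rw [matE_apply, matR_apply, ← LinearMap.toMatrix'_mul, ← LinearMap.toMatrix'_mul]
        exact congrArg _ (hε ℓ i a γ))
      (fun ℓ _ a => by rw [matE_apply, trace_toMatrix']; exact htr ℓ i a) (hM i)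
  refine ((densityZero_iUnion hdens).union (densityZero_le b)).mono ?_
  rintro ℓ ⟨hp, hno⟩
  by_contra hnot
  rw [Set.mem_union, not_or, Set.mem_iUnion, not_exists] at hnot
  obtain ⟨h0, h1⟩ := hnot
  apply hno
  have hbℓ : b < ℓ := not_le.1 h1
  have hgood : ∀ i, GoodOne (ρ ℓ i)
      (Submodule.span ℚ_[ℓ] (Set.range (ε ℓ i)) : Set (End ℚ_[ℓ] (Fin (N i) → ℚ_[ℓ]))) := by
    intro i
    refine goodOne_of (ρ ℓ i) (ε ℓ i) ?_
    by_contra h3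
    exact h0 i ⟨hp, h3⟩
  have hsep' : ∀ i j, i ≠ j → ∃ γ, Separates (ρ ℓ) γ i j := by
    intro i j hij
    obtain ⟨σ, hσ⟩ := Pool.Agent.W401.Frob.exists_frob (v i j hij)
    have hvℓ := Y142.ZO.not_mem_of_lt (v i j hij) hp.out ((hb.2 i j hij).trans_lt hbℓ)
    exact ⟨s σ⁻¹, separates_of (ρ ℓ) _ (hP ℓ i _ (hv i j hij) hvℓ σ hσ)
      (hP ℓ j _ (hv i j hij) hvℓ σ hσ) (hvsep i j hij)⟩
  have h𝔤' : IsMotivic (ρ ℓ) (𝔤 ℓ) := h𝔤 ℓ
  obtain ⟨σ, hσ⟩ := Pool.Agent.W401.Frob.exists_frob v₀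
  have hvℓ := Y142.ZO.not_mem_of_lt v₀ hp.out (hb.1.trans_lt hbℓ)
  obtain ⟨h3, h4⟩ := local_full (ρ ℓ) h h2 (hρ ℓ) h𝔤' (s σ⁻¹) (fun i => P i v₀)
    (fun i => hP ℓ i v₀ hv₀ hvℓ σ hσ) hr (hrk ℓ) (semi_fam (ρ ℓ) hsep' _ hgood)
    (end_fam (ρ ℓ) (hρ ℓ) hsep' _ hgood (𝔤 ℓ) h𝔤'.parts fun i c hc X hX => by
      have hc' : c ∈ Submodule.span ℚ_[ℓ] (Set.range (ε ℓ i)) := hc
      clear hc
      induction hc' using Submodule.span_induction with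
      | mem x hx =>
        obtain ⟨a, rfl⟩ := hx
        exact hε𝔤 ℓ i a X hX
      | zero => rw [mul_zero, zero_mul]
      | add x y _ _ hx hy => rw [mul_add, add_mul, hx, hy]
      | smul c x _ hx => rw [mul_smul_comm, smul_mul_assoc, hx])
  exact ⟨h3, fun m φ => ⟨h4 m φ, h𝔤'.tate m φ⟩⟩

end Pool.Agent.Q65.KL
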