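import Pool.Agent.Q65.KL3

/-!
# Highest weights and central endomorphisms
-/

set_option autoImplicit false
set_option linter.unusedSectionVars false

namespace Pool.Agent.Q65.KL

open Module Polynomial Pool.Agent.Y114.RM Pool.Agent.Y212.RM

variable {K : Type} [Field K] [CharZero K] [IsAlgClosed K] {V : Type} [AddCommGroup V]
  [Module K V] [FiniteDimensional K V]

/-- a nonzero subspace which is stable under a torus contains a weight vector -/
theorem exists_wt_vec {t : Submodule K (End K V)} (hd : ∀ a ∈ t, ⨆ μ, End.eigenspace a μ = ⊤)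
    (hc : ∀ a ∈ t, ∀ b ∈ t, a * b = b * a) {W : Submodule K V} (hW0 : W ≠ ⊥)
    (hW : ∀ a ∈ t, ∀ x ∈ W, a x ∈ W) :
    ∃ v ∈ W, v ≠ 0 ∧ ∃ χ : t → K, ∀ a : t, (a : End K V) v = χ a • v := by
  let f : t → End K W := fun a => (a : End K V).restrict (fun x hx => hW a a.2 x hx)
  have hfc : Pairwise (Function.onFun Commute f) := by
    intro a c _
    refine LinearMap.ext fun x => Subtype.ext ?_
    exact LinearMap.congr_fun (hc a a.2 c c.2) (x : V)
  have hss : ∀ a : t, (f a).IsSemisimple := by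
    intro a
    obtain ⟨p, hp, hpa⟩ := exists_squarefree (hd a a.2)
    have h1 := End.isSemisimple_of_squarefree_aeval_eq_zero hp hpa
    have hp' : W ∈ End.invtSubmodule (a : End K V) := fun x hx => hW a a.2 x hx
    exact h1.restrict hp'
  have h2 := End.iSup_iInf_maxGenEigenspace_eq_top_of_iSup_maxGenEigenspace_eq_top_of_commute f
    hfc (fun a => End.iSup_maxGenEigenspace_eq_top _)
  by_contra hemp
  push Not at hemp
  apply hW0
  have h3 : (⊤ : Submodule K W) = ⊥ := by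
    rw [← h2, iSup_eq_bot]
    intro χ
    rw [eq_bot_iff]
    intro x hx
    by_contra hx0
    have hx0' : (x : V) ≠ 0 := fun h => hx0 ((Submodule.mem_bot K).2 (Subtype.ext h))
    obtain ⟨a, ha⟩ := hemp x x.2 hx0' χ
    apply ha
    have h4 := (Submodule.mem_iInf _).1 hx a
    rw [(hss a).isFinitelySemisimple.maxGenEigenspace_eq_eigenspace,
      End.mem_eigenspace_iff] at h4
    exact congrArg Subtype.val h4
  rw [eq_bot_iff]
  intro x hx
  have h4 : (⟨x, hx⟩ : W) ∈ (⊤ : Submodule K W) := trivial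
  rw [h3, Submodule.mem_bot] at h4
  exact (Submodule.mem_bot K).2 (congrArg Subtype.val h4)

theorem exists_coord {J : Type} {b : Basis J K V} {x : V} (hx : x ≠ 0) : ∃ j, b.repr x j ≠ 0 := by
  by_contra hcon
  push Not at hcon
  apply hx
  apply b.repr.injective
  rw [map_zero]
  exact Finsupp.ext hcon

/-- a functional which is not zero on the roots -/
theorem exists_height (t L : Submodule K (End K V)) (hd : ∀ a ∈ t, ⨆ μ, End.eigenspace a μ = ⊤)
    (hc : ∀ a ∈ t, ∀ b ∈ t, a * b = b * a) :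
    ∃ f : (t → K) →+ ℚ, ∀ ψ ∈ Wts t L, f ψ ≠ 0 := by
  classical
  obtain ⟨J, _, b, w, hb⟩ := exists_wt_basis t hd hc
  have hfin : (Wts t L).Finite := by
    refine (Set.finite_range fun p : J × J => w p.1 - w p.2).subset ?_
    rintro ψ ⟨-, Y, hY, hY0, hψ⟩
    obtain ⟨j, hj⟩ : ∃ j, Y (b j) ≠ 0 := by
      by_contra h1
      push Not at h1
      exact hY0 (b.ext fun j => by rw [h1 j, LinearMap.zero_apply])
    obtain ⟨i, hi⟩ := exists_coord (b := b) hj
    have h1 := wt_coord hb (wt_add hψ (hb j)) i hi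
    refine ⟨(i, j), ?_⟩
    show w i - w j = ψ
    rw [h1, add_sub_cancel_left]
  have : Finite (Wts t L) := hfin
  obtain ⟨f, hf⟩ := Module.exists_dual_forall_apply_ne_zero (K := ℚ) (M := t → K)
    (fun ψ : Wts t L => (ψ : t → K)) (fun ψ h0 => by
      obtain ⟨⟨a, ha⟩, -⟩ := ψ.2
      exact ha (congrFun h0 a))
  exact ⟨f.toAddMonoidHom, fun ψ hψ => hf ⟨ψ, hψ⟩⟩

/-- A central endomorphism cannot have two eigenvalues which occur in the same weight spaces. -/
theorem hw_contra {L t : Submodule K (End K V)} (T : Tor L t)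
    (hCR : ∀ W : Submodule K V, (∀ X ∈ L, ∀ x ∈ W, X x ∈ W) →
      ∃ Q : End K V, (∀ X ∈ L, X * Q = Q * X) ∧ (∀ x, Q x ∈ W) ∧ ∀ x ∈ W, Q x = x)
    {z : End K V} (hzL : ∀ X ∈ L, z * X = X * z)
    (hz : ∀ Q : End K V, (∀ X ∈ L, X * Q = Q * X) → z * Q = Q * z)
    {z₁ z₂ : K} (hne : z₁ ≠ z₂) {W : Submodule K V} (hW0 : W ≠ ⊥)
    (hW : ∀ X ∈ L, ∀ x ∈ W, X x ∈ W)
    (h : ∀ χ : t → K, (∃ x ∈ W, x ≠ 0 ∧ ∀ a : t, (a : End K V) x = χ a • x) →
      ∀ c, c = z₁ ∨ c = z₂ → ∃ x ∈ W, x ≠ 0 ∧ (∀ a : t, (a : End K V) x = χ a • x) ∧ z x = c • x) :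
    False := by
  classical
  obtain ⟨J, _, b, w, hb⟩ := exists_wt_basis t T.diag T.comm
  obtain ⟨f, hf⟩ := exists_height t L T.diag T.comm
  -- the weights of `W`
  obtain ⟨A, hA⟩ : ∃ A : Set J, A = {j | ∃ v ∈ W, v ≠ 0 ∧ ∀ a : t, (a : End K V) v = w j a • v} :=
    ⟨_, rfl⟩
  have hwtA : ∀ (χ : t → K) (v : V), v ∈ W → v ≠ 0 → (∀ a : t, (a : End K V) v = χ a • v) →
      ∃ j ∈ A, w j = χ := by
    intro χ v hv hv0 hvw
    obtain ⟨j, hj⟩ := exists_coord (b := b) hv0
    have h1 := wt_coord hb hvw j hj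
    refine ⟨j, ?_, h1⟩
    rw [hA]
    exact ⟨v, hv, hv0, by rw [h1]; exact hvw⟩
  have hAne : A.Nonempty := by
    obtain ⟨v, hv, hv0, χ, hχ⟩ := exists_wt_vec T.diag T.comm hW0 fun a ha => hW a (T.le ha)
    obtain ⟨j, hj, -⟩ := hwtA χ v hv hv0 hχ
    exact ⟨j, hj⟩
  obtain ⟨j₀, hj₀, hmax⟩ := Set.exists_max_image A (fun j => f (w j)) (Set.toFinite _) hAne
  obtain ⟨χ, hχ⟩ : ∃ χ : t → K, χ = w j₀ := ⟨_, rfl⟩
  have hv : ∃ x ∈ W, x ≠ 0 ∧ ∀ a : t, (a : End K V) x = χ a • x := by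
    rw [hA] at hj₀
    rw [hχ]
    exact hj₀
  obtain ⟨x₁, h1W, h10, h1w, h1z⟩ := h χ hv z₁ (Or.inl rfl)
  obtain ⟨x₂, h2W, h20, h2w, h2z⟩ := h χ hv z₂ (Or.inr rfl)
  obtain ⟨y, hy⟩ : ∃ y : V, y = x₁ + x₂ := ⟨_, rfl⟩
  have hyw : ∀ a : t, (a : End K V) y = χ a • y := fun a => by
    rw [hy, map_add, h1w, h2w, smul_add]
  have hpos : ∀ x ∈ W, (∀ a : t, (a : End K V) x = χ a • x) → ∀ (ψ : t → K), ∀ X ∈ L,
      (∀ a : t, (a : End K V) * X - X * a = ψ a • X) → 0 < f ψ → X x = 0 := by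
    intro x hx hxw ψ X hX hψ hf0
    by_contra hXx
    obtain ⟨j, hjA, hjw⟩ := hwtA (χ + ψ) (X x) (hW X hX x hx) hXx (wt_add hψ hxw)
    have h3 := hmax j hjA
    rw [hjw, map_add, ← hχ] at h3
    linarith
  -- negative operators
  obtain ⟨neg, hneg⟩ : ∃ neg : Set (End K V), neg = {X | X ∈ L ∧ ∃ ψ : t → K,
    (∀ a : t, (a : End K V) * X - X * a = ψ a • X) ∧ f ψ < 0} := ⟨_, rfl⟩
  obtain ⟨N, hN⟩ : ∃ N : Submodule K V, N = sInf {N | y ∈ N ∧ ∀ X ∈ neg, ∀ x ∈ N, X x ∈ N} :=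
    ⟨_, rfl⟩
  have hyN : y ∈ N := by
    rw [hN, Submodule.mem_sInf]
    exact fun N' hN' => hN'.1
  have hNneg : ∀ X ∈ neg, ∀ x ∈ N, X x ∈ N := by
    intro X hX x hx
    rw [hN, Submodule.mem_sInf] at hx ⊢
    exact fun N' hN' => hN'.2 X hX x (hx N' hN')
  have hNmin : ∀ N' : Submodule K V, y ∈ N' → (∀ X ∈ neg, ∀ x ∈ N', X x ∈ N') → N ≤ N' := by
    intro N' h1 h2
    rw [hN]
    exact sInf_le ⟨h1, h2⟩
  -- `N` is stable under `L`
  let N₀ : Submodule K V :=
    { carrier := {x | x ∈ N ∧ ∀ X ∈ L, X x ∈ N}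
      add_mem' := by
        rintro x x' ⟨h1, h2⟩ ⟨h3, h4⟩
        exact ⟨N.add_mem h1 h3, fun X hX => by rw [map_add]; exact N.add_mem (h2 X hX) (h4 X hX)⟩
      zero_mem' := ⟨N.zero_mem, fun X _ => by rw [map_zero]; exact N.zero_mem⟩
      smul_mem' := by
        rintro c x ⟨h1, h2⟩
        exact ⟨N.smul_mem c h1, fun X hX => by rw [map_smul]; exact N.smul_mem c (h2 X hX)⟩ }
  have hNN₀ : N ≤ N₀ := by
    refine hNmin N₀ ⟨hyN, ?_⟩ ?_
    · refine wt_induction t T.diag T.comm L (fun a ha Y hY => T.lie a (T.le ha) Y hY)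
        (P := fun X => X y ∈ N) ?_ ?_ ?_
      · show (0 : End K V) y ∈ N
        rw [LinearMap.zero_apply]
        exact N.zero_mem
      · intro X Y _ _ hX hY
        have hX' : X y ∈ N := hX
        have hY' : Y y ∈ N := hY
        show (X + Y) y ∈ N
        rw [LinearMap.add_apply]
        exact N.add_mem hX' hY'
      · intro ψ X hX hψ
        show X y ∈ N
        by_cases hX0 : X = 0
        · rw [hX0, LinearMap.zero_apply]
          exact N.zero_mem
        by_cases hψ0 : ∃ a : t, ψ a ≠ 0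
        · have h3 := hf ψ ⟨hψ0, X, hX, hX0, hψ⟩
          rcases lt_or_gt_of_ne h3 with h4 | h4
          · refine hNneg X ?_ y hyN
            rw [hneg]
            exact ⟨hX, ψ, hψ, h4⟩
          · rw [hy, map_add, hpos x₁ h1W h1w ψ X hX hψ h4, hpos x₂ h2W h2w ψ X hX hψ h4, add_zero]
            exact N.zero_mem
        · push Not at hψ0
          have h3 : X ∈ t := T.cen X hX fun a ha => by
            have h4 := hψ ⟨a, ha⟩
            rw [hψ0, zero_smul] at h4
            exact sub_eq_zero.1 h4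
          rw [hyw ⟨X, h3⟩]
          exact N.smul_mem _ hyN
    · rintro Y hY x ⟨hx, hx'⟩
      have hYL : Y ∈ L := by rw [hneg] at hY; exact hY.1
      refine ⟨hNneg Y hY x hx, fun X hX => ?_⟩
      have h3 : X (Y x) = (X * Y - Y * X) x + Y (X x) := by
        rw [LinearMap.sub_apply, Module.End.mul_apply, Module.End.mul_apply, sub_add_cancel]
      rw [h3]
      exact N.add_mem (hx' _ (T.lie X hX Y hYL)) (hNneg Y hY _ (hx' X hX))
  have hNL : ∀ X ∈ L, ∀ x ∈ N, X x ∈ N := fun X hX x hx => (hNN₀ hx).2 X hX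
  -- the vectors of lower weights
  let low : Submodule K V :=
    { carrier := {x | ∀ j, b.repr x j ≠ 0 → f (w j) < f χ}
      add_mem' := by
        intro x x' h1 h2 j hj
        rw [map_add, Finsupp.add_apply] at hj
        by_cases h3 : b.repr x j = 0
        · exact h2 j (fun h4 => hj (by rw [h3, h4, add_zero]))
        · exact h1 j h3
      zero_mem' := by
        intro j hj
        rw [map_zero, Finsupp.zero_apply] at hj
        exact absurd rfl hj
      smul_mem' := by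
        intro c x h1 j hj
        rw [map_smul, Finsupp.smul_apply, smul_eq_mul] at hj
        exact h1 j (right_ne_zero_of_mul hj) }
  have hlow1 : ∀ X ∈ neg, X y ∈ low := by
    intro X hX j hj
    rw [hneg] at hX
    obtain ⟨hX, ψ, hψ, hf0⟩ := hX
    rw [wt_coord hb (wt_add hψ hyw) j hj, map_add]
    linarith
  have hlow2 : ∀ X ∈ neg, ∀ x ∈ low, X x ∈ low := by
    intro X hX x hx
    rw [hneg] at hX
    obtain ⟨hX, ψ, hψ, hf0⟩ := hX
    rw [← b.sum_repr x, map_sum]
    refine low.sum_mem fun j _ => ?_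
    rw [map_smul]
    by_cases hj : b.repr x j = 0
    · rw [hj, zero_smul]
      exact low.zero_mem
    · refine low.smul_mem _ ?_
      intro i hi
      have h3 := hx j hj
      rw [wt_coord hb (wt_add hψ (hb j)) i hi, map_add]
      linarith
  let B : Submodule K V :=
    { carrier := {x | ∃ c : K, x - c • y ∈ low}
      add_mem' := by
        rintro x x' ⟨c, h1⟩ ⟨c', h2⟩
        refine ⟨c + c', ?_⟩
        have h3 : x + x' - (c + c') • y = (x - c • y) + (x' - c' • y) := by module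
        rw [h3]
        exact low.add_mem h1 h2
      zero_mem' := ⟨0, by rw [zero_smul, sub_zero]; exact low.zero_mem⟩
      smul_mem' := by
        rintro c x ⟨c', h1⟩
        refine ⟨c * c', ?_⟩
        have h3 : c • x - (c * c') • y = c • (x - c' • y) := by module
        rw [h3]
        exact low.smul_mem c h1 }
  have hNB : N ≤ B := by
    refine hNmin B ⟨1, by rw [one_smul, sub_self]; exact low.zero_mem⟩ ?_
    rintro X hX x ⟨c, hc⟩
    refine ⟨0, ?_⟩
    have h3 : X x - (0 : K) • y = X (x - c • y) + c • X y := by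
      rw [zero_smul, sub_zero, map_sub, map_smul, sub_add_cancel]
    rw [h3]
    exact low.add_mem (hlow2 X hX _ hc) (low.smul_mem c (hlow1 X hX))
  -- `x₁ ∈ N`
  have hx₁ : x₁ ∈ N := by
    obtain ⟨Q, hQ, hQN, hQid⟩ := hCR N hNL
    have h3 : z y ∈ N := by
      have h4 := LinearMap.congr_fun (hz Q hQ) y
      rw [Module.End.mul_apply, Module.End.mul_apply, hQid y hyN] at h4
      rw [h4]
      exact hQN _
    have h4 : x₁ = (z₁ - z₂)⁻¹ • (z y - z₂ • y) := by
      have h5 : z y - z₂ • y = (z₁ - z₂) • x₁ := by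
        rw [hy, map_add, h1z, h2z]
        module
      rw [h5, smul_smul, inv_mul_cancel₀ (sub_ne_zero.2 hne), one_smul]
    rw [h4]
    exact N.smul_mem _ (N.sub_mem h3 (N.smul_mem _ hyN))
  obtain ⟨c, hc⟩ := hNB hx₁
  have hc0 : x₁ - c • y = 0 := by
    by_contra hcon
    obtain ⟨j, hj⟩ := exists_coord (b := b) hcon
    have h3 := wt_coord hb (χ := χ) (x := x₁ - c • y) (fun a => by
      rw [map_sub, map_smul, h1w, hyw]
      module) j hj
    have h4 := hc j hj
    rw [h3] at h4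
    exact lt_irrefl _ h4
  have h3 : (z₁ - z₂) • (c • x₂) = 0 := by
    have h4 : x₁ = c • x₁ + c • x₂ := by
      rw [← smul_add, ← hy]
      exact sub_eq_zero.1 hc0
    have h5 := congrArg z h4
    rw [map_add, map_smul, map_smul, h1z, h2z] at h5
    have h6 : z₁ • x₁ = z₁ • (c • x₁ + c • x₂) := congrArg (fun v => z₁ • v) h4
    rw [h5] at h6
    have h7 : (z₁ - z₂) • (c • x₂) = z₁ • (c • x₁ + c • x₂) - (c • z₁ • x₁ + c • z₂ • x₂) := by
      module
    rw [h7, ← h6, sub_self]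
  have h4 : c = 0 := by
    rcases smul_eq_zero.1 h3 with h5 | h5
    · exact absurd (sub_eq_zero.1 h5) hne
    · exact (smul_eq_zero.1 h5).resolve_right h20
  rw [h4, zero_smul, sub_zero] at hc0
  exact h10 hc0

end Pool.Agent.Q65.KL
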