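import Pool.Agent.Y212.RM.Sym

/-!
# A Lie subalgebra of maximal rank with the same commutant is everything
-/

set_option autoImplicit false
set_option linter.unusedSectionVars false

namespace Pool.Agent.Q65.KL

open Module Polynomial Pool.Agent.Y114.RM Pool.Agent.Y212.RM

attribute [local instance 100] LieRing.ofAssociativeRing

section sl2

variable {K : Type} [Field K] [CharZero K] {M : Type} [AddCommGroup M] [Module K M]
  [FiniteDimensional K M] {e f h : End K M}

/-- highest weights are natural numbers -/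
theorem prim_nat (r1 : e * f - f * e = h) (r2 : h * e - e * h = 2 • e)
    (r3 : h * f - f * h = -(2 • f)) {c : K} {x : M} (hx : x ≠ 0) (hc : h x = c • x)
    (he : e x = 0) : ∃ n : ℕ, c = n := by
  by_cases hh : h = 0
  · refine ⟨0, ?_⟩
    rw [hh, LinearMap.zero_apply] at hc
    rw [Nat.cast_zero]
    exact (smul_eq_zero.1 hc.symm).resolve_right hx
  · have hsl : IsSl2Triple h e f := ⟨hh, by rw [← r1]; rfl, by rw [← r2]; rfl, by rw [← r3]; rfl⟩
    have hprim : hsl.HasPrimitiveVectorWith x c := ⟨hx, hc, he⟩
    exact hprim.exists_nat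

theorem neg_rel (r1 : e * f - f * e = h) : f * e - e * f = -h := by
  rw [← r1, neg_sub]

/-- lowest weights are negatives of natural numbers -/
theorem low_nat (r1 : e * f - f * e = h) (r2 : h * e - e * h = 2 • e)
    (r3 : h * f - f * h = -(2 • f)) {c : K} {x : M} (hx : x ≠ 0) (hc : h x = c • x)
    (he : f x = 0) : ∃ n : ℕ, c = -(n : K) := by
  have h1 : (-h) * f - f * (-h) = 2 • f := by
    rw [neg_mul, mul_neg, sub_neg_eq_add, neg_add_eq_sub, ← neg_sub, r3, neg_neg]
  have h2 : (-h) * e - e * (-h) = -(2 • e) := by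
    rw [neg_mul, mul_neg, sub_neg_eq_add, neg_add_eq_sub, ← neg_sub, r2]
  obtain ⟨n, hn⟩ := prim_nat (e := f) (f := e) (h := -h) (neg_rel r1) h1 h2 (c := -c) hx
    (by rw [LinearMap.neg_apply, hc, neg_smul]) he
  exact ⟨n, by rw [← hn, neg_neg]⟩

/-- weights are integers -/
theorem wt_int (r1 : e * f - f * e = h) (r2 : h * e - e * h = 2 • e)
    (r3 : h * f - f * h = -(2 • f)) {c : K} {x : M} (hx : x ≠ 0) (hc : h x = c • x) :
    ∃ n : ℤ, c = n := by
  have hstep : ∀ (y : M) (d : K), h y = d • y → h (e y) = (d + 2) • e y := by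
    intro y d hy
    have h1 := LinearMap.congr_fun r2 y
    rw [LinearMap.sub_apply, Module.End.mul_apply, Module.End.mul_apply, hy, map_smul,
      LinearMap.smul_apply, ← ofNat_smul_eq_nsmul K, sub_eq_iff_eq_add] at h1
    rw [h1, add_smul, add_comm]
  have hpow : ∀ k : ℕ, h ((e ^ k) x) = (c + 2 * k) • (e ^ k) x := by
    intro k
    induction k with
    | zero => rw [pow_zero, Module.End.one_apply, Nat.cast_zero, mul_zero, add_zero, hc]
    | succ k ih =>
      rw [pow_succ', Module.End.mul_apply, hstep _ _ ih]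
      congr 1
      push_cast
      ring
  have hex : ∃ k : ℕ, (e ^ k) x = 0 := by
    by_contra hcon
    push Not at hcon
    have hinj : Function.Injective fun k : ℕ => c + 2 * (k : K) := by
      intro a b hab
      have h1 : (a : K) = b := by
        have := add_left_cancel (show c + 2 * (a : K) = c + 2 * (b : K) from hab)
        exact mul_left_cancel₀ two_ne_zero this
      exact_mod_cast h1
    have hfin := End.finite_hasEigenvalue h
    refine Set.infinite_of_injective_forall_mem hinj (fun k => ?_) hfin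
    exact End.hasEigenvalue_of_hasEigenvector ⟨End.mem_eigenspace_iff.2 (hpow k), hcon k⟩
  classical
  obtain ⟨k, hk⟩ : ∃ k, k = Nat.find hex := ⟨_, rfl⟩
  have hk0 : (e ^ k) x = 0 := by rw [hk]; exact Nat.find_spec hex
  have hkmin : ∀ j < k, (e ^ j) x ≠ 0 := fun j hj => Nat.find_min hex (by rwa [hk] at hj)
  obtain _ | k := k
  · rw [pow_zero, Module.End.one_apply] at hk0
    exact absurd hk0 hx
  · rw [pow_succ', Module.End.mul_apply] at hk0
    obtain ⟨n, hn⟩ := prim_nat r1 r2 r3 (hkmin k (Nat.lt_succ_self k)) (hpow k) hk0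
    refine ⟨(n : ℤ) - 2 * k, ?_⟩
    push_cast
    rw [← hn]
    ring

end sl2

section basis

variable {K : Type} [Field K] [CharZero K] [IsAlgClosed K] {V : Type} [AddCommGroup V]
  [Module K V] [FiniteDimensional K V]

/-- a basis of joint eigenvectors -/
theorem exists_wt_basis (t : Submodule K (End K V)) (hd : ∀ a ∈ t, ⨆ μ, End.eigenspace a μ = ⊤)
    (hc : ∀ a ∈ t, ∀ b ∈ t, a * b = b * a) :
    ∃ (J : Type) (_ : Fintype J) (b : Basis J K V) (w : J → t → K),
      ∀ j (a : t), (a : End K V) (b j) = w j a • b j := by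
  classical
  obtain ⟨S, hS⟩ : ∃ S : Set V, S = {x | ∃ χ : t → K, ∀ a : t, (a : End K V) x = χ a • x} :=
    ⟨_, rfl⟩
  have hfc : Pairwise (Function.onFun Commute fun a : t => (a : End K V)) := fun a b _ =>
    hc a a.2 b b.2
  have hss : ∀ a : t, (a : End K V).IsFinitelySemisimple := by
    intro a
    obtain ⟨p, hp, hpa⟩ := exists_squarefree (hd a a.2)
    exact (End.isSemisimple_of_squarefree_aeval_eq_zero hp hpa).isFinitelySemisimple
  have h2 := End.iSup_iInf_maxGenEigenspace_eq_top_of_iSup_maxGenEigenspace_eq_top_of_commute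
    (fun a : t => (a : End K V)) hfc (fun a => End.iSup_maxGenEigenspace_eq_top _)
  have hspan : Submodule.span K S = ⊤ := by
    rw [eq_top_iff, ← h2]
    refine iSup_le fun χ x hx => Submodule.subset_span ?_
    rw [hS]
    refine ⟨χ, fun a => ?_⟩
    have h4 := (Submodule.mem_iInf _).1 hx a
    rw [(hss a).maxGenEigenspace_eq_eigenspace, End.mem_eigenspace_iff] at h4
    exact h4
  obtain ⟨B, hBS, hBspan, hBli⟩ := exists_linearIndependent K S
  have hfin : Finite B := by
    have : LinearIndependent K (Subtype.val : B → V) := hBli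
    exact this.finite
  have : Fintype B := Fintype.ofFinite B
  have htop : ⊤ ≤ Submodule.span K (Set.range (Subtype.val : B → V)) := by
    rw [Subtype.range_coe_subtype, Set.ofPred_mem_eq, hBspan, hspan]
  have hw : ∀ j : B, ∃ χ : t → K, ∀ a : t, (a : End K V) (j : V) = χ a • (j : V) := by
    intro j
    have h3 := hBS j.2
    rw [hS] at h3
    exact h3
  choose w hw using hw
  refine ⟨B, inferInstance, Basis.mk hBli htop, w, fun j a => ?_⟩
  rw [Basis.mk_apply]
  exact hw j a

/-- joint eigenvectors of weight `χ` only involve basis vectors of weight `χ` -/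
theorem wt_coord {t : Submodule K (End K V)} {J : Type} [Fintype J] {b : Basis J K V}
    {w : J → t → K} (hb : ∀ j (a : t), (a : End K V) (b j) = w j a • b j) {χ : t → K} {x : V}
    (hx : ∀ a : t, (a : End K V) x = χ a • x) (j : J) (hj : b.repr x j ≠ 0) : w j = χ := by
  classical
  funext a
  have h1 := congrArg (fun y => b.repr y j) (hx a)
  change b.repr ((a : End K V) x) j = b.repr (χ a • x) j at h1
  rw [map_smul, Finsupp.smul_apply, smul_eq_mul] at h1
  have h2 : (a : End K V) x = ∑ i, b.repr x i • (w i a • b i) := by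
    conv_lhs => rw [← b.sum_repr x, map_sum]
    exact Finset.sum_congr rfl fun i _ => by rw [map_smul, hb]
  rw [h2, map_sum, Finsupp.finsetSum_apply] at h1
  have h3 : ∀ i, b.repr (b.repr x i • (w i a • b i)) j = if i = j then b.repr x i * w i a else 0 := by
    intro i
    rw [map_smul, map_smul, Finsupp.smul_apply, Finsupp.smul_apply, b.repr_self,
      Finsupp.single_apply, smul_eq_mul, smul_eq_mul]
    by_cases hij : i = j
    · rw [if_pos hij, if_pos hij, mul_one]
    · rw [if_neg hij, if_neg hij, mul_zero, mul_zero]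
  simp only [h3, Finset.sum_ite_eq', Finset.mem_univ, if_true] at h1
  rw [mul_comm] at h1
  exact mul_right_cancel₀ hj h1

/-- the operator which multiplies the vectors of weight `χ` by `s χ` -/
theorem exists_scal {t : Submodule K (End K V)} {J : Type} [Fintype J] {b : Basis J K V}
    {w : J → t → K} (hb : ∀ j (a : t), (a : End K V) (b j) = w j a • b j) (s : (t → K) → K) :
    ∃ P : End K V, ∀ (χ : t → K) (x : V), (∀ a : t, (a : End K V) x = χ a • x) →
      P x = s χ • x := by
  refine ⟨b.constr K fun j => s (w j) • b j, fun χ x hx => ?_⟩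
  conv_lhs => rw [← b.sum_repr x, map_sum]
  conv_rhs => rw [← b.sum_repr x, Finset.smul_sum]
  refine Finset.sum_congr rfl fun j _ => ?_
  rw [map_smul, Basis.constr_basis, smul_comm]
  by_cases hj : b.repr x j = 0
  · rw [hj, zero_smul, smul_zero, smul_zero]
  · rw [wt_coord hb hx j hj]

theorem wt_add {t : Submodule K (End K V)} {ψ χ : t → K} {Y : End K V} {x : V}
    (hY : ∀ a : t, (a : End K V) * Y - Y * a = ψ a • Y) (hx : ∀ a : t, (a : End K V) x = χ a • x)
    (a : t) : (a : End K V) (Y x) = (χ + ψ) a • Y x := by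
  have h1 := LinearMap.congr_fun (hY a) x
  rw [LinearMap.sub_apply, Module.End.mul_apply, Module.End.mul_apply, hx, map_smul,
    LinearMap.smul_apply, sub_eq_iff_eq_add] at h1
  rw [h1, Pi.add_apply, add_smul, add_comm]

end basis

end Pool.Agent.Q65.KL
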