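import Pool.Agent.Q65.KL

/-!
# A Lie subalgebra of maximal rank with the same commutant is everything: the main theorem
-/

set_option autoImplicit false
set_option linter.unusedSectionVars false

namespace Pool.Agent.Q65.KL

open Module Polynomial Pool.Agent.Y114.RM Pool.Agent.Y212.RM

variable {K : Type} [Field K] [CharZero K] [IsAlgClosed K] {V : Type} [AddCommGroup V]
  [Module K V] [FiniteDimensional K V]

/-- the trace of `[e, f] a` -/
theorem trace_triple {t : Submodule K (End K V)} {χ : t → K} {e f h : End K V}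
    (hf : ∀ a : t, (a : End K V) * f - f * a = (-χ a) • f) (r1 : e * f - f * e = h) (a : t) :
    LinearMap.trace K V (h * a) = χ a * LinearMap.trace K V (e * f) := by
  have h2 : LinearMap.trace K V ((e * f - f * e) * a) =
      -LinearMap.trace K V (e * ((a : End K V) * f - f * a)) := by
    have h3 : (e * f - f * e) * (a : End K V) =
      (e * (f * a) - e * (a * f)) + (e * ((a : End K V) * f) - f * (e * a)) := by
      noncomm_ring
    have h4 : LinearMap.trace K V (e * ((a : End K V) * f)) =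
        LinearMap.trace K V (f * (e * a)) := by
      rw [← mul_assoc e, LinearMap.trace_mul_comm K (e * (a : End K V)) f]
    rw [h3, LinearMap.map_add, LinearMap.map_sub, LinearMap.map_sub, h4, sub_self, add_zero,
      mul_sub, LinearMap.map_sub, h4]
    ring
  rw [← r1, h2, hf a, mul_smul_comm, LinearMap.map_smul, smul_eq_mul]
  ring

/-- the trace of `h ^ 2` is a positive integer -/
theorem trace_sq {t : Submodule K (End K V)} {J : Type} [Fintype J] {b : Basis J K V}
    {w : J → t → K} (hb : ∀ j (a : t), (a : End K V) (b j) = w j a • b j) {e f h : End K V}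
    (ht : h ∈ t) (h0 : h ≠ 0) (r1 : e * f - f * e = h) (r2 : h * e - e * h = 2 • e)
    (r3 : h * f - f * h = -(2 • f)) :
    ∃ p : ℤ, 0 < p ∧ LinearMap.trace K V (h * h) = p := by
  classical
  have hw : ∀ j, ∃ n : ℤ, w j ⟨h, ht⟩ = n := fun j => wt_int r1 r2 r3 (b.ne_zero j) (hb j ⟨h, ht⟩)
  choose n hn using hw
  have hbj : ∀ j, h (b j) = (n j : K) • b j := fun j => by rw [← hn j]; exact hb j ⟨h, ht⟩
  refine ⟨∑ j, n j * n j, ?_, ?_⟩
  · obtain ⟨j, hj⟩ : ∃ j, n j ≠ 0 := by
      by_contra hcon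
      push Not at hcon
      apply h0
      refine b.ext fun j => ?_
      rw [hbj, hcon, Int.cast_zero, zero_smul, LinearMap.zero_apply]
    exact Finset.sum_pos' (fun i _ => mul_self_nonneg _)
      ⟨j, Finset.mem_univ j, mul_self_pos.2 hj⟩
  · rw [LinearMap.trace_eq_matrix_trace K b]
    unfold Matrix.trace
    rw [Int.cast_sum]
    refine Finset.sum_congr rfl fun j _ => ?_
    rw [Matrix.diag_apply, LinearMap.toMatrix_apply, Module.End.mul_apply, hbj, map_smul, hbj,
      map_smul, map_smul, Finsupp.smul_apply, Finsupp.smul_apply, b.repr_self,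
      Finsupp.single_eq_same, smul_eq_mul, smul_eq_mul, mul_one, Int.cast_mul]

/-- the nonzero weights of `L` -/
def Wts (t L : Submodule K (End K V)) : Set (t → K) :=
  {χ | (∃ a : t, χ a ≠ 0) ∧ ∃ Y ∈ L, Y ≠ 0 ∧ ∀ a : t, (a : End K V) * Y - Y * a = χ a • Y}

/-- a space which is stable under a triple contains the vectors of positive weight which are
mapped into it by `f` -/
theorem mem_of_low {M : Type} [AddCommGroup M] [Module K M] [FiniteDimensional K M]
    {e f h : End K M} (r1 : e * f - f * e = h) (r2 : h * e - e * h = 2 • e)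
    (r3 : h * f - f * h = -(2 • f)) {L : Submodule K M} (he : ∀ x ∈ L, e x ∈ L)
    (hf : ∀ x ∈ L, f x ∈ L) (hh : ∀ x ∈ L, h x ∈ L) {n : ℤ} (hn : 0 < n) {x : M}
    (hx : h x = (n : K) • x) (hfx : f x ∈ L) : x ∈ L := by
  obtain ⟨e', he'⟩ : ∃ e' : End K (M ⧸ L), e' = L.mapQ L e he := ⟨_, rfl⟩
  obtain ⟨f', hf'⟩ : ∃ f' : End K (M ⧸ L), f' = L.mapQ L f hf := ⟨_, rfl⟩
  obtain ⟨h', hh'⟩ : ∃ h' : End K (M ⧸ L), h' = L.mapQ L h hh := ⟨_, rfl⟩
  have ae : ∀ y, e' (L.mkQ y) = L.mkQ (e y) := fun y => by rw [he']; rfl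
  have af : ∀ y, f' (L.mkQ y) = L.mkQ (f y) := fun y => by rw [hf']; rfl
  have ah : ∀ y, h' (L.mkQ y) = L.mkQ (h y) := fun y => by rw [hh']; rfl
  have s1 : e' * f' - f' * e' = h' := by
    refine LinearMap.ext fun y => ?_
    obtain ⟨y, rfl⟩ := L.mkQ_surjective y
    rw [LinearMap.sub_apply, Module.End.mul_apply, Module.End.mul_apply, ae, af, af, ae, ah,
      ← map_sub, ← r1]
    rfl
  have s2 : h' * e' - e' * h' = 2 • e' := by
    refine LinearMap.ext fun y => ?_
    obtain ⟨y, rfl⟩ := L.mkQ_surjective y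
    have h1 := LinearMap.congr_fun r2 y
    rw [LinearMap.sub_apply, Module.End.mul_apply, Module.End.mul_apply,
      LinearMap.smul_apply] at h1
    rw [LinearMap.sub_apply, Module.End.mul_apply, Module.End.mul_apply, LinearMap.smul_apply,
      ae, ah, ah, ae, ← map_sub, h1, map_nsmul]
  have s3 : h' * f' - f' * h' = -(2 • f') := by
    refine LinearMap.ext fun y => ?_
    obtain ⟨y, rfl⟩ := L.mkQ_surjective y
    have h1 := LinearMap.congr_fun r3 y
    rw [LinearMap.sub_apply, Module.End.mul_apply, Module.End.mul_apply, LinearMap.neg_apply,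
      LinearMap.smul_apply] at h1
    rw [LinearMap.sub_apply, Module.End.mul_apply, Module.End.mul_apply, LinearMap.neg_apply,
      LinearMap.smul_apply, af, ah, ah, af, ← map_sub, h1, map_neg, map_nsmul]
  by_contra hxL
  have hx0 : L.mkQ x ≠ 0 := by
    intro h0
    apply hxL
    rwa [Submodule.mkQ_apply, Submodule.Quotient.mk_eq_zero] at h0
  obtain ⟨m, hm⟩ := low_nat s1 s2 s3 hx0 (c := (n : K)) (by rw [ah, hx, map_smul])
    (by rw [af, Submodule.mkQ_apply, Submodule.Quotient.mk_eq_zero]; exact hfx)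
  have h1 : n = -(m : ℤ) := by
    have h2 : ((n : ℤ) : K) = ((-(m : ℤ) : ℤ) : K) := by
      rw [hm]
      push_cast
      ring
    exact_mod_cast h2
  omega

/-- adjoint operators of a triple -/
theorem ad_triple {e f h : End K V} (r1 : e * f - f * e = h) (r2 : h * e - e * h = 2 • e)
    (r3 : h * f - f * h = -(2 • f)) : adE e * adE f - adE f * adE e = adE h ∧
    adE h * adE e - adE e * adE h = 2 • adE e ∧
    adE h * adE f - adE f * adE h = -(2 • adE f) := by
  refine ⟨?_, ?_, ?_⟩
  · rw [adE_comm, r1]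
  · rw [adE_comm, r2]
    refine LinearMap.ext fun x => ?_
    change (2 • e) * x - x * (2 • e) = 2 • (e * x - x * e)
    rw [smul_mul_assoc, mul_smul_comm, smul_sub]
  · rw [adE_comm, r3]
    refine LinearMap.ext fun x => ?_
    change (-(2 • f)) * x - x * (-(2 • f)) = -(2 • (f * x - x * f))
    rw [neg_mul, mul_neg, smul_mul_assoc, mul_smul_comm, smul_sub]
    abel

/-- the first half: weight vectors whose weight is a sum of weights of `L` are in `L` -/
theorem mem_of_sum {G L t : Submodule K (End K V)} (T : Tor G t) (T' : Tor L t) (hLG : L ≤ G)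
    (k : ℕ) : ∀ (l : List (t → K)), l.length = k → (∀ ψ ∈ l, ψ ∈ Wts t L) → ∀ X ∈ G,
      (∀ a : t, (a : End K V) * X - X * a = l.sum a • X) → X ∈ L := by
  classical
  induction k with
  | zero =>
    intro l hl _ X hX hw
    rw [List.length_eq_zero_iff] at hl
    subst hl
    refine T'.le (T.cen X hX fun a ha => ?_)
    have h1 := hw ⟨a, ha⟩
    rw [List.sum_nil, Pi.zero_apply, zero_smul] at h1
    exact sub_eq_zero.1 h1
  | succ k ih =>
    intro l hl hmem X hX hw
    by_cases hX0 : X = 0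
    · rw [hX0]; exact L.zero_mem
    by_cases hχ : ∃ a0 : t, l.sum a0 ≠ 0
    swap
    · push Not at hχ
      refine T'.le (T.cen X hX fun a ha => ?_)
      have h1 := hw ⟨a, ha⟩
      rw [hχ, zero_smul] at h1
      exact sub_eq_zero.1 h1
    obtain ⟨a0, ha0⟩ := hχ
    obtain ⟨J, _, b, w, hb⟩ := exists_wt_basis t T.diag T.comm
    obtain ⟨f, hf, hfw, htr, h, hht, hh0, hef, hhe, hhf⟩ := T.exists_triple hX hw hX0 ha0
    obtain ⟨p, hp, hpt⟩ := trace_sq hb hht hh0 hef hhe hhf
    obtain ⟨a1, a2, a3⟩ := ad_triple hef hhe hhf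
    -- the sum of the values is 2
    have h2 : l.sum ⟨h, hht⟩ = 2 := by
      have h3 := hw ⟨h, hht⟩
      change h * X - X * h = _ at h3
      rw [hhe, ← ofNat_smul_eq_nsmul K] at h3
      exact (smul_left_injective K hX0 h3).symm
    have hint : ∀ ψ ∈ l, ∃ n : ℤ, ψ ⟨h, hht⟩ = n := by
      intro ψ hψ
      obtain ⟨-, Y, hY, hY0, hYw⟩ := hmem ψ hψ
      refine wt_int a1 a2 a3 (x := Y) hY0 ?_
      rw [adE_apply]
      exact hYw ⟨h, hht⟩
    have hpos : ∃ ψ ∈ l, ∃ n : ℤ, 0 < n ∧ ψ ⟨h, hht⟩ = n := by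
      by_contra hcon
      push Not at hcon
      have hneg : ∀ l' : List (t → K), (∀ ψ ∈ l', ψ ∈ l) → ∃ n : ℤ, n ≤ 0 ∧
          l'.sum ⟨h, hht⟩ = n := by
        intro l'
        induction l' with
        | nil => exact fun _ => ⟨0, le_rfl, by rw [List.sum_nil, Pi.zero_apply, Int.cast_zero]⟩
        | cons ψ l' ih' =>
          intro hl'
          obtain ⟨n, hn, hn'⟩ := ih' fun ψ' h' => hl' ψ' (List.mem_cons_of_mem _ h')
          obtain ⟨m, hm⟩ := hint ψ (hl' ψ List.mem_cons_self)
          have hm0 : m ≤ 0 := by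
            by_contra hm0
            exact hcon ψ (hl' ψ List.mem_cons_self) m (not_le.1 hm0) hm
          refine ⟨m + n, add_nonpos hm0 hn, ?_⟩
          rw [List.sum_cons, Pi.add_apply, hm, hn', Int.cast_add]
      obtain ⟨n, hn, hn'⟩ := hneg l fun _ h => h
      rw [h2] at hn'
      have h3 : n = 2 := by exact_mod_cast hn'.symm
      omega
    obtain ⟨ψ, hψ, n, hn, hψn⟩ := hpos
    obtain ⟨⟨a0', ha0'⟩, Y, hY, hY0, hYw⟩ := hmem ψ hψ
    obtain ⟨f', hf', hfw', htr', h', hht', hh0', hef', hhe', hhf'⟩ :=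
      T'.exists_triple hY hYw hY0 ha0'
    obtain ⟨p', hp', hpt'⟩ := trace_sq hb hht' hh0' hef' hhe' hhf'
    obtain ⟨a1', a2', a3'⟩ := ad_triple hef' hhe' hhf'
    obtain ⟨n', hn'⟩ := wt_int a1' a2' a3' (x := X) hX0 (c := l.sum ⟨h', hht'⟩) (by
      rw [adE_apply]
      exact hw ⟨h', hht'⟩)
    have hψ2 : ψ ⟨h', hht'⟩ = 2 := by
      have h3 := hYw ⟨h', hht'⟩
      change h' * Y - Y * h' = _ at h3
      rw [hhe', ← ofNat_smul_eq_nsmul K] at h3
      exact (smul_left_injective K hY0 h3).symm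
    have e1 : LinearMap.trace K V (h * h) = 2 * LinearMap.trace K V (X * f) := by
      rw [← h2]
      exact trace_triple hfw hef ⟨h, hht⟩
    have e2 : LinearMap.trace K V (h' * h') = 2 * LinearMap.trace K V (Y * f') := by
      rw [← hψ2]
      exact trace_triple hfw' hef' ⟨h', hht'⟩
    have e3 : LinearMap.trace K V (h * h') = n' * LinearMap.trace K V (X * f) := by
      rw [← hn']
      exact trace_triple hfw hef ⟨h', hht'⟩
    have e4 : LinearMap.trace K V (h' * h) = n * LinearMap.trace K V (Y * f') := by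
      rw [← hψn]
      exact trace_triple hfw' hef' ⟨h, hht⟩
    have e5 : (n' : K) * p = n * p' := by
      rw [← hpt, ← hpt', e1, e2]
      rw [LinearMap.trace_mul_comm K h' h, e3] at e4
      linear_combination 2 * e4
    have e6 : n' * p = n * p' := by exact_mod_cast e5
    have hn'pos : 0 < n' := by
      by_contra hcon
      have h3 : n' * p ≤ 0 := mul_nonpos_of_nonpos_of_nonneg (not_lt.1 hcon) hp.le
      have h4 : 0 < n * p' := mul_pos hn hp'
      omega
    -- lowering
    refine mem_of_low a1' a2' a3' (fun x hx => T'.lie _ hY _ hx) (fun x hx => T'.lie _ hf' _ hx)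
      (fun x hx => T'.lie _ (T'.le hht') _ hx) hn'pos (x := X) ?_ ?_
    · rw [adE_apply, ← hn']
      exact hw ⟨h', hht'⟩
    · rw [adE_apply]
      have hlen : (l.erase ψ).length = k := by
        rw [List.length_erase_of_mem hψ, hl]
        rfl
      refine ih (l.erase ψ) hlen (fun ψ' h' => hmem ψ' (List.mem_of_mem_erase h')) _
        (T.lie _ (hLG hf') _ hX) fun a => ?_
      have hsum : l.sum = ψ + (l.erase ψ).sum := (List.sum_erase hψ).symm
      have h3 := hw a
      have h4 := hfw' a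
      have h5 : (a : End K V) * (f' * X - X * f') - (f' * X - X * f') * a =
          (a * f' - f' * a) * X + f' * (a * X - X * a) - (a * X - X * a) * f'
            - X * (a * f' - f' * a) := by noncomm_ring
      rw [h5, h3, h4, hsum, Pi.add_apply, smul_mul_assoc, smul_mul_assoc, mul_smul_comm,
        mul_smul_comm]
      module

/-- the second half: the weights of `G` are sums of weights of `L` -/
theorem mem_closure {G L t : Submodule K (End K V)} (T : Tor G t) (T' : Tor L t)
    (hcomm : ∀ P : End K V, (∀ Y ∈ L, P * Y = Y * P) → ∀ X ∈ G, P * X = X * P)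
    {χ : t → K} {X : End K V} (hX : X ∈ G) (hX0 : X ≠ 0)
    (hw : ∀ a : t, (a : End K V) * X - X * a = χ a • X) :
    χ ∈ AddSubgroup.closure (Wts t L) := by
  classical
  by_contra hcon
  obtain ⟨Q, hQ⟩ : ∃ Q : AddSubgroup (t → K), Q = AddSubgroup.closure (Wts t L) := ⟨_, rfl⟩
  rw [← hQ] at hcon
  obtain ⟨J, _, b, w, hb⟩ := exists_wt_basis t T.diag T.comm
  obtain ⟨j, hj⟩ : ∃ j, X (b j) ≠ 0 := by
    by_contra h1
    push Not at h1
    exact hX0 (b.ext fun j => by rw [h1 j, LinearMap.zero_apply])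
  obtain ⟨P, hP⟩ := exists_scal hb fun χ' => if χ' - w j ∈ Q then 1 else 0
  have hPL : ∀ Y ∈ L, P * Y = Y * P := by
    refine wt_induction t T.diag T.comm L (fun a ha Y hY => T'.lie a (T'.le ha) Y hY)
      (P := fun Y => P * Y = Y * P) ?_ ?_ ?_
    · show P * 0 = 0 * P
      rw [mul_zero, zero_mul]
    · intro Y Z _ _ hY hZ
      have hY' : P * Y = Y * P := hY
      have hZ' : P * Z = Z * P := hZ
      show P * (Y + Z) = (Y + Z) * P
      rw [mul_add, add_mul, hY', hZ']
    · intro ψ Y hY hψ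
      show P * Y = Y * P
      by_cases hY0 : Y = 0
      · rw [hY0, mul_zero, zero_mul]
      have hψQ : ψ ∈ Q := by
        by_cases hψ0 : ∃ a : t, ψ a ≠ 0
        · rw [hQ]
          exact AddSubgroup.subset_closure ⟨hψ0, Y, hY, hY0, hψ⟩
        · push Not at hψ0
          have : ψ = 0 := funext hψ0
          rw [this]
          exact Q.zero_mem
      refine b.ext fun i => ?_
      rw [Module.End.mul_apply, Module.End.mul_apply, hP (w i) (b i) (hb i), map_smul,
        hP (w i + ψ) (Y (b i)) (wt_add hψ (hb i))]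
      congr 1
      have h1 : w i + ψ - w j ∈ Q ↔ w i - w j ∈ Q := by
        rw [show w i + ψ - w j = (w i - w j) + ψ by abel]
        exact Q.add_mem_cancel_right hψQ
      simp only [h1]
  have h1 := LinearMap.congr_fun (hcomm P hPL X hX) (b j)
  rw [Module.End.mul_apply, Module.End.mul_apply, hP (w j) (b j) (hb j),
    hP (w j + χ) (X (b j)) (wt_add hw (hb j)), sub_self, if_pos Q.zero_mem, one_smul,
    add_sub_cancel_left, if_neg hcon, zero_smul] at h1
  exact hj h1.symm

/-- **A Lie subalgebra of maximal rank with the same commutant is everything.** -/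
theorem eq_of_commutant {G L t : Submodule K (End K V)} (hG : IsLie G) (hndG : NonDeg G)
    (hLG : L ≤ G) (hL : IsLie L) (hndL : NonDeg L) (ht : t ≤ L)
    (hdiag : ∀ a ∈ t, ⨆ μ, End.eigenspace a μ = ⊤) (hct : ∀ a ∈ t, ∀ b ∈ t, a * b = b * a)
    (hcen : ∀ x ∈ G, (∀ a ∈ t, a * x = x * a) → x ∈ t)
    (hcomm : ∀ P : End K V, (∀ Y ∈ L, P * Y = Y * P) → ∀ X ∈ G, P * X = X * P) : L = G := by
  have T : Tor G t := ⟨hG, hndG, ht.trans hLG, hdiag, hct, hcen⟩
  have T' : Tor L t := ⟨hL, hndL, ht, hdiag, hct, fun x hx => hcen x (hLG hx)⟩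
  refine le_antisymm hLG ?_
  show ∀ X ∈ G, X ∈ L
  refine wt_induction t hdiag hct G (fun a ha X hX => hG a (hLG (ht ha)) X hX)
    (P := fun X => X ∈ L) L.zero_mem (fun X Y _ _ hX hY => L.add_mem hX hY) ?_
  intro χ X hX hw
  show X ∈ L
  by_cases hX0 : X = 0
  · rw [hX0]; exact L.zero_mem
  have h1 := mem_closure T T' hcomm hX hX0 hw
  obtain ⟨l, hl, hsum⟩ : ∃ l : List (t → K), (∀ ψ ∈ l, ψ ∈ Wts t L) ∧ l.sum = χ := by
    have hneg : ∀ ψ ∈ Wts t L, -ψ ∈ Wts t L := by
      rintro ψ ⟨⟨a0, ha0⟩, Y, hY, hY0, hYw⟩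
      obtain ⟨f, hf, hfw, htr⟩ := T'.exists_dual hY hYw hY0
      refine ⟨⟨a0, by rw [Pi.neg_apply]; exact neg_ne_zero.2 ha0⟩, f, hf, ?_, hfw⟩
      rintro rfl
      rw [mul_zero, map_zero] at htr
      exact htr rfl
    have key : ∀ χ' ∈ AddSubgroup.closure (Wts t L), ∃ l : List (t → K),
        (∀ ψ ∈ l, ψ ∈ Wts t L) ∧ l.sum = χ' := by
      intro χ' hχ'
      induction hχ' using AddSubgroup.closure_induction with
      | mem x hx => exact ⟨[x], fun ψ hψ => by rw [List.mem_singleton.1 hψ]; exact hx, by simp⟩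
      | zero => exact ⟨[], fun ψ hψ => absurd hψ List.not_mem_nil, List.sum_nil⟩
      | add x y _ _ hx hy =>
        obtain ⟨l1, h1, rfl⟩ := hx
        obtain ⟨l2, h2, rfl⟩ := hy
        refine ⟨l1 ++ l2, fun ψ hψ => ?_, List.sum_append⟩
        rcases List.mem_append.1 hψ with h | h
        · exact h1 ψ h
        · exact h2 ψ h
      | neg x _ hx =>
        obtain ⟨l, h, rfl⟩ := hx
        refine ⟨l.map (fun y => -y), fun ψ hψ => ?_, (List.sum_neg l).symm⟩
        obtain ⟨y, hy, rfl⟩ := List.mem_map.1 hψ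
        exact hneg y (h y hy)
    exact key χ h1
  rw [← hsum] at hw
  exact mem_of_sum T T' hLG l.length l rfl hl X hX hw

end Pool.Agent.Q65.KL
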