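import Pool.Agent.Q65.KL2

/-!
# Complete reducibility implies that the trace form is nondegenerate
-/

set_option autoImplicit false
set_option linter.unusedSectionVars false

namespace Pool.Agent.Q65.KL

open Module Polynomial Pool.Agent.Y114.RM Pool.Agent.Y212.RM

/-- the radical of the trace form -/
def rad {k : Type} [Field k] {V : Type} [AddCommGroup V] [Module k V]
    (L : Submodule k (End k V)) : Submodule k (End k V) where
  carrier := {X | X ∈ L ∧ ∀ Y ∈ L, LinearMap.trace k V (X * Y) = 0}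
  add_mem' := by
    rintro a b ⟨ha, ha'⟩ ⟨hb, hb'⟩
    refine ⟨L.add_mem ha hb, fun Y hY => ?_⟩
    rw [add_mul, LinearMap.map_add, ha' Y hY, hb' Y hY, add_zero]
  zero_mem' := ⟨L.zero_mem, fun Y _ => by rw [zero_mul, LinearMap.map_zero]⟩
  smul_mem' := by
    rintro c a ⟨ha, ha'⟩
    refine ⟨L.smul_mem c ha, fun Y hY => ?_⟩
    rw [smul_mul_assoc, LinearMap.map_smul, ha' Y hY, smul_zero]

theorem rad_ideal {k : Type} [Field k] {V : Type} [AddCommGroup V] [Module k V]
    [FiniteDimensional k V] {L : Submodule k (End k V)} (hL : IsLie L) :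
    ∀ a ∈ L, ∀ X ∈ rad L, a * X - X * a ∈ rad L := by
  rintro a ha X ⟨hX, hX'⟩
  refine ⟨hL a ha X hX, fun Y hY => ?_⟩
  have h1 : (a * X - X * a) * Y = (a * (X * Y) - (X * Y) * a) - X * (a * Y - Y * a) := by
    noncomm_ring
  rw [h1, LinearMap.map_sub, trace_lie_zero, hX' _ (hL a ha Y hY), sub_zero]

variable {K : Type} [Field K] [CharZero K] [IsAlgClosed K] {V : Type} [AddCommGroup V]
  [Module K V] [FiniteDimensional K V]

theorem rad_torus {G L t : Submodule K (End K V)} (T : Tor G t) (ht : t ≤ L) {X : End K V}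
    (hX : X ∈ rad L) (hXt : X ∈ t) : X = 0 := by
  refine T.nd X (T.le hXt) ?_
  refine wt_induction t T.diag T.comm G (fun a ha Y hY => T.lie a (T.le ha) Y hY)
    (P := fun Y => LinearMap.trace K V (X * Y) = 0) ?_ ?_ ?_
  · show LinearMap.trace K V (X * 0) = 0
    rw [mul_zero, LinearMap.map_zero]
  · intro Y Z _ _ hY hZ
    have hY' : LinearMap.trace K V (X * Y) = 0 := hY
    have hZ' : LinearMap.trace K V (X * Z) = 0 := hZ
    show LinearMap.trace K V (X * (Y + Z)) = 0
    rw [mul_add, LinearMap.map_add, hY', hZ', add_zero]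
  · intro ψ Y hY hψ
    show LinearMap.trace K V (X * Y) = 0
    by_cases h1 : ∃ a : t, ψ a ≠ 0
    · obtain ⟨a, ha⟩ := h1
      refine trace_wt (a := a) (c := 0) (d := ψ a) ?_ (hψ a) (by rwa [zero_add])
      rw [zero_smul, T.comm a a.2 _ hXt, sub_self]
    · push Not at h1
      refine hX.2 Y (ht (T.cen Y hY fun a ha => ?_))
      have h2 := hψ ⟨a, ha⟩
      rw [h1, zero_smul] at h2
      exact sub_eq_zero.1 h2

theorem rad_wt_ne {G L t : Submodule K (End K V)} (T : Tor G t) (hLG : L ≤ G) (ht : t ≤ L)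
    {χ : t → K} {X : End K V} (hX : X ∈ rad L) (hX0 : X ≠ 0)
    (hw : ∀ a : t, (a : End K V) * X - X * a = χ a • X) : ∃ a : t, χ a ≠ 0 := by
  by_contra hcon
  push Not at hcon
  refine hX0 (rad_torus T ht hX (T.cen X (hLG hX.1) fun a ha => ?_))
  have h2 := hw ⟨a, ha⟩
  rw [hcon, zero_smul] at h2
  exact sub_eq_zero.1 h2

/-- sums of weights of the radical are not zero -/
theorem rad_sum {G L t : Submodule K (End K V)} (T : Tor G t) (hLG : L ≤ G) (hL : IsLie L)
    (ht : t ≤ L) (k : ℕ) : ∀ (l : List (t → K)), l.length = k → l ≠ [] →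
      (∀ ψ ∈ l, ψ ∈ Wts t (rad L)) → l.sum ≠ 0 := by
  classical
  induction k with
  | zero => exact fun l hl hl' => absurd (List.length_eq_zero_iff.1 hl) hl'
  | succ k ih =>
    intro l hl hl' hmem hsum
    obtain _ | ⟨χ, l⟩ := l
    · exact hl' rfl
    obtain ⟨⟨a0, ha0⟩, e, he, he0, hwe⟩ := hmem χ List.mem_cons_self
    obtain ⟨f, hf, hfw, htr, h, hht, hh0, hef, hhe, hhf⟩ :=
      T.exists_triple (hLG he.1) hwe he0 ha0
    obtain ⟨a1, a2, a3⟩ := ad_triple hef hhe hhf
    have h2 : χ ⟨h, hht⟩ = 2 := by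
      have h3 := hwe ⟨h, hht⟩
      change h * e - e * h = _ at h3
      rw [hhe, ← ofNat_smul_eq_nsmul K] at h3
      exact (smul_left_injective K he0 h3).symm
    have hint : ∀ ψ ∈ l, ∃ n : ℤ, ψ ⟨h, hht⟩ = n := by
      intro ψ hψ
      obtain ⟨-, Y, hY, hY0, hYw⟩ := hmem ψ (List.mem_cons_of_mem _ hψ)
      refine wt_int a1 a2 a3 (x := Y) hY0 ?_
      rw [adE_apply]
      exact hYw ⟨h, hht⟩
    have hneg : ∃ ψ ∈ l, ∃ n : ℤ, n < 0 ∧ ψ ⟨h, hht⟩ = n := by
      by_contra hcon
      push Not at hcon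
      have hnn : ∀ l' : List (t → K), (∀ ψ ∈ l', ψ ∈ l) → ∃ n : ℤ, 0 ≤ n ∧
          l'.sum ⟨h, hht⟩ = n := by
        intro l'
        induction l' with
        | nil => exact fun _ => ⟨0, le_rfl, by rw [List.sum_nil, Pi.zero_apply, Int.cast_zero]⟩
        | cons ψ l' ih' =>
          intro hl'
          obtain ⟨n, hn, hn'⟩ := ih' fun ψ' h' => hl' ψ' (List.mem_cons_of_mem _ h')
          obtain ⟨m, hm⟩ := hint ψ (hl' ψ List.mem_cons_self)
          have hm0 : 0 ≤ m := by
            by_contra hm0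
            exact hcon ψ (hl' ψ List.mem_cons_self) m (not_le.1 hm0) hm
          refine ⟨m + n, add_nonneg hm0 hn, ?_⟩
          rw [List.sum_cons, Pi.add_apply, hm, hn', Int.cast_add]
      obtain ⟨n, hn, hn'⟩ := hnn l fun _ h => h
      have h4 := congrFun hsum ⟨h, hht⟩
      rw [List.sum_cons, Pi.add_apply, h2, hn', Pi.zero_apply] at h4
      have h5 : (2 : ℤ) + n = 0 := by exact_mod_cast h4
      omega
    obtain ⟨β, hβ, n, hn, hβn⟩ := hneg
    obtain ⟨-, Y, hY, hY0, hYw⟩ := hmem β (List.mem_cons_of_mem _ hβ)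
    have hZ0 : e * Y - Y * e ≠ 0 := by
      intro h0
      obtain ⟨m, hm⟩ := prim_nat a1 a2 a3 (x := Y) (c := n) hY0 (by
        rw [adE_apply, ← hβn]
        exact hYw ⟨h, hht⟩) (by rw [adE_apply]; exact h0)
      have h4 : n = (m : ℤ) := by exact_mod_cast hm
      omega
    have hZ : e * Y - Y * e ∈ rad L := rad_ideal hL e he.1 Y hY
    have hZw : ∀ a : t, (a : End K V) * (e * Y - Y * e) - (e * Y - Y * e) * a =
        (χ + β) a • (e * Y - Y * e) := by
      intro a
      have h3 := hwe a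
      have h4 := hYw a
      have h5 : (a : End K V) * (e * Y - Y * e) - (e * Y - Y * e) * a =
          (a * e - e * a) * Y + e * (a * Y - Y * a) - (a * Y - Y * a) * e
            - Y * (a * e - e * a) := by noncomm_ring
      rw [h5, h3, h4, Pi.add_apply, smul_mul_assoc, smul_mul_assoc, mul_smul_comm,
        mul_smul_comm]
      module
    have hlen : ((χ + β) :: l.erase β).length = k := by
      rw [List.length_cons, List.length_erase_of_mem hβ]
      rw [List.length_cons] at hl
      have : 0 < l.length := List.length_pos_of_mem hβ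
      omega
    refine ih ((χ + β) :: l.erase β) hlen (List.cons_ne_nil _ _) ?_ ?_
    · intro ψ hψ
      rcases List.mem_cons.1 hψ with rfl | hψ
      · exact ⟨rad_wt_ne T hLG ht hZ hZ0 hZw, _, hZ, hZ0, hZw⟩
      · exact hmem ψ (List.mem_cons_of_mem _ (List.mem_of_mem_erase hψ))
    · rw [List.sum_cons, add_assoc, List.sum_erase hβ]
      rw [List.sum_cons] at hsum
      exact hsum

/-- nonzero stable subspaces contain nonzero vectors killed by the radical -/
theorem exists_killed {G L t : Submodule K (End K V)} (T : Tor G t) (hLG : L ≤ G) (hL : IsLie L)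
    (ht : t ≤ L) {W : Submodule K V} (hW0 : W ≠ ⊥) (hW : ∀ X ∈ L, ∀ x ∈ W, X x ∈ W) :
    ∃ v ∈ W, v ≠ 0 ∧ ∀ X ∈ rad L, X v = 0 := by
  classical
  obtain ⟨J, _, b, w, hb⟩ := exists_wt_basis t T.diag T.comm
  obtain ⟨r, hr⟩ : ∃ r : J → J → Prop, ∀ j i, r j i ↔ ∃ l : List (t → K), l ≠ [] ∧
      (∀ ψ ∈ l, ψ ∈ Wts t (rad L)) ∧ w j = w i + l.sum := ⟨_, fun _ _ => Iff.rfl⟩
  have hirr : Std.Irrefl r := ⟨by
    intro j hj
    obtain ⟨l, hl, hmem, hsum⟩ := (hr j j).1 hj
    exact rad_sum T hLG hL ht l.length l rfl hl hmem (by simpa using hsum.symm)⟩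
  have htrans : IsTrans J r := ⟨by
    intro a b c hab hbc
    obtain ⟨l, hl, hmem, hsum⟩ := (hr a b).1 hab
    obtain ⟨l', hl', hmem', hsum'⟩ := (hr b c).1 hbc
    refine (hr a c).2 ⟨l' ++ l, by simp [hl], ?_, ?_⟩
    · intro ψ hψ
      rcases List.mem_append.1 hψ with h | h
      · exact hmem' ψ h
      · exact hmem ψ h
    · rw [hsum, hsum', List.sum_append, add_assoc]⟩
  have hwf : WellFounded r := Finite.wellFounded_of_trans_of_irrefl r
  -- the weights of `W`
  obtain ⟨A, hA⟩ : ∃ A : Set J, A = {j | ∃ v ∈ W, v ≠ 0 ∧ ∀ a : t, (a : End K V) v = w j a • v} :=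
    ⟨_, rfl⟩
  have hwtA : ∀ (χ : t → K) (v : V), v ∈ W → v ≠ 0 → (∀ a : t, (a : End K V) v = χ a • v) →
      ∃ j ∈ A, w j = χ := by
    intro χ v hv hv0 hvw
    obtain ⟨j, hj⟩ : ∃ j, b.repr v j ≠ 0 := by
      by_contra hcon
      push Not at hcon
      apply hv0
      apply b.repr.injective
      rw [map_zero]
      exact Finsupp.ext hcon
    have h1 := wt_coord hb hvw j hj
    refine ⟨j, ?_, h1⟩
    rw [hA]
    exact ⟨v, hv, hv0, by rw [h1]; exact hvw⟩
  -- a weight vector in `W`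
  have hne : A.Nonempty := by
    -- restrict the torus to `W`
    let f : t → End K W := fun a => (a : End K V).restrict (fun x hx => hW a (ht a.2) x hx)
    have hfc : Pairwise (Function.onFun Commute f) := by
      intro a c _
      refine LinearMap.ext fun x => Subtype.ext ?_
      exact LinearMap.congr_fun (T.comm a a.2 c c.2) (x : V)
    have hss : ∀ a : t, (f a).IsSemisimple := by
      intro a
      obtain ⟨p, hp, hpa⟩ := exists_squarefree (T.diag a a.2)
      have h1 := End.isSemisimple_of_squarefree_aeval_eq_zero hp hpa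
      have hp' : W ∈ End.invtSubmodule (a : End K V) := fun x hx => hW a (ht a.2) x hx
      exact h1.restrict hp'
    have h2 := End.iSup_iInf_maxGenEigenspace_eq_top_of_iSup_maxGenEigenspace_eq_top_of_commute f
      hfc (fun a => End.iSup_maxGenEigenspace_eq_top _)
    by_contra hemp
    rw [Set.not_nonempty_iff_eq_empty] at hemp
    apply hW0
    have h3 : (⊤ : Submodule K W) = ⊥ := by
      rw [← h2, iSup_eq_bot]
      intro χ
      rw [eq_bot_iff]
      intro x hx
      by_contra hx0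
      have hx0' : (x : V) ≠ 0 := fun h => hx0 ((Submodule.mem_bot K).2 (Subtype.ext h))
      obtain ⟨j, hj, -⟩ := hwtA χ x x.2 hx0' (by
        intro a
        have h4 := (Submodule.mem_iInf _).1 hx a
        rw [(hss a).isFinitelySemisimple.maxGenEigenspace_eq_eigenspace,
          End.mem_eigenspace_iff] at h4
        exact congrArg Subtype.val h4)
      rw [hemp] at hj
      exact hj
    rw [eq_bot_iff]
    intro x hx
    have h4 : (⟨x, hx⟩ : W) ∈ (⊤ : Submodule K W) := trivial
    rw [h3, Submodule.mem_bot] at h4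
    exact (Submodule.mem_bot K).2 (congrArg Subtype.val h4)
  obtain ⟨i, hi, hmin⟩ := hwf.has_min A hne
  obtain ⟨v, hv, hv0, hvw⟩ := by rw [hA] at hi; exact hi
  refine ⟨v, hv, hv0, ?_⟩
  refine wt_induction t T.diag T.comm (rad L) (fun a ha X hX => rad_ideal hL a (ht ha) X hX)
    (P := fun X => X v = 0) (LinearMap.zero_apply v) ?_ ?_
  · intro X Y _ _ hX hY
    have hX' : X v = 0 := hX
    have hY' : Y v = 0 := hY
    show (X + Y) v = 0
    rw [LinearMap.add_apply, hX', hY', add_zero]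
  · intro ψ X hX hψ
    show X v = 0
    by_contra hXv
    have hX0 : X ≠ 0 := by
      rintro rfl
      exact hXv (LinearMap.zero_apply v)
    obtain ⟨j, hj, hjw⟩ := hwtA (w i + ψ) (X v) (hW X hX.1 v hv) hXv (wt_add hψ hvw)
    refine hmin j hj ((hr j i).2 ⟨[ψ], List.cons_ne_nil _ _, ?_, ?_⟩)
    · intro ψ' hψ'
      rw [List.mem_singleton.1 hψ']
      exact ⟨rad_wt_ne T hLG ht hX hX0 hψ, X, hX, hX0, hψ⟩
    · rw [hjw, List.sum_singleton]

end Pool.Agent.Q65.KL
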