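import Pool.Agent.Q65.KL3
import Pool.Agent.Y114.RM.Torus

/-!
# Maximal tori and commutants over a subfield of the complex numbers
-/

set_option autoImplicit false
set_option linter.unusedSectionVars false
set_option linter.unusedVariables false

namespace Pool.Agent.Q65.KL

open Module Polynomial TensorProduct Pool.Agent.TH118.SG Pool.Agent.Y114.MU Pool.Agent.Y114.RM
  Pool.Agent.Y212.RM

variable {k : Type} [Field k] [CharZero k] [Algebra k ℂ] {V : Type} [AddCommGroup V] [Module k V]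
  [FiniteDimensional k V]

theorem pv_sep {z : ℂ ⊗[k] V} (h : ∀ π : ℂ →ₗ[k] k, pv π z = 0) : z = 0 := by
  classical
  obtain ⟨n, b⟩ : Σ n, Basis (Fin n) k V := ⟨_, finBasis k V⟩
  apply (b.baseChange ℂ).repr.injective
  rw [map_zero]
  refine Finsupp.ext fun i => ?_
  rw [Finsupp.zero_apply, ← Module.forall_dual_apply_eq_zero_iff k]
  intro π
  have h1 : ∀ y : ℂ ⊗[k] V, b.repr (pv π y) i = π ((b.baseChange ℂ).repr y i) := by
    intro y
    induction y with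
    | zero => simp only [map_zero, Finsupp.zero_apply]
    | add x y hx hy => simp only [map_add, Finsupp.add_apply, hx, hy]
    | tmul c v =>
      rw [pv_tmul, map_smul, Finsupp.smul_apply, Basis.baseChange_repr_tmul, map_smul,
        smul_eq_mul, smul_eq_mul, mul_comm]
  rw [← h1, h π, map_zero, Finsupp.zero_apply]

theorem pM_sep {Y : End ℂ (ℂ ⊗[k] V)} (h : ∀ π : ℂ →ₗ[k] k, pM π Y = (0 : End k V)) : Y = 0 := by
  refine LinearMap.ext fun z => ?_
  rw [LinearMap.zero_apply]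
  induction z with
  | zero => exact map_zero _
  | add x y hx hy => rw [map_add, hx, hy, add_zero]
  | tmul c v =>
    have h1 : Y ((1 : ℂ) ⊗ₜ[k] v) = 0 := pv_sep fun π => by
      have := LinearMap.congr_fun (h π) v
      rwa [pM_apply] at this
    have h2 : c ⊗ₜ[k] v = c • ((1 : ℂ) ⊗ₜ[k] v) := by
      rw [TensorProduct.smul_tmul', smul_eq_mul, mul_one]
    rw [h2, map_smul, h1, smul_zero]

/-- the commutants over `ℂ` -/
theorem comm_bc {L G : Submodule k (End k V)}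
    (hcomm : ∀ P : End k V, (∀ X ∈ L, X * P = P * X) → ∀ X ∈ G, X * P = P * X)
    (P : End ℂ (ℂ ⊗[k] V)) (hP : ∀ Y ∈ bcS ℂ L, P * Y = Y * P) :
    ∀ X ∈ bcS ℂ G, P * X = X * P := by
  have h1 : ∀ X ∈ G, P * X.baseChange ℂ = X.baseChange ℂ * P := by
    intro X hX
    rw [← sub_eq_zero]
    apply pM_sep
    intro π
    have h2 : ∀ Y ∈ L, Y * pM π P = pM π P * Y := by
      intro Y hY
      rw [← pM_bc_mul, ← pM_mul_bc, hP _ (mem_bcS hY)]
    have h3 := hcomm (pM π P) h2 X hX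
    have h4 : ∀ A B : End ℂ (ℂ ⊗[k] V), (pM π (A - B) : End k V) = pM π A - pM π B := by
      intro A B
      refine LinearMap.ext fun v => ?_
      rw [LinearMap.sub_apply, pM_apply, pM_apply, pM_apply, LinearMap.sub_apply, map_sub]
    rw [h4, pM_mul_bc, pM_bc_mul, h3, sub_self]
  intro X hX
  induction hX using Submodule.span_induction with
  | mem X hX =>
    obtain ⟨X, hX, rfl⟩ := hX
    exact h1 X hX
  | zero => rw [mul_zero, zero_mul]
  | add X Y _ _ hX hY => rw [mul_add, add_mul, hX, hY]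
  | smul c X _ hX => rw [mul_smul_comm, smul_mul_assoc, hX]

/-- the vectors killed by the radical of the trace form -/
def kr (L : Submodule k (End k V)) : Submodule k V where
  carrier := {v | ∀ X ∈ rad L, X v = 0}
  add_mem' := fun ha hb X hX => by rw [map_add, ha X hX, hb X hX, add_zero]
  zero_mem' := fun X _ => map_zero X
  smul_mem' := fun c a ha X hX => by rw [map_smul, ha X hX, smul_zero]

/-- complete reducibility implies that the trace form is nondegenerate -/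
theorem nonDeg_of_cr (h : Inputs) {L G : Submodule k (End k V)} (hL : IsLie L) (hG : IsLie G)
    (hnd : NonDeg G) (hLG : L ≤ G) {t : Submodule ℂ (End ℂ (ℂ ⊗[k] V))} (htL : t ≤ bcS ℂ L)
    (hdiag : ∀ a ∈ t, ⨆ μ, End.eigenspace a μ = ⊤) (hct : ∀ a ∈ t, ∀ b ∈ t, a * b = b * a)
    (hcen : ∀ x ∈ bcS ℂ G, (∀ a ∈ t, a * x = x * a) → x ∈ t)
    (hCR : ∃ W' : Submodule k V, (∀ X ∈ L, ∀ x ∈ W', X x ∈ W') ∧ IsCompl (kr L) W') :
    NonDeg L := by
  have hLC : IsLie (bcS ℂ L) := (h.bc k ℂ V L).2.1 hL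
  have hLGC : bcS ℂ L ≤ bcS ℂ G := bcS_mono hLG
  have T : Tor (bcS ℂ G) t := ⟨(h.bc k ℂ V G).2.1 hG, (h.bc k ℂ V G).2.2.1 hnd,
    htL.trans hLGC, hdiag, hct, hcen⟩
  -- the radical
  have hrad : ∀ X ∈ rad L, X.baseChange ℂ ∈ rad (bcS ℂ L) := by
    rintro X ⟨hX, hX'⟩
    refine ⟨mem_bcS hX, fun Y hY => ?_⟩
    induction hY using Submodule.span_induction with
    | mem Y hY =>
      obtain ⟨Z, hZ, rfl⟩ := hY
      rw [← bc_mul, LinearMap.trace_baseChange, hX' Z hZ, map_zero]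
    | zero => rw [mul_zero, map_zero]
    | add Y Z _ _ hY hZ => rw [mul_add, map_add, hY, hZ, add_zero]
    | smul c Y _ hY => rw [mul_smul_comm, map_smul, hY, smul_zero]
  obtain ⟨W', hW', hc⟩ := hCR
  have hbot : W' = ⊥ := by
    by_contra hne
    have h1 : W'.baseChange ℂ ≠ ⊥ := by
      intro h0
      apply hne
      rw [eq_bot_iff]
      intro x hx
      have h2 : (1 : ℂ) ⊗ₜ[k] x ∈ W'.baseChange ℂ := Submodule.tmul_mem_baseChange_of_mem 1 hx
      rw [h0, Submodule.mem_bot] at h2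
      obtain ⟨π, hπ⟩ := exists_pi k ℂ
      have h3 := congrArg (pv π) h2
      rw [pv_tmul, hπ, one_smul, map_zero] at h3
      exact (Submodule.mem_bot k).2 h3
    obtain ⟨z, hz, hz0, hzk⟩ := exists_killed T hLGC hLC htL h1 (bcS_stable hW')
    apply hz0
    apply pv_sep
    intro π
    have h2 : pv π z ∈ W' := pv_mem π hz
    have h3 : pv π z ∈ kr L := by
      intro X hX
      rw [← pv_bc, hzk _ (hrad X hX), map_zero]
    exact Submodule.disjoint_def.1 hc.disjoint _ h3 h2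
  have htop : kr L = ⊤ := by
    have h1 := hc.sup_eq_top
    rwa [hbot, sup_bot_eq] at h1
  intro X hX hXY
  refine LinearMap.ext fun v => ?_
  have h1 : v ∈ kr L := by rw [htop]; trivial
  exact h1 X ⟨hX, hXY⟩

section rep

variable {Γ : Type} [Group Γ] (ρ : Representation k Γ V)

theorem kr_stable {L : Submodule k (End k V)} (hAd : ∀ γ, ∀ X ∈ L, AdE (ρ γ) (ρ γ⁻¹) X ∈ L)
    (γ : Γ) : ∀ x ∈ kr L, ρ γ x ∈ kr L := by
  intro x hx X hX
  have h1 : AdE (ρ γ⁻¹) (ρ γ) X ∈ rad L := by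
    have h2 : AdE (ρ γ⁻¹) (ρ γ) X = AdE (ρ γ⁻¹) (ρ γ⁻¹⁻¹) X := by rw [inv_inv]
    refine ⟨by rw [h2]; exact hAd γ⁻¹ X hX.1, fun Y hY => ?_⟩
    have h3 := hX.2 _ (hAd γ Y hY)
    rw [AdE_apply] at h3 ⊢
    rw [← h3]
    have h4 : ρ γ⁻¹ * (X * ρ γ) * Y = ρ γ⁻¹ * (X * (ρ γ * Y)) := by simp only [mul_assoc]
    have h5 : X * (ρ γ * (Y * ρ γ⁻¹)) = (X * (ρ γ * Y)) * ρ γ⁻¹ := by simp only [mul_assoc]
    rw [h4, h5, LinearMap.trace_mul_comm]
  have h2 := hx _ h1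
  rw [AdE_apply, Module.End.mul_apply, Module.End.mul_apply] at h2
  have h3 := congrArg (ρ γ) h2
  rw [map_zero, ← Module.End.mul_apply, rho_mul_inv, Module.End.one_apply] at h3
  exact h3

/-- semisimplicity implies that the trace form is nondegenerate -/
theorem nonDeg_of_ss (h : Inputs) {L G : Submodule k (End k V)} (hLT : ∀ X, X ∈ L ↔ X ∈ LT ρ)
    (hL : IsLie L) (hAd : ∀ γ, ∀ X ∈ L, AdE (ρ γ) (ρ γ⁻¹) X ∈ L) (hG : IsLie G)
    (hnd : NonDeg G) (hLG : L ≤ G) {t : Submodule ℂ (End ℂ (ℂ ⊗[k] V))} (htL : t ≤ bcS ℂ L)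
    (hdiag : ∀ a ∈ t, ⨆ μ, End.eigenspace a μ = ⊤) (hct : ∀ a ∈ t, ∀ b ∈ t, a * b = b * a)
    (hcen : ∀ x ∈ bcS ℂ G, (∀ a ∈ t, a * x = x * a) → x ∈ t)
    (hss : ∀ W : Submodule k V, (∀ γ, ∀ x ∈ W, ρ γ x ∈ W) →
      ∃ W' : Submodule k V, (∀ γ, ∀ x ∈ W', ρ γ x ∈ W') ∧ IsCompl W W') : NonDeg L := by
  refine nonDeg_of_cr h hL hG hnd hLG htL hdiag hct hcen ?_
  obtain ⟨W', hW', hc⟩ := hss (kr L) (kr_stable ρ hAd)
  refine ⟨W', fun X hX => ((hLT X).1 hX).1 W' ⟨⊤, inferInstance, fun γ _ => hW' γ⟩, hc⟩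

end rep

/-- **Maximal rank and the same commutant.** -/
theorem full_of_comm (h : Inputs) {L G : Submodule k (End k V)} (hL : IsLie L) (hG : IsLie G)
    (hndG : NonDeg G) (hndL : NonDeg L) (hLG : L ≤ G) {t : Submodule ℂ (End ℂ (ℂ ⊗[k] V))}
    (htL : t ≤ bcS ℂ L)
    (hdiag : ∀ a ∈ t, ⨆ μ, End.eigenspace a μ = ⊤) (hct : ∀ a ∈ t, ∀ b ∈ t, a * b = b * a)
    (hcen : ∀ x ∈ bcS ℂ G, (∀ a ∈ t, a * x = x * a) → x ∈ t)
    (hcomm : ∀ P : End k V, (∀ X ∈ L, X * P = P * X) → ∀ X ∈ G, X * P = P * X) : L = G := by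
  refine (h.bc k ℂ V G).2.2.2.2.1 L hLG ?_
  exact eq_of_commutant ((h.bc k ℂ V G).2.1 hG) ((h.bc k ℂ V G).2.2.1 hndG) (bcS_mono hLG)
    ((h.bc k ℂ V L).2.1 hL) ((h.bc k ℂ V L).2.2.1 hndL) htL hdiag hct hcen (comm_bc hcomm)

end Pool.Agent.Q65.KL
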