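import Pool.Agent.Q65.KL2

/-!
# Class projections
-/

set_option autoImplicit false
set_option linter.unusedSectionVars false

namespace Pool.Agent.Q65.KL

open Module Polynomial Pool.Agent.Y114.RM Pool.Agent.Y212.RM

variable {K : Type} [Field K] [CharZero K] [IsAlgClosed K] {V : Type} [AddCommGroup V]
  [Module K V] [FiniteDimensional K V]

open scoped Classical in
/-- `P` is the projection on the weight spaces for the weights in a class modulo the group
generated by `R` -/
def IsClassProj (t : Submodule K (End K V)) (R : Set (t → K)) (P : End K V) : Prop :=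
  ∃ χ₀ : t → K, ∀ (χ : t → K) (x : V), (∀ a : t, (a : End K V) x = χ a • x) →
    P x = (if χ - χ₀ ∈ AddSubgroup.closure R then (1 : K) else 0) • x

open scoped Classical in
/-- class projections exist and commute with `L` -/
theorem exists_classProj {L t : Submodule K (End K V)} (T' : Tor L t) (χ₀ : t → K) :
    ∃ P : End K V, (∀ (χ : t → K) (x : V), (∀ a : t, (a : End K V) x = χ a • x) →
      P x = (if χ - χ₀ ∈ AddSubgroup.closure (Wts t L) then (1 : K) else 0) • x) ∧
      ∀ Y ∈ L, P * Y = Y * P := by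
  obtain ⟨Q, hQ⟩ : ∃ Q : AddSubgroup (t → K), Q = AddSubgroup.closure (Wts t L) := ⟨_, rfl⟩
  rw [← hQ]
  obtain ⟨J, _, b, w, hb⟩ := exists_wt_basis t T'.diag T'.comm
  obtain ⟨P, hP⟩ := exists_scal hb fun χ' => if χ' - χ₀ ∈ Q then 1 else 0
  refine ⟨P, hP, ?_⟩
  refine wt_induction t T'.diag T'.comm L (fun a ha Y hY => T'.lie a (T'.le ha) Y hY)
    (P := fun Y => P * Y = Y * P) ?_ ?_ ?_
  · show P * 0 = 0 * P
    rw [mul_zero, zero_mul]
  · intro Y Z _ _ hY hZ
    have hY' : P * Y = Y * P := hY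
    have hZ' : P * Z = Z * P := hZ
    show P * (Y + Z) = (Y + Z) * P
    rw [mul_add, add_mul, hY', hZ']
  · intro ψ Y hY hψ
    show P * Y = Y * P
    by_cases hY0 : Y = 0
    · rw [hY0, mul_zero, zero_mul]
    have hψQ : ψ ∈ Q := by
      by_cases hψ0 : ∃ a : t, ψ a ≠ 0
      · rw [hQ]
        exact AddSubgroup.subset_closure ⟨hψ0, Y, hY, hY0, hψ⟩
      · push Not at hψ0
        have : ψ = 0 := funext hψ0
        rw [this]
        exact Q.zero_mem
    refine b.ext fun i => ?_
    rw [Module.End.mul_apply, Module.End.mul_apply, hP (w i) (b i) (hb i), map_smul,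
      hP (w i + ψ) (Y (b i)) (wt_add hψ (hb i))]
    congr 1
    have h1 : w i + ψ - χ₀ ∈ Q ↔ w i - χ₀ ∈ Q := by
      rw [show w i + ψ - χ₀ = (w i - χ₀) + ψ by abel]
      exact Q.add_mem_cancel_right hψQ
    simp only [h1]

/-- the second half: the weights of `G` are sums of weights of `L` -/
theorem mem_closure' {G L t : Submodule K (End K V)} (T : Tor G t) (T' : Tor L t)
    (hcomm : ∀ P : End K V, IsClassProj t (Wts t L) P → (∀ Y ∈ L, P * Y = Y * P) →
      ∀ X ∈ G, P * X = X * P)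
    {χ : t → K} {X : End K V} (hX : X ∈ G) (hX0 : X ≠ 0)
    (hw : ∀ a : t, (a : End K V) * X - X * a = χ a • X) :
    χ ∈ AddSubgroup.closure (Wts t L) := by
  classical
  by_contra hcon
  obtain ⟨Q, hQ⟩ : ∃ Q : AddSubgroup (t → K), Q = AddSubgroup.closure (Wts t L) := ⟨_, rfl⟩
  rw [← hQ] at hcon
  obtain ⟨J, _, b, w, hb⟩ := exists_wt_basis t T.diag T.comm
  obtain ⟨j, hj⟩ : ∃ j, X (b j) ≠ 0 := by
    by_contra h1
    push Not at h1
    exact hX0 (b.ext fun j => by rw [h1 j, LinearMap.zero_apply])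
  obtain ⟨P, hP⟩ := exists_scal hb fun χ' => if χ' - w j ∈ Q then 1 else 0
  have hPL : ∀ Y ∈ L, P * Y = Y * P := by
    refine wt_induction t T.diag T.comm L (fun a ha Y hY => T'.lie a (T'.le ha) Y hY)
      (P := fun Y => P * Y = Y * P) ?_ ?_ ?_
    · show P * 0 = 0 * P
      rw [mul_zero, zero_mul]
    · intro Y Z _ _ hY hZ
      have hY' : P * Y = Y * P := hY
      have hZ' : P * Z = Z * P := hZ
      show P * (Y + Z) = (Y + Z) * P
      rw [mul_add, add_mul, hY', hZ']
    · intro ψ Y hY hψ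
      show P * Y = Y * P
      by_cases hY0 : Y = 0
      · rw [hY0, mul_zero, zero_mul]
      have hψQ : ψ ∈ Q := by
        by_cases hψ0 : ∃ a : t, ψ a ≠ 0
        · rw [hQ]
          exact AddSubgroup.subset_closure ⟨hψ0, Y, hY, hY0, hψ⟩
        · push Not at hψ0
          have : ψ = 0 := funext hψ0
          rw [this]
          exact Q.zero_mem
      refine b.ext fun i => ?_
      rw [Module.End.mul_apply, Module.End.mul_apply, hP (w i) (b i) (hb i), map_smul,
        hP (w i + ψ) (Y (b i)) (wt_add hψ (hb i))]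
      congr 1
      have h1 : w i + ψ - w j ∈ Q ↔ w i - w j ∈ Q := by
        rw [show w i + ψ - w j = (w i - w j) + ψ by abel]
        exact Q.add_mem_cancel_right hψQ
      simp only [h1]
  have h1 := LinearMap.congr_fun (hcomm P ⟨w j, by rw [← hQ]; exact hP⟩ hPL X hX) (b j)
  rw [Module.End.mul_apply, Module.End.mul_apply, hP (w j) (b j) (hb j),
    hP (w j + χ) (X (b j)) (wt_add hw (hb j)), sub_self, if_pos Q.zero_mem, one_smul,
    add_sub_cancel_left, if_neg hcon, zero_smul] at h1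
  exact hj h1.symm

/-- **A Lie subalgebra of maximal rank is everything if its class projections commute with `G`.** -/
theorem eq_of_classes {G L t : Submodule K (End K V)} (hG : IsLie G) (hndG : NonDeg G)
    (hLG : L ≤ G) (hL : IsLie L) (hndL : NonDeg L) (ht : t ≤ L)
    (hdiag : ∀ a ∈ t, ⨆ μ, End.eigenspace a μ = ⊤) (hct : ∀ a ∈ t, ∀ b ∈ t, a * b = b * a)
    (hcen : ∀ x ∈ G, (∀ a ∈ t, a * x = x * a) → x ∈ t)
    (hcomm : ∀ P : End K V, IsClassProj t (Wts t L) P → (∀ Y ∈ L, P * Y = Y * P) →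
      ∀ X ∈ G, P * X = X * P) : L = G := by
  have T : Tor G t := ⟨hG, hndG, ht.trans hLG, hdiag, hct, hcen⟩
  have T' : Tor L t := ⟨hL, hndL, ht, hdiag, hct, fun x hx => hcen x (hLG hx)⟩
  refine le_antisymm hLG ?_
  show ∀ X ∈ G, X ∈ L
  refine wt_induction t hdiag hct G (fun a ha X hX => hG a (hLG (ht ha)) X hX)
    (P := fun X => X ∈ L) L.zero_mem (fun X Y _ _ hX hY => L.add_mem hX hY) ?_
  intro χ X hX hw
  show X ∈ L
  by_cases hX0 : X = 0
  · rw [hX0]; exact L.zero_mem
  have h1 := mem_closure' T T' hcomm hX hX0 hw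
  obtain ⟨l, hl, hsum⟩ : ∃ l : List (t → K), (∀ ψ ∈ l, ψ ∈ Wts t L) ∧ l.sum = χ := by
    have hneg : ∀ ψ ∈ Wts t L, -ψ ∈ Wts t L := by
      rintro ψ ⟨⟨a0, ha0⟩, Y, hY, hY0, hYw⟩
      obtain ⟨f, hf, hfw, htr⟩ := T'.exists_dual hY hYw hY0
      refine ⟨⟨a0, by rw [Pi.neg_apply]; exact neg_ne_zero.2 ha0⟩, f, hf, ?_, hfw⟩
      rintro rfl
      rw [mul_zero, map_zero] at htr
      exact htr rfl
    have key : ∀ χ' ∈ AddSubgroup.closure (Wts t L), ∃ l : List (t → K),
        (∀ ψ ∈ l, ψ ∈ Wts t L) ∧ l.sum = χ' := by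
      intro χ' hχ'
      induction hχ' using AddSubgroup.closure_induction with
      | mem x hx => exact ⟨[x], fun ψ hψ => by rw [List.mem_singleton.1 hψ]; exact hx, by simp⟩
      | zero => exact ⟨[], fun ψ hψ => absurd hψ List.not_mem_nil, List.sum_nil⟩
      | add x y _ _ hx hy =>
        obtain ⟨l1, h1, rfl⟩ := hx
        obtain ⟨l2, h2, rfl⟩ := hy
        refine ⟨l1 ++ l2, fun ψ hψ => ?_, List.sum_append⟩
        rcases List.mem_append.1 hψ with h | h
        · exact h1 ψ h
        · exact h2 ψ h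
      | neg x _ hx =>
        obtain ⟨l, h, rfl⟩ := hx
        refine ⟨l.map (fun y => -y), fun ψ hψ => ?_, (List.sum_neg l).symm⟩
        obtain ⟨y, hy, rfl⟩ := List.mem_map.1 hψ
        exact hneg y (h y hy)
    exact key χ h1
  rw [← hsum] at hw
  exact mem_of_sum T T' hLG l.length l rfl hl X hX hw

end Pool.Agent.Q65.KL
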