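import Pool.Agent.Q65.US3

/-!
# Products with arbitrary representations: the main theorem
-/

set_option autoImplicit false
set_option linter.unusedSectionVars false
set_option linter.unusedVariables false

namespace Pool.Agent.Q65.KL

open NumberField IsDedekindDomain Module Polynomial TensorProduct Pool.Agent.TH118.SG
  Pool.Agent.Y114.MU Pool.Agent.Y114.TF Pool.Agent.Y114.GF Pool.Agent.H204R3.GP Pool.Agent.Y114.RM
  Pool.Agent.Y212.RM
open Pool.Agent.W569.FM Pool.Agent.W571.FM Pool.Agent.Y115.R Pool.Agent.Y115.T Pool.Agent.Y115.Chi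

/-- the group generated by the nonzero complex roots of polynomials -/
def rootGp (S : Set ℚ[X]) : Subgroup ℂˣ :=
  Subgroup.closure {u | ∃ p ∈ S, aeval (u : ℂ) p = 0}

/-- the common elements of the groups generated by the roots of the `P i` and of `f` come from the
`P i` for `i ∈ J`, up to torsion -/
def Indep3 {ι : Type} (P : ι → ℚ[X]) (J : Set ι) (f : ℚ[X]) : Prop :=
  ∀ x ∈ rootGp (Set.range P), x ∈ rootGp {f} → ∃ m : ℕ, 0 < m ∧ x ^ m ∈ rootGp (P '' J)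

section gen

variable {k : Type} [Field k] [Algebra k ℂ] {V : Type} [AddCommGroup V] [Module k V]

theorem bcS_bracket {A B D : Submodule k (End k V)}
    (h : ∀ X ∈ A, ∀ Y ∈ B, X * Y - Y * X ∈ D) :
    ∀ X ∈ bcS ℂ A, ∀ Y ∈ bcS ℂ B, X * Y - Y * X ∈ bcS ℂ D := by
  have h1 : ∀ X ∈ A, ∀ Y ∈ bcS ℂ B, X.baseChange ℂ * Y - Y * X.baseChange ℂ ∈ bcS ℂ D := by
    intro X hX Y hY
    have h2 : bcS ℂ B ≤ (bcS ℂ D).comap
        (LinearMap.mulLeft ℂ (X.baseChange ℂ : End ℂ (ℂ ⊗[k] V)) -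
          LinearMap.mulRight ℂ (X.baseChange ℂ : End ℂ (ℂ ⊗[k] V))) := by
      refine Submodule.span_le.2 ?_
      rintro _ ⟨Y, hY, rfl⟩
      have h3 : X.baseChange ℂ * Y.baseChange ℂ - Y.baseChange ℂ * X.baseChange ℂ =
          (X * Y - Y * X).baseChange ℂ := by
        rw [LinearMap.baseChange_sub, bc_mul, bc_mul]
      show X.baseChange ℂ * Y.baseChange ℂ - Y.baseChange ℂ * X.baseChange ℂ ∈ bcS ℂ D
      rw [h3]
      exact mem_bcS (h X hX Y hY)
    exact h2 hY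
  intro X hX Y hY
  have h2 : bcS ℂ A ≤ (bcS ℂ D).comap (LinearMap.mulRight ℂ Y - LinearMap.mulLeft ℂ Y) := by
    refine Submodule.span_le.2 ?_
    rintro _ ⟨X, hX, rfl⟩
    exact h1 X hX Y hY
  exact h2 hX

end gen

section blocks

variable {k : Type} [Field k] [Algebra k ℂ] {ι : Type} [Fintype ι] [DecidableEq ι]
  {V : ι → Type} [∀ i, AddCommGroup (V i)] [∀ i, Module k (V i)]

/-- the endomorphisms whose blocks for `i ∈ J` are zero -/
def zeroOn (J : Set ι) : Submodule k (End k (∀ i, V i)) where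
  carrier := {X | ∀ i ∈ J, blk i X = 0}
  add_mem' := fun ha hb i hi => by rw [map_add, ha i hi, hb i hi, add_zero]
  zero_mem' := fun i _ => map_zero _
  smul_mem' := fun c a ha i hi => by rw [map_smul, ha i hi, smul_zero]

theorem bc_zeroOn {J : Set ι} {X : End ℂ (ℂ ⊗[k] (∀ i, V i))}
    (hX : X ∈ bcS ℂ (zeroOn (k := k) (V := V) J)) {i : ι} (hi : i ∈ J) (x : ℂ ⊗[k] V i) :
    (LinearMap.proj (R := k) (φ := V) i).baseChange ℂ
      (X ((LinearMap.single k V i).baseChange ℂ x)) = 0 := by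
  induction hX using Submodule.span_induction with
  | mem X hX =>
    obtain ⟨Y, hY, rfl⟩ := hX
    have h1 : (LinearMap.proj (R := k) (φ := V) i).baseChange ℂ ∘ₗ Y.baseChange ℂ ∘ₗ
        (LinearMap.single k V i).baseChange ℂ = (blk i Y).baseChange ℂ := by
      rw [← LinearMap.baseChange_comp, ← LinearMap.baseChange_comp]
      rfl
    have h2 := LinearMap.congr_fun h1 x
    rw [LinearMap.comp_apply, LinearMap.comp_apply, hY i hi, LinearMap.baseChange_zero,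
      LinearMap.zero_apply] at h2
    exact h2
  | zero => rw [LinearMap.zero_apply, map_zero]
  | add X Y _ _ hX hY => rw [LinearMap.add_apply, map_add, hX, hY, add_zero]
  | smul c X _ hX => rw [LinearMap.smul_apply, map_smul, hX, smul_zero]

end blocks

section main

variable {Γ : Type} [Group Γ] [TopologicalSpace Γ] [IsTopologicalGroup Γ] [CompactSpace Γ]
  {ι : Type} [Fintype ι] [DecidableEq ι] {n : ι → ℕ} {ℓ : ℕ} [hℓ : Fact ℓ.Prime]
  (ρ : ∀ i, Representation ℚ_[ℓ] Γ (Fin (n i) → ℚ_[ℓ]))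
  {U : Type} [AddCommGroup U] [Module ℚ_[ℓ] U] [FiniteDimensional ℚ_[ℓ] U]
  (σ : Representation ℚ_[ℓ] Γ U)

/-- **Products with arbitrary representations.** -/
theorem local_times (h : Inputs) (h2 : Inputs2)
    (hρ : ∀ i, Continuous fun g => LinearMap.toMatrix' (ρ i g))
    {𝔤 : Submodule ℚ_[ℓ] (End ℚ_[ℓ] (∀ i, Fin (n i) → ℚ_[ℓ]))} (h𝔤 : IsMotivic ρ 𝔤)
    (g₀ : Γ) (P : ι → ℚ[X]) (hP : ∀ i, (ρ i g₀).charpoly = (P i).map (algebraMap ℚ ℚ_[ℓ]))
    {r : ℕ} (hr : IndependentRoots r P) (hrk : RankAtMost 𝔤 r) (hss : SemisimpleRep ρ)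
    (f : ℚ[X]) (hf : aeval (σ g₀) (f.map (algebraMap ℚ ℚ_[ℓ])) = 0) (J : Set ι)
    (hJ : ∀ i ∈ J, ∀ X ∈ 𝔤, ∀ Y ∈ 𝔤, blk i X * blk i Y = blk i Y * blk i X)
    (hind : Indep3 P J f) (X : End ℚ_[ℓ] (∀ i, Fin (n i) → ℚ_[ℓ])) (hX : X ∈ cenT ρ 𝔤)
    (hXJ : ∀ i ∈ J, blk i X = 0) :
    X.prodMap (0 : End ℚ_[ℓ] U) ∈ LT (sumR (sumRep ρ) σ) := by
  classical
  obtain ⟨j, hj⟩ := exists_j ℓ ℚ_[ℓ] ℚ (algebraMap ℚ ℚ_[ℓ]) (algebraMap ℚ ℂ)
  let _ : Algebra ℚ_[ℓ] ℂ := j.toAlgebra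
  obtain ⟨L₀, hL₀, -, -, -⟩ := h.lie ℚ_[ℓ] (∀ i, Fin (n i) → ℚ_[ℓ]) _ (sumRep ρ)
  obtain ⟨L, hL, hLie, hAd, -⟩ := h.lie ℚ_[ℓ] ((∀ i, Fin (n i) → ℚ_[ℓ]) × U) _
    (sumR (sumRep ρ) σ)
  have hL₀G : L₀ ≤ 𝔤 := fun X hX =>
    h𝔤.algebraic X fun m φ hφ => ((hL₀ X).1 hX).2 m φ (h𝔤.tate m φ hφ)
  have hd : ∀ X ∈ L, Diag X := fun X hX => diag_of_LT _ _ ((hL X).1 hX)
  have hLT : ∀ X ∈ prV L, ∀ (m : ℕ) (φ : Tensor ℚ_[ℓ] (∀ i, Fin (n i) → ℚ_[ℓ]) m),
      TateTensor (sumRep ρ) φ → KillsTensor X φ := by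
    intro X hX m φ hφ
    obtain ⟨X', hX', rfl⟩ := mem_prV.1 hX
    exact prV_kills _ _ ((hL X').1 hX') m φ hφ
  have hLG : prV L ≤ 𝔤 := fun X hX => h𝔤.algebraic X fun m φ hφ => hLT X hX m φ (h𝔤.tate m φ hφ)
  obtain ⟨z, hz, hindz⟩ := hr
  have hz' : ∀ i, End.HasEigenvalue ((sumRep ρ g₀).baseChange ℂ) (z i) := by
    intro i
    obtain ⟨a, ha⟩ := hz i
    exact sumRep_eigen ρ g₀ (hP a) ha
  have hcen := torus_cen (sumRep ρ) h h2.jord h2.cartan hL₀ hL₀G h𝔤.bracket h𝔤.nondeg h𝔤.algebraic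
    hrk g₀ z hz' hindz
  have htL := tor_prV (sumRep ρ) σ h hL g₀
  have hND : NonDeg (prV L) := nonDeg_prV (sumRep ρ) σ h hL hLie hAd h𝔤.bracket h𝔤.nondeg hLG htL
    (tor_diag _) (tor_comm _) hcen hss
  have hLie' : IsLie (prV L) := prV_lie hLie hd
  obtain ⟨Δ', hΔ', hcomm⟩ := h2.tfr ℓ ι n _ ρ hρ (comm (prV L))
    (comm_conj (sumRep ρ) (prV_ad _ _ hAd)) (comm_order_prV (sumRep ρ) σ h h2 hL)
  have hfull : prV L = cenT ρ 𝔤 := le_of_central ρ h hLie' h𝔤.bracket h𝔤.nondeg hND hLG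
    (le_cenT ρ hLG hLT) (cenT_le ρ 𝔤) (cenT_lie ρ h𝔤.bracket h𝔤.parts) g₀ htL hcen
    (central_comm_cenT ρ hLT h𝔤.parts hΔ' (fun s hs Q hQ => hcomm s hs Q hQ))
  have T : Tor (bcS ℂ (prV L)) (tor ((sumRep ρ g₀).baseChange ℂ)) :=
    ⟨(h.bc _ ℂ _ _).2.1 hLie', (h.bc _ ℂ _ _).2.2.1 hND, htL, tor_diag _, tor_comm _,
      fun x hx => hcen x (bcS_mono hLG hx)⟩
  have hQ : ∀ X ∈ prV L, ∀ Y ∈ prV L, X * Y - Y * X ∈ zeroOn (k := ℚ_[ℓ])
      (V := fun i => Fin (n i) → ℚ_[ℓ]) J := by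
    intro X hX Y hY i hi
    rw [map_sub, blk_mul_parts (h𝔤.parts X (hLG hX)), blk_mul_parts (h𝔤.parts Y (hLG hY)),
      hJ i hi X (hLG hX) Y (hLG hY), sub_self]
  rw [← hfull] at hX
  have key := ideal_full T (bcS_bracket (inV_ideal hLie hd)) (bcS_bracket hQ) ?_ _ (mem_bcS hX)
    (mem_bcS (show X ∈ zeroOn (k := ℚ_[ℓ]) (V := fun i => Fin (n i) → ℚ_[ℓ]) J from hXJ))
  · rw [(h.bc ℚ_[ℓ] ℂ _ (inV L)).1] at key
    obtain ⟨π, hπ⟩ := exists_pi ℚ_[ℓ] ℂ
    have h3 := key π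
    rw [pM_bc π hπ, mem_inV] at h3
    exact (hL _).1 h3
  · rintro a ⟨θ', ha⟩ haQ
    -- the logarithm vanishes on the roots for `J`
    have h3 : ∀ x ∈ rootGp (P '' J), θ' (Additive.ofMul x) = 0 := by
      intro x hx
      induction hx using Subgroup.closure_induction with
      | mem u hu =>
        obtain ⟨_, ⟨i, hi, rfl⟩, hu⟩ := hu
        have h4 : End.HasEigenvalue ((ρ i g₀).baseChange ℂ) (u : ℂ) := by
          rw [Module.End.hasEigenvalue_iff_isRoot_charpoly, LinearMap.charpoly_baseChange, hP,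
            Polynomial.map_map, IsRoot.def, eval_map]
          rw [aeval_def] at hu
          rw [← hu]
          congr 1
          exact Subsingleton.elim _ _
        obtain ⟨v, hv, hv0⟩ := h4.exists_hasEigenvector
        have h5 : (LinearMap.single ℚ_[ℓ] (fun i => Fin (n i) → ℚ_[ℓ]) i).baseChange ℂ v ∈
            Module.End.maxGenEigenspace ((sumRep ρ g₀).baseChange ℂ) (u : ℂ) := by
          refine gen_map (f := (ρ i g₀).baseChange ℂ) _ (fun x => ?_) _ v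
            ((Module.End.mem_maxGenEigenspace _ _ _).2 ⟨1, by
              rw [pow_one, LinearMap.sub_apply, LinearMap.smul_apply, Module.End.one_apply,
                Module.End.mem_eigenspace_iff.1 hv, sub_self]⟩)
          rw [← LinearMap.comp_apply, ← LinearMap.comp_apply, ← LinearMap.baseChange_comp,
            ← LinearMap.baseChange_comp]
          congr 2
          refine LinearMap.ext fun y => ?_
          exact (sumRep_single ρ g₀ i y).symm
        have h6 := bc_zeroOn haQ hi v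
        rw [ha _ _ h5, map_smul, ← LinearMap.comp_apply, ← LinearMap.baseChange_comp,
          LinearMap.proj_comp_single_same, LinearMap.baseChange_id, LinearMap.id_apply,
          smul_eq_zero, or_iff_left hv0, ext0_ne _ u.ne_zero] at h6
        rw [← h6]
        congr 2
        exact Units.ext rfl
      | one => rw [ofMul_one, map_zero]
      | mul a b _ _ ha hb => rw [ofMul_mul, map_add, ha, hb, add_zero]
      | inv a _ ha => rw [ofMul_inv, map_neg, ha, neg_zero]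
    obtain ⟨θ, hθ1, hθ2⟩ := exists_theta (rootGp (Set.range P)) (rootGp {f}) θ' (by
      intro x hx hxf
      obtain ⟨m, hm, hxm⟩ := hind x hx hxf
      have h4 := h3 _ hxm
      rw [ofMul_pow, map_nsmul, smul_eq_zero] at h4
      exact h4.resolve_left (by omega))
    refine op_inV (sumRep ρ) σ h hL g₀ (θ := θ) ha ?_ ?_
    · intro β hβ
      by_cases hβ0 : β = 0
      · rw [hβ0, ext0_zero, ext0_zero]
      obtain ⟨i, hi⟩ := sumRep_eigen_of ρ g₀ hβ
      rw [Module.End.hasEigenvalue_iff_isRoot_charpoly, LinearMap.charpoly_baseChange, hP,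
        Polynomial.map_map, IsRoot.def, eval_map] at hi
      rw [ext0_ne _ hβ0, ext0_ne _ hβ0]
      refine hθ1 _ (Subgroup.subset_closure ⟨P i, ⟨i, rfl⟩, ?_⟩)
      rw [aeval_def, Units.val_mk0]
      rw [← hi]
      congr 1
      exact Subsingleton.elim _ _
    · intro β hβ
      by_cases hβ0 : β = 0
      · rw [hβ0, ext0_zero]
      obtain ⟨v, hv, hv0⟩ := hβ.exists_hasEigenvector
      have h4 : aeval ((σ g₀).baseChange ℂ) (f.map (algebraMap ℚ ℂ)) = 0 := by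
        have h5 : f.map (algebraMap ℚ ℂ) = (f.map (algebraMap ℚ ℚ_[ℓ])).map
            (algebraMap ℚ_[ℓ] ℂ) := by
          rw [Polynomial.map_map]
          congr 1
          exact Subsingleton.elim _ _
        rw [h5, aeval_map_algebraMap]
        have h6 : aeval ((σ g₀).baseChange ℂ) (f.map (algebraMap ℚ ℚ_[ℓ])) =
            (aeval (σ g₀) (f.map (algebraMap ℚ ℚ_[ℓ]))).baseChange ℂ :=
          aeval_algHom_apply (Module.End.baseChangeHom ℚ_[ℓ] ℂ U) (σ g₀) _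
        rw [h6, hf, LinearMap.baseChange_zero]
      have h7 := Module.End.aeval_apply_of_hasEigenvector (p := f.map (algebraMap ℚ ℂ)) ⟨hv, hv0⟩
      rw [h4, LinearMap.zero_apply, eq_comm, smul_eq_zero, or_iff_left hv0, eval_map] at h7
      rw [ext0_ne _ hβ0]
      refine hθ2 _ (Subgroup.subset_closure ⟨f, rfl, ?_⟩)
      rw [aeval_def, Units.val_mk0]
      exact h7

end main

end Pool.Agent.Q65.KL
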