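import Pool.Agent.Q65.KL4
import Pool.Agent.Y114.RM.Full

/-!
# One prime: a torus of maximal rank, semisimplicity and the endomorphisms
-/

set_option autoImplicit false
set_option linter.unusedSectionVars false
set_option linter.unusedVariables false

namespace Pool.Agent.Q65.KL

open NumberField IsDedekindDomain Module Polynomial TensorProduct Pool.Agent.TH118.SG
  Pool.Agent.Y114.MU Pool.Agent.Y114.TF Pool.Agent.Y114.GF Pool.Agent.H204R3.GP Pool.Agent.Y114.RM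
open Pool.Agent.W569.FM Pool.Agent.W571.FM Pool.Agent.Y115.R Pool.Agent.Y115.T Pool.Agent.Y115.Chi

section top

variable {Γ : Type} [Group Γ] [TopologicalSpace Γ] [IsTopologicalGroup Γ] [CompactSpace Γ]
  {ι : Type} [Fintype ι] [DecidableEq ι] {n : ι → ℕ} {ℓ : ℕ} [hℓ : Fact ℓ.Prime]
  (ρ : ∀ i, Representation ℚ_[ℓ] Γ (Fin (n i) → ℚ_[ℓ]))

/-- The endomorphisms which commute with an open subgroup commute with `𝔤`. -/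
def EndTate (𝔤 : Submodule ℚ_[ℓ] (End ℚ_[ℓ] (∀ i, Fin (n i) → ℚ_[ℓ]))) : Prop :=
  ∀ (Q : End ℚ_[ℓ] (∀ i, Fin (n i) → ℚ_[ℓ])) (Δ : Subgroup Γ), Δ.FiniteIndex →
    (∀ s ∈ Δ, Q * sumRep ρ s = sumRep ρ s * Q) → ∀ X ∈ 𝔤, X * Q = Q * X

/-- The subspaces stable under `Γ` have stable complements. -/
def SemisimpleRep : Prop :=
  ∀ W : Submodule ℚ_[ℓ] (∀ i, Fin (n i) → ℚ_[ℓ]), (∀ γ, ∀ x ∈ W, sumRep ρ γ x ∈ W) →
    ∃ W' : Submodule ℚ_[ℓ] (∀ i, Fin (n i) → ℚ_[ℓ]), (∀ γ, ∀ x ∈ W', sumRep ρ γ x ∈ W') ∧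
      IsCompl W W'

theorem local_full (h : Inputs) (h2 : Inputs2)
    (hρ : ∀ i, Continuous fun g => LinearMap.toMatrix' (ρ i g))
    {𝔤 : Submodule ℚ_[ℓ] (End ℚ_[ℓ] (∀ i, Fin (n i) → ℚ_[ℓ]))} (h𝔤 : IsMotivic ρ 𝔤)
    (g₀ : Γ) (P : ι → ℚ[X]) (hP : ∀ i, (ρ i g₀).charpoly = (P i).map (algebraMap ℚ ℚ_[ℓ]))
    {r : ℕ} (hr : IndependentRoots r P) (hrk : RankAtMost 𝔤 r)
    (hss : SemisimpleRep ρ) (hend : EndTate ρ 𝔤) :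
    FiniteIndexSemisimple (sumRep ρ) ∧ ∀ (m : ℕ) (φ : Tensor ℚ_[ℓ] (∀ i, Fin (n i) → ℚ_[ℓ]) m),
      TateTensor (sumRep ρ) φ → ∀ X ∈ 𝔤, KillsTensor X φ := by
  classical
  obtain ⟨j, hj⟩ := exists_j ℓ ℚ_[ℓ] ℚ (algebraMap ℚ ℚ_[ℓ]) (algebraMap ℚ ℂ)
  let _ : Algebra ℚ_[ℓ] ℂ := j.toAlgebra
  obtain ⟨L, hL, hLie, hAd, hlog⟩ := h.lie ℚ_[ℓ] (∀ i, Fin (n i) → ℚ_[ℓ]) _ (sumRep ρ)
  have hLG : L ≤ 𝔤 := fun X hX => h𝔤.algebraic X fun m φ hφ => ((hL X).1 hX).2 m φ (h𝔤.tate m φ hφ)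
  obtain ⟨z, hz, hind⟩ := hr
  have hz' : ∀ i, End.HasEigenvalue ((sumRep ρ g₀).baseChange ℂ) (z i) := by
    intro i
    obtain ⟨a, ha⟩ := hz i
    exact sumRep_eigen ρ g₀ (hP a) ha
  set t := tor ((sumRep ρ g₀).baseChange ℂ) with ht
  have hcen := torus_cen (sumRep ρ) h h2.jord h2.cartan hL hLG h𝔤.bracket h𝔤.nondeg h𝔤.algebraic
    hrk g₀ z hz' hind
  have htL := tor_le (sumRep ρ) h hL g₀
  have hND : NonDeg L := nonDeg_of_ss (sumRep ρ) h hL hLie hAd h𝔤.bracket h𝔤.nondeg hLG htL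
    (tor_diag _) (tor_comm _) hcen hss
  obtain ⟨Δ', hΔ', hcomm⟩ := h2.tfr ℓ ι n _ ρ hρ (comm L) (comm_conj (sumRep ρ) hAd)
    (comm_order (sumRep ρ) h h2 hL)
  have hfull : L = 𝔤 := full_of_comm h hLie h𝔤.bracket h𝔤.nondeg hND hLG htL (tor_diag _)
    (tor_comm _) hcen fun Q hQ X hX => hend Q Δ' hΔ' (fun s hs => (hcomm s hs Q hQ).symm) X hX
  refine ⟨h.concl _ ι _ _ ρ 𝔤 h𝔤 fun X hX => (hL X).1 (hfull ▸ hX), fun m φ hφ X hX => ?_⟩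
  exact ((hL X).1 (hfull ▸ hX)).2 m φ hφ

end top

end Pool.Agent.Q65.KL
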