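import Pool.Agent.Q65.LOC
import Pool.Agent.Y114.RM.Final

/-!
# Three good primes and a maximal Frobenius torus at a specialization
-/

set_option autoImplicit false
set_option linter.unusedSectionVars false
set_option linter.unusedVariables false

namespace Pool.Agent.Q65.KL

open NumberField IsDedekindDomain Module Polynomial TensorProduct Pool.Agent.TH118.SG
  Pool.Agent.Y114.MU Pool.Agent.Y114.TF Pool.Agent.Y114.GF Pool.Agent.H204R3.GP Pool.Agent.Y114.RM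
open Pool.Agent.W569.FM Pool.Agent.W571.FM Pool.Agent.Y115.R Pool.Agent.Y115.T Pool.Agent.Y115.Chi

section loc

variable {k : Type} [Field k] [CharZero k] [Algebra k ℂ] {V : Type} [AddCommGroup V] [Module k V]
  [FiniteDimensional k V]

/-- The traces of the elements of the torus on a stable Lie algebra which contains it. -/
theorem trace_torus (h : Inputs) {L : Submodule k (End k V)} (hLie : IsLie L) {g g' : End k V}
    (hgg' : g * g' = 1) (hg'g : g' * g = 1) (hle : tor (g.baseChange ℂ) ≤ bcS ℂ L)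
    (hAd : ∀ X ∈ L, AdE g g' X ∈ L)
    (htor : ∃ m : ℕ, 0 < m ∧ (algebraMap k ℂ (detOn L (AdE g g') hAd)) ^ m = 1) :
    ∀ (hLC : IsLie (bcS ℂ L)) (a : End ℂ (ℂ ⊗[k] V)) (ha : a ∈ tor (g.baseChange ℂ)),
      LinearMap.trace ℂ (bcS ℂ L) ((adE a).restrict (hLC.adE_mem (hle ha))) = 0 := by
  set gC : End ℂ (ℂ ⊗[k] V) := g.baseChange ℂ with hgC
  set g'C : End ℂ (ℂ ⊗[k] V) := g'.baseChange ℂ with hg'C
  have hgg'C : gC * g'C = 1 := by rw [hgC, hg'C, ← bc_mul, hgg', bc_one]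
  have hg'gC : g'C * gC = 1 := by rw [hgC, hg'C, ← bc_mul, hg'g, bc_one]
  intro hLC a ha
  obtain ⟨θ, hθ⟩ := ha
  obtain ⟨m, hm, htor⟩ := htor
  have hadd : IsOp θ (AdE gC g'C) (adE a) := h.ad ℂ _ θ gC g'C a hgg'C hg'gC hθ
  have hAdC := AdE_bcS (C := ℂ) hAd
  have hinjA : Function.Injective (AdE gC g'C) := by
    apply injective_of_mul (g' := AdE g'C gC)
    refine LinearMap.ext fun X => ?_
    rw [Module.End.mul_apply, AdE_apply, AdE_apply, Module.End.one_apply, mul_assoc, mul_assoc,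
      hg'gC, mul_one, ← mul_assoc, hg'gC, one_mul]
  have hinjR : Function.Injective ((AdE gC g'C).restrict hAdC) := by
    intro x y hxy
    exact Subtype.ext (hinjA (congrArg Subtype.val hxy))
  have h1 := (h.res ℂ _ θ (AdE gC g'C) (adE a) hinjA hadd (bcS ℂ L)).2 hAdC
    (hLC.adE_mem (hle ⟨θ, hθ⟩))
  have h3 := h.tr ℂ _ θ _ _ hinjR h1
  set D : ℂ := algebraMap k ℂ (detOn L (AdE g g') hAd) with hD
  have h4 : LinearMap.det (M := bcS ℂ L) ((AdE gC g'C).restrict hAdC) = D :=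
    (h.bc k ℂ V L).2.2.2.2.2 g g' hAd hAdC
  rw [h4] at h3
  have h5 := ext0_pow θ D hm
  rw [htor, ext0_one] at h5
  have h6 : (m : ℂ) ≠ 0 := Nat.cast_ne_zero.2 hm.ne'
  have h7 : ext0 θ D = 0 := (mul_eq_zero.1 h5.symm).resolve_left h6
  rw [h7] at h3
  exact h3

end loc

section inv

variable {k : Type} [Field k] {V : Type} [AddCommGroup V] [Module k V] {Γ : Type} [Group Γ]
  (ρ : Representation k Γ V)

theorem rmi (γ : Γ) : ρ γ * ρ γ⁻¹ = 1 := by rw [← map_mul, mul_inv_cancel, map_one]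

theorem rim (γ : Γ) : ρ γ⁻¹ * ρ γ = 1 := by rw [← map_mul, inv_mul_cancel, map_one]

end inv

section main

variable {F : Type} [Field F] [NumberField F] {ι : Type} [Fintype ι] [DecidableEq ι] {n : ι → ℕ}
  {w : ι → ℤ} {ℓ : ℕ} [hℓ : Fact ℓ.Prime]
  (ρ : ∀ i, Representation ℚ_[ℓ] Gal(AlgebraicClosure F/F) (Fin (n i) → ℚ_[ℓ]))

/-- The determinant of the adjoint action of a Frobenius element on a stable space of
endomorphisms is a root of unity. -/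
theorem det_torsion (h : Inputs) (h2 : Inputs2)
    (hρ : ∀ i, Continuous fun g => LinearMap.toMatrix' (ρ i g)) (j : ℚ_[ℓ] →+* ℂ)
    (L : Submodule ℚ_[ℓ] (End ℚ_[ℓ] (∀ i, Fin (n i) → ℚ_[ℓ])))
    (hparts : ∀ X ∈ L, ∀ x i, X x i = X (Pi.single i (x i)) i)
    (hAd : ∀ γ, ∀ X ∈ L, AdE (sumRep ρ γ) (sumRep ρ γ⁻¹) X ∈ L)
    (P : HeightOneSpectrum (𝓞 F) → ι → ℚ[X])
    (T : Set ℕ) (hT3 : 3 ≤ T.encard) (hT : ∀ p ∈ T, p.Prime ∧ p ≠ ℓ ∧ UnramifiedIn F p)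
    (hgood : ∀ p ∈ T, ∀ v, Above v p → GoodPlace ρ w v (P v))
    {p₀ : ℕ} (hp₀ : p₀ ∈ T) (hind₀ : IndependentPlaces P p₀) {v₀ : HeightOneSpectrum (𝓞 F)}
    (hv₀ : Above v₀ p₀) :
    ∃ (Q₀ : Ideal (OO F)) (σ₀ : GF F), Q₀.IsMaximal ∧ cm Q₀ = v₀.asIdeal ∧
      FrobAt (Ideal.absNorm v₀.asIdeal) Q₀ σ₀ ∧ ∃ m : ℕ, 0 < m ∧
      (j (detOn L (AdE (sumRep ρ σ₀⁻¹) (sumRep ρ (σ₀⁻¹)⁻¹)) (hAd σ₀⁻¹))) ^ m = 1 := by
  classical
  obtain ⟨ψ, hψc, hψ⟩ := h.cont ℓ ι n _ ρ hρ L hAd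
  -- Frobenius elements
  have hfr₀ : ∀ v : HeightOneSpectrum (𝓞 F), ∃ (Q : Ideal (OO F)) (σ : GF F), Q.IsMaximal ∧
      cm Q = v.asIdeal ∧ FrobAt (Ideal.absNorm v.asIdeal) Q σ := fun v => frob_cm v
  choose Q₀ σ₀ hQ₀ hQ₀v hσ₀ using hfr₀
  have hinv : ∀ g : GF F, (ψ g⁻¹ : ℚ_[ℓ]) = (ψ g : ℚ_[ℓ])⁻¹ := by
    intro g
    rw [map_inv, Units.val_inv_eq_inv_val]
  -- places of good reduction
  have hgoodin : ∀ v : HeightOneSpectrum (𝓞 F), ∀ P', GoodPlace ρ w v P' →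
      (∀ Q : Ideal (OO F), Q.IsPrime → cm Q = v.asIdeal → ∀ g, InInertia Q g → ψ g = 1) ∧
      IsAlgebraic ℚ (ψ (σ₀ v) : ℚ_[ℓ]) ∧ ‖j (ψ (σ₀ v) : ℚ_[ℓ])‖ = 1 ∧
      ∃ u ∈ ratioGroup P', (u : ℂ) = j (ψ (σ₀ v)⁻¹ : ℚ_[ℓ]) := by
    rintro v P' hP'
    refine ⟨fun Q hQ hQv g hg => ?_, ?_⟩
    · apply Units.ext
      rw [hψ, Units.val_one]
      have h1 : sumRep ρ g = 1 := by
        rw [← map_one (sumRep ρ)]
        exact sumRep_congr ρ fun i => by rw [hP'.unramified i Q ⟨hQ, hQv⟩ g hg, map_one]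
      have h2 : sumRep ρ g⁻¹ = 1 := by
        have h3 := rmi (sumRep ρ) g
        rwa [h1, one_mul] at h3
      have h3 : ∀ (a b : End ℚ_[ℓ] (∀ i, Fin (n i) → ℚ_[ℓ])) (hab : ∀ X ∈ L, AdE a b X ∈ L),
          a = 1 → b = 1 → detOn L (AdE a b) hab = 1 := by
        rintro a b hab rfl rfl
        exact detOn_one hab
      exact h3 _ _ _ h1 h2
    · obtain ⟨h1, h3⟩ := h.adw ℓ j ι n (sumRep ρ (σ₀ v)⁻¹) (sumRep ρ ((σ₀ v)⁻¹)⁻¹)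
        (fun i => ρ i (σ₀ v)⁻¹) P' (fun i => (q v : ℝ) ^ w i) (rmi _ _) (rim _ _)
        (fun _ _ => rfl) (fun i => hP'.frobenius i (Q₀ v) ⟨(hQ₀ v).isPrime, hQ₀v v⟩ (σ₀ v) (hσ₀ v))
        hP'.pure L hparts (hAd _)
      obtain ⟨u, hu, hu'⟩ := h2.ratio ℓ j ι n (sumRep ρ (σ₀ v)⁻¹) (sumRep ρ ((σ₀ v)⁻¹)⁻¹)
        (fun i => ρ i (σ₀ v)⁻¹) P' (rmi _ _) (rim _ _)
        (fun _ _ => rfl) (fun i => hP'.frobenius i (Q₀ v) ⟨(hQ₀ v).isPrime, hQ₀v v⟩ (σ₀ v) (hσ₀ v))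
        L hparts (hAd _)
      rw [← hψ] at h1 h3 hu'
      refine ⟨?_, ?_, u, hu, hu'⟩
      · rw [hinv] at h1
        exact IsAlgebraic.inv_iff.1 h1
      · rw [hinv, map_inv₀, norm_inv, inv_eq_one] at h3
        exact h3
  refine ⟨Q₀ v₀, σ₀ v₀, hQ₀ v₀, hQ₀v v₀, hσ₀ v₀, ?_⟩
  obtain ⟨M, hM, S, hS, hprod⟩ := prod_torsion ψ hψc T hT3 hT (fun v => ψ (σ₀ v)) (by
    intro p hp v hv Q hQ hQv
    have hin := (hgoodin v (P v) (hgood p hp v hv)).1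
    exact ⟨hin Q hQ hQv, fun φ hφ => frob_value ψ v hin (hQ₀ v).isPrime hQ (hQ₀v v) hQv (hσ₀ v)
      hφ⟩) (fun p hp v hv => (hgoodin v (P v) (hgood p hp v hv)).2.1) j
    (fun p hp v hv => (hgoodin v (P v) (hgood p hp v hv)).2.2.1) p₀ hp₀
  have hu : ∀ v : HeightOneSpectrum (𝓞 F), ∃ u : ℂˣ, Above v p₀ →
      u ∈ ratioGroup (P v) ∧ (u : ℂ) = j (ψ (σ₀ v)⁻¹ : ℚ_[ℓ]) := by
    intro v
    by_cases hv : Above v p₀
    · obtain ⟨u, hu, hu'⟩ := (hgoodin v (P v) (hgood p₀ hp₀ v hv)).2.2.2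
      exact ⟨u, fun _ => ⟨hu, hu'⟩⟩
    · exact ⟨1, fun h => absurd h hv⟩
  choose u hu using hu
  obtain ⟨m, hm, hm'⟩ := hind₀ u (fun v hv => (hu v hv).1) ⟨M, hM, by
    have h3 : (∏ᶠ (v : HeightOneSpectrum (𝓞 F)) (_ : Above v p₀), u v) = ∏ v ∈ S, u v :=
      finprod_cond_eq_prod_of_cond_iff _ fun {v} _ => (hS v).symm
    rw [h3]
    apply Units.ext
    rw [Units.val_pow_eq_pow_val, Units.coe_prod, Units.val_one]
    have h4 : ∏ v ∈ S, (u v : ℂ) = (j (((∏ v ∈ S, ψ (σ₀ v) : ℚ_[ℓ]ˣ)) : ℚ_[ℓ]))⁻¹ := by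
      rw [Units.coe_prod, map_prod, ← Finset.prod_inv_distrib]
      refine Finset.prod_congr rfl fun v hv => ?_
      rw [(hu v ((hS v).1 hv)).2, hinv, map_inv₀]
    rw [h4, inv_pow, ← map_pow, ← Units.val_pow_eq_pow_val, hprod, Units.val_one, map_one,
      inv_one]⟩ v₀ hv₀
  refine ⟨m, hm, ?_⟩
  rw [← hψ, ← (hu v₀ hv₀).2, ← Units.val_pow_eq_pow_val, hm', Units.val_one]

end main

section fg

variable {Γ : Type} [Group Γ] [TopologicalSpace Γ] [IsTopologicalGroup Γ] [CompactSpace Γ]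
  {ι : Type} [Fintype ι] [DecidableEq ι] {n : ι → ℕ} {ℓ : ℕ} [hℓ : Fact ℓ.Prime]
  {F : Type} [Field F] [NumberField F] {w : ι → ℤ}

/-- **Endomorphisms suffice.** -/
theorem main_end (h : Inputs) (h2 : Inputs2) (ρ : Reps Γ n ℓ) (hρ : Conts ρ) (𝔤 : EndSpace n ℓ)
    (h𝔤 : Motivic ρ 𝔤)
    (s : Gal(AlgebraicClosure F/F) →* Γ) (hs : Continuous s)
    (P : HeightOneSpectrum (𝓞 F) → ι → ℚ[X])
    (T : Set ℕ) (hT3 : 3 ≤ T.encard) (hT : ∀ p ∈ T, p.Prime ∧ p ≠ ℓ ∧ UnramifiedIn F p)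
    (hgood : ∀ p ∈ T, ∀ v, Above v p → GoodPlace (restrictTo ρ s) w v (P v))
    {p₀ : ℕ} (hp₀ : p₀ ∈ T) (hind₀ : IndependentPlaces P p₀) {v₀ : HeightOneSpectrum (𝓞 F)}
    (hv₀ : Above v₀ p₀) (r : ℕ) (hr : IndependentRoots r (P v₀)) (hrk : RankLE 𝔤 r)
    (hend : EndTate ρ 𝔤) : Semisimple ρ ∧ TateTensorsOf ρ 𝔤 := by
  classical
  obtain ⟨j, hj⟩ := exists_j ℓ ℚ_[ℓ] ℚ (algebraMap ℚ ℚ_[ℓ]) (algebraMap ℚ ℂ)
  let _ : Algebra ℚ_[ℓ] ℂ := j.toAlgebra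
  obtain ⟨L, hL, hLie, hAd, hlog⟩ := h.lie ℚ_[ℓ] (∀ i, Fin (n i) → ℚ_[ℓ]) _ (sumRep ρ)
  have h𝔤' : IsMotivic ρ 𝔤 := h𝔤
  have hLG : L ≤ 𝔤 := fun X hX => h𝔤'.algebraic X fun m φ hφ =>
    ((hL X).1 hX).2 m φ (h𝔤'.tate m φ hφ)
  have hρs : ∀ i, Continuous fun g => LinearMap.toMatrix' ((restrictTo ρ s) i g) := fun i =>
    (hρ i).comp hs
  have hAdS : ∀ γ, ∀ X ∈ L, AdE (sumRep (restrictTo ρ s) γ) (sumRep (restrictTo ρ s) γ⁻¹) X ∈ L := by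
    intro γ X hX
    have h1 := hAd (s γ) X hX
    rwa [← map_inv s] at h1
  obtain ⟨Q₀, σ₀, hQ₀, hQ₀v, hσ₀, htor⟩ := det_torsion (restrictTo ρ s) h h2 hρs j L
    (fun X hX => h𝔤'.parts X (hLG hX)) hAdS P T hT3 hT hgood hp₀ hind₀ hv₀
  set g₀ : Γ := s σ₀⁻¹ with hg₀
  obtain ⟨z, hz, hind⟩ := hr
  have hG₀ := hgood p₀ hp₀ v₀ hv₀
  have hz' : ∀ i, End.HasEigenvalue ((sumRep ρ g₀).baseChange ℂ) (z i) := by
    intro i
    obtain ⟨a, ha⟩ := hz i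
    exact sumRep_eigen ρ g₀ (hG₀.frobenius a Q₀ ⟨hQ₀.isPrime, hQ₀v⟩ σ₀ hσ₀) ha
  set t := tor ((sumRep ρ g₀).baseChange ℂ) with ht
  have hcen := torus_cen (sumRep ρ) h h2.jord h2.cartan hL hLG h𝔤'.bracket h𝔤'.nondeg
    h𝔤'.algebraic hrk g₀ z hz' hind
  have htL := tor_le (sumRep ρ) h hL g₀
  have hgg' : sumRep ρ g₀ * sumRep ρ (s (σ₀⁻¹)⁻¹) = 1 := by
    rw [← map_mul, hg₀, ← map_mul, mul_inv_cancel, map_one, map_one]
  have hg'g : sumRep ρ (s (σ₀⁻¹)⁻¹) * sumRep ρ g₀ = 1 := by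
    rw [← map_mul, hg₀, ← map_mul, inv_mul_cancel, map_one, map_one]
  have hAd₀ : ∀ X ∈ L, AdE (sumRep ρ g₀) (sumRep ρ (s (σ₀⁻¹)⁻¹)) X ∈ L := by
    intro X hX
    have h1 := hAd g₀ X hX
    rwa [hg₀, ← map_inv s] at h1
  have htr := trace_torus h hLie hgg' hg'g htL hAd₀ (by
    obtain ⟨m, hm, h1⟩ := htor
    exact ⟨m, hm, h1⟩)
  obtain ⟨hND, hproj⟩ := exists_proj h h2 hLie hLG h𝔤'.bracket h𝔤'.nondeg htL (tor_diag _)
    (tor_comm _) hcen htr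
  obtain ⟨Δ', hΔ', hcomm⟩ := h2.tfr ℓ ι n _ ρ hρ (comm L) (comm_conj (sumRep ρ) hAd)
    (comm_order (sumRep ρ) h h2 hL)
  have hss : FiniteIndexSemisimple (sumRep ρ) := by
    intro Δ hΔ U hU
    obtain ⟨P, hP1, hP2, hP3⟩ := hproj U fun X hX => ((hL X).1 hX).1 U ⟨Δ, hΔ, hU⟩
    exact Pool.Agent.Y41.RM.exists_compl_of_commute (sumRep ρ) Δ Δ' hΔ' U hU P hP2 hP3
      fun s hs => (hcomm s hs P hP1).symm
  have hNDL : NonDeg L := by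
    intro X hX hXY
    have h1 : X.baseChange ℂ = 0 := by
      refine hND _ (mem_bcS hX) fun Y hY => ?_
      induction hY using Submodule.span_induction with
      | mem Y hY =>
        obtain ⟨Z, hZ, rfl⟩ := hY
        rw [← bc_mul, LinearMap.trace_baseChange, hXY Z hZ, map_zero]
      | zero => rw [mul_zero, map_zero]
      | add Y Z _ _ hY hZ => rw [mul_add, map_add, hY, hZ, add_zero]
      | smul c Y _ hY => rw [mul_smul_comm, map_smul, hY, smul_zero]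
    exact bc_inj (h1.trans LinearMap.baseChange_zero.symm)
  have hfull : L = 𝔤 := full_of_comm h hLie h𝔤'.bracket h𝔤'.nondeg hNDL hLG htL (tor_diag _)
    (tor_comm _) hcen fun Q hQ X hX => hend Q Δ' hΔ' (fun s hs => (hcomm s hs Q hQ).symm) X hX
  refine ⟨hss, fun m φ => ⟨fun hφ X hX => ?_, h𝔤'.tate m φ⟩⟩
  exact ((hL X).1 (hfull ▸ hX)).2 m φ hφ

end fg

end Pool.Agent.Q65.KL
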