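import Pool.Agent.Y142.SI.Fin
import Pool.Agent.Y405.ZO.Frob
import Pool.Agent.Y484.ZI.IntRes
import Pool.Agent.Y726.ZI.Cheb
import Pool.Agent.Y681.ZI.Dens
import Pool.Agent.Y537.ZI.Multi
import Pool.Agent.Y614.ZD.Badd
import Pool.Agent.Y100.ZD.Sub
import Pool.Agent.Y255.SS.LF
import Pool.Agent.Y297.SS.CF
import Pool.Agent.Y708.SS.Loc
import Pool.Agent.Y936.SS.Logr
import Pool.Agent.Y518.SS.Krs
import Pool.Agent.Y737.SS.Chara
import Pool.Agent.Y932.SI.Subf
import Pool.Agent.Y421.SI.EF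
import Pool.Agent.Y641.SI.Trd
import Pool.Agent.Y949.SI.Ende

/-!
# Endomorphisms and semisimplicity at 100 percent of the primes, without task hypotheses
-/

set_option autoImplicit false
set_option linter.unusedSectionVars false

namespace Pool.Agent.Q65.KL

open Matrix Polynomial Filter Topology NumberField IsDedekindDomain
open Pool.Agent

/-- the absolute Galois group of `K`, with its profinite (Krull) topology -/
abbrev AGal (K : Type) [Field K] : Type := Gal(AlgebraicClosure K/K)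

/-- the roots of `P v` are simple, and different roots have different `n`-th powers for all `n > 0` -/
def RegularPlace {K : Type} [Field K] [NumberField K]
    (S : Set (HeightOneSpectrum (𝓞 K))) (P : HeightOneSpectrum (𝓞 K) → ℚ[X])
    (v : HeightOneSpectrum (𝓞 K)) : Prop :=
  v ∉ S ∧ (P v).Separable ∧ ∀ n : ℕ, 0 < n → ∀ x y : ℂ,
    aeval x (P v) = 0 → aeval y (P v) = 0 → x ^ n = y ^ n → x = y

/-- the splitting field of `Q` in the algebraic closure of `ℚ` -/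
noncomputable def splittingField (Q : ℚ[X]) : Set (AlgebraicClosure ℚ) :=
  (IntermediateField.adjoin ℚ {x : AlgebraicClosure ℚ | aeval x Q = 0} :
    IntermediateField ℚ (AlgebraicClosure ℚ))

/-- the order of the restriction of `g` to the (finite, normal) field `E` -/
noncomputable def orderOn (E : IntermediateField ℚ (AlgebraicClosure ℚ))
    (g : AGal ℚ) : ℕ :=
  sInf {k : ℕ | 0 < k ∧ ∀ a ∈ E, (g ^ k) a = a}

/-- `T` is a set of roots of `Q` which is stable under `w` -/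
def StableSet (w : AGal ℚ) (Q : ℚ[X]) (T : Set (AlgebraicClosure ℚ)) :
    Prop :=
  (∀ x ∈ T, aeval x Q = 0) ∧ ∀ x ∈ T, w x ∈ T

/-- there are finitely many regular places `u` such that, `F` denoting the intersection of the
splitting fields of the polynomials `P u`, for every `g` in the absolute Galois group of `ℚ`
(1) for every `d < N`, `d > 0`, which is not divisible by `n` times the order of `g` on `E` there are a
regular place `v` and an automorphism `w` which agrees with `g` on `F` such that no set of `d` roots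
of `P v` is stable under `w`; and
(2) there are a regular place `v` and an automorphism `w` which agrees with `g` on `F` such that the
power of `w` with its order on `E` as exponent has a fixed point in every nonempty set of roots of `P v`
which is stable under `w` and whose number of elements is divisible by `n` times this order. -/
def ManyPlaces {K : Type} [Field K] [NumberField K]
    (S : Set (HeightOneSpectrum (𝓞 K))) (P : HeightOneSpectrum (𝓞 K) → ℚ[X])
    (E : IntermediateField ℚ (AlgebraicClosure ℚ)) (n N : ℕ) : Prop :=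
  ∃ (m : ℕ) (u : Fin (m + 1) → HeightOneSpectrum (𝓞 K)), (∀ i, RegularPlace S P (u i)) ∧
    ∀ g : AGal ℚ,
      (∀ d : ℕ, 0 < d → d < N → ¬ n * orderOn E g ∣ d →
        ∃ (v : HeightOneSpectrum (𝓞 K)) (w : AGal ℚ), RegularPlace S P v ∧
          (∀ x, (∀ i, x ∈ splittingField (P (u i))) → w x = g x) ∧
          ∀ T, StableSet w (P v) T → T.ncard ≠ d) ∧
      ∃ (v : HeightOneSpectrum (𝓞 K)) (w : AGal ℚ), RegularPlace S P v ∧
        (∀ x, (∀ i, x ∈ splittingField (P (u i))) → w x = g x) ∧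
        ∀ T, StableSet w (P v) T → T.Nonempty → n * orderOn E w ∣ T.ncard →
          ∃ x ∈ T, (w ^ orderOn E w) x = x

theorem densitySI1 {K : Type} [Field K] [NumberField K] {Γ : Type} [Group Γ] [TopologicalSpace Γ]
    [IsTopologicalGroup Γ] [CompactSpace Γ] (s : Y142.ZO.GK K →* Γ) (hs : Continuous s)
    {N : ℕ} {S : Set (HeightOneSpectrum (𝓞 K))} (hS : S.Finite)
    {P : HeightOneSpectrum (𝓞 K) → ℚ[X]}
    (ρ : ∀ (ℓ : ℕ) [Fact ℓ.Prime], Γ →* Matrix (Fin N) (Fin N) ℚ_[ℓ])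
    (hsys : ∀ (ℓ : ℕ) [Fact ℓ.Prime], Y142.SI.GenSys K s N ℓ (ρ ℓ) S P)
    (E : IntermediateField ℚ (AlgebraicClosure ℚ)) [FiniteDimensional ℚ E] [Normal ℚ E]
    (n : ℕ) (hn : 0 < n) (hN : N = n * Module.finrank ℚ E)
    (ε : ∀ (ℓ : ℕ) [Fact ℓ.Prime], E →+* Matrix (Fin N) (Fin N) ℚ_[ℓ])
    (hε : ∀ (ℓ : ℕ) [Fact ℓ.Prime] (a : E) (γ : Γ), ε ℓ a * ρ ℓ γ = ρ ℓ γ * ε ℓ a)
    (htr : ∀ (ℓ : ℕ) [Fact ℓ.Prime] (a : E),
      (ε ℓ a).trace = (n : ℚ_[ℓ]) * ((Algebra.trace ℚ E a : ℚ) : ℚ_[ℓ]))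
    (hM : ManyPlaces S P E n N) :
    Y142.ZI.DensityZero {ℓ | ∃ _ : Fact ℓ.Prime, ¬ Y142.SI.GoodEnd ℓ E (ρ ℓ) (ε ℓ)} := by
  -- the tasks
  have hFROB : Y142.ZO.S_FROB := Y405.ZO.t
  have hINT : Y142.ZI.S_INT := Y484.ZI.t1
  have hCHEB : Y142.ZI.S_CHEB := Y726.ZI.t1
  have hDENS2 : Y142.ZI.S_DENS2 := Y681.ZI.t hCHEB
  have hMULTI : Y142.ZI.S_MULTI := Y537.ZI.t
  have hLF : Y142.SS.S_LF := Y255.SS.t
  have hCF : Y142.SS.S_CF := Y297.SS.t hLF
  have hLOC : Y142.SS.S_LOC := Y708.SS.Loc.t hCF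
  have hLOGR : Y142.SS.S_LOGR := Y936.SS.t
  have hKRS : Y142.SS.S_KRS := Y518.SS.t
  have hCHARA : Y142.SS.S_CHARA := Y737.SS.Chara.t
  have hBADD : Y142.ZD.S_BADD := Y614.ZD.t
  have hSUB : Y142.ZD.S_SUB := Y100.ZD.t
  have hSUBF : Y142.SI.S_SUBF := Y932.SI.Subf.t hLF hCF
  have hEF : Y142.SI.S_EF := Y421.SI.EF.t hLOC
  have hTRD : Y142.SI.S_TRD := Y641.SI.t
  have hENDE : Y142.SI.S_ENDE := Y949.SI.t
  obtain ⟨m, u, hu, h12⟩ := hM
  have hsys' : ∀ (ℓ : ℕ) [Fact ℓ.Prime], Y142.SS.Sys K N ℓ ((ρ ℓ).comp s) S P := fun ℓ _ =>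
    ⟨(hsys ℓ).1.comp hs, fun v hv hvℓ σ hσ => (hsys ℓ).2 v hv hvℓ σ hσ⟩
  have hnice : ∀ v, RegularPlace S P v → Y142.ZS.NiceP S P v := fun v hv =>
    Y142.SS.nice_of_complexA (fun ℓ _ => (ρ ℓ).comp s) hsys' hv.1 hv.2.1 hv.2.2
  have hLf : ∀ (i : Fin (m + 1)) (x : AlgebraicClosure ℚ),
      x ∈ Y142.ZI.Lf (P (u i)) → x ∈ splittingField (P (u i)) := by
    intro i x hx
    have h2 : (P (u i)).rootSet (AlgebraicClosure ℚ) =
        {x : AlgebraicClosure ℚ | aeval x (P (u i)) = 0} := by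
      ext y
      exact mem_rootSet_of_ne (hu i).2.1.ne_zero
    unfold Y142.ZI.Lf at hx
    rw [h2] at hx
    exact hx
  have hA : ∀ g w : AGal ℚ,
      (∀ x, (∀ i, x ∈ splittingField (P (u i))) → w x = g x) →
      w⁻¹ * g ∈ Subgroup.closure (⋃ i, Y142.SS.Fix (P (u i))) := by
    intro g w hw
    refine Y142.SS.field_mem _ (fun i => (hu i).2.1.ne_zero) fun x hx => ?_
    rw [AlgEquiv.mul_apply, ← hw x fun i => hLf i x (hx i), ← AlgEquiv.mul_apply, inv_mul_cancel,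
      AlgEquiv.one_apply]
  refine Y142.SI.densitySI hLOC hLOGR hKRS hCHARA hMULTI hFROB hINT hDENS2 hBADD
    hSUB hSUBF hEF hTRD hENDE hS s hs ρ hsys E inferInstance inferInstance n hn hN ε hε htr u
    (fun i => hnice _ (hu i)) ?_ ?_
  · intro g d hd hdN hnd
    obtain ⟨v, w, hv, hw, hT⟩ := (h12 g).1 d hd hdN hnd
    exact ⟨v, hnice v hv, w, fun T hT1 hT2 => hT T ⟨hT1, hT2⟩, hA g w hw⟩
  · intro g
    obtain ⟨v, w, hv, hw, hT⟩ := (h12 g).2
    exact ⟨v, hnice v hv, w, fun T hT1 hne hT2 hd => hT T ⟨hT1, hT2⟩ hne hd, hA g w hw⟩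

end Pool.Agent.Q65.KL
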