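import Pool.Agent.Q65.KL4
import Pool.Agent.Q65.KL5
import Pool.Agent.Q65.HW
import Pool.Agent.Y114.RM.Full

/-!
# Rationality of class projections
-/

set_option autoImplicit false
set_option linter.unusedSectionVars false
set_option linter.unusedVariables false

namespace Pool.Agent.Q65.KL

open Module Polynomial TensorProduct Pool.Agent.TH118.SG Pool.Agent.Y114.MU Pool.Agent.Y114.RM
  Pool.Agent.Y212.RM

section pc

variable {k : Type} [Field k] [CharZero k] [Algebra k ℂ] {V : Type} [AddCommGroup V] [Module k V]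

/-- elements of a tensor product are determined by their images under the functionals -/
theorem pv_sep' {z : ℂ ⊗[k] V} (h : ∀ π : ℂ →ₗ[k] k, pv π z = 0) : z = 0 := by
  classical
  let b := Basis.ofVectorSpace k V
  apply (b.baseChange ℂ).repr.injective
  rw [map_zero]
  refine Finsupp.ext fun i => ?_
  rw [Finsupp.zero_apply, ← Module.forall_dual_apply_eq_zero_iff k]
  intro π
  have h1 : ∀ y : ℂ ⊗[k] V, b.repr (pv π y) i = π ((b.baseChange ℂ).repr y i) := by
    intro y
    induction y with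
    | zero => simp only [map_zero, Finsupp.zero_apply]
    | add x y hx hy => simp only [map_add, Finsupp.add_apply, hx, hy]
    | tmul c v =>
      rw [pv_tmul, map_smul, Finsupp.smul_apply, Basis.baseChange_repr_tmul, map_smul,
        smul_eq_mul, smul_eq_mul, mul_comm]
  rw [← h1, h π, map_zero, Finsupp.zero_apply]

/-- apply `π` to the coefficients -/
noncomputable def pc (π : ℂ →ₗ[k] k) (p : ℂ[X]) : k[X] :=
  ∑ n ∈ Finset.range (p.natDegree + 1), monomial n (π (p.coeff n))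

theorem coeff_pc (π : ℂ →ₗ[k] k) (p : ℂ[X]) (n : ℕ) : (pc π p).coeff n = π (p.coeff n) := by
  rw [pc, finsetSum_coeff]
  simp only [coeff_monomial]
  by_cases hn : n ∈ Finset.range (p.natDegree + 1)
  · rw [Finset.sum_eq_single n]
    · rw [if_pos rfl]
    · intro b _ hb
      rw [if_neg hb]
    · intro h
      exact absurd hn h
  · rw [Finset.sum_eq_zero]
    · rw [coeff_eq_zero_of_natDegree_lt, map_zero]
      rw [Finset.mem_range] at hn
      omega
    · intro b hb
      rw [if_neg]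
      rintro rfl
      exact hn hb

theorem pM_aeval (π : ℂ →ₗ[k] k) (σ : End k V) (p : ℂ[X]) :
    (pM π (aeval (σ.baseChange ℂ) p) : End k V) = aeval σ (pc π p) := by
  refine LinearMap.ext fun v => ?_
  rw [pM_apply, aeval_eq_sum_range, pc, map_sum, LinearMap.sum_apply, LinearMap.sum_apply, map_sum]
  refine Finset.sum_congr rfl fun n _ => ?_
  rw [LinearMap.smul_apply, aeval_monomial, Module.End.mul_apply, Module.algebraMap_end_apply,
    ← LinearMap.baseChange_pow, LinearMap.baseChange_tmul, TensorProduct.smul_tmul', pv_tmul,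
    smul_eq_mul, mul_one]

theorem pc_eq_zero {p : ℂ[X]} (h : ∀ π : ℂ →ₗ[k] k, pc π p = 0) : p = 0 := by
  ext n
  rw [coeff_zero, ← Module.forall_dual_apply_eq_zero_iff k]
  intro π
  rw [← coeff_pc, h π, coeff_zero]

theorem pc_natDegree_le (π : ℂ →ₗ[k] k) (p : ℂ[X]) : (pc π p).natDegree ≤ p.natDegree := by
  rw [natDegree_le_iff_coeff_eq_zero]
  intro n hn
  rw [coeff_pc, coeff_eq_zero_of_natDegree_lt hn, map_zero]

/-- polynomials which kill a vector -/
theorem dvd_of_kill {σ : End k V} {B : k[X]} (hB : Irreducible B) {v : V} (hv : v ≠ 0)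
    (hBv : aeval σ B v = 0) {q : k[X]} (hq : aeval σ q v = 0) : B ∣ q := by
  by_contra hnd
  obtain ⟨a, b, hab⟩ := hB.coprime_iff_not_dvd.2 hnd
  have h1 := congrArg (fun f => aeval σ f v) hab
  simp only [map_add, map_mul, map_one, LinearMap.add_apply, Module.End.mul_apply, hBv, hq,
    map_zero, add_zero, Module.End.one_apply] at h1
  exact hv h1.symm

/-- eigenvectors for the roots of a polynomial -/
theorem exists_root_vec {σ : End k V} {B : k[X]} (hB : Irreducible B) {v : V} (hv : v ≠ 0)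
    (hBv : aeval σ B v = 0) {c : ℂ} (hc : aeval c B = 0) :
    ∃ ν : ℂ[X], aeval (σ.baseChange ℂ) ν ((1 : ℂ) ⊗ₜ[k] v) ≠ 0 ∧
      σ.baseChange ℂ (aeval (σ.baseChange ℂ) ν ((1 : ℂ) ⊗ₜ[k] v)) =
        c • aeval (σ.baseChange ℂ) ν ((1 : ℂ) ⊗ₜ[k] v) := by
  obtain ⟨ν, hν⟩ : (X - C c) ∣ B.map (algebraMap k ℂ) := by
    rw [dvd_iff_isRoot, IsRoot.def, eval_map_algebraMap]
    exact hc
  have hB0 : B.map (algebraMap k ℂ) ≠ 0 := (Polynomial.map_ne_zero_iff
    (algebraMap k ℂ).injective).2 hB.ne_zero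
  have hν0 : ν ≠ 0 := by
    rintro rfl
    rw [mul_zero] at hν
    exact hB0 hν
  refine ⟨ν, ?_, ?_⟩
  · intro h0
    apply hν0
    apply pc_eq_zero (k := k)
    intro π
    by_contra hne
    have h1 : aeval σ (pc π ν) v = 0 := by
      rw [← pM_aeval, pM_apply, h0, map_zero]
    have h2 := dvd_of_kill hB hv hBv h1
    have h3 := natDegree_le_of_dvd h2 hne
    have h4 := pc_natDegree_le π ν
    have h5 : B.natDegree = ν.natDegree + 1 := by
      rw [← natDegree_map (algebraMap k ℂ), hν, natDegree_mul (X_sub_C_ne_zero c) hν0,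
        natDegree_X_sub_C, add_comm]
    omega
  · have h1 : aeval (σ.baseChange ℂ) (B.map (algebraMap k ℂ)) ((1 : ℂ) ⊗ₜ[k] v) = 0 := by
      have h2 : aeval (σ.baseChange ℂ) (B.map (algebraMap k ℂ)) = (aeval σ B).baseChange ℂ := by
        rw [aeval_map_algebraMap]
        exact aeval_algHom_apply (Module.End.baseChangeHom k ℂ V) σ B
      rw [h2, LinearMap.baseChange_tmul, hBv, tmul_zero]
    rw [hν, map_mul, map_sub, aeval_X, aeval_C, Module.End.mul_apply, LinearMap.sub_apply,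
      Module.algebraMap_end_apply, sub_eq_zero] at h1
    exact h1

end pc

section gen

variable {V : Type} [AddCommGroup V] [Module ℂ V] [FiniteDimensional ℂ V]

/-- the projections on the generalized eigenspaces -/
theorem exists_gproj (g : End ℂ V) : ∃ E : ℂ → End ℂ V,
    (∀ β c, ∀ x ∈ g.maxGenEigenspace c, E β x = (if c = β then (1 : ℂ) else 0) • x) ∧
    (∀ β x, E β x ∈ g.maxGenEigenspace β) ∧
    (∀ x, ∑ β ∈ g.charpoly.roots.toFinset, E β x = x) ∧
    ∀ β (Y : End ℂ V), (∀ c, ∀ x ∈ g.maxGenEigenspace c, Y x ∈ g.maxGenEigenspace c) →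
      ∀ x, Y (E β x) = E β (Y x) := by
  classical
  have hex : ∀ β : ℂ, ∃ Y : End ℂ V, ∀ c, ∀ x ∈ g.maxGenEigenspace c,
      Y x = (if c = β then (1 : ℂ) else 0) • x := fun β =>
    exists_op g fun c => if c = β then (1 : ℂ) else 0
  choose E hE using hex
  have hmem : ∀ β x, E β x ∈ g.maxGenEigenspace β := by
    intro β x
    have hx : x ∈ ⨆ c, g.maxGenEigenspace c := by
      rw [Module.End.iSup_maxGenEigenspace_eq_top g]
      exact Submodule.mem_top
    induction hx using Submodule.iSup_induction' with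
    | mem c x hx =>
      rw [hE β c x hx]
      by_cases hc : c = β
      · rw [if_pos hc, one_smul, ← hc]
        exact hx
      · rw [if_neg hc, zero_smul]
        exact Submodule.zero_mem _
    | zero => rw [map_zero]; exact Submodule.zero_mem _
    | add x y _ _ hx hy => rw [map_add]; exact Submodule.add_mem _ hx hy
  refine ⟨E, hE, hmem, fun x => ?_, fun β Y hY x => ?_⟩
  · have h1 : ∑ β ∈ g.charpoly.roots.toFinset, E β = 1 := by
      refine op_ext g fun c x hx => ?_
      rw [LinearMap.sum_apply, Module.End.one_apply]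
      by_cases hx0 : x = 0
      · rw [hx0]
        exact Finset.sum_eq_zero fun β _ => map_zero _
      have hc : c ∈ g.charpoly.roots.toFinset := by
        rw [Multiset.mem_toFinset, mem_roots (LinearMap.charpoly_monic g).ne_zero,
          ← Module.End.hasEigenvalue_iff_isRoot_charpoly]
        have h2 : g.maxGenEigenspace c ≠ ⊥ := fun h => hx0 ((Submodule.mem_bot ℂ).1 (h ▸ hx))
        exact (Module.End.hasUnifEigenvalue_iff_hasUnifEigenvalue_one (by simp)).1 h2
      rw [Finset.sum_eq_single c]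
      · rw [hE c c x hx, if_pos rfl, one_smul]
      · intro β _ hβ
        rw [hE β c x hx, if_neg (Ne.symm hβ), zero_smul]
      · intro h
        exact absurd hc h
    have h2 := LinearMap.congr_fun h1 x
    rwa [LinearMap.sum_apply, Module.End.one_apply] at h2
  · have h1 : Y * E β = E β * Y := by
      refine op_ext g fun c x hx => ?_
      rw [Module.End.mul_apply, Module.End.mul_apply, hE β c x hx, hE β c _ (hY c x hx), map_smul]
    exact LinearMap.congr_fun h1 x

/-- polynomials without the root `c` are injective on the generalized eigenspace -/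
theorem gen_inj {g : End ℂ V} {c : ℂ} {q : ℂ[X]} (hq : q.eval c ≠ 0) {x : V}
    (hx : x ∈ g.maxGenEigenspace c) (h0 : aeval g q x = 0) : x = 0 := by
  obtain ⟨N, hN⟩ := (Module.End.mem_maxGenEigenspace g c x).1 hx
  have h1 : IsCoprime q ((X - C c) ^ N) := by
    refine IsCoprime.pow_right ?_
    rw [isCoprime_comm, (irreducible_X_sub_C c).coprime_iff_not_dvd, dvd_iff_isRoot]
    exact hq
  obtain ⟨a, b, hab⟩ := h1
  have h2 := congrArg (fun f => aeval g f x) hab
  have h3 : aeval g ((X - C c) ^ N) x = 0 := by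
    rw [map_pow, map_sub, aeval_X, aeval_C]
    rw [Algebra.smul_def, mul_one] at hN
    exact hN
  simp only [map_add, map_mul, map_one, LinearMap.add_apply, Module.End.mul_apply, h0, h3,
    map_zero, add_zero, Module.End.one_apply] at h2
  exact h2.symm

/-- idempotents which are scalar on the generalized eigenspaces are polynomials -/
theorem exists_poly {g P : End ℂ V} {s : ℂ → ℂ} (hs : ∀ c, s c = 1 ∨ s c = 0)
    (hP : ∀ c, ∀ x ∈ g.maxGenEigenspace c, P x = s c • x) : ∃ p : ℂ[X], aeval g p = P := by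
  classical
  obtain ⟨p₁, hp₁⟩ : ∃ p₁ : ℂ[X], p₁ = ((g.charpoly.roots.filter fun c => s c = 1).map
    fun c => X - C c).prod := ⟨_, rfl⟩
  obtain ⟨p₀, hp₀⟩ : ∃ p₀ : ℂ[X], p₀ = ((g.charpoly.roots.filter fun c => ¬ s c = 1).map
    fun c => X - C c).prod := ⟨_, rfl⟩
  have hprod : p₁ * p₀ = g.charpoly := by
    rw [hp₁, hp₀, ← Multiset.prod_add, ← Multiset.map_add, Multiset.filter_add_not]
    exact ((IsAlgClosed.splits g.charpoly).eq_prod_roots_of_monic (LinearMap.charpoly_monic g)).symm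
  have hr₁ : ∀ c, s c = 0 → p₁.eval c ≠ 0 := by
    intro c hc h0
    rw [hp₁, eval_multiset_prod, Multiset.map_map, Multiset.prod_eq_zero_iff,
      Multiset.mem_map] at h0
    obtain ⟨d, hd, hd0⟩ := h0
    rw [Multiset.mem_filter] at hd
    have h1 : c = d := by
      simpa [sub_eq_zero] using hd0
    rw [h1, hd.2] at hc
    exact one_ne_zero hc
  have hr₀ : ∀ c, s c = 1 → p₀.eval c ≠ 0 := by
    intro c hc h0
    rw [hp₀, eval_multiset_prod, Multiset.map_map, Multiset.prod_eq_zero_iff,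
      Multiset.mem_map] at h0
    obtain ⟨d, hd, hd0⟩ := h0
    rw [Multiset.mem_filter] at hd
    have h1 : c = d := by
      simpa [sub_eq_zero] using hd0
    rw [h1] at hc
    exact hd.2 hc
  have hcop : IsCoprime p₁ p₀ := by
    rw [hp₁]
    refine Multiset.prod_induction (fun q => IsCoprime q p₀) _ (fun a b ha hb => ha.mul_left hb)
      isCoprime_one_left ?_
    intro q hq
    rw [Multiset.mem_map] at hq
    obtain ⟨c, hc, rfl⟩ := hq
    rw [Multiset.mem_filter] at hc
    rw [(irreducible_X_sub_C c).coprime_iff_not_dvd, dvd_iff_isRoot]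
    exact hr₀ c hc.2
  have hCH : ∀ x, aeval g p₁ (aeval g p₀ x) = 0 := by
    intro x
    rw [← Module.End.mul_apply, ← map_mul, hprod, LinearMap.aeval_self_charpoly,
      LinearMap.zero_apply]
  have hCH' : ∀ x, aeval g p₀ (aeval g p₁ x) = 0 := by
    intro x
    rw [← Module.End.mul_apply, ← map_mul, mul_comm, hprod, LinearMap.aeval_self_charpoly,
      LinearMap.zero_apply]
  have hst : ∀ (q : ℂ[X]) (c : ℂ), ∀ x ∈ g.maxGenEigenspace c,
      aeval g q x ∈ g.maxGenEigenspace c := by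
    intro q c x hx
    have hcomm : Commute g (aeval g q) := by
      have h1 : aeval g (X * q) = aeval g (q * X) := by rw [mul_comm]
      rw [map_mul, map_mul, aeval_X] at h1
      exact h1
    exact Module.End.mapsTo_maxGenEigenspace_of_comm hcomm c hx
  obtain ⟨a, b, hab⟩ := hcop
  refine ⟨b * p₀, op_ext g fun c x hx => ?_⟩
  rw [hP c x hx]
  have h1 := congrArg (fun f => aeval g f x) hab
  simp only [map_add, map_mul, map_one, LinearMap.add_apply, Module.End.mul_apply,
    Module.End.one_apply] at h1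
  rcases hs c with h2 | h2
  · have h3 : aeval g p₁ x = 0 := gen_inj (hr₀ c h2) (hst p₁ c x hx) (hCH' x)
    rw [h3, map_zero, zero_add] at h1
    rw [map_mul, Module.End.mul_apply, h1, h2, one_smul]
  · have h3 : aeval g p₀ x = 0 := gen_inj (hr₁ c h2) (hst p₀ c x hx) (hCH x)
    rw [map_mul, Module.End.mul_apply, h3, map_zero, h2, zero_smul]

end gen

section wt

variable {k : Type} [Field k] [CharZero k] [Algebra k ℂ] {V : Type} [AddCommGroup V] [Module k V]
  [FiniteDimensional k V]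

theorem bc_sub_smul (σ : End k V) (c : k) (N : ℕ) :
    (σ.baseChange ℂ - algebraMap k ℂ c • (1 : End ℂ (ℂ ⊗[k] V))) ^ N =
      ((σ - c • (1 : End k V)) ^ N).baseChange ℂ := by
  rw [LinearMap.baseChange_pow]
  congr 1
  rw [LinearMap.baseChange_sub, LinearMap.baseChange_smul, bc_one, algebraMap_smul]

theorem gen_bc {σ : End k V} {c : k} {v : V} (hv : v ∈ σ.maxGenEigenspace c) :
    (1 : ℂ) ⊗ₜ[k] v ∈ Module.End.maxGenEigenspace (σ.baseChange ℂ) (algebraMap k ℂ c) := by
  obtain ⟨N, hN⟩ := (Module.End.mem_maxGenEigenspace σ c v).1 hv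
  rw [Module.End.mem_maxGenEigenspace]
  refine ⟨N, ?_⟩
  rw [bc_sub_smul, LinearMap.baseChange_tmul, hN, tmul_zero]

theorem pv_gen {σ : End k V} {c : k} {x : ℂ ⊗[k] V}
    (hx : x ∈ Module.End.maxGenEigenspace (σ.baseChange ℂ) (algebraMap k ℂ c)) (π : ℂ →ₗ[k] k) :
    pv π x ∈ σ.maxGenEigenspace c := by
  obtain ⟨N, hN⟩ := (Module.End.mem_maxGenEigenspace _ _ x).1 hx
  rw [Module.End.mem_maxGenEigenspace]
  refine ⟨N, ?_⟩
  rw [bc_sub_smul] at hN
  rw [← pv_bc, hN, map_zero]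

/-- the weight of a vector over the subfield -/
theorem pv_wt {σ : End k V} {A : k[X]} (hA : ∀ c : ℂ, aeval c A = 0 → ∃ x : k, algebraMap k ℂ x = c)
    {x : ℂ ⊗[k] V} (hAx : (aeval σ A).baseChange ℂ x = 0) {χ : tor (σ.baseChange ℂ) → ℂ}
    (hx : ∀ a : tor (σ.baseChange ℂ), (a : End ℂ (ℂ ⊗[k] V)) x = χ a • x) (π : ℂ →ₗ[k] k) :
    ∀ a : tor (σ.baseChange ℂ),
      (a : End ℂ (ℂ ⊗[k] V)) ((1 : ℂ) ⊗ₜ[k] pv π x) = χ a • ((1 : ℂ) ⊗ₜ[k] pv π x) := by
  classical
  intro a
  obtain ⟨E, hE, hEmem, hEsum, hEcomm⟩ := exists_gproj (σ.baseChange ℂ)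
  have hA2 : aeval (σ.baseChange ℂ) (A.map (algebraMap k ℂ)) = (aeval σ A).baseChange ℂ := by
    rw [aeval_map_algebraMap]
    exact aeval_algHom_apply (Module.End.baseChangeHom k ℂ V) σ A
  have hcommA : Commute (σ.baseChange ℂ) (aeval (σ.baseChange ℂ) (A.map (algebraMap k ℂ))) := by
    have h1 : aeval (σ.baseChange ℂ) (X * A.map (algebraMap k ℂ)) =
      aeval (σ.baseChange ℂ) (A.map (algebraMap k ℂ) * X) := by rw [mul_comm]
    rw [map_mul, map_mul, aeval_X] at h1
    exact h1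
  obtain ⟨θ, hθ⟩ := a.2
  have key : ∀ β, (a : End ℂ (ℂ ⊗[k] V)) ((1 : ℂ) ⊗ₜ[k] pv π (E β x)) =
      χ a • ((1 : ℂ) ⊗ₜ[k] pv π (E β x)) := by
    intro β
    by_cases h0 : E β x = 0
    · rw [h0, map_zero, tmul_zero, map_zero, smul_zero]
    have h1 : aeval (σ.baseChange ℂ) (A.map (algebraMap k ℂ)) (E β x) = 0 := by
      rw [hEcomm β _ (fun c x hx => Module.End.mapsTo_maxGenEigenspace_of_comm hcommA c hx), hA2,
        hAx, map_zero]
    have h2 : (A.map (algebraMap k ℂ)).eval β = 0 := by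
      by_contra hne
      exact h0 (gen_inj hne (hEmem β x) h1)
    rw [eval_map_algebraMap] at h2
    obtain ⟨c, rfl⟩ := hA β h2
    have h3 : ext0 θ (algebraMap k ℂ c) = χ a := by
      have h4 := hθ _ _ (hEmem (algebraMap k ℂ c) x)
      have h5 : (a : End ℂ (ℂ ⊗[k] V)) (E (algebraMap k ℂ c) x) =
          E (algebraMap k ℂ c) ((a : End ℂ (ℂ ⊗[k] V)) x) :=
        hEcomm _ _ (fun c x hx => by rw [hθ c x hx]; exact Submodule.smul_mem _ _ hx) x
      rw [hx, map_smul] at h5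
      rw [h5, ← sub_eq_zero, ← sub_smul] at h4
      exact (sub_eq_zero.1 ((smul_eq_zero.1 h4).resolve_right h0)).symm
    rw [hθ _ _ (gen_bc (pv_gen (hEmem (algebraMap k ℂ c) x) π)), h3]
  have h6 : ((1 : ℂ) ⊗ₜ[k] pv π x) =
      ∑ β ∈ (σ.baseChange ℂ).charpoly.roots.toFinset, (1 : ℂ) ⊗ₜ[k] pv π (E β x) := by
    rw [← tmul_sum, ← map_sum, hEsum]
  rw [h6, map_sum, Finset.smul_sum]
  exact Finset.sum_congr rfl fun β _ => key β

theorem pM_sub (π : ℂ →ₗ[k] k) (Y Z : End ℂ (ℂ ⊗[k] V)) :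
    (pM π (Y - Z) : End k V) = pM π Y - pM π Z := by
  refine LinearMap.ext fun v => ?_
  rw [LinearMap.sub_apply, pM_apply, pM_apply, pM_apply, LinearMap.sub_apply, map_sub]

theorem aeval_stable {K : Type} [Field K] {M : Type} [AddCommGroup M] [Module K M] {g : End K M}
    {W : Submodule K M} (hg : ∀ x ∈ W, g x ∈ W) (q : K[X]) : ∀ x ∈ W, aeval g q x ∈ W := by
  intro x hx
  have hpow : ∀ n : ℕ, (g ^ n) x ∈ W := by
    intro n
    induction n with
    | zero => rwa [pow_zero]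
    | succ n ih => rw [pow_succ', Module.End.mul_apply]; exact hg _ ih
  rw [aeval_eq_sum_range, LinearMap.sum_apply]
  refine W.sum_mem fun n _ => ?_
  rw [LinearMap.smul_apply]
  exact W.smul_mem _ (hpow n)

theorem aeval_comm' {K : Type} [Field K] {M : Type} [AddCommGroup M] [Module K M] {g X : End K M}
    (hg : X * g = g * X) (q : K[X]) : X * aeval g q = aeval g q * X := by
  have h1 : Commute X g := hg
  rw [aeval_eq_sum_range]
  exact (Commute.sum_right _ _ _ fun n _ => (h1.pow_right n).smul_right _)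

/-- central endomorphisms of modules whose weights are rational over `k` -/
theorem split_core (h : Inputs) (h2 : Inputs2) {L : Submodule k (End k V)} {σ₁ : End k V}
    (T₁ : Tor (bcS ℂ L) (tor (σ₁.baseChange ℂ))) {A : k[X]}
    (hA : ∀ c : ℂ, aeval c A = 0 → ∃ x : k, algebraMap k ℂ x = c) {W : Submodule k V} (hW0 : W ≠ ⊥)
    (hW : ∀ X ∈ L, ∀ x ∈ W, X x ∈ W) (hWA : ∀ x ∈ W, aeval σ₁ A x = 0) {z : End k V}
    (hzL : ∀ X ∈ L, X * z = z * X)
    (hz : ∀ Q : End k V, (∀ X ∈ L, X * Q = Q * X) → z * Q = Q * z) (hzW : ∀ x ∈ W, z x ∈ W)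
    {μ : k[X]} (hμ : Irreducible μ) (hμz : ∀ x ∈ W, aeval z μ x = 0) : μ.natDegree = 1 := by
  classical
  by_contra hdeg
  have hpos : 0 < μ.natDegree := hμ.natDegree_pos
  have hcard := card_rootSet_eq_natDegree (K := ℂ) hμ.separable (IsAlgClosed.splits _)
  have hlt : 1 < Fintype.card (μ.rootSet ℂ) := by omega
  obtain ⟨⟨z₁, h1⟩, ⟨z₂, h3⟩, hne⟩ := Fintype.one_lt_card_iff.1 hlt
  have hz₁ : aeval z₁ μ = 0 := (mem_rootSet.1 h1).2
  have hz₂ : aeval z₂ μ = 0 := (mem_rootSet.1 h3).2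
  have hne' : z₁ ≠ z₂ := fun h => hne (Subtype.ext h)
  have hWC0 : W.baseChange ℂ ≠ ⊥ := by
    intro h0
    apply hW0
    rw [eq_bot_iff]
    intro x hx
    have h4 : (1 : ℂ) ⊗ₜ[k] x ∈ W.baseChange ℂ := Submodule.tmul_mem_baseChange_of_mem 1 hx
    rw [h0, Submodule.mem_bot] at h4
    obtain ⟨π, hπ⟩ := exists_pi k ℂ
    have h5 := congrArg (pv π) h4
    rw [pv_tmul, hπ, one_smul, map_zero] at h5
    exact (Submodule.mem_bot k).2 h5
  have hzLC : ∀ X ∈ bcS ℂ L, X * z.baseChange ℂ = z.baseChange ℂ * X := bcS_comm hzL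
  refine hw_contra T₁ (z := z.baseChange ℂ) ?_ (fun X hX => (hzLC X hX).symm) ?_ hne' hWC0
    (bcS_stable hW) ?_
  · intro W' hW'
    exact h2.weyl ℂ _ (bcS ℂ L) T₁.lie T₁.nd (fun c hc hc' => T₁.diag c (T₁.cen c hc fun a ha =>
      (hc' a (T₁.le ha)).symm)) W' hW'
  · intro Q hQ
    rw [← sub_eq_zero]
    apply pM_sep
    intro π
    rw [pM_sub, pM_bc_mul, pM_mul_bc, sub_eq_zero]
    refine hz _ fun X hX => ?_
    rw [← pM_bc_mul, ← pM_mul_bc, hQ _ (Submodule.subset_span ⟨X, hX, rfl⟩)]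
  · rintro χ ⟨x, hx, hx0, hxw⟩ c hc
    have hcμ : aeval c μ = 0 := by
      rcases hc with rfl | rfl
      · exact hz₁
      · exact hz₂
    obtain ⟨π, hπ⟩ : ∃ π : ℂ →ₗ[k] k, pv π x ≠ 0 := by
      by_contra hcon
      push Not at hcon
      exact hx0 (pv_sep hcon)
    have huW : pv π x ∈ W := pv_mem π hx
    have hAx : (aeval σ₁ A).baseChange ℂ x = 0 := pv_sep fun π => by
      rw [pv_bc]
      exact hWA _ (pv_mem π hx)
    have huw := pv_wt hA hAx hxw π
    obtain ⟨ν, hν0, hν⟩ := exists_root_vec hμ hπ (hμz _ huW) hcμ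
    refine ⟨_, ?_, hν0, fun a => ?_, hν⟩
    · refine aeval_stable (fun y hy => ?_) ν _ (Submodule.tmul_mem_baseChange_of_mem 1 huW)
      rw [Submodule.baseChange_eq_span] at hy ⊢
      induction hy using Submodule.span_induction with
      | mem y hy =>
        obtain ⟨w, hw, rfl⟩ := hy
        exact Submodule.subset_span ⟨z w, hzW w hw, rfl⟩
      | zero => rw [map_zero]; exact Submodule.zero_mem _
      | add x y _ _ hx hy => rw [map_add]; exact Submodule.add_mem _ hx hy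
      | smul a x _ hx => rw [map_smul]; exact Submodule.smul_mem _ _ hx
    · have h4 := aeval_comm' (hzLC _ (T₁.le a.2)) ν
      have h5 := LinearMap.congr_fun h4 ((1 : ℂ) ⊗ₜ[k] pv π x)
      rw [Module.End.mul_apply, Module.End.mul_apply, huw a, map_smul] at h5
      exact h5

theorem eval_eq_of_pc {p : ℂ[X]} {x y : ℂ}
    (key : ∀ π : ℂ →ₗ[k] k, aeval x (pc π p) = aeval y (pc π p)) : p.eval x = p.eval y := by
  obtain ⟨ξ, hξ⟩ : ∃ ξ : ℂ ⊗[k] ℂ, ξ = ∑ n ∈ Finset.range (p.natDegree + 1),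
    p.coeff n ⊗ₜ[k] (x ^ n - y ^ n) := ⟨_, rfl⟩
  have h0 : ξ = 0 := pv_sep' fun π => by
    have h1 := key π
    rw [pc, map_sum, map_sum, ← sub_eq_zero, ← Finset.sum_sub_distrib] at h1
    rw [hξ, map_sum, ← h1]
    refine Finset.sum_congr rfl fun n _ => ?_
    rw [pv_tmul, aeval_monomial, aeval_monomial, Algebra.smul_def, mul_sub]
  have h1 := congrArg (TensorProduct.lift (LinearMap.mul k ℂ)) h0
  rw [hξ, map_sum, map_zero] at h1
  simp only [TensorProduct.lift.tmul, LinearMap.mul_apply'] at h1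
  rw [eval_eq_sum_range, eval_eq_sum_range, ← sub_eq_zero, ← Finset.sum_sub_distrib, ← h1]
  exact Finset.sum_congr rfl fun n _ => (mul_sub _ _ _).symm

theorem eq_eval {M : Type} [AddCommGroup M] [Module ℂ M] {g P : End ℂ M} {p : ℂ[X]}
    (hp : aeval g p = P) {w : M} (hw : w ≠ 0) {c s : ℂ} (hc : g w = c • w)
    (hs : P w = s • w) : s = p.eval c := by
  have h1 : g.HasEigenvector c w := ⟨Module.End.mem_eigenspace_iff.2 hc, hw⟩
  have h3 := Module.End.aeval_apply_of_hasEigenvector (p := p) h1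
  rw [hp, hs, ← sub_eq_zero, ← sub_smul] at h3
  exact sub_eq_zero.1 ((smul_eq_zero.1 h3).resolve_right hw)

theorem mem_gen_of_eq {M : Type} [AddCommGroup M] [Module ℂ M] {g : End ℂ M} {w : M} {c : ℂ}
    (hc : g w = c • w) : w ∈ g.maxGenEigenspace c := by
  rw [Module.End.mem_maxGenEigenspace]
  exact ⟨1, by rw [pow_one, LinearMap.sub_apply, LinearMap.smul_apply, Module.End.one_apply, hc,
    sub_self]⟩

theorem linear_root {z : End k V} {μ : k[X]} (hμ : Irreducible μ) (hdeg : μ.natDegree = 1) {v : V}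
    (hμv : aeval z μ v = 0) : ∃ r : k, z v = r • v := by
  have h1 : μ = C (μ.coeff 1) * X + C (μ.coeff 0) := eq_X_add_C_of_natDegree_le_one hdeg.le
  have h3 : μ.coeff 1 ≠ 0 := by
    have := leadingCoeff_ne_zero.2 hμ.ne_zero
    rwa [leadingCoeff, hdeg] at this
  rw [h1] at hμv
  rw [map_add, map_mul, aeval_C, aeval_X, aeval_C, LinearMap.add_apply, Module.End.mul_apply,
    Module.algebraMap_end_apply, Module.algebraMap_end_apply] at hμv
  refine ⟨-((μ.coeff 1)⁻¹ * μ.coeff 0), ?_⟩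
  have h4 : z v = (μ.coeff 1)⁻¹ • (μ.coeff 1 • z v) := by
    rw [smul_smul, inv_mul_cancel₀ h3, one_smul]
  rw [h4, eq_neg_of_add_eq_zero_left hμv, smul_neg, smul_smul, neg_smul]

/-- the minimal polynomial of a polynomial modulo an irreducible polynomial -/
theorem exists_comp {B : k[X]} (hB : Irreducible B) (q : k[X]) :
    ∃ μ : k[X], Irreducible μ ∧ B ∣ μ.comp q := by
  have := Fact.mk hB
  have : Module.Finite k (AdjoinRoot B) := (AdjoinRoot.powerBasis hB.ne_zero).finite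
  have hint : IsIntegral k (AdjoinRoot.mk B q) := IsIntegral.of_finite k _
  refine ⟨minpoly k (AdjoinRoot.mk B q), minpoly.irreducible hint, ?_⟩
  have h1 := minpoly.aeval k (AdjoinRoot.mk B q)
  rw [← AdjoinRoot.mk_eq_zero, ← AdjoinRoot.aeval_eq, aeval_comp, AdjoinRoot.aeval_eq]
  exact h1

/-- the generalized eigenvectors are weight vectors -/
theorem gen_wt (g : End ℂ (ℂ ⊗[k] V)) (c : ℂ) : ∃ χ : tor g → ℂ, ∀ x ∈ g.maxGenEigenspace c,
    ∀ a : tor g, (a : End ℂ (ℂ ⊗[k] V)) x = χ a • x := by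
  have h1 : ∀ a : tor g, ∃ θ : Additive ℂˣ →+ ℂ, IsOp θ g a := fun a => a.2
  choose θ hθ using h1
  exact ⟨fun a => ext0 (θ a) c, fun x hx a => hθ a c x hx⟩

open scoped Classical in
/-- class projections have the same value at conjugate eigenvalues -/
theorem conj_class (h : Inputs) (h2 : Inputs2) {L : Submodule k (End k V)} {σ₁ σ₂ : End k V}
    (T₁ : Tor (bcS ℂ L) (tor (σ₁.baseChange ℂ))) (T₂ : Tor (bcS ℂ L) (tor (σ₂.baseChange ℂ)))
    {A : k[X]} (hA : ∀ c : ℂ, aeval c A = 0 → ∃ x : k, algebraMap k ℂ x = c)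
    {W : Submodule k V} (hW : ∀ X ∈ L, ∀ x ∈ W, X x ∈ W) (hWA : ∀ x ∈ W, aeval σ₁ A x = 0)
    (hWσ : ∀ x ∈ W, σ₂ x ∈ W) {R : Set (tor (σ₂.baseChange ℂ) → ℂ)}
    {P : End ℂ (ℂ ⊗[k] V)} (hP : IsClassProj (tor (σ₂.baseChange ℂ)) R P)
    (hPL : ∀ Y ∈ bcS ℂ L, P * Y = Y * P) {B : k[X]} (hB : Irreducible B) {v : V} (hv : v ∈ W)
    (hv0 : v ≠ 0) (hBv : aeval σ₂ B v = 0) {x y : ℂ} (hx : aeval x B = 0) (hy : aeval y B = 0)
    {s : ℂ → ℂ} (hs : ∀ c, s c = 1 ∨ s c = 0)
    (hPs : ∀ c, ∀ x ∈ Module.End.maxGenEigenspace (σ₂.baseChange ℂ) c, P x = s c • x) : s x = s y := by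
  obtain ⟨p, hp⟩ := exists_poly hs hPs
  -- `P` commutes with the commutant of `L`
  have hPQ : ∀ Q : End ℂ (ℂ ⊗[k] V), (∀ X ∈ bcS ℂ L, X * Q = Q * X) → P * Q = Q * P := by
    intro Q hQ
    obtain ⟨χ₀, hχ₀⟩ := hP
    refine op_ext (σ₂.baseChange ℂ) fun c x hx => ?_
    obtain ⟨χ, hχ⟩ := gen_wt (σ₂.baseChange ℂ) c
    rw [Module.End.mul_apply, Module.End.mul_apply, hχ₀ χ x (hχ x hx), hχ₀ χ (Q x), map_smul]
    intro a
    have h1 := LinearMap.congr_fun (hQ a (T₂.le a.2)) x
    rw [Module.End.mul_apply, Module.End.mul_apply, hχ x hx, map_smul] at h1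
    exact h1
  have key : ∀ π : ℂ →ₗ[k] k, aeval x (pc π p) = aeval y (pc π p) := by
    intro π
    obtain ⟨q, hq⟩ : ∃ q, q = pc π p := ⟨_, rfl⟩
    obtain ⟨z, hz⟩ : ∃ z : End k V, z = aeval σ₂ q := ⟨_, rfl⟩
    have hzP : (pM π P : End k V) = z := by rw [← hp, pM_aeval, hz, hq]
    have hzL : ∀ X ∈ L, X * z = z * X := by
      intro X hX
      rw [← hzP, ← pM_bc_mul, ← pM_mul_bc, hPL _ (Submodule.subset_span ⟨X, hX, rfl⟩)]
    have hzQ : ∀ Q : End k V, (∀ X ∈ L, X * Q = Q * X) → z * Q = Q * z := by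
      intro Q hQ
      rw [← hzP, ← pM_bc_mul, ← pM_mul_bc, hPQ _ (bcS_comm hQ)]
    obtain ⟨μ, hμ, hμB⟩ := exists_comp hB q
    have hμv : aeval z μ v = 0 := by
      obtain ⟨r, hr⟩ := hμB
      rw [hz, ← aeval_comp, hr, mul_comm, map_mul, Module.End.mul_apply, hBv, map_zero]
    obtain ⟨W', hW'⟩ : ∃ W' : Submodule k V, W' = W ⊓ LinearMap.ker (aeval z μ) := ⟨_, rfl⟩
    have hmem : ∀ x, x ∈ W' ↔ x ∈ W ∧ aeval z μ x = 0 := by
      intro x
      rw [hW', Submodule.mem_inf, LinearMap.mem_ker]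
    have hdeg := split_core h h2 T₁ hA (W := W') (z := z)
      (fun h0 => hv0 ((Submodule.mem_bot k).1 (h0 ▸ (hmem v).2 ⟨hv, hμv⟩)))
      (fun X hX x hx => by
        rw [hmem] at hx ⊢
        refine ⟨hW X hX x hx.1, ?_⟩
        have h1 := LinearMap.congr_fun (aeval_comm' (hzL X hX) μ) x
        rw [Module.End.mul_apply, Module.End.mul_apply, hx.2, map_zero] at h1
        exact h1.symm) (fun x hx => hWA x ((hmem x).1 hx).1) hzL hzQ
      (fun x hx => by
        rw [hmem] at hx ⊢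
        refine ⟨?_, ?_⟩
        · rw [hz]
          exact aeval_stable hWσ q x hx.1
        · have h1 := LinearMap.congr_fun (aeval_comm' (rfl : z * z = z * z) μ) x
          rw [Module.End.mul_apply, Module.End.mul_apply, hx.2, map_zero] at h1
          exact h1.symm) hμ (fun x hx => ((hmem x).1 hx).2)
    obtain ⟨r, hr⟩ := linear_root hμ hdeg hμv
    have h5 : B ∣ q - C r := by
      refine dvd_of_kill hB hv0 hBv ?_
      rw [map_sub, ← hz, aeval_C, LinearMap.sub_apply, Module.algebraMap_end_apply, hr, sub_self]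
    obtain ⟨q', hq'⟩ := h5
    have h6 : ∀ c : ℂ, aeval c B = 0 → aeval c q = algebraMap k ℂ r := by
      intro c hc
      have h7 := congrArg (aeval c) hq'
      rw [map_mul, hc, zero_mul, map_sub, aeval_C] at h7
      exact sub_eq_zero.1 h7
    rw [← hq, h6 x hx, h6 y hy]
  have hsp : ∀ c : ℂ, aeval c B = 0 → s c = p.eval c := by
    intro c hc
    obtain ⟨ν, hν0, hν⟩ := exists_root_vec hB hv0 hBv hc
    exact eq_eval hp hν0 hν (hPs c _ (mem_gen_of_eq hν))
  rw [hsp x hx, hsp y hy, eval_eq_of_pc key]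

end wt

end Pool.Agent.Q65.KL
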