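import Pool.Agent.Q65.TA

/-!
# The Lie algebra of the Tate tensors is the centralizer of the central Tate endomorphisms
-/

set_option autoImplicit false
set_option linter.unusedSectionVars false
set_option linter.unusedVariables false

namespace Pool.Agent.Q65.KL

open NumberField IsDedekindDomain Module Polynomial TensorProduct Pool.Agent.TH118.SG
  Pool.Agent.Y114.MU Pool.Agent.Y114.TF Pool.Agent.Y114.GF Pool.Agent.H204R3.GP Pool.Agent.Y114.RM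
  Pool.Agent.Y212.RM
open Pool.Agent.W569.FM Pool.Agent.W571.FM Pool.Agent.Y115.R Pool.Agent.Y115.T Pool.Agent.Y115.Chi

section classes

variable {K : Type} [Field K] [CharZero K] [IsAlgClosed K] {V : Type} [AddCommGroup V]
  [Module K V] [FiniteDimensional K V]

/-- weights of vectors which commute with the class projections -/
theorem mem_closure_one {G L t : Submodule K (End K V)} (T : Tor G t) (T' : Tor L t)
    {χ : t → K} {X : End K V}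
    (hcomm : ∀ P : End K V, IsClassProj t (Wts t L) P → (∀ Y ∈ L, P * Y = Y * P) →
      P * X = X * P) (hX0 : X ≠ 0)
    (hw : ∀ a : t, (a : End K V) * X - X * a = χ a • X) :
    χ ∈ AddSubgroup.closure (Wts t L) := by
  classical
  by_contra hcon
  obtain ⟨Q, hQ⟩ : ∃ Q : AddSubgroup (t → K), Q = AddSubgroup.closure (Wts t L) := ⟨_, rfl⟩
  rw [← hQ] at hcon
  obtain ⟨J, _, b, w, hb⟩ := exists_wt_basis t T.diag T.comm
  obtain ⟨j, hj⟩ : ∃ j, X (b j) ≠ 0 := by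
    by_contra h1
    push Not at h1
    exact hX0 (b.ext fun j => by rw [h1 j, LinearMap.zero_apply])
  obtain ⟨P, hP, hPL⟩ := exists_classProj T' (w j)
  rw [← hQ] at hP
  have h1 := LinearMap.congr_fun (hcomm P ⟨w j, by rw [← hQ]; exact hP⟩ hPL) (b j)
  rw [Module.End.mul_apply, Module.End.mul_apply, hP (w j) (b j) (hb j),
    hP (w j + χ) (X (b j)) (wt_add hw (hb j)), sub_self, if_pos Q.zero_mem, one_smul,
    add_sub_cancel_left, if_neg hcon, zero_smul] at h1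
  exact hj h1.symm

/-- elements which commute with the class projections -/
theorem le_of_classes {G L t G' : Submodule K (End K V)} (hG : IsLie G) (hndG : NonDeg G)
    (hLG : L ≤ G) (hL : IsLie L) (hndL : NonDeg L) (ht : t ≤ L)
    (hdiag : ∀ a ∈ t, ⨆ μ, End.eigenspace a μ = ⊤) (hct : ∀ a ∈ t, ∀ b ∈ t, a * b = b * a)
    (hcen : ∀ x ∈ G, (∀ a ∈ t, a * x = x * a) → x ∈ t) (hG'G : G' ≤ G)
    (hG't : ∀ a ∈ t, ∀ X ∈ G', a * X - X * a ∈ G')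
    (hcomm : ∀ P : End K V, IsClassProj t (Wts t L) P → (∀ Y ∈ L, P * Y = Y * P) →
      ∀ X ∈ G', P * X = X * P) : G' ≤ L := by
  have T : Tor G t := ⟨hG, hndG, ht.trans hLG, hdiag, hct, hcen⟩
  have T' : Tor L t := ⟨hL, hndL, ht, hdiag, hct, fun x hx => hcen x (hLG hx)⟩
  show ∀ X ∈ G', X ∈ L
  refine wt_induction t hdiag hct G' hG't
    (P := fun X => X ∈ L) L.zero_mem (fun X Y _ _ hX hY => L.add_mem hX hY) ?_
  intro χ X hX hw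
  show X ∈ L
  by_cases hX0 : X = 0
  · rw [hX0]; exact L.zero_mem
  have h1 := mem_closure_one T T' (fun P hP hPL => hcomm P hP hPL X hX) hX0 hw
  obtain ⟨l, hl, hsum⟩ : ∃ l : List (t → K), (∀ ψ ∈ l, ψ ∈ Wts t L) ∧ l.sum = χ := by
    have hneg : ∀ ψ ∈ Wts t L, -ψ ∈ Wts t L := by
      rintro ψ ⟨⟨a0, ha0⟩, Y, hY, hY0, hYw⟩
      obtain ⟨f, hf, hfw, htr⟩ := T'.exists_dual hY hYw hY0
      refine ⟨⟨a0, by rw [Pi.neg_apply]; exact neg_ne_zero.2 ha0⟩, f, hf, ?_, hfw⟩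
      rintro rfl
      rw [mul_zero, map_zero] at htr
      exact htr rfl
    have key : ∀ χ' ∈ AddSubgroup.closure (Wts t L), ∃ l : List (t → K),
        (∀ ψ ∈ l, ψ ∈ Wts t L) ∧ l.sum = χ' := by
      intro χ' hχ'
      induction hχ' using AddSubgroup.closure_induction with
      | mem x hx => exact ⟨[x], fun ψ hψ => by rw [List.mem_singleton.1 hψ]; exact hx, by simp⟩
      | zero => exact ⟨[], fun ψ hψ => absurd hψ List.not_mem_nil, List.sum_nil⟩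
      | add x y _ _ hx hy =>
        obtain ⟨l1, h1, rfl⟩ := hx
        obtain ⟨l2, h2, rfl⟩ := hy
        refine ⟨l1 ++ l2, fun ψ hψ => ?_, List.sum_append⟩
        rcases List.mem_append.1 hψ with h | h
        · exact h1 ψ h
        · exact h2 ψ h
      | neg x _ hx =>
        obtain ⟨l, h, rfl⟩ := hx
        refine ⟨l.map (fun y => -y), fun ψ hψ => ?_, (List.sum_neg l).symm⟩
        obtain ⟨y, hy, rfl⟩ := List.mem_map.1 hψ
        exact hneg y (h y hy)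
    exact key χ h1
  exact mem_of_sum T T' hLG l.length l rfl hl X (hG'G hX) (by rw [hsum]; exact hw)

end classes

section blk

variable {k : Type} [Field k] [CharZero k] [Algebra k ℂ] {ι : Type} [Fintype ι] [DecidableEq ι]
  {V : ι → Type} [∀ i, AddCommGroup (V i)] [∀ i, Module k (V i)] [∀ i, FiniteDimensional k (V i)]
  {Γ : Type} [Group Γ] (ρ : ∀ i, Representation k Γ (V i))

/-- elements of `G` which commute with the block diagonal central elements of the commutant of `L`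
are in `L`. -/
theorem le_of_central (h : Inputs) {L G G' : Submodule k (End k (∀ i, V i))} (hL : IsLie L)
    (hG : IsLie G) (hndG : NonDeg G) (hndL : NonDeg L) (hLG : L ≤ G) (hLG'' : L ≤ G')
    (hG'G : G' ≤ G) (hG' : IsLie G') (γ₂ : Γ)
    (ht₂ : tor ((sumRep ρ γ₂).baseChange ℂ) ≤ bcS ℂ L)
    (hcen₂ : ∀ x ∈ bcS ℂ G, (∀ a ∈ tor ((sumRep ρ γ₂).baseChange ℂ), a * x = x * a) →
      x ∈ tor ((sumRep ρ γ₂).baseChange ℂ))
    (hz : ∀ z : End k (∀ i, V i), (∀ x i, z x i = z (Pi.single i (x i)) i) →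
      (∀ X ∈ L, X * z = z * X) → (∀ Q, (∀ X ∈ L, X * Q = Q * X) → z * Q = Q * z) →
      ∀ X ∈ G', X * z = z * X) : L = G' := by
  classical
  have hLG' : bcS ℂ L ≤ bcS ℂ G := bcS_mono hLG
  have hLC : IsLie (bcS ℂ L) := (h.bc k ℂ _ L).2.1 hL
  have hLndC : NonDeg (bcS ℂ L) := (h.bc k ℂ _ L).2.2.1 hndL
  have hG'C : IsLie (bcS ℂ G') := (h.bc k ℂ _ G').2.1 hG'
  refine (h.bc k ℂ _ G').2.2.2.2.1 L hLG'' ?_
  refine le_antisymm (bcS_mono hLG'') ?_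
  refine le_of_classes ((h.bc k ℂ _ G).2.1 hG) ((h.bc k ℂ _ G).2.2.1 hndG) hLG' hLC hLndC ht₂
    (tor_diag _) (tor_comm _) hcen₂ (bcS_mono hG'G)
    (fun a ha X hX => hG'C a (bcS_mono hLG'' (ht₂ ha)) X hX) ?_
  rintro P ⟨χ₀, hP⟩ hPL
  -- the weights
  have h1 : ∀ c : ℂ, ∃ χ : tor ((sumRep ρ γ₂).baseChange ℂ) → ℂ,
      ∀ x ∈ Module.End.maxGenEigenspace ((sumRep ρ γ₂).baseChange ℂ) c,
        ∀ a : tor ((sumRep ρ γ₂).baseChange ℂ), (a : End ℂ (ℂ ⊗[k] (∀ i, V i))) x = χ a • x :=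
    fun c => gen_wt _ c
  choose wt hwt using h1
  obtain ⟨R, hR⟩ : ∃ R : AddSubgroup (tor ((sumRep ρ γ₂).baseChange ℂ) → ℂ),
    R = AddSubgroup.closure (Wts (tor ((sumRep ρ γ₂).baseChange ℂ)) (bcS ℂ L)) := ⟨_, rfl⟩
  rw [← hR] at hP
  obtain ⟨p, hp⟩ := exists_poly (g := (sumRep ρ γ₂).baseChange ℂ) (P := P)
    (s := fun c => if wt c - χ₀ ∈ R then 1 else 0)
    (fun c => by
      by_cases hc : wt c - χ₀ ∈ R
      · left; exact if_pos hc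
      · right; exact if_neg hc)
    (fun c x hx => hP (wt c) x (hwt c x hx))
  -- `P` commutes with the commutant of `L`
  have hPQ : ∀ Q : End ℂ (ℂ ⊗[k] (∀ i, V i)), (∀ X ∈ bcS ℂ L, X * Q = Q * X) →
      P * Q = Q * P := by
    intro Q hQ
    refine op_ext ((sumRep ρ γ₂).baseChange ℂ) fun c x hx => ?_
    rw [Module.End.mul_apply, Module.End.mul_apply, hP (wt c) x (hwt c x hx),
      hP (wt c) (Q x), map_smul]
    intro a
    have h1 := LinearMap.congr_fun (hQ a (ht₂ a.2)) x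
    rw [Module.End.mul_apply, Module.End.mul_apply, hwt c x hx, map_smul] at h1
    exact h1
  have hcomm : ∀ (π : ℂ →ₗ[k] k), ∀ X ∈ G', X * (pM π P : End k (∀ i, V i)) = pM π P * X := by
    intro π
    refine hz _ ?_ ?_ ?_
    · intro x i
      rw [← hp, pM_aeval, aeval_sumRep, aeval_sumRep, Pi.single_eq_same]
    · intro X hX
      rw [← pM_bc_mul, ← pM_mul_bc, hPL _ (mem_bcS hX)]
    · intro Q hQ
      rw [← pM_bc_mul, ← pM_mul_bc, hPQ _ (bcS_comm hQ)]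
  have h1 : ∀ X ∈ G', P * X.baseChange ℂ = X.baseChange ℂ * P := by
    intro X hX
    rw [← sub_eq_zero]
    apply pM_sep
    intro π
    rw [pM_sub, pM_mul_bc, pM_bc_mul, hcomm π X hX, sub_self]
  intro X hX
  induction hX using Submodule.span_induction with
  | mem X hX =>
    obtain ⟨X, hX, rfl⟩ := hX
    exact h1 X hX
  | zero => rw [mul_zero, zero_mul]
  | add X Y _ _ hX hY => rw [mul_add, add_mul, hX, hY]
  | smul c X _ hX => rw [mul_smul_comm, smul_mul_assoc, hX]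

end blk

section cent

variable {Γ : Type} [Group Γ] {ι : Type} [Fintype ι] [DecidableEq ι] {n : ι → ℕ} {ℓ : ℕ}
  [hℓ : Fact ℓ.Prime] (ρ : ∀ i, Representation ℚ_[ℓ] Γ (Fin (n i) → ℚ_[ℓ]))

/-- central Tate endomorphisms of a summand -/
def CT (i : ι) (z : End ℚ_[ℓ] (Fin (n i) → ℚ_[ℓ])) : Prop :=
  TateEnd1 ρ i z ∧ ∀ y, TateEnd1 ρ i y → z * y = y * z

/-- the elements of `𝔤` which commute with the central Tate endomorphisms of the summands -/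
def cenT (𝔤 : Submodule ℚ_[ℓ] (End ℚ_[ℓ] (∀ i, Fin (n i) → ℚ_[ℓ]))) :
    Submodule ℚ_[ℓ] (End ℚ_[ℓ] (∀ i, Fin (n i) → ℚ_[ℓ])) where
  carrier := {X | X ∈ 𝔤 ∧ ∀ i z, CT ρ i z → blk i X * z = z * blk i X}
  add_mem' := by
    rintro X Y ⟨hX, hX'⟩ ⟨hY, hY'⟩
    refine ⟨𝔤.add_mem hX hY, fun i z hz => ?_⟩
    rw [map_add, add_mul, mul_add, hX' i z hz, hY' i z hz]
  zero_mem' := ⟨𝔤.zero_mem, fun i z hz => by rw [map_zero, zero_mul, mul_zero]⟩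
  smul_mem' := by
    rintro c X ⟨hX, hX'⟩
    refine ⟨𝔤.smul_mem c hX, fun i z hz => ?_⟩
    rw [map_smul, smul_mul_assoc, mul_smul_comm, hX' i z hz]

theorem cenT_le (𝔤 : Submodule ℚ_[ℓ] (End ℚ_[ℓ] (∀ i, Fin (n i) → ℚ_[ℓ]))) : cenT ρ 𝔤 ≤ 𝔤 :=
  fun X hX => hX.1

theorem blk_mul_parts {X Y : End ℚ_[ℓ] (∀ i, Fin (n i) → ℚ_[ℓ])}
    (hX : ∀ x i, X x i = X (Pi.single i (x i)) i) (i : ι) :
    blk i (X * Y) = blk i X * blk i Y := by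
  refine LinearMap.ext fun x => ?_
  rw [Module.End.mul_apply, blk_apply, blk_apply, blk_apply, Module.End.mul_apply, hX]

theorem cenT_lie {𝔤 : Submodule ℚ_[ℓ] (End ℚ_[ℓ] (∀ i, Fin (n i) → ℚ_[ℓ]))} (h𝔤 : IsLie 𝔤)
    (hparts : ∀ X ∈ 𝔤, ∀ x i, X x i = X (Pi.single i (x i)) i) : IsLie (cenT ρ 𝔤) := by
  rintro X ⟨hX, hX'⟩ Y ⟨hY, hY'⟩
  refine ⟨h𝔤 X hX Y hY, fun i z hz => ?_⟩
  rw [map_sub, blk_mul_parts (hparts X hX), blk_mul_parts (hparts Y hY), sub_mul, mul_sub,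
    mul_assoc, hY' i z hz, ← mul_assoc, hX' i z hz, mul_assoc (blk i Y), hX' i z hz, ← mul_assoc,
    hY' i z hz, mul_assoc, mul_assoc]

theorem le_cenT {L 𝔤 : Submodule ℚ_[ℓ] (End ℚ_[ℓ] (∀ i, Fin (n i) → ℚ_[ℓ]))} (hLG : L ≤ 𝔤)
    (hL : ∀ X ∈ L, ∀ (m : ℕ) (φ : Tensor ℚ_[ℓ] (∀ i, Fin (n i) → ℚ_[ℓ]) m),
      TateTensor (sumRep ρ) φ → KillsTensor X φ) : L ≤ cenT ρ 𝔤 := by
  intro X hX
  refine ⟨hLG hX, fun i z hz => ?_⟩
  obtain ⟨⟨Δ, hΔ, hz'⟩, -⟩ := hz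
  have h1 := tate_comm (sumRep ρ) (X := X) (hL X hX) hΔ
    fun s hs => ext_comm ρ (hz' s hs)
  refine LinearMap.ext fun x => ?_
  have h2 := congrFun (LinearMap.congr_fun h1 (Pi.single i x)) i
  rw [Module.End.mul_apply, Module.End.mul_apply, ext_apply, ext_apply, Pi.single_eq_same,
    Pi.single_eq_same] at h2
  rw [Module.End.mul_apply, Module.End.mul_apply, blk_apply, blk_apply]
  exact h2

theorem central_comm_cenT {L G : Submodule ℚ_[ℓ] (End ℚ_[ℓ] (∀ i, Fin (n i) → ℚ_[ℓ]))}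
    (hL : ∀ X ∈ L, ∀ (m : ℕ) (φ : Tensor ℚ_[ℓ] (∀ i, Fin (n i) → ℚ_[ℓ]) m),
      TateTensor (sumRep ρ) φ → KillsTensor X φ)
    (hparts : ∀ X ∈ G, ∀ x i, X x i = X (Pi.single i (x i)) i)
    {Δ : Subgroup Γ} (hΔ : Δ.FiniteIndex)
    (hΔL : ∀ s ∈ Δ, ∀ Q, (∀ X ∈ L, X * Q = Q * X) → sumRep ρ s * Q = Q * sumRep ρ s)
    (z : End ℚ_[ℓ] (∀ i, Fin (n i) → ℚ_[ℓ]))
    (hz1 : ∀ x i, z x i = z (Pi.single i (x i)) i) (hz2 : ∀ X ∈ L, X * z = z * X)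
    (hz3 : ∀ Q, (∀ X ∈ L, X * Q = Q * X) → z * Q = Q * z) : ∀ X ∈ cenT ρ G, X * z = z * X := by
  rintro X ⟨hX, hX'⟩
  refine LinearMap.ext fun x => funext fun i => ?_
  have h1 := hX' i (blk i z) (central_tate ρ hL hΔ hΔL z hz1 hz2 hz3 i)
  have h2 := LinearMap.congr_fun h1 (x i)
  rw [Module.End.mul_apply, Module.End.mul_apply, blk_apply, blk_apply, blk_apply, blk_apply] at h2
  rw [Module.End.mul_apply, Module.End.mul_apply, hparts X hX, hz1 (X x), hparts X hX x, hz1 x]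
  exact h2

end cent

section proj

variable {k : Type} [Field k] [CharZero k] [Algebra k ℂ] {V : Type} [AddCommGroup V] [Module k V]
  [FiniteDimensional k V] {Γ : Type} [Group Γ] (ρ : Representation k Γ V)

theorem proj_of_nonDeg (h : Inputs) (h2 : Inputs2) {L G : Submodule k (End k V)}
    (hLie : IsLie L) (hLG : L ≤ G) {γ : Γ}
    (htL : tor ((ρ γ).baseChange ℂ) ≤ bcS ℂ L)
    (hcen : ∀ x ∈ bcS ℂ G, (∀ a ∈ tor ((ρ γ).baseChange ℂ), a * x = x * a) →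
      x ∈ tor ((ρ γ).baseChange ℂ)) (hND : NonDeg L) :
    ∀ W : Submodule k V, (∀ X ∈ L, ∀ x ∈ W, X x ∈ W) →
      ∃ P : End k V, (∀ X ∈ L, X * P = P * X) ∧ (∀ x, P x ∈ W) ∧ ∀ x ∈ W, P x = x := by
  intro W hW
  have hLC : IsLie (bcS ℂ L) := (h.bc k ℂ V L).2.1 hLie
  have hLGC : bcS ℂ L ≤ bcS ℂ G := bcS_mono hLG
  have hN : NonDeg (bcS ℂ L) := (h.bc k ℂ V L).2.2.1 hND
  obtain ⟨P, hP1, hP2, hP3⟩ := h2.weyl ℂ _ (bcS ℂ L) hLC hN (fun x hx hxL =>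
    tor_diag _ x (hcen x (hLGC hx) fun a ha => (hxL a (htL ha)).symm)) (W.baseChange ℂ)
    (bcS_stable hW)
  obtain ⟨π, hπ⟩ := exists_pi k ℂ
  refine ⟨pM π P, fun X hX => ?_, fun x => ?_, fun x hx => ?_⟩
  · rw [← pM_bc_mul, hP1 _ (mem_bcS hX), pM_mul_bc]
  · rw [pM_apply]
    exact pv_mem π (hP2 _)
  · rw [pM_apply, hP3 _ (Submodule.tmul_mem_baseChange_of_mem 1 hx), pv_tmul, hπ, one_smul]

/-- the rank of a Lie algebra which contains the torus of an element with independent eigenvalues -/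
theorem rank_of_torus (h : Inputs) (hrank : S_RANK.{0, 0}) {L : Submodule k (End k V)}
    (hL : ∀ X, X ∈ L ↔ X ∈ LT ρ) (hLie : IsLie L) (g₀ : Γ) {r : ℕ} (z : Fin r → ℂ)
    (hz : ∀ i, End.HasEigenvalue ((ρ g₀).baseChange ℂ) (z i))
    (hind : ∀ e : Fin r → ℤ, ∏ i, z i ^ e i = 1 → e = 0) : ∀ x ∈ L, r ≤ finrank k (cen L x) := by
  intro x hx
  obtain ⟨θ', θ, p, hp⟩ := h.rd _ ((ρ g₀).baseChange ℂ)
    (injective_of_mul (g' := (ρ g₀⁻¹).baseChange ℂ)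
      (by rw [← bc_mul, Pool.Agent.Y114.RM.rho_inv_mul, bc_one])) r z hz hind
  obtain ⟨h', hh'⟩ := exists_op ((ρ g₀).baseChange ℂ) (fun z => ext0 θ' z)
  have hex : ∀ j, ∃ t : End ℂ (ℂ ⊗[k] V),
      IsOp (θ j) ((ρ g₀).baseChange ℂ) t := fun j =>
    exists_op ((ρ g₀).baseChange ℂ) (fun z => ext0 (θ j) z)
  choose t ht using hex
  have h3 := hrank ℂ _ (bcS ℂ L) ((h.bc k ℂ _ L).2.1 hLie) h'
    (op_mem ρ h hL _ θ' h' hh') r p t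
    (fun j => op_mem ρ h hL _ (θ j) (t j) (ht j)) (hp h' t hh' ht) (x.baseChange ℂ)
    (mem_bcS hx)
  rwa [(h.bc k ℂ _ L).2.2.2.1 x] at h3

end proj

section res

variable {Γ : Type} [Group Γ] {ι : Type} [Fintype ι] [DecidableEq ι] {n : ι → ℕ} {ℓ : ℕ}
  [hℓ : Fact ℓ.Prime] (ρ : ∀ i, Representation ℚ_[ℓ] Γ (Fin (n i) → ℚ_[ℓ]))

/-- `cenT ρ 𝔤` is the Lie algebra of the Tate tensors, and reductive of rank at least `r` -/
structure TateLie (𝔤 : Submodule ℚ_[ℓ] (End ℚ_[ℓ] (∀ i, Fin (n i) → ℚ_[ℓ]))) (r : ℕ) : Prop where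
  kills : ∀ X, X ∈ cenT ρ 𝔤 ↔ ∀ (m : ℕ) (φ : Tensor ℚ_[ℓ] (∀ i, Fin (n i) → ℚ_[ℓ]) m),
    TateTensor (sumRep ρ) φ → KillsTensor X φ
  lie : IsLie (cenT ρ 𝔤)
  nondeg : NonDeg (cenT ρ 𝔤)
  rank : ∀ x ∈ cenT ρ 𝔤, r ≤ finrank ℚ_[ℓ] (cen (cenT ρ 𝔤) x)

end res

section local1

variable {Γ : Type} [Group Γ] [TopologicalSpace Γ] [IsTopologicalGroup Γ] [CompactSpace Γ]
  {ι : Type} [Fintype ι] [DecidableEq ι] {n : ι → ℕ} {ℓ : ℕ} [hℓ : Fact ℓ.Prime]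
  (ρ : ∀ i, Representation ℚ_[ℓ] Γ (Fin (n i) → ℚ_[ℓ]))

/-- semisimple representations -/
theorem local_struct (h : Inputs) (h2 : Inputs2) (hrank : S_RANK.{0, 0})
    (hρ : ∀ i, Continuous fun g => LinearMap.toMatrix' (ρ i g))
    {𝔤 : Submodule ℚ_[ℓ] (End ℚ_[ℓ] (∀ i, Fin (n i) → ℚ_[ℓ]))} (h𝔤 : IsMotivic ρ 𝔤)
    (g₀ : Γ) (P : ι → ℚ[X]) (hP : ∀ i, (ρ i g₀).charpoly = (P i).map (algebraMap ℚ ℚ_[ℓ]))
    {r : ℕ} (hr : IndependentRoots r P) (hrk : RankAtMost 𝔤 r)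
    (hss : SemisimpleRep ρ) : FiniteIndexSemisimple (sumRep ρ) ∧ TateLie ρ 𝔤 r := by
  classical
  obtain ⟨j, hj⟩ := exists_j ℓ ℚ_[ℓ] ℚ (algebraMap ℚ ℚ_[ℓ]) (algebraMap ℚ ℂ)
  let _ : Algebra ℚ_[ℓ] ℂ := j.toAlgebra
  obtain ⟨L, hL, hLie, hAd, hlog⟩ := h.lie ℚ_[ℓ] (∀ i, Fin (n i) → ℚ_[ℓ]) _ (sumRep ρ)
  have hLG : L ≤ 𝔤 := fun X hX => h𝔤.algebraic X fun m φ hφ => ((hL X).1 hX).2 m φ (h𝔤.tate m φ hφ)
  obtain ⟨z, hz, hind⟩ := hr
  have hz' : ∀ i, End.HasEigenvalue ((sumRep ρ g₀).baseChange ℂ) (z i) := by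
    intro i
    obtain ⟨a, ha⟩ := hz i
    exact sumRep_eigen ρ g₀ (hP a) ha
  have hcen := torus_cen (sumRep ρ) h h2.jord h2.cartan hL hLG h𝔤.bracket h𝔤.nondeg h𝔤.algebraic
    hrk g₀ z hz' hind
  have htL := tor_le (sumRep ρ) h hL g₀
  have hND : NonDeg L := nonDeg_of_ss (sumRep ρ) h hL hLie hAd h𝔤.bracket h𝔤.nondeg hLG htL
    (tor_diag _) (tor_comm _) hcen hss
  obtain ⟨Δ', hΔ', hcomm⟩ := h2.tfr ℓ ι n _ ρ hρ (comm L) (comm_conj (sumRep ρ) hAd)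
    (comm_order (sumRep ρ) h h2 hL)
  have hfi : FiniteIndexSemisimple (sumRep ρ) := by
    intro Δ hΔ U hU
    obtain ⟨P, hP1, hP2, hP3⟩ := proj_of_nonDeg (sumRep ρ) h h2 hLie hLG htL hcen hND U
      fun X hX => ((hL X).1 hX).1 U ⟨Δ, hΔ, hU⟩
    exact Pool.Agent.Y41.RM.exists_compl_of_commute (sumRep ρ) Δ Δ' hΔ' U hU P hP2 hP3
      fun s hs => (hcomm s hs P hP1).symm
  have hLT : ∀ X ∈ L, ∀ (m : ℕ) (φ : Tensor ℚ_[ℓ] (∀ i, Fin (n i) → ℚ_[ℓ]) m),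
      TateTensor (sumRep ρ) φ → KillsTensor X φ := fun X hX => ((hL X).1 hX).2
  have hfull : L = cenT ρ 𝔤 := le_of_central ρ h hLie h𝔤.bracket h𝔤.nondeg hND hLG
    (le_cenT ρ hLG hLT) (cenT_le ρ 𝔤) (cenT_lie ρ h𝔤.bracket h𝔤.parts) g₀ htL hcen
    (central_comm_cenT ρ hLT h𝔤.parts hΔ' (fun s hs Q hQ => hcomm s hs Q hQ))
  have hrk' := rank_of_torus (sumRep ρ) h hrank hL hLie g₀ z hz' hind
  rw [hfull] at hrk'
  refine ⟨hfi, fun X => ⟨fun hX => hLT X (hfull ▸ hX), fun hX => ?_⟩, hfull ▸ hLie, hfull ▸ hND,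
    hrk'⟩
  rw [← hfull]
  exact (hL X).2 (mem_LT_of_semisimple (sumRep ρ) hfi hX)

end local1

section fg

variable {Γ : Type} [Group Γ] [TopologicalSpace Γ] [IsTopologicalGroup Γ] [CompactSpace Γ]
  {ι : Type} [Fintype ι] [DecidableEq ι] {n : ι → ℕ} {ℓ : ℕ} [hℓ : Fact ℓ.Prime]
  {F : Type} [Field F] [NumberField F] {w : ι → ℤ}

/-- **The Lie algebra of the Tate tensors.** -/
theorem main_struct (h : Inputs) (h2 : Inputs2) (hrank : S_RANK.{0, 0}) (ρ : Reps Γ n ℓ) (hρ : Conts ρ) (𝔤 : EndSpace n ℓ)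
    (h𝔤 : Motivic ρ 𝔤)
    (s : Gal(AlgebraicClosure F/F) →* Γ) (hs : Continuous s)
    (P : HeightOneSpectrum (𝓞 F) → ι → ℚ[X])
    (T : Set ℕ) (hT3 : 3 ≤ T.encard) (hT : ∀ p ∈ T, p.Prime ∧ p ≠ ℓ ∧ UnramifiedIn F p)
    (hgood : ∀ p ∈ T, ∀ v, Above v p → GoodPlace (restrictTo ρ s) w v (P v))
    {p₀ : ℕ} (hp₀ : p₀ ∈ T) (hind₀ : IndependentPlaces P p₀) {v₀ : HeightOneSpectrum (𝓞 F)}
    (hv₀ : Above v₀ p₀) (r : ℕ) (hr : IndependentRoots r (P v₀)) (hrk : RankLE 𝔤 r) :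
    Semisimple ρ ∧ TateLie ρ 𝔤 r := by
  classical
  obtain ⟨j, hj⟩ := exists_j ℓ ℚ_[ℓ] ℚ (algebraMap ℚ ℚ_[ℓ]) (algebraMap ℚ ℂ)
  let _ : Algebra ℚ_[ℓ] ℂ := j.toAlgebra
  obtain ⟨L, hL, hLie, hAd, hlog⟩ := h.lie ℚ_[ℓ] (∀ i, Fin (n i) → ℚ_[ℓ]) _ (sumRep ρ)
  have h𝔤' : IsMotivic ρ 𝔤 := h𝔤
  have hLG : L ≤ 𝔤 := fun X hX => h𝔤'.algebraic X fun m φ hφ =>
    ((hL X).1 hX).2 m φ (h𝔤'.tate m φ hφ)
  have hρs : ∀ i, Continuous fun g => LinearMap.toMatrix' ((restrictTo ρ s) i g) := fun i =>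
    (hρ i).comp hs
  have hAdS : ∀ γ, ∀ X ∈ L, AdE (sumRep (restrictTo ρ s) γ) (sumRep (restrictTo ρ s) γ⁻¹) X ∈ L := by
    intro γ X hX
    have h1 := hAd (s γ) X hX
    rwa [← map_inv s] at h1
  obtain ⟨Q₀, σ₀, hQ₀, hQ₀v, hσ₀, htor⟩ := det_torsion (restrictTo ρ s) h h2 hρs j L
    (fun X hX => h𝔤'.parts X (hLG hX)) hAdS P T hT3 hT hgood hp₀ hind₀ hv₀
  obtain ⟨g₀, hg₀⟩ : ∃ g₀ : Γ, g₀ = s σ₀⁻¹ := ⟨_, rfl⟩
  obtain ⟨z, hz, hind⟩ := hr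
  have hG₀ := hgood p₀ hp₀ v₀ hv₀
  have hz' : ∀ i, End.HasEigenvalue ((sumRep ρ g₀).baseChange ℂ) (z i) := by
    intro i
    obtain ⟨a, ha⟩ := hz i
    rw [hg₀]
    exact sumRep_eigen ρ (s σ₀⁻¹) (hG₀.frobenius a Q₀ ⟨hQ₀.isPrime, hQ₀v⟩ σ₀ hσ₀) ha
  have hcen := torus_cen (sumRep ρ) h h2.jord h2.cartan hL hLG h𝔤'.bracket h𝔤'.nondeg
    h𝔤'.algebraic hrk g₀ z hz' hind
  have htL := tor_le (sumRep ρ) h hL g₀
  have hgg' : sumRep ρ g₀ * sumRep ρ (s (σ₀⁻¹)⁻¹) = 1 := by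
    rw [← map_mul, hg₀, ← map_mul, mul_inv_cancel, map_one, map_one]
  have hg'g : sumRep ρ (s (σ₀⁻¹)⁻¹) * sumRep ρ g₀ = 1 := by
    rw [← map_mul, hg₀, ← map_mul, inv_mul_cancel, map_one, map_one]
  have hAd₀ : ∀ X ∈ L, AdE (sumRep ρ g₀) (sumRep ρ (s (σ₀⁻¹)⁻¹)) X ∈ L := by
    intro X hX
    have h1 := hAd g₀ X hX
    rw [hg₀] at h1 ⊢
    rwa [← map_inv s] at h1
  have htr := trace_torus h hLie hgg' hg'g htL hAd₀ (by
    obtain ⟨m, hm, h1⟩ := htor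
    subst hg₀
    exact ⟨m, hm, h1⟩)
  obtain ⟨hND, hproj⟩ := exists_proj h h2 hLie hLG h𝔤'.bracket h𝔤'.nondeg htL (tor_diag _)
    (tor_comm _) hcen htr
  obtain ⟨Δ', hΔ', hcomm⟩ := h2.tfr ℓ ι n _ ρ hρ (comm L) (comm_conj (sumRep ρ) hAd)
    (comm_order (sumRep ρ) h h2 hL)
  have hss : FiniteIndexSemisimple (sumRep ρ) := by
    intro Δ hΔ U hU
    obtain ⟨P, hP1, hP2, hP3⟩ := hproj U fun X hX => ((hL X).1 hX).1 U ⟨Δ, hΔ, hU⟩
    exact Pool.Agent.Y41.RM.exists_compl_of_commute (sumRep ρ) Δ Δ' hΔ' U hU P hP2 hP3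
      fun s hs => (hcomm s hs P hP1).symm
  have hNDL : NonDeg L := by
    intro X hX hXY
    have h1 : X.baseChange ℂ = 0 := by
      refine hND _ (mem_bcS hX) fun Y hY => ?_
      induction hY using Submodule.span_induction with
      | mem Y hY =>
        obtain ⟨Z, hZ, rfl⟩ := hY
        rw [← bc_mul, LinearMap.trace_baseChange, hXY Z hZ, map_zero]
      | zero => rw [mul_zero, map_zero]
      | add Y Z _ _ hY hZ => rw [mul_add, map_add, hY, hZ, add_zero]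
      | smul c Y _ hY => rw [mul_smul_comm, map_smul, hY, smul_zero]
    exact bc_inj (h1.trans LinearMap.baseChange_zero.symm)
  have hLT : ∀ X ∈ L, ∀ (m : ℕ) (φ : Tensor ℚ_[ℓ] (∀ i, Fin (n i) → ℚ_[ℓ]) m),
      TateTensor (sumRep ρ) φ → KillsTensor X φ := fun X hX => ((hL X).1 hX).2
  have hfull : L = cenT ρ 𝔤 := le_of_central ρ h hLie h𝔤'.bracket h𝔤'.nondeg hNDL hLG
    (le_cenT ρ hLG hLT) (cenT_le ρ 𝔤) (cenT_lie ρ h𝔤'.bracket h𝔤'.parts) g₀ htL hcen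
    (central_comm_cenT ρ hLT h𝔤'.parts hΔ' (fun s hs Q hQ => hcomm s hs Q hQ))
  have hrk' := rank_of_torus (sumRep ρ) h hrank hL hLie g₀ z hz' hind
  rw [hfull] at hrk'
  refine ⟨hss, fun X => ⟨fun hX => hLT X (hfull ▸ hX), fun hX => ?_⟩, hfull ▸ hLie,
    hfull ▸ hNDL, hrk'⟩
  rw [← hfull]
  exact (hL X).2 (mem_LT_of_semisimple (sumRep ρ) hss hX)

end fg

end Pool.Agent.Q65.KL
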