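import Pool.Agent.Q65.TE5

/-!
# The centre of the Lie algebra of the operators which kill the Tate tensors
-/

set_option autoImplicit false
set_option linter.unusedSectionVars false
set_option linter.unusedVariables false

namespace Pool.Agent.Q65.KL

open NumberField IsDedekindDomain Module Polynomial TensorProduct Pool.Agent.TH118.SG
  Pool.Agent.Y114.MU Pool.Agent.Y114.TF Pool.Agent.Y114.GF Pool.Agent.H204R3.GP Pool.Agent.Y114.RM
  Pool.Agent.Y212.RM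
open Pool.Agent.W569.FM Pool.Agent.W571.FM Pool.Agent.Y115.R Pool.Agent.Y115.T Pool.Agent.Y115.Chi
  Pool.Agent.Y115.CQ

section scal

variable {k : Type} [Field k] [Algebra k ℂ]

/-- an operator over `k` which is a scalar over `ℂ` -/
theorem scalar_descent {n : ℕ} {X : End k (Fin n → k)} {μ : ℂ}
    (h : X.baseChange ℂ = μ • (1 : End ℂ (ℂ ⊗[k] (Fin n → k)))) (hn : 0 < n) :
    ∃ c : k, algebraMap k ℂ c = μ ∧ X = c • (1 : End k (Fin n → k)) := by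
  have h1 : (LinearMap.toMatrix' X).map (algebraMap k ℂ) = μ • (1 : Matrix (Fin n) (Fin n) ℂ) := by
    rw [← mtx_bc, h, map_smul, map_one]
  have h2 : ∀ a b, algebraMap k ℂ (LinearMap.toMatrix' X a b) =
      μ * (1 : Matrix (Fin n) (Fin n) ℂ) a b := by
    intro a b
    exact congrFun (congrFun h1 a) b
  refine ⟨LinearMap.toMatrix' X ⟨0, hn⟩ ⟨0, hn⟩, ?_, ?_⟩
  · rw [h2, Matrix.one_apply_eq, mul_one]
  · have h3 : LinearMap.toMatrix' X = LinearMap.toMatrix' X ⟨0, hn⟩ ⟨0, hn⟩ •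
        (1 : Matrix (Fin n) (Fin n) k) := by
      ext a b
      apply (algebraMap k ℂ).injective
      rw [Matrix.smul_apply, smul_eq_mul, map_mul, h2, h2, Matrix.one_apply_eq, mul_one]
      congr 1
      by_cases hab : a = b
      · subst hab
        rw [Matrix.one_apply_eq, Matrix.one_apply_eq, map_one]
      · rw [Matrix.one_apply_ne hab, Matrix.one_apply_ne hab, map_zero]
    apply LinearMap.toMatrix'.injective
    rw [map_smul, LinearMap.toMatrix'_one]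
    exact h3

end scal

section theta

theorem ext0_one' (θ : Additive ℂˣ →+ ℂ) : ext0 θ 1 = 0 := by
  have h3 := ext0_mul' θ one_ne_zero one_ne_zero
  rw [mul_one] at h3
  exact left_eq_add.1 h3

theorem ext0_pow' (θ : Additive ℂˣ →+ ℂ) {x : ℂ} (hx : x ≠ 0) (m : ℕ) :
    ext0 θ (x ^ m) = m * ext0 θ x := by
  induction m with
  | zero => rw [pow_zero, ext0_one', Nat.cast_zero, zero_mul]
  | succ m ih =>
    rw [pow_succ, ext0_mul' θ (pow_ne_zero m hx) hx, ih, Nat.cast_succ]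
    ring

theorem ext0_inv' (θ : Additive ℂˣ →+ ℂ) {x : ℂ} (hx : x ≠ 0) : ext0 θ x⁻¹ = -ext0 θ x := by
  have h1 := ext0_mul' θ hx (inv_ne_zero hx)
  rw [mul_inv_cancel₀ hx, ext0_one'] at h1
  exact (neg_eq_of_add_eq_zero_right h1.symm).symm

theorem ext0_zpow' (θ : Additive ℂˣ →+ ℂ) {x : ℂ} (hx : x ≠ 0) (m : ℤ) :
    ext0 θ (x ^ m) = m * ext0 θ x := by
  obtain ⟨m, rfl | rfl⟩ := m.eq_nat_or_neg
  · rw [zpow_natCast, ext0_pow' θ hx, Int.cast_natCast]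
  · rw [zpow_neg, zpow_natCast, ext0_inv' θ (pow_ne_zero m hx), ext0_pow' θ hx, Int.cast_neg,
      Int.cast_natCast, neg_mul]

theorem ext0_prod' (θ : Additive ℂˣ →+ ℂ) {lam : ℂ} (R : Multiset ℂ)
    (hR : ∀ a ∈ R, a ≠ 0 ∧ ext0 θ a = lam) :
    R.prod ≠ 0 ∧ ext0 θ R.prod = Multiset.card R * lam := by
  induction R using Multiset.induction_on with
  | empty =>
    rw [Multiset.prod_zero, Multiset.card_zero, ext0_one', Nat.cast_zero, zero_mul]
    exact ⟨one_ne_zero, rfl⟩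
  | cons a R ih =>
    obtain ⟨h1, h2⟩ := ih fun b hb => hR b (Multiset.mem_cons_of_mem hb)
    obtain ⟨h3, h4⟩ := hR a (Multiset.mem_cons_self a R)
    rw [Multiset.prod_cons, Multiset.card_cons, ext0_mul' θ h3 h1, h2, h4]
    refine ⟨mul_ne_zero h3 h1, ?_⟩
    push_cast
    ring

end theta

section cent

variable {F : Type} [Field F] [NumberField F] {ι : Type} [Fintype ι] [DecidableEq ι] {n : ι → ℕ}
  {w : ι → ℤ} {ℓ : ℕ} [hℓ : Fact ℓ.Prime]
  (ρ : ∀ i, Representation ℚ_[ℓ] (GF F) (Fin (n i) → ℚ_[ℓ]))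

/-- **Operators of the Frobenius torus which commute with the Galois group are homotheties.** -/
theorem torus_scalar (hρ : ∀ i, Continuous fun g => LinearMap.toMatrix' (ρ i g))
    [Algebra ℚ_[ℓ] ℂ] (ι₀ : PadicAlgCl ℓ →+* ℂ)
    (hι : ι₀.comp (algebraMap ℚ_[ℓ] (PadicAlgCl ℓ)) = algebraMap ℚ_[ℓ] ℂ)
    (P : HeightOneSpectrum (𝓞 F) → ι → ℚ[X])
    (T : Set ℕ) (hT3 : 3 ≤ T.encard) (hT : ∀ p ∈ T, p.Prime ∧ p ≠ ℓ ∧ UnramifiedIn F p)
    (hgood : ∀ p ∈ T, ∀ v, Above v p → GoodPlace ρ w v (P v))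
    {p₀ : ℕ} (hp₀ : p₀ ∈ T) (hind₀ : IndependentPlaces P p₀) {v₀ : HeightOneSpectrum (𝓞 F)}
    (hv₀ : Above v₀ p₀) {Q₀ : Ideal (OO F)} (hQ₀ : Q₀.IsMaximal) (hQ₀v : cm Q₀ = v₀.asIdeal)
    {σ₀ : GF F} (hσ₀ : FrobAt (Ideal.absNorm v₀.asIdeal) Q₀ σ₀)
    (X : End ℚ_[ℓ] (∀ i, Fin (n i) → ℚ_[ℓ]))
    (hX : ∀ x i, X x i = X (Pi.single i (x i)) i)
    (hXσ : ∀ i σ, ρ i σ * blk i X = blk i X * ρ i σ) (θ : Additive ℂˣ →+ ℂ)
    (hθ : IsOp θ ((sumRep ρ σ₀⁻¹).baseChange ℂ) (X.baseChange ℂ)) (i : ι) :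
    (blk i X).baseChange ℂ = ((w i : ℂ) * (ext0 θ (q v₀ : ℂ) / 2)) •
      (1 : End ℂ (ℂ ⊗[ℚ_[ℓ]] (Fin (n i) → ℚ_[ℓ]))) := by
  classical
  have hθi : ∀ a, ∀ x ∈ Module.End.maxGenEigenspace ((ρ i σ₀⁻¹).baseChange ℂ) a,
      (blk i X).baseChange ℂ x = ext0 θ a • x := by
    intro a x hx
    have h1 := hθ a _ (gen_inter (inc_rep (V := fun i => Fin (n i) → ℚ_[ℓ]) ρ σ₀⁻¹ i) hx)
    rw [← inc_blk hX i, ← map_smul] at h1
    have h2 := congrArg (prj ℚ_[ℓ] (fun i => Fin (n i) → ℚ_[ℓ]) i) h1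
    rwa [prj_inc, prj_inc] at h2
  have hq0 : 0 < q v₀ := by
    apply Nat.pos_of_ne_zero
    show Ideal.absNorm v₀.asIdeal ≠ 0
    rw [Ne, Ideal.absNorm_eq_zero_iff]
    exact v₀.ne_bot
  have hqC : (q v₀ : ℂ) ≠ 0 := Nat.cast_ne_zero.2 hq0.ne'
  refine op_ext ((ρ i σ₀⁻¹).baseChange ℂ) fun a x hx => ?_
  by_cases hbot : Module.End.maxGenEigenspace ((ρ i σ₀⁻¹).baseChange ℂ) a = ⊥
  · rw [hbot, Submodule.mem_bot] at hx
    rw [hx, map_zero, map_zero]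
  rw [hθi a x hx, LinearMap.smul_apply, Module.End.one_apply]
  congr 1
  -- the eigenprojection
  obtain ⟨lam, hlam⟩ : ∃ lam, lam = ext0 θ a := ⟨_, rfl⟩
  obtain ⟨E, hE, hEmem, hEsum, hEcomm⟩ := exists_gproj ((blk i X).baseChange ℂ)
  obtain ⟨p', hp'⟩ := exists_polyC (g := blk i X) (P := E lam) ι₀ hι
    (s := fun c => if c = lam then (1 : ℂ) else 0) (fun c => by
      by_cases hc : c = lam
      · left; exact if_pos hc
      · right; exact if_neg hc) (hE lam)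
  have hEa : ∀ b, ∀ x ∈ Module.End.maxGenEigenspace ((ρ i σ₀⁻¹).baseChange ℂ) b,
      E lam x = (if ext0 θ b = lam then (1 : ℂ) else 0) • x := by
    intro b x hx
    refine hE lam (ext0 θ b) x ?_
    refine Module.End.mem_maxGenEigenspace _ _ x |>.2 ⟨1, ?_⟩
    rw [pow_one, LinearMap.sub_apply, hθi b x hx, LinearMap.smul_apply, Module.End.one_apply,
      sub_self]
  have hcomm : ∀ σ, (ρ i σ).baseChange ℂ * E lam = E lam * (ρ i σ).baseChange ℂ := by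
    intro σ
    have h3 : (ρ i σ).baseChange ℂ * (blk i X).baseChange ℂ =
        (blk i X).baseChange ℂ * (ρ i σ).baseChange ℂ := by
      rw [← bc_mul, ← bc_mul, hXσ]
    rw [← hp']
    exact aeval_comm' h3 _
  have hEE : E lam * E lam = E lam := by
    refine op_ext ((ρ i σ₀⁻¹).baseChange ℂ) fun b x hx => ?_
    rw [Module.End.mul_apply, hEa b x hx, map_smul, hEa b x hx, smul_smul]
    by_cases hb : ext0 θ b = lam
    · rw [if_pos hb, one_mul]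
    · rw [if_neg hb, zero_mul]
  obtain ⟨R, hR1, k, hk, hR2⟩ := class_torsion ρ hρ ι₀ hι P T hT3 hT hgood hp₀ hind₀ hv₀ i
    (E lam) hEE (aeval ((LinearMap.toMatrix' (blk i X)).map (algebraMap ℚ_[ℓ] (PadicAlgCl ℓ))) p')
    (by rw [← hp', mtx_aeval ι₀ hι]) hcomm hQ₀ hQ₀v hσ₀
  -- the multiset
  have hgen0 : Module.End.maxGenEigenspace ((ρ i σ₀⁻¹).baseChange ℂ) 0 = ⊥ := by
    rw [eq_bot_iff]
    intro x hx
    obtain ⟨m, hm⟩ := (Module.End.mem_maxGenEigenspace _ _ x).1 hx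
    rw [zero_smul, sub_zero] at hm
    have h4 : (ρ i σ₀⁻¹⁻¹).baseChange ℂ * (ρ i σ₀⁻¹).baseChange ℂ = 1 := by
      rw [← bc_mul, ← map_mul, inv_mul_cancel, map_one, bc_one]
    have h5 : (ρ i σ₀⁻¹).baseChange ℂ * (ρ i σ₀⁻¹⁻¹).baseChange ℂ = 1 := by
      rw [← bc_mul, ← map_mul, mul_inv_cancel, map_one, bc_one]
    have h6 : ((ρ i σ₀⁻¹⁻¹).baseChange ℂ) ^ m * ((ρ i σ₀⁻¹).baseChange ℂ) ^ m = 1 := by
      have h7 : Commute ((ρ i σ₀⁻¹⁻¹).baseChange ℂ) ((ρ i σ₀⁻¹).baseChange ℂ) := h4.trans h5.symm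
      rw [← h7.mul_pow, h4, one_pow]
    have h7 := LinearMap.congr_fun h6 x
    rw [Module.End.mul_apply, hm, map_zero, Module.End.one_apply] at h7
    exact (Submodule.mem_bot ℂ).2 h7.symm
  have hR3 : ∀ b ∈ R, b ≠ 0 ∧ ext0 θ b = lam := by
    intro b hb
    have h3 : R.count b ≠ 0 := Multiset.count_ne_zero.2 hb
    rw [hR1] at h3
    refine ⟨?_, ?_⟩
    · rintro rfl
      apply h3
      rw [hgen0, bot_inf_eq, finrank_bot]
    · by_contra hne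
      apply h3
      have h4 : Module.End.maxGenEigenspace ((ρ i σ₀⁻¹).baseChange ℂ) b ⊓
          LinearMap.range (E lam) = ⊥ := by
        rw [eq_bot_iff]
        rintro x ⟨hx, y, rfl⟩
        have h5 : E lam (E lam y) = E lam y := by rw [← Module.End.mul_apply, hEE]
        rw [hEa b _ hx, if_neg hne, zero_smul] at h5
        exact (Submodule.mem_bot ℂ).2 h5.symm
      rw [h4, finrank_bot]
  have hcard : 0 < Multiset.card R := by
    have h3 : R.count a ≠ 0 := by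
      rw [hR1]
      intro h4
      rw [Submodule.finrank_eq_zero] at h4
      apply hbot
      rw [eq_bot_iff]
      intro x hx
      have h5 : E lam x = x := by rw [hEa a x hx, if_pos hlam.symm, one_smul]
      rw [← h4]
      exact ⟨hx, x, h5⟩
    exact Multiset.card_pos_iff_exists_mem.2 ⟨a, Multiset.count_ne_zero.1 h3⟩
  obtain ⟨h3, h4⟩ := ext0_prod' θ R hR3
  have hc : (((q v₀ : ℝ) ^ w i : ℝ) : ℂ) = (q v₀ : ℂ) ^ w i := by push_cast; rfl
  have h5 := congrArg (ext0 θ) hR2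
  rw [hc, ext0_pow' θ h3, h4, ext0_pow' θ (zpow_ne_zero _ hqC), ext0_zpow' θ hqC] at h5
  rw [← hlam]
  have h6 : ((k * Multiset.card R : ℕ) : ℂ) ≠ 0 := Nat.cast_ne_zero.2 (Nat.mul_pos hk hcard).ne'
  have h7 : ((k * Multiset.card R : ℕ) : ℂ) * (2 * lam) =
      ((k * Multiset.card R : ℕ) : ℂ) * ((w i : ℂ) * ext0 θ (q v₀ : ℂ)) := by
    rw [← h5]
    push_cast
    ring
  have h8 := mul_left_cancel₀ h6 h7
  rw [← mul_div_assoc, ← h8]
  ring

end cent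

/-- `g` commutes with the centre of `L` -/
def CommAll {k V : Type} [Field k] [AddCommGroup V] [Module k V] (g : End k V)
    (L : Submodule k (End k V)) : Prop :=
  ∀ X ∈ L, (∀ Y ∈ L, X * Y = Y * X) → g * X = X * g

section main

variable {Γ : Type} [Group Γ] [TopologicalSpace Γ] [IsTopologicalGroup Γ] [CompactSpace Γ]
  {ι : Type} [Fintype ι] [DecidableEq ι] {n : ι → ℕ} {ℓ : ℕ} [hℓ : Fact ℓ.Prime]
  {F : Type} [Field F] [NumberField F] {w : ι → ℤ}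

/-- `X` acts on the summand `i` as `c` times the weight `w i` -/
def WtHomothety (w : ι → ℤ) (X : End ℚ_[ℓ] (∀ i, Fin (n i) → ℚ_[ℓ])) : Prop :=
  ∃ c : ℚ_[ℓ], ∀ i (x : Fin (n i) → ℚ_[ℓ]), X (Pi.single i x) = ((w i : ℚ_[ℓ]) * c) • Pi.single i x

/-- the central elements of `𝔥` are multiples of the weight -/
def CentreHomothety (w : ι → ℤ) (𝔥 : Submodule ℚ_[ℓ] (End ℚ_[ℓ] (∀ i, Fin (n i) → ℚ_[ℓ]))) :
    Prop :=
  ∀ X ∈ 𝔥, (∀ Y ∈ 𝔥, X * Y = Y * X) → WtHomothety w X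

/-- **The centre of the Tate Lie algebra.** -/
theorem main_homothety (h : Inputs) (h2 : Inputs2) (hrank : S_RANK.{0, 0}) (ρ : Reps Γ n ℓ)
    (hρ : Conts ρ) (𝔤 : EndSpace n ℓ) (h𝔤 : Motivic ρ 𝔤)
    (s : Gal(AlgebraicClosure F/F) →* Γ) (hs : Continuous s)
    (P : HeightOneSpectrum (𝓞 F) → ι → ℚ[X])
    (T : Set ℕ) (hT3 : 3 ≤ T.encard) (hT : ∀ p ∈ T, p.Prime ∧ p ≠ ℓ ∧ UnramifiedIn F p)
    (hgood : ∀ p ∈ T, ∀ v, Above v p → GoodPlace (restrictTo ρ s) w v (P v))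
    {p₀ : ℕ} (hp₀ : p₀ ∈ T) (hind₀ : IndependentPlaces P p₀) {v₀ : HeightOneSpectrum (𝓞 F)}
    (hv₀ : Above v₀ p₀) (r : ℕ) (hr : IndependentRoots r (P v₀)) (hrk : RankLE 𝔤 r)
    (hC : (∀ i z, TateEnd1 ρ i z → (∀ y, TateEnd1 ρ i y → z * y = y * z) →
        ∀ σ, z * ρ i (s σ) = ρ i (s σ) * z) ∨
      ∀ N : Subgroup Gal(AlgebraicClosure F/F), N.FiniteIndex →
        (∀ σ (Q : ι → ℚ[X]), (∀ i, (ρ i (s σ)).charpoly = (Q i).map (algebraMap ℚ ℚ_[ℓ])) →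
          IndependentRoots r Q → σ ∈ N) → N = ⊤) :
    Semisimple ρ ∧ ∃ 𝔥 : EndSpace n ℓ, KillsTateTensors ρ 𝔥 ∧ ReductiveOfRank 𝔤 𝔥 r ∧
      CentreHomothety w 𝔥 := by
  classical
  obtain ⟨j, hj⟩ := exists_j ℓ ℚ_[ℓ] ℚ (algebraMap ℚ ℚ_[ℓ]) (algebraMap ℚ ℂ)
  let _ : Algebra ℚ_[ℓ] ℂ := j.toAlgebra
  have hinj : FaithfulSMul ℚ_[ℓ] ℂ := (faithfulSMul_iff_algebraMap_injective ℚ_[ℓ] ℂ).2 j.injective
  obtain ⟨ι₁⟩ : Nonempty (PadicAlgCl ℓ →ₐ[ℚ_[ℓ]] ℂ) := ⟨IsAlgClosed.lift⟩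
  obtain ⟨ι₀, hι₀⟩ : ∃ ι₀ : PadicAlgCl ℓ →+* ℂ, ι₀ = (ι₁ : PadicAlgCl ℓ →+* ℂ) := ⟨_, rfl⟩
  have hι : ι₀.comp (algebraMap ℚ_[ℓ] (PadicAlgCl ℓ)) = algebraMap ℚ_[ℓ] ℂ := by
    rw [hι₀]
    exact ι₁.comp_algebraMap
  obtain ⟨L, hL, hLie, hAd, hlog⟩ := h.lie ℚ_[ℓ] (∀ i, Fin (n i) → ℚ_[ℓ]) _ (sumRep ρ)
  have h𝔤' : IsMotivic ρ 𝔤 := h𝔤
  have hLG : L ≤ 𝔤 := fun X hX => h𝔤'.algebraic X fun m φ hφ =>
    ((hL X).1 hX).2 m φ (h𝔤'.tate m φ hφ)
  have hρs : ∀ i, Continuous fun g => LinearMap.toMatrix' ((restrictTo ρ s) i g) := fun i =>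
    (hρ i).comp hs
  have hAdS : ∀ γ, ∀ X ∈ L, AdE (sumRep (restrictTo ρ s) γ) (sumRep (restrictTo ρ s) γ⁻¹) X ∈ L := by
    intro γ X hX
    have h1 := hAd (s γ) X hX
    rwa [← map_inv s] at h1
  obtain ⟨Q₀, σ₀, hQ₀, hQ₀v, hσ₀, htor⟩ := det_torsion (restrictTo ρ s) h h2 hρs j L
    (fun X hX => h𝔤'.parts X (hLG hX)) hAdS P T hT3 hT hgood hp₀ hind₀ hv₀
  obtain ⟨g₀, hg₀⟩ : ∃ g₀ : Γ, g₀ = s σ₀⁻¹ := ⟨_, rfl⟩
  obtain ⟨z, hz, hind⟩ := hr
  have hG₀ := hgood p₀ hp₀ v₀ hv₀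
  have hz' : ∀ i, End.HasEigenvalue ((sumRep ρ g₀).baseChange ℂ) (z i) := by
    intro i
    obtain ⟨a, ha⟩ := hz i
    rw [hg₀]
    exact sumRep_eigen ρ (s σ₀⁻¹) (hG₀.frobenius a Q₀ ⟨hQ₀.isPrime, hQ₀v⟩ σ₀ hσ₀) ha
  have hcen := torus_cen (sumRep ρ) h h2.jord h2.cartan hL hLG h𝔤'.bracket h𝔤'.nondeg
    h𝔤'.algebraic hrk g₀ z hz' hind
  have htL := tor_le (sumRep ρ) h hL g₀
  have hgg' : sumRep ρ g₀ * sumRep ρ (s (σ₀⁻¹)⁻¹) = 1 := by
    rw [← map_mul, hg₀, ← map_mul, mul_inv_cancel, map_one, map_one]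
  have hg'g : sumRep ρ (s (σ₀⁻¹)⁻¹) * sumRep ρ g₀ = 1 := by
    rw [← map_mul, hg₀, ← map_mul, inv_mul_cancel, map_one, map_one]
  have hAd₀ : ∀ X ∈ L, AdE (sumRep ρ g₀) (sumRep ρ (s (σ₀⁻¹)⁻¹)) X ∈ L := by
    intro X hX
    have h1 := hAd g₀ X hX
    rw [hg₀] at h1 ⊢
    rwa [← map_inv s] at h1
  have htr := trace_torus h hLie hgg' hg'g htL hAd₀ (by
    obtain ⟨m, hm, h1⟩ := htor
    subst hg₀
    exact ⟨m, hm, h1⟩)
  obtain ⟨hND, hproj⟩ := exists_proj h h2 hLie hLG h𝔤'.bracket h𝔤'.nondeg htL (tor_diag _)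
    (tor_comm _) hcen htr
  obtain ⟨Δ', hΔ', hcomm⟩ := h2.tfr ℓ ι n _ ρ hρ (comm L) (comm_conj (sumRep ρ) hAd)
    (comm_order (sumRep ρ) h h2 hL)
  have hss : FiniteIndexSemisimple (sumRep ρ) := by
    intro Δ hΔ U hU
    obtain ⟨P, hP1, hP2, hP3⟩ := hproj U fun X hX => ((hL X).1 hX).1 U ⟨Δ, hΔ, hU⟩
    exact Pool.Agent.Y41.RM.exists_compl_of_commute (sumRep ρ) Δ Δ' hΔ' U hU P hP2 hP3
      fun s hs => (hcomm s hs P hP1).symm
  have hNDL : NonDeg L := by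
    intro X hX hXY
    have h1 : X.baseChange ℂ = 0 := by
      refine hND _ (mem_bcS hX) fun Y hY => ?_
      induction hY using Submodule.span_induction with
      | mem Y hY =>
        obtain ⟨Z, hZ, rfl⟩ := hY
        rw [← bc_mul, LinearMap.trace_baseChange, hXY Z hZ, map_zero]
      | zero => rw [mul_zero, map_zero]
      | add Y Z _ _ hY hZ => rw [mul_add, map_add, hY, hZ, add_zero]
      | smul c Y _ hY => rw [mul_smul_comm, map_smul, hY, smul_zero]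
    exact bc_inj (h1.trans LinearMap.baseChange_zero.symm)
  have hrankL : ∀ x ∈ L, r ≤ finrank ℚ_[ℓ] (cen L x) := by
    intro x hx
    obtain ⟨θ', θ, p, hp⟩ := h.rd _ ((sumRep ρ g₀).baseChange ℂ)
      (injective_of_mul (g' := (sumRep ρ g₀⁻¹).baseChange ℂ)
        (by rw [← bc_mul, Pool.Agent.Y114.RM.rho_inv_mul, bc_one])) r z hz' hind
    obtain ⟨h', hh'⟩ := exists_op ((sumRep ρ g₀).baseChange ℂ) (fun z => ext0 θ' z)
    have hex : ∀ j, ∃ t : End ℂ (ℂ ⊗[ℚ_[ℓ]] (∀ i, Fin (n i) → ℚ_[ℓ])),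
        IsOp (θ j) ((sumRep ρ g₀).baseChange ℂ) t := fun j =>
      exists_op ((sumRep ρ g₀).baseChange ℂ) (fun z => ext0 (θ j) z)
    choose t ht using hex
    have h3 := hrank ℂ _ (bcS ℂ L) ((h.bc ℚ_[ℓ] ℂ _ L).2.1 hLie) h'
      (op_mem (sumRep ρ) h hL _ θ' h' hh') r p t
      (fun j => op_mem (sumRep ρ) h hL _ (θ j) (t j) (ht j)) (hp h' t hh' ht) (x.baseChange ℂ)
      (mem_bcS hx)
    rwa [(h.bc ℚ_[ℓ] ℂ _ L).2.2.2.1 x] at h3
  -- central elements commute with the Galois group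
  have hcommZ : ∀ X ∈ L, (∀ Y ∈ L, X * Y = Y * X) → ∀ i σ,
      ρ i (s σ) * blk i X = blk i X * ρ i (s σ) := by
    rcases hC with hC | hC
    · intro X hX hXY i σ
      obtain ⟨h3, h4⟩ := central_tate ρ (fun X hX => ((hL X).1 hX).2) hΔ'
        (fun s hs Q hQ => hcomm s hs Q hQ) X (fun x i => h𝔤'.parts X (hLG hX) x i)
        (fun Y hY => (hXY Y hY).symm) (fun Q hQ => hQ X hX) i
      exact (hC i _ h3 h4 σ).symm
    · obtain ⟨N, hN⟩ : ∃ N : Subgroup Gal(AlgebraicClosure F/F), ∀ σ, σ ∈ N ↔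
          ∀ X ∈ L, (∀ Y ∈ L, X * Y = Y * X) →
            sumRep ρ (s σ) * X = X * sumRep ρ (s σ) := by
        refine ⟨{ carrier := {σ | CommAll (sumRep ρ (s σ)) L}
                  mul_mem' := ?_
                  one_mem' := ?_
                  inv_mem' := ?_ }, fun σ => Iff.rfl⟩
        · intro a b ha hb X hX hXY
          rw [map_mul, map_mul, mul_assoc, hb X hX hXY, ← mul_assoc, ha X hX hXY, mul_assoc]
        · intro X hX hXY
          rw [map_one, map_one, one_mul, mul_one]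
        · intro a ha X hX hXY
          have h3 : sumRep ρ (s a⁻¹) * sumRep ρ (s a) = 1 := by
            rw [← map_mul, ← map_mul, inv_mul_cancel, map_one, map_one]
          have h4 : sumRep ρ (s a) * sumRep ρ (s a⁻¹) = 1 := by
            rw [← map_mul, ← map_mul, mul_inv_cancel, map_one, map_one]
          calc sumRep ρ (s a⁻¹) * X = sumRep ρ (s a⁻¹) * (X * (sumRep ρ (s a) *
                sumRep ρ (s a⁻¹))) := by rw [h4, mul_one]
            _ = sumRep ρ (s a⁻¹) * (X * sumRep ρ (s a)) * sumRep ρ (s a⁻¹) := by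
                simp only [mul_assoc]
            _ = sumRep ρ (s a⁻¹) * (sumRep ρ (s a) * X) * sumRep ρ (s a⁻¹) := by
                rw [ha X hX hXY]
            _ = (sumRep ρ (s a⁻¹) * sumRep ρ (s a)) * X * sumRep ρ (s a⁻¹) := by
                simp only [mul_assoc]
            _ = X * sumRep ρ (s a⁻¹) := by rw [h3, one_mul]
      have hNtop : N = ⊤ := by
        refine hC N ?_ ?_
        · have h3 : (Δ'.comap s).FiniteIndex := ⟨by
            rw [Subgroup.index_comap]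
            exact (Subgroup.instFiniteIndex_subgroupOf Δ' s.range).index_ne_zero⟩
          refine Subgroup.finiteIndex_of_le (H := Δ'.comap s) fun σ hσ => (hN σ).2 ?_
          intro X hX hXY
          exact hcomm (s σ) hσ X fun Y hY => (hXY Y hY).symm
        · intro σ Q hQ hrQ
          refine (hN σ).2 fun X hX hXY => ?_
          obtain ⟨z₁, hz₁, hind₁⟩ := hrQ
          have hcen₁ := torus_cen (sumRep ρ) h h2.jord h2.cartan hL hLG h𝔤'.bracket h𝔤'.nondeg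
            h𝔤'.algebraic hrk (s σ) z₁ (fun i => by
              obtain ⟨a, ha⟩ := hz₁ i
              exact sumRep_eigen ρ (s σ) (hQ a) ha) hind₁
          have htL₁ := tor_le (sumRep ρ) h hL (s σ)
          obtain ⟨θ, hθ⟩ := hcen₁ (X.baseChange ℂ) (bcS_mono hLG (mem_bcS hX)) fun a ha => by
            have h3 := bcS_comm (L := L) (Y := X) (fun Y hY => (hXY Y hY).symm) a (htL₁ ha)
            exact h3
          have h4 : (sumRep ρ (s σ)).baseChange ℂ * X.baseChange ℂ =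
              X.baseChange ℂ * (sumRep ρ (s σ)).baseChange ℂ := by
            refine op_ext ((sumRep ρ (s σ)).baseChange ℂ) fun c x hx => ?_
            rw [Module.End.mul_apply, Module.End.mul_apply, hθ c x hx, map_smul,
              hθ c _ (Module.End.mapsTo_maxGenEigenspace_of_comm (Commute.refl _) c hx)]
          rw [← bc_mul, ← bc_mul] at h4
          exact bc_inj h4
      intro X hX hXY i σ
      have h3 := (hN σ).1 (by rw [hNtop]; exact Subgroup.mem_top σ) X hX hXY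
      refine LinearMap.ext fun x => ?_
      have h4 := congrFun (LinearMap.congr_fun h3 (Pi.single i x)) i
      rw [Module.End.mul_apply, Module.End.mul_apply] at h4
      have h5 := sumRep_single (V := fun i => Fin (n i) → ℚ_[ℓ]) ρ (s σ) i x
      have h6 := sumRep_app (V := fun i => Fin (n i) → ℚ_[ℓ]) ρ (s σ) (X (Pi.single i x)) i
      rw [Module.End.mul_apply, Module.End.mul_apply, blk_apply, blk_apply]
      rw [← h5]
      exact h6.symm.trans h4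
  refine ⟨hss, L, fun X => ⟨fun hX => ((hL X).1 hX).2, fun hX =>
    (hL X).2 (mem_LT_of_semisimple (sumRep ρ) hss hX)⟩, ⟨hLie, hNDL, hrankL, hLG⟩, ?_⟩
  intro X hX hXY'
  obtain ⟨θ, hθ⟩ := hcen (X.baseChange ℂ) (bcS_mono hLG (mem_bcS hX)) fun a ha => by
    have h3 := bcS_comm (L := L) (Y := X) (fun Y hY => (hXY' Y hY).symm) a (htL ha)
    exact h3
  have hparts := h𝔤'.parts X (hLG hX)
  have hsc : ∀ i, (blk i X).baseChange ℂ = ((w i : ℂ) * (ext0 θ (q v₀ : ℂ) / 2)) •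
      (1 : End ℂ (ℂ ⊗[ℚ_[ℓ]] (Fin (n i) → ℚ_[ℓ]))) :=
    torus_scalar (restrictTo ρ s) hρs ι₀ hι P T hT3 hT hgood hp₀ hind₀ hv₀ hQ₀ hQ₀v hσ₀ X hparts
      (fun i σ => hcommZ X hX hXY' i σ) θ (by
        rw [hg₀] at hθ
        exact hθ)
  obtain ⟨μ, hμ⟩ : ∃ μ, μ = ext0 θ (q v₀ : ℂ) / 2 := ⟨_, rfl⟩
  rw [← hμ] at hsc
  -- a common scalar
  obtain ⟨c, hc⟩ : ∃ c : ℚ_[ℓ], ∀ i, 0 < n i → (w i : ℂ) * algebraMap ℚ_[ℓ] ℂ c = (w i : ℂ) * μ := by
    by_cases hex : ∃ i, 0 < n i ∧ w i ≠ 0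
    · obtain ⟨i, hi, hwi⟩ := hex
      obtain ⟨c, hc, -⟩ := scalar_descent (hsc i) hi
      have hwC : (w i : ℂ) ≠ 0 := Int.cast_ne_zero.2 hwi
      refine ⟨(w i : ℚ_[ℓ])⁻¹ * c, fun i' hi' => ?_⟩
      rw [map_mul, hc, map_inv₀, map_intCast, inv_mul_cancel_left₀ hwC]
    · refine ⟨0, fun i hi => ?_⟩
      have h3 : w i = 0 := by
        by_contra h4
        exact hex ⟨i, hi, h4⟩
      rw [h3, Int.cast_zero, zero_mul, zero_mul]
  refine ⟨c, fun i x => ?_⟩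
  rcases Nat.eq_zero_or_pos (n i) with h0 | h0
  · have h3 : x = 0 := by
      funext a
      exact absurd (lt_of_lt_of_eq a.2 h0) (Nat.not_lt_zero _)
    rw [h3, Pi.single_zero, map_zero, smul_zero]
  · obtain ⟨c', hc', hX'⟩ := scalar_descent (hsc i) h0
    have h3 : c' = (w i : ℚ_[ℓ]) * c := by
      apply (algebraMap ℚ_[ℓ] ℂ).injective
      rw [hc', map_mul, map_intCast, hc i h0]
    have h4 := single_parts' hparts i x
    rw [h4]
    have h5 := LinearMap.congr_fun hX' x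
    rw [blk_apply, LinearMap.smul_apply, Module.End.one_apply, h3] at h5
    rw [h5]
    funext i'
    by_cases hi' : i' = i
    · subst hi'
      rw [Pi.single_eq_same, Pi.smul_apply, Pi.single_eq_same]
    · rw [Pi.single_eq_of_ne hi', Pi.smul_apply, Pi.single_eq_of_ne hi', smul_zero]

end main

end Pool.Agent.Q65.KL
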