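import Pool.Agent.Q65.CENT
import Pool.Agent.Y115.Tr4

/-!
# Characters with values in finite extensions of `ℚ_ℓ`: determinants on the images of idempotents
-/

set_option autoImplicit false
set_option linter.unusedSectionVars false
set_option linter.unusedVariables false

namespace Pool.Agent.Q65.KL

open NumberField IsDedekindDomain Module Polynomial TensorProduct Pool.Agent.TH118.SG
  Pool.Agent.Y114.MU Pool.Agent.Y114.TF Pool.Agent.Y114.GF Pool.Agent.H204R3.GP Pool.Agent.Y114.RM
  Pool.Agent.Y212.RM
open Pool.Agent.W569.FM Pool.Agent.W571.FM Pool.Agent.Y115.R Pool.Agent.Y115.T Pool.Agent.Y115.Chi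
  Pool.Agent.Y115.CQ

section tors

variable {F : Type} [Field F] [NumberField F] {ℓ : ℕ} [hℓ : Fact ℓ.Prime] {E : Type*}
  [NormedField E] [CompleteSpace E] [IsUltrametricDist E] [NormedAlgebra ℚ_[ℓ] E] [CharZero E]
  [FiniteDimensional ℚ_[ℓ] E]

/-- The product of the values of a character of weight zero at the Frobenius elements of the places
above one prime is a root of unity. -/
theorem prod_torsionE (ψ : GF F →* Eˣ) (hψ : Continuous ψ) (T : Set ℕ) (hT3 : 3 ≤ T.encard)
    (hT : ∀ p ∈ T, p.Prime ∧ p ≠ ℓ ∧ Unram F p)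
    (d : HeightOneSpectrum (𝓞 F) → Eˣ)
    (hd : ∀ p ∈ T, ∀ v : HeightOneSpectrum (𝓞 F), (p : 𝓞 F) ∈ v.asIdeal →
      ∀ Q : Ideal (OO F), Q.IsPrime → cm Q = v.asIdeal → (∀ τ, InInertia Q τ → ψ τ = 1) ∧
        ∀ φ, FrobAt (Ideal.absNorm v.asIdeal) Q φ → ψ φ = d v)
    (halg : ∀ p ∈ T, ∀ v : HeightOneSpectrum (𝓞 F), (p : 𝓞 F) ∈ v.asIdeal →
      IsAlgebraic ℚ (d v : E)) (j : E →+* ℂ)
    (hw : ∀ p ∈ T, ∀ v : HeightOneSpectrum (𝓞 F), (p : 𝓞 F) ∈ v.asIdeal →
      ‖j (d v : E)‖ = 1) (p : ℕ) (hp : p ∈ T) :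
    ∃ (S : Finset (HeightOneSpectrum (𝓞 F))) (N : ℕ), 0 < N ∧
      (∀ v, v ∈ S ↔ (p : 𝓞 F) ∈ v.asIdeal) ∧ (∏ v ∈ S, (d v : E)) ^ N = 1 := by
  obtain ⟨S, N, a, hN, hS, h1, -⟩ := place_relation ψ hψ T hT3 hT d hd halg p hp
  refine ⟨S, N, hN, hS, ?_⟩
  have hpr : (1 : ℝ) < p := by exact_mod_cast (hT p hp).1.one_lt
  have h2 := congrArg (fun u : E => ‖j u‖) h1
  simp only [map_pow, map_prod, map_zpow₀, map_natCast, norm_pow, norm_prod, norm_zpow,
    Complex.norm_natCast] at h2
  rw [Finset.prod_congr rfl (fun v hv => hw p hp v ((hS v).1 hv)), Finset.prod_const_one,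
    one_pow] at h2
  have h3 : (p : ℝ) ^ (0 : ℤ) = (p : ℝ) ^ a := by rw [zpow_zero, h2]
  have h4 := zpow_right_injective₀ (by linarith) hpr.ne' h3
  rw [h1, ← h4, zpow_zero]

end tors

section det

variable {K : Type*} [Field K] [DecidableEq K] [IsAlgClosed K] {V : Type*} [AddCommGroup V] [Module K V]
  [FiniteDimensional K V]

/-- the determinant on the image of a commuting idempotent -/
theorem det_part (g e : End K V) (hge : g * e = e * g) (he : e * e = e) :
    ∃ R : Multiset K, Multiset.card R = finrank K (LinearMap.range e) ∧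
      (∀ a, R.count a = finrank K ↥(g.maxGenEigenspace a ⊓ LinearMap.range e)) ∧
      LinearMap.det (g * e + (1 - e)) = R.prod := by
  obtain ⟨W, hW⟩ : ∃ W, W = LinearMap.range e := ⟨_, rfl⟩
  have heW : ∀ x ∈ W, e x = x := by
    intro x hx
    rw [hW] at hx
    obtain ⟨y, rfl⟩ := hx
    exact LinearMap.congr_fun he y
  have hgW : ∀ x ∈ W, g x ∈ W := by
    intro x hx
    rw [hW] at hx ⊢
    obtain ⟨y, rfl⟩ := hx
    exact ⟨g y, (LinearMap.congr_fun hge y).symm⟩
  have heW' : ∀ x, e x ∈ W := by
    intro x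
    rw [hW]
    exact ⟨x, rfl⟩
  obtain ⟨f, hf⟩ : ∃ f : End K V, f = g * e + (1 - e) := ⟨_, rfl⟩
  have hfW : W ≤ W.comap f := by
    intro x hx
    rw [Submodule.mem_comap, hf, LinearMap.add_apply, LinearMap.sub_apply, Module.End.mul_apply,
      heW x hx, Module.End.one_apply, sub_self, add_zero]
    exact hgW x hx
  have h1 := LinearMap.det_eq_det_mul_det W f hfW
  have h2 : f.restrict hfW = g.restrict hgW := by
    refine LinearMap.ext fun x => Subtype.ext ?_
    rw [LinearMap.coe_restrict_apply, LinearMap.coe_restrict_apply, hf, LinearMap.add_apply,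
      LinearMap.sub_apply, Module.End.mul_apply, heW x x.2, Module.End.one_apply, sub_self, add_zero]
  have h3 : W.mapQ W f hfW = LinearMap.id := by
    refine LinearMap.ext fun y => ?_
    induction y using Submodule.Quotient.induction_on with
    | H x =>
      rw [LinearMap.id_apply]
      refine (Submodule.Quotient.eq W).2 ?_
      rw [hf, LinearMap.add_apply, LinearMap.sub_apply, Module.End.mul_apply, Module.End.one_apply]
      have h4 : g (e x) + (x - e x) - x = g (e x) - e x := by abel
      rw [h4]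
      exact W.sub_mem (hgW _ (heW' x)) (heW' x)
  rw [h2, h3, LinearMap.det_id, mul_one] at h1
  refine ⟨(g.restrict hgW).charpoly.roots, ?_, fun a => ?_, ?_⟩
  · rw [← (IsAlgClosed.splits (g.restrict hgW).charpoly).natDegree_eq_card_roots,
      LinearMap.charpoly_natDegree, hW]
  · rw [count_roots, ← LinearMap.finrank_maxGenEigenspace_eq]
    have h4 : Module.End.maxGenEigenspace (g.restrict hgW) a =
        (g.maxGenEigenspace a).comap W.subtype :=
      Module.End.genEigenspace_restrict g W ⊤ a hgW
    rw [h4, ← hW]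
    have h5 := (Submodule.equivSubtypeMap W ((g.maxGenEigenspace a).comap W.subtype)).finrank_eq
    rw [h5, Submodule.map_comap_subtype, inf_comm]
  · rw [← hf, h1, Module.End.det_eq_prod_roots_charpoly_of_splits (IsAlgClosed.splits _)]

end det

section group

/-- products of quotients -/
theorem prod_mem_ratio {ι : Type} (P : ι → ℚ[X]) (i : ι) (R S : Multiset ℂ)
    (hR : ∀ a ∈ R, a ∈ (P i).aroots ℂ ∧ a ≠ 0) (hS : ∀ b ∈ S, b ∈ (P i).aroots ℂ ∧ b ≠ 0) :
    ∃ u ∈ ratioGroup P, (u : ℂ) * S.prod ^ Multiset.card R = R.prod ^ Multiset.card S := by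
  induction R using Multiset.induction_on with
  | empty =>
    refine ⟨1, Subgroup.one_mem _, ?_⟩
    rw [Multiset.card_zero, pow_zero, Multiset.prod_zero, one_pow, Units.val_one, one_mul]
  | cons a R ih =>
    obtain ⟨u, hu, h1⟩ := ih fun b hb => hR b (Multiset.mem_cons_of_mem hb)
    have ha := hR a (Multiset.mem_cons_self a R)
    have key : ∀ S : Multiset ℂ, (∀ b ∈ S, b ∈ (P i).aroots ℂ ∧ b ≠ 0) →
        ∃ w ∈ ratioGroup P, (w : ℂ) * S.prod = a ^ Multiset.card S := by
      intro S
      induction S using Multiset.induction_on with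
      | empty =>
        intro _
        refine ⟨1, Subgroup.one_mem _, ?_⟩
        rw [Multiset.card_zero, pow_zero, Multiset.prod_zero, Units.val_one, one_mul]
      | cons b S ih =>
        intro hS
        obtain ⟨w, hw, h2⟩ := ih fun c hc => hS c (Multiset.mem_cons_of_mem hc)
        have hb := hS b (Multiset.mem_cons_self b S)
        refine ⟨Units.mk0 (a / b) (div_ne_zero ha.2 hb.2) * w, Subgroup.mul_mem _
          (Subgroup.subset_closure ⟨i, a, ha.1, b, hb.1, ?_⟩) hw, ?_⟩
        · rw [Units.val_mk0, div_mul_cancel₀ _ hb.2]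
        · rw [Multiset.prod_cons, Multiset.card_cons, pow_succ, ← h2, Units.val_mul,
            Units.val_mk0]
          field_simp [hb.2]
    obtain ⟨w, hw, h2⟩ := key S hS
    refine ⟨w * u, Subgroup.mul_mem _ hw hu, ?_⟩
    rw [Multiset.prod_cons, Multiset.card_cons, mul_pow, ← h1, ← h2, pow_succ, Units.val_mul]
    ring

theorem norm_prod_const {R : Multiset ℂ} {c : ℝ} (h : ∀ a ∈ R, ‖a‖ = c) :
    ‖R.prod‖ = c ^ Multiset.card R := by
  induction R using Multiset.induction_on with
  | empty => rw [Multiset.prod_zero, Multiset.card_zero, pow_zero, norm_one]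
  | cons a R ih =>
    rw [Multiset.prod_cons, Multiset.card_cons, norm_mul, h a (Multiset.mem_cons_self a R),
      ih fun b hb => h b (Multiset.mem_cons_of_mem hb), pow_succ, mul_comm]

end group

section char

variable {G : Type*} [Group G] {m : Type*} [Fintype m] [DecidableEq m] {E : Type*} [CommRing E]

theorem idem_mul (e A B : Matrix m m E) (he : e * e = e) (hA : A * e = e * A) (hB : B * e = e * B) :
    (A * e + (1 - e)) * (B * e + (1 - e)) = A * B * e + (1 - e) := by
  have h1 : A * e * (B * e) = A * B * e := by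
    rw [mul_assoc, ← mul_assoc e B, ← hB, mul_assoc B, he, ← mul_assoc]
  have h2 : A * e * (1 - e) = 0 := by
    rw [mul_sub, mul_one, mul_assoc, he, sub_self]
  have h3 : (1 - e) * (B * e) = 0 := by
    rw [sub_mul, one_mul, ← mul_assoc, ← hB, mul_assoc, he, sub_self]
  have h4 : (1 - e) * (1 - e) = 1 - e := by
    rw [mul_sub, mul_one, sub_mul, one_mul, he, sub_self, sub_zero]
  rw [add_mul, mul_add, mul_add, h1, h2, h3, h4, add_zero, zero_add]

/-- the determinant on the image of the idempotent `e` -/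
noncomputable def detE (M : G →* Matrix m m E) (e : Matrix m m E) (he : e * e = e)
    (hM : ∀ g, M g * e = e * M g) : G →* E where
  toFun g := (M g * e + (1 - e)).det
  map_one' := by rw [map_one, one_mul, add_sub_cancel, Matrix.det_one]
  map_mul' a b := by rw [map_mul, ← idem_mul e _ _ he (hM a) (hM b), Matrix.det_mul]

theorem detE_apply (M : G →* Matrix m m E) (e : Matrix m m E) (he : e * e = e)
    (hM : ∀ g, M g * e = e * M g) (g : G) : detE M e he hM g = (M g * e + (1 - e)).det := rfl

/-- the determinant on the image of the idempotent `e`, with weight zero -/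
noncomputable def detW (M : G →* Matrix m m E) (e : Matrix m m E) (he : e * e = e)
    (hM : ∀ g, M g * e = e * M g) (N r : ℕ) : G →* Eˣ :=
  (detE M e he hM).toHomUnits ^ N * ((detE M 1 (one_mul 1)
    (fun g => by rw [mul_one, one_mul])).toHomUnits ^ r)⁻¹

theorem detW_apply (M : G →* Matrix m m E) (e : Matrix m m E) (he : e * e = e)
    (hM : ∀ g, M g * e = e * M g) (N r : ℕ) (g : G) :
    (detW M e he hM N r g : E) * (M g).det ^ r = (M g * e + (1 - e)).det ^ N := by
  have h1 : detW M e he hM N r g = (detE M e he hM).toHomUnits g ^ N *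
    ((detE M 1 (one_mul 1) (fun g => by rw [mul_one, one_mul])).toHomUnits g ^ r)⁻¹ := rfl
  have h2 : (((detE M 1 (one_mul 1) (fun g => by rw [mul_one, one_mul])).toHomUnits g : Eˣ) : E) =
      (M g).det := by
    rw [MonoidHom.coe_toHomUnits, detE_apply, mul_one, sub_self, add_zero]
  have h3 : (((detE M e he hM).toHomUnits g : Eˣ) : E) = (M g * e + (1 - e)).det := by
    rw [MonoidHom.coe_toHomUnits, detE_apply]
  rw [h1, ← h2, ← h3, Units.val_mul, ← Units.val_pow_eq_pow_val, ← Units.val_pow_eq_pow_val,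
    mul_assoc, ← Units.val_mul, inv_mul_cancel, Units.val_one, mul_one]

end char

section cont

variable {G : Type*} [Group G] [TopologicalSpace G] [IsTopologicalGroup G] {m : Type*} [Fintype m]
  [DecidableEq m] {E : Type*} [Field E] [TopologicalSpace E] [IsTopologicalRing E]

theorem continuous_toHomUnits {f : G →* E} (hf : Continuous f) : Continuous f.toHomUnits := by
  rw [Units.continuous_iff]
  refine ⟨hf, ?_⟩
  have h1 : (fun g => (((f.toHomUnits g)⁻¹ : Eˣ) : E)) = fun g => f g⁻¹ := by
    funext g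
    rw [← map_inv, MonoidHom.coe_toHomUnits]
  rw [h1]
  exact hf.comp continuous_inv

theorem continuous_detE (M : G →* Matrix m m E) (e : Matrix m m E) (he : e * e = e)
    (hM : ∀ g, M g * e = e * M g) (hc : Continuous fun g => M g) :
    Continuous (detE M e he hM) := by
  have h1 : Continuous fun g => (M g * e + (1 - e)).det :=
    Continuous.matrix_det ((hc.matrix_mul continuous_const).add continuous_const)
  exact h1

theorem continuous_detW (M : G →* Matrix m m E) (e : Matrix m m E) (he : e * e = e)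
    (hM : ∀ g, M g * e = e * M g) (hc : Continuous fun g => M g) (N r : ℕ) :
    Continuous (detW M e he hM N r) := by
  have h1 := continuous_toHomUnits (continuous_detE M e he hM hc)
  have h2 := continuous_toHomUnits (continuous_detE M 1 (one_mul 1)
    (fun g => by rw [mul_one, one_mul]) hc)
  have h3 : Continuous fun g => (detE M e he hM).toHomUnits g ^ N *
    ((detE M 1 (one_mul 1) (fun g => by rw [mul_one, one_mul])).toHomUnits g ^ r)⁻¹ :=
    (h1.pow N).mul (h2.pow r).inv
  exact h3

end cont

end Pool.Agent.Q65.KL
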