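import Pool.Agent.Q65.TE1

/-!
# Projections with algebraic coefficients, and the determinants of the Frobenius elements on their
images
-/

set_option autoImplicit false
set_option linter.unusedSectionVars false
set_option linter.unusedVariables false

namespace Pool.Agent.Q65.KL

open NumberField IsDedekindDomain Module Polynomial TensorProduct Pool.Agent.TH118.SG
  Pool.Agent.Y114.MU Pool.Agent.Y114.TF Pool.Agent.Y114.GF Pool.Agent.H204R3.GP Pool.Agent.Y114.RM
  Pool.Agent.Y212.RM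
open Pool.Agent.W569.FM Pool.Agent.W571.FM Pool.Agent.Y115.R Pool.Agent.Y115.T Pool.Agent.Y115.Chi
  Pool.Agent.Y115.CQ

section poly

variable {V : Type} [AddCommGroup V] [Module ℂ V] [FiniteDimensional ℂ V]

theorem poly_of_factors {g P : End ℂ V} {s : ℂ → ℂ} (hs : ∀ c, s c = 1 ∨ s c = 0)
    (hP : ∀ c, ∀ x ∈ g.maxGenEigenspace c, P x = s c • x) {p₁ p₀ a b : ℂ[X]}
    (hprod : p₁ * p₀ = g.charpoly) (hab : a * p₁ + b * p₀ = 1)
    (hr₁ : ∀ c, s c = 0 → p₁.eval c ≠ 0) (hr₀ : ∀ c, s c = 1 → p₀.eval c ≠ 0) :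
    aeval g (b * p₀) = P := by
  have hCH : ∀ x, aeval g p₁ (aeval g p₀ x) = 0 := by
    intro x
    rw [← Module.End.mul_apply, ← map_mul, hprod, LinearMap.aeval_self_charpoly,
      LinearMap.zero_apply]
  have hCH' : ∀ x, aeval g p₀ (aeval g p₁ x) = 0 := by
    intro x
    rw [← Module.End.mul_apply, ← map_mul, mul_comm, hprod, LinearMap.aeval_self_charpoly,
      LinearMap.zero_apply]
  have hst : ∀ (q : ℂ[X]) (c : ℂ), ∀ x ∈ g.maxGenEigenspace c,
      aeval g q x ∈ g.maxGenEigenspace c := by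
    intro q c x hx
    have hcomm : Commute g (aeval g q) := by
      have h1 : aeval g (X * q) = aeval g (q * X) := by rw [mul_comm]
      rw [map_mul, map_mul, aeval_X] at h1
      exact h1
    exact Module.End.mapsTo_maxGenEigenspace_of_comm hcomm c hx
  refine op_ext g fun c x hx => ?_
  rw [hP c x hx]
  have h1 := congrArg (fun f => aeval g f x) hab
  simp only [map_add, map_mul, map_one, LinearMap.add_apply, Module.End.mul_apply,
    Module.End.one_apply] at h1
  rcases hs c with h2 | h2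
  · have h3 : aeval g p₁ x = 0 := gen_inj (hr₀ c h2) (hst p₁ c x hx) (hCH' x)
    rw [h3, map_zero, zero_add] at h1
    rw [map_mul, Module.End.mul_apply, h1, h2, one_smul]
  · have h3 : aeval g p₀ x = 0 := gen_inj (hr₁ c h2) (hst p₀ c x hx) (hCH x)
    rw [map_mul, Module.End.mul_apply, h3, map_zero, h2, zero_smul]

end poly

section polyC

variable {k : Type} [Field k] [CharZero k] [Algebra k ℂ] {V : Type} [AddCommGroup V] [Module k V]
  [FiniteDimensional k V] {A : Type} [Field A] [IsAlgClosed A] [Algebra k A] (ι₀ : A →+* ℂ)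
  (hι : ι₀.comp (algebraMap k A) = algebraMap k ℂ)

include hι in
/-- idempotents which are scalar on the generalized eigenspaces are polynomials with algebraic
coefficients -/
theorem exists_polyC {g : End k V} {P : End ℂ (ℂ ⊗[k] V)} {s : ℂ → ℂ}
    (hs : ∀ c, s c = 1 ∨ s c = 0)
    (hP : ∀ c, ∀ x ∈ Module.End.maxGenEigenspace (g.baseChange ℂ) c, P x = s c • x) :
    ∃ p : A[X], aeval (g.baseChange ℂ) (p.map ι₀) = P := by
  classical
  obtain ⟨χ, hχ⟩ : ∃ χ : A[X], χ = g.charpoly.map (algebraMap k A) := ⟨_, rfl⟩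
  have hχm : χ.Monic := by
    rw [hχ]
    exact (LinearMap.charpoly_monic g).map _
  obtain ⟨p₁, hp₁⟩ : ∃ p₁ : A[X], p₁ = ((χ.roots.filter fun c => s (ι₀ c) = 1).map
    fun c => X - C c).prod := ⟨_, rfl⟩
  obtain ⟨p₀, hp₀⟩ : ∃ p₀ : A[X], p₀ = ((χ.roots.filter fun c => ¬ s (ι₀ c) = 1).map
    fun c => X - C c).prod := ⟨_, rfl⟩
  have hprod : p₁ * p₀ = χ := by
    rw [hp₁, hp₀, ← Multiset.prod_add, ← Multiset.map_add, Multiset.filter_add_not]
    exact ((IsAlgClosed.splits χ).eq_prod_roots_of_monic hχm).symm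
  have hroot : ∀ (t : A → Prop) [DecidablePred t] (c : ℂ),
      (((χ.roots.filter t).map fun c => X - C c).prod.map ι₀).eval c = 0 →
        ∃ d, t d ∧ ι₀ d = c := by
    intro t _ c h0
    rw [Polynomial.map_multiset_prod, eval_multiset_prod, Multiset.map_map, Multiset.map_map,
      Multiset.prod_eq_zero_iff, Multiset.mem_map] at h0
    obtain ⟨d, hd, hd0⟩ := h0
    rw [Multiset.mem_filter] at hd
    refine ⟨d, hd.2, ?_⟩
    have h1 : c - ι₀ d = 0 := by
      simpa using hd0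
    exact (sub_eq_zero.1 h1).symm
  have hr₁ : ∀ c, s c = 0 → (p₁.map ι₀).eval c ≠ 0 := by
    intro c hc h0
    rw [hp₁] at h0
    obtain ⟨d, hd, hdc⟩ := hroot _ c h0
    rw [hdc, hc] at hd
    exact zero_ne_one hd
  have hr₀ : ∀ c, s c = 1 → (p₀.map ι₀).eval c ≠ 0 := by
    intro c hc h0
    rw [hp₀] at h0
    obtain ⟨d, hd, hdc⟩ := hroot _ c h0
    rw [hdc] at hd
    exact hd hc
  have hcop : IsCoprime p₁ p₀ := by
    rw [hp₁]
    refine Multiset.prod_induction (fun q => IsCoprime q p₀) _ (fun a b ha hb => ha.mul_left hb)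
      isCoprime_one_left ?_
    intro q hq
    rw [Multiset.mem_map] at hq
    obtain ⟨c, hc, rfl⟩ := hq
    rw [Multiset.mem_filter] at hc
    rw [(irreducible_X_sub_C c).coprime_iff_not_dvd, dvd_iff_isRoot]
    intro h0
    apply hr₀ (ι₀ c) hc.2
    rw [eval_map, eval₂_at_apply, h0, map_zero]
  obtain ⟨a, b, hab⟩ := hcop
  have hab' := congrArg (Polynomial.map ι₀) hab
  rw [Polynomial.map_add, Polynomial.map_mul, Polynomial.map_mul, Polynomial.map_one] at hab'
  have hprod' : p₁.map ι₀ * p₀.map ι₀ = LinearMap.charpoly (g.baseChange ℂ) := by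
    rw [← Polynomial.map_mul, hprod, hχ, Polynomial.map_map, hι, LinearMap.charpoly_baseChange]
  refine ⟨b * p₀, ?_⟩
  rw [Polynomial.map_mul]
  exact poly_of_factors hs hP hprod' hab' hr₁ hr₀

end polyC

section mat

variable {k : Type} [Field k] [Algebra k ℂ] {n : ℕ} {A : Type} [Field A] [Algebra k A]
  (ι₀ : A →+* ℂ) (hι : ι₀.comp (algebraMap k A) = algebraMap k ℂ)

/-- the matrix of an operator on `ℂ ⊗ k ^ n` -/
noncomputable def mtx : End ℂ (ℂ ⊗[k] (Fin n → k)) ≃ₐ[ℂ] Matrix (Fin n) (Fin n) ℂ :=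
  LinearMap.toMatrixAlgEquiv (Algebra.TensorProduct.basis ℂ (Pi.basisFun k (Fin n)))

theorem mtx_bc (f : End k (Fin n → k)) :
    mtx (f.baseChange ℂ) = (LinearMap.toMatrix' f).map (algebraMap k ℂ) := by
  have h1 := LinearMap.toMatrix_baseChange ℂ f (Pi.basisFun k (Fin n)) (Pi.basisFun k (Fin n))
  rw [LinearMap.toMatrix_eq_toMatrix'] at h1
  exact h1

theorem det_mtx (f : End ℂ (ℂ ⊗[k] (Fin n → k))) : (mtx f).det = LinearMap.det f :=
  LinearMap.det_toMatrix _ f

include hι in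
theorem mtx_aeval (f : End k (Fin n → k)) (p : A[X]) :
    mtx (aeval (f.baseChange ℂ) (p.map ι₀)) =
      (aeval ((LinearMap.toMatrix' f).map (algebraMap k A)) p).map ι₀ := by
  have h1 : mtx (aeval (f.baseChange ℂ) (p.map ι₀)) =
      aeval (mtx (f.baseChange ℂ)) (p.map ι₀) :=
    (Polynomial.aeval_algHom_apply (mtx : End ℂ (ℂ ⊗[k] (Fin n → k)) ≃ₐ[ℂ] _).toAlgHom
      (f.baseChange ℂ) (p.map ι₀)).symm
  rw [h1, mtx_bc]
  have h2 : (LinearMap.toMatrix' f).map (algebraMap k ℂ) =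
      ι₀.mapMatrix ((LinearMap.toMatrix' f).map (algebraMap k A)) := by
    rw [RingHom.mapMatrix_apply, Matrix.map_map, ← hι]
    rfl
  rw [h2]
  have h3 := Polynomial.map_aeval_eq_aeval_map (R := A) (S := Matrix (Fin n) (Fin n) A) (T := ℂ)
    (U := Matrix (Fin n) (Fin n) ℂ) (φ := ι₀) (ψ := ι₀.mapMatrix) (by
      ext a i j
      by_cases h : i = j <;> simp [Matrix.algebraMap_matrix_apply, h]) p
      ((LinearMap.toMatrix' f).map (algebraMap k A))
  exact h3.symm

end mat

end Pool.Agent.Q65.KL
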