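import Pool.Agent.Q65.TE2

/-!
# The determinants of Frobenius elements on the images of idempotents
-/

set_option autoImplicit false
set_option linter.unusedSectionVars false
set_option linter.unusedVariables false

namespace Pool.Agent.Q65.KL

open NumberField IsDedekindDomain Module Polynomial TensorProduct Pool.Agent.TH118.SG
  Pool.Agent.Y114.MU Pool.Agent.Y114.TF Pool.Agent.Y114.GF Pool.Agent.H204R3.GP Pool.Agent.Y114.RM
  Pool.Agent.Y212.RM
open Pool.Agent.W569.FM Pool.Agent.W571.FM Pool.Agent.Y115.R Pool.Agent.Y115.T Pool.Agent.Y115.Chi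
  Pool.Agent.Y115.CQ

section roots

/-- the square of the product of the roots of a monic rational polynomial, pure of weight `w` -/
theorem sq_prod_roots {P : ℚ[X]} (hP : P.Monic) {c : ℝ} (hc : ∀ a ∈ P.aroots ℂ, ‖a‖ ^ 2 = c) :
    (P.aroots ℂ).prod ^ 2 = (c : ℂ) ^ Multiset.card (P.aroots ℂ) := by
  have h1 : ∃ x : ℝ, (x : ℂ) = (P.aroots ℂ).prod := by
    have h2 := (IsAlgClosed.splits (P.map (algebraMap ℚ ℂ))).coeff_zero_eq_prod_roots_of_monic
      (hP.map _)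
    have h3 : (P.aroots ℂ).prod = (-1) ^ (P.map (algebraMap ℚ ℂ)).natDegree *
        algebraMap ℚ ℂ (P.coeff 0) := by
      rw [← coeff_map, h2, ← mul_assoc, ← pow_add, ← two_mul, pow_mul, neg_one_sq, one_pow, one_mul]
    refine ⟨(-1) ^ (P.map (algebraMap ℚ ℂ)).natDegree * ((P.coeff 0 : ℚ) : ℝ), ?_⟩
    rw [h3]
    push_cast
    rfl
  obtain ⟨x, hx⟩ := h1
  have h2 : ∀ R : Multiset ℂ, (∀ a ∈ R, ‖a‖ ^ 2 = c) → ‖R.prod‖ ^ 2 = c ^ Multiset.card R := by
    intro R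
    induction R using Multiset.induction_on with
    | empty => intro _; rw [Multiset.prod_zero, Multiset.card_zero, pow_zero, norm_one, one_pow]
    | cons a R ih =>
      intro h
      rw [Multiset.prod_cons, Multiset.card_cons, norm_mul, mul_pow,
        h a (Multiset.mem_cons_self a R), ih fun b hb => h b (Multiset.mem_cons_of_mem hb),
        pow_succ, mul_comm]
  have h3 := h2 _ hc
  rw [← hx, Complex.norm_real, Real.norm_eq_abs, sq_abs] at h3
  rw [← hx]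
  exact_mod_cast h3

end roots

section tor

variable {F : Type} [Field F] [NumberField F] {ι : Type} [Fintype ι] [DecidableEq ι] {n : ι → ℕ}
  {w : ι → ℤ} {ℓ : ℕ} [hℓ : Fact ℓ.Prime]
  (ρ : ∀ i, Representation ℚ_[ℓ] (GF F) (Fin (n i) → ℚ_[ℓ]))

/-- the matrices of a representation -/
noncomputable def matRr {G : Type} [Group G] {k : Type} [Field k] {N : ℕ}
    (ρ : Representation k G (Fin N → k)) : G →* Matrix (Fin N) (Fin N) k where
  toFun γ := LinearMap.toMatrix' (ρ γ)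
  map_one' := by rw [map_one]; exact LinearMap.toMatrix'_one
  map_mul' a b := by rw [map_mul]; exact LinearMap.toMatrix'_mul _ _

/-- the eigenvalues on the image of an idempotent, for a place of good reduction -/
theorem frob_part [Algebra ℚ_[ℓ] ℂ] {N : ℕ} {g : End ℚ_[ℓ] (Fin N → ℚ_[ℓ])} {P : ℚ[X]}
    (hg : g.charpoly = P.map (algebraMap ℚ ℚ_[ℓ])) {e : End ℂ (ℂ ⊗[ℚ_[ℓ]] (Fin N → ℚ_[ℓ]))}
    (hge : g.baseChange ℂ * e = e * g.baseChange ℂ) (he : e * e = e) :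
    ∃ R : Multiset ℂ, Multiset.card R = finrank ℂ (LinearMap.range e) ∧
      (∀ a, R.count a = finrank ℂ ↥(Module.End.maxGenEigenspace (g.baseChange ℂ) a ⊓
        LinearMap.range e)) ∧
      LinearMap.det (g.baseChange ℂ * e + (1 - e)) = R.prod ∧ (∀ a ∈ R, a ∈ P.aroots ℂ) ∧
      LinearMap.det (g.baseChange ℂ) = (P.aroots ℂ).prod ∧ Multiset.card (P.aroots ℂ) = N ∧
      P.Monic := by
  have hinjQ : Function.Injective (algebraMap ℚ ℚ_[ℓ]) := (algebraMap ℚ ℚ_[ℓ]).injective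
  have hmon : P.Monic := by
    rw [← Polynomial.monic_map_iff (f := algebraMap ℚ ℚ_[ℓ]), ← hg]
    exact LinearMap.charpoly_monic g
  have hch : LinearMap.charpoly (g.baseChange ℂ) = P.map (algebraMap ℚ ℂ) := by
    rw [LinearMap.charpoly_baseChange, hg, Polynomial.map_map]
    congr 1
    exact Subsingleton.elim _ _
  obtain ⟨R, h1, h2, h3⟩ := det_part (g.baseChange ℂ) e hge he
  refine ⟨R, h1, h2, h3, fun a ha => ?_, ?_, ?_, hmon⟩
  · have h4 : 0 < R.count a := Multiset.count_pos.2 ha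
    rw [h2] at h4
    have h5 : Module.End.maxGenEigenspace (g.baseChange ℂ) a ≠ ⊥ := by
      intro h6
      rw [h6, bot_inf_eq, finrank_bot] at h4
      exact lt_irrefl _ h4
    have h6 : Module.End.HasEigenvalue (g.baseChange ℂ) a :=
      (Module.End.hasUnifEigenvalue_iff_hasUnifEigenvalue_one (by simp)).1 h5
    rw [Module.End.hasEigenvalue_iff_isRoot_charpoly, hch] at h6
    rw [aroots_def, mem_roots (hmon.map _).ne_zero]
    exact h6
  · rw [Module.End.det_eq_prod_roots_charpoly_of_splits (IsAlgClosed.splits _), hch]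
  · rw [aroots_def, ← (IsAlgClosed.splits (P.map (algebraMap ℚ ℂ))).natDegree_eq_card_roots, ← hch,
      LinearMap.charpoly_natDegree, Module.finrank_baseChange, Module.finrank_fin_fun]

/-- **The determinant on the image of an idempotent which commutes with the Galois group.** -/
theorem class_torsion (hρ : ∀ i, Continuous fun g => LinearMap.toMatrix' (ρ i g))
    [Algebra ℚ_[ℓ] ℂ] (ι₀ : PadicAlgCl ℓ →+* ℂ)
    (hι : ι₀.comp (algebraMap ℚ_[ℓ] (PadicAlgCl ℓ)) = algebraMap ℚ_[ℓ] ℂ)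
    (P : HeightOneSpectrum (𝓞 F) → ι → ℚ[X])
    (T : Set ℕ) (hT3 : 3 ≤ T.encard) (hT : ∀ p ∈ T, p.Prime ∧ p ≠ ℓ ∧ UnramifiedIn F p)
    (hgood : ∀ p ∈ T, ∀ v, Above v p → GoodPlace ρ w v (P v))
    {p₀ : ℕ} (hp₀ : p₀ ∈ T) (hind₀ : IndependentPlaces P p₀) {v₀ : HeightOneSpectrum (𝓞 F)}
    (hv₀ : Above v₀ p₀) (i : ι) (e : End ℂ (ℂ ⊗[ℚ_[ℓ]] (Fin (n i) → ℚ_[ℓ]))) (he : e * e = e)
    (m : Matrix (Fin (n i)) (Fin (n i)) (PadicAlgCl ℓ)) (hm : mtx e = m.map ι₀)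
    (hcomm : ∀ σ, (ρ i σ).baseChange ℂ * e = e * (ρ i σ).baseChange ℂ)
    {Q₀ : Ideal (OO F)} (hQ₀ : Q₀.IsMaximal) (hQ₀v : cm Q₀ = v₀.asIdeal) {σ₀ : GF F}
    (hσ₀ : FrobAt (Ideal.absNorm v₀.asIdeal) Q₀ σ₀) :
    ∃ R : Multiset ℂ, (∀ a, R.count a = finrank ℂ
        ↥(Module.End.maxGenEigenspace ((ρ i σ₀⁻¹).baseChange ℂ) a ⊓ LinearMap.range e)) ∧
      ∃ k : ℕ, 0 < k ∧ R.prod ^ (2 * k) = (((q v₀ : ℝ) ^ w i : ℝ) : ℂ) ^ (k * Multiset.card R) := by
  classical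
  -- the field of coefficients
  obtain ⟨S, hS⟩ : ∃ S : Set (PadicAlgCl ℓ), S = Set.range fun ab : Fin (n i) × Fin (n i) =>
    m ab.1 ab.2 := ⟨_, rfl⟩
  have hSfin : S.Finite := by
    rw [hS]
    exact Set.finite_range _
  obtain ⟨E, hE⟩ : ∃ E : IntermediateField ℚ_[ℓ] (PadicAlgCl ℓ),
    E = IntermediateField.adjoin ℚ_[ℓ] S := ⟨_, rfl⟩
  have hEfin : FiniteDimensional ℚ_[ℓ] E := by
    rw [hE]
    have := hSfin.to_subtype
    exact IntermediateField.finiteDimensional_adjoin fun x _ =>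
      (Algebra.IsAlgebraic.isAlgebraic x).isIntegral
  have hcompl : CompleteSpace E := FiniteDimensional.complete ℚ_[ℓ] E
  have hmE : ∀ a b, m a b ∈ E := by
    intro a b
    rw [hE]
    apply IntermediateField.subset_adjoin
    rw [hS]
    exact ⟨(a, b), rfl⟩
  obtain ⟨eE, heE⟩ : ∃ eE : Matrix (Fin (n i)) (Fin (n i)) E, eE = fun a b => ⟨m a b, hmE a b⟩ :=
    ⟨_, rfl⟩
  obtain ⟨jE, hjE⟩ : ∃ jE : E →+* ℂ, jE = ι₀.comp (algebraMap E (PadicAlgCl ℓ)) := ⟨_, rfl⟩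
  have hjinj : Function.Injective jE := jE.injective
  have heE' : mtx e = eE.map jE := by
    rw [hm, heE, hjE]
    rfl
  have hjalg : ∀ x : ℚ_[ℓ], jE (algebraMap ℚ_[ℓ] E x) = algebraMap ℚ_[ℓ] ℂ x := by
    intro x
    rw [hjE, ← hι]
    rfl
  have hmapinj : Function.Injective (fun A : Matrix (Fin (n i)) (Fin (n i)) E => A.map jE) := by
    intro A B hAB
    ext a b
    have := congrFun (congrFun (congrArg (fun X : Matrix _ _ ℂ => (X : _ → _ → ℂ)) hAB) a) b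
    exact congrArg _ (hjinj this)
  -- the matrices
  obtain ⟨M, hM⟩ : ∃ M : GF F →* Matrix (Fin (n i)) (Fin (n i)) E, ∀ σ, M σ =
      (LinearMap.toMatrix' (ρ i σ)).map (algebraMap ℚ_[ℓ] E) := by
    refine ⟨(((algebraMap ℚ_[ℓ] E).mapMatrix : Matrix (Fin (n i)) (Fin (n i)) ℚ_[ℓ] →+*
      Matrix (Fin (n i)) (Fin (n i)) E) : Matrix (Fin (n i)) (Fin (n i)) ℚ_[ℓ] →*
      Matrix (Fin (n i)) (Fin (n i)) E).comp (matRr (ρ i)), fun σ => rfl⟩
  have hMj : ∀ σ, (M σ).map jE = mtx ((ρ i σ).baseChange ℂ) := by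
    intro σ
    rw [hM, mtx_bc, Matrix.map_map]
    congr 1
    funext x
    exact hjalg x
  have hMc : Continuous fun σ => M σ := by
    have h1 : (fun σ => M σ) = fun σ =>
      (LinearMap.toMatrix' (ρ i σ)).map (algebraMap ℚ_[ℓ] E) := funext hM
    rw [h1]
    exact (hρ i).matrix_map (continuous_algebraMap ℚ_[ℓ] E)
  have heE2 : eE * eE = eE := by
    apply hmapinj
    show (eE * eE).map jE = eE.map jE
    rw [Matrix.map_mul, ← heE', ← map_mul, he]
  have hMe : ∀ σ, M σ * eE = eE * M σ := by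
    intro σ
    apply hmapinj
    show (M σ * eE).map jE = (eE * M σ).map jE
    rw [Matrix.map_mul, Matrix.map_mul, ← heE', hMj, ← map_mul, ← map_mul, hcomm]
  have hdet : ∀ σ, jE ((M σ * eE + (1 - eE)).det) =
      LinearMap.det ((ρ i σ).baseChange ℂ * e + (1 - e)) := by
    intro σ
    rw [← det_mtx, map_add, map_mul, map_sub, map_one, RingHom.map_det]
    congr 1
    rw [map_add, map_mul, map_sub, map_one]
    show (M σ).map jE * eE.map jE + (1 - eE.map jE) = _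
    rw [hMj, heE']
  have hdet1 : ∀ σ, jE ((M σ).det) = LinearMap.det ((ρ i σ).baseChange ℂ) := by
    intro σ
    rw [← det_mtx, RingHom.map_det]
    congr 1
    exact hMj σ
  -- the character
  obtain ⟨r, hr⟩ : ∃ r, r = finrank ℂ (LinearMap.range e) := ⟨_, rfl⟩
  obtain ⟨ψ, hψ⟩ : ∃ ψ, ψ = detW M eE heE2 hMe (n i) r := ⟨_, rfl⟩
  have hψc : Continuous ψ := by
    rw [hψ]
    exact continuous_detW M eE heE2 hMe hMc (n i) r
  -- its values
  have hval : ∀ (σ : GF F) (P' : ℚ[X]) (c : ℝ), 0 < c → (ρ i σ).charpoly =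
      P'.map (algebraMap ℚ ℚ_[ℓ]) → (∀ a ∈ P'.aroots ℂ, ‖a‖ ^ 2 = c) →
      IsAlgebraic ℚ (ψ σ : E) ∧ ‖jE (ψ σ : E)‖ = 1 ∧
      (∃ u : ℂˣ, (∀ P'' : ι → ℚ[X], P'' i = P' → u ∈ ratioGroup P'') ∧ (u : ℂ) = jE (ψ σ : E)) ∧
      ∃ R : Multiset ℂ, Multiset.card R = r ∧ (∀ a, R.count a = finrank ℂ
        ↥(Module.End.maxGenEigenspace ((ρ i σ).baseChange ℂ) a ⊓ LinearMap.range e)) ∧
        jE (ψ σ : E) * (P'.aroots ℂ).prod ^ r = R.prod ^ (n i) ∧
        (P'.aroots ℂ).prod ^ 2 = (c : ℂ) ^ (n i) ∧ (P'.aroots ℂ).prod ≠ 0 := by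
    intro σ P' c hc hch hP'
    obtain ⟨R, h1, h2, h3, h4, h5, h6, h7⟩ := frob_part hch (hcomm σ) he
    have hne : ∀ a ∈ P'.aroots ℂ, a ≠ 0 := by
      rintro a ha rfl
      have h8 := hP' 0 ha
      rw [norm_zero, zero_pow two_ne_zero] at h8
      exact hc.ne h8
    have hS0 : (P'.aroots ℂ).prod ≠ 0 := fun h0 => hne 0 (Multiset.prod_eq_zero_iff.1 h0) rfl
    have h8 : jE (ψ σ : E) * (P'.aroots ℂ).prod ^ r = R.prod ^ (n i) := by
      have h9 := congrArg jE (detW_apply M eE heE2 hMe (n i) r σ)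
      rw [map_mul, map_pow, map_pow, hdet, hdet1, h3, h5, ← hψ] at h9
      exact h9
    obtain ⟨u, hu, hu'⟩ := prod_mem_ratio (fun _ : ι => P') i R (P'.aroots ℂ)
      (fun a ha => ⟨h4 a ha, hne a (h4 a ha)⟩) (fun a ha => ⟨ha, hne a ha⟩)
    rw [h6, h1, ← hr] at hu'
    have hu2 : (u : ℂ) = jE (ψ σ : E) := by
      have h9 : (u : ℂ) * (P'.aroots ℂ).prod ^ r = jE (ψ σ : E) * (P'.aroots ℂ).prod ^ r := by
        rw [hu', h8]
      exact mul_right_cancel₀ (pow_ne_zero r hS0) h9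
    have hnorm : ∀ a ∈ P'.aroots ℂ, ‖a‖ = Real.sqrt c := by
      intro a ha
      rw [← hP' a ha, Real.sqrt_sq (norm_nonneg a)]
    refine ⟨?_, ?_, ⟨u, ?_, hu2⟩, R, by rw [h1, hr], h2, h8, ?_, hS0⟩
    · have halg : IsAlgebraic ℚ (jE (ψ σ : E)) := by
        have hR : ∀ R : Multiset ℂ, (∀ a ∈ R, a ∈ P'.aroots ℂ) → IsAlgebraic ℚ R.prod := by
          intro R
          induction R using Multiset.induction_on with
          | empty => intro _; rw [Multiset.prod_zero]; exact isAlgebraic_one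
          | cons a R ih =>
            intro h
            rw [Multiset.prod_cons]
            refine IsAlgebraic.mul ?_ (ih fun b hb => h b (Multiset.mem_cons_of_mem hb))
            exact ⟨P', h7.ne_zero, (mem_aroots.1 (h a (Multiset.mem_cons_self a R))).2⟩
        have h9 : jE (ψ σ : E) = R.prod ^ (n i) * ((P'.aroots ℂ).prod ^ r)⁻¹ := by
          rw [← h8, mul_assoc, mul_inv_cancel₀ (pow_ne_zero r hS0), mul_one]
        rw [h9]
        exact ((hR R h4).pow _).mul ((hR _ fun a ha => ha).pow _).inv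
      exact (isAlgebraic_algHom_iff jE.toRatAlgHom hjinj).1 halg
    · have h9 := congrArg norm h8
      rw [norm_mul, norm_pow, norm_pow, norm_prod_const (fun a ha => hnorm a (h4 a ha)),
        norm_prod_const hnorm, h6, h1, ← hr, ← pow_mul, ← pow_mul, mul_comm r] at h9
      have h10 : Real.sqrt c ^ (n i * r) ≠ 0 := pow_ne_zero _ (Real.sqrt_pos.2 hc).ne'
      exact mul_right_cancel₀ h10 (h9.trans (one_mul _).symm)
    · intro P'' hP''
      refine (Subgroup.closure_mono ?_) hu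
      rintro u ⟨i', a, ha, b, hb, hab⟩
      exact ⟨i, a, by rw [hP'']; exact ha, b, by rw [hP'']; exact hb, hab⟩
    · have h9 := sq_prod_roots h7 hP'
      rwa [h6] at h9
  -- Frobenius elements
  have hfr : ∀ v : HeightOneSpectrum (𝓞 F), ∃ (Q : Ideal (OO F)) (σ : GF F), Q.IsMaximal ∧
      cm Q = v.asIdeal ∧ FrobAt (Ideal.absNorm v.asIdeal) Q σ := fun v => frob_cm v
  choose Q₁ σ₁ hQ₁ hQ₁v hσ₁ using hfr
  have hinv : ∀ g : GF F, (ψ g⁻¹ : E) = (ψ g : E)⁻¹ := by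
    intro g
    rw [map_inv, Units.val_inv_eq_inv_val]
  have hin : ∀ v P', GoodPlace ρ w v P' → ∀ Q : Ideal (OO F), Q.IsPrime → cm Q = v.asIdeal →
      ∀ g, InInertia Q g → ψ g = 1 := by
    intro v P' hP' Q hQ hQv g hg
    apply Units.ext
    rw [Units.val_one]
    have h1 : ρ i g = 1 := hP'.unramified i Q ⟨hQ, hQv⟩ g hg
    have h2 : M g = 1 := by
      rw [hM, h1]
      show (LinearMap.toMatrix' LinearMap.id).map (algebraMap ℚ_[ℓ] E) = 1
      rw [LinearMap.toMatrix'_id]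
      exact Matrix.map_one _ (map_zero _) (map_one _)
    have h3 := detW_apply M eE heE2 hMe (n i) r g
    rw [h2, Matrix.det_one, one_pow, mul_one, one_mul, add_sub_cancel, Matrix.det_one, one_pow,
      ← hψ] at h3
    exact h3
  have hq : ∀ v : HeightOneSpectrum (𝓞 F), 0 < (q v : ℝ) ^ w i := by
    intro v
    have h1 : 0 < q v := by
      apply Nat.pos_of_ne_zero
      show Ideal.absNorm v.asIdeal ≠ 0
      rw [Ne, Ideal.absNorm_eq_zero_iff]
      exact v.ne_bot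
    have h2 : (0 : ℝ) < q v := by exact_mod_cast h1
    exact zpow_pos h2 _
  have hgv : ∀ p ∈ T, ∀ v, Above v p → _ := fun p hp v hv =>
    hval (σ₁ v)⁻¹ (P v i) ((q v : ℝ) ^ w i) (hq v)
      ((hgood p hp v hv).frobenius i (Q₁ v) ⟨(hQ₁ v).isPrime, hQ₁v v⟩ (σ₁ v) (hσ₁ v))
      ((hgood p hp v hv).pure i)
  obtain ⟨S', N', hN', hS', hprod⟩ := prod_torsionE ψ hψc T hT3 hT (fun v => ψ (σ₁ v)) (by
    intro p hp v hv Q hQ hQv
    have h1 := hin v (P v) (hgood p hp v hv)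
    exact ⟨h1 Q hQ hQv, fun φ hφ => frob_value ψ v h1 (hQ₁ v).isPrime hQ (hQ₁v v) hQv (hσ₁ v)
      hφ⟩) (fun p hp v hv => by
      have h1 := (hgv p hp v hv).1
      rw [hinv] at h1
      exact IsAlgebraic.inv_iff.1 h1) jE
    (fun p hp v hv => by
      have h1 := (hgv p hp v hv).2.1
      rw [hinv, map_inv₀, norm_inv, inv_eq_one] at h1
      exact h1) p₀ hp₀
  have hu : ∀ v : HeightOneSpectrum (𝓞 F), ∃ u : ℂˣ, Above v p₀ →
      u ∈ ratioGroup (P v) ∧ (u : ℂ) = jE (ψ (σ₁ v)⁻¹ : E) := by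
    intro v
    by_cases hv : Above v p₀
    · obtain ⟨u, hu, hu'⟩ := (hgv p₀ hp₀ v hv).2.2.1
      exact ⟨u, fun _ => ⟨hu (P v) rfl, hu'⟩⟩
    · exact ⟨1, fun h => absurd h hv⟩
  choose u hu using hu
  obtain ⟨m', hm', hm''⟩ := hind₀ u (fun v hv => (hu v hv).1) ⟨N', hN', by
    have h3 : (∏ᶠ (v : HeightOneSpectrum (𝓞 F)) (_ : Above v p₀), u v) = ∏ v ∈ S', u v :=
      finprod_cond_eq_prod_of_cond_iff _ fun {v} _ => (hS' v).symm
    rw [h3]
    apply Units.ext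
    rw [Units.val_pow_eq_pow_val, Units.coe_prod, Units.val_one]
    have h4 : ∏ v ∈ S', (u v : ℂ) = (jE (∏ v ∈ S', (ψ (σ₁ v) : E)))⁻¹ := by
      rw [map_prod, ← Finset.prod_inv_distrib]
      refine Finset.prod_congr rfl fun v hv => ?_
      rw [(hu v ((hS' v).1 hv)).2, hinv, map_inv₀]
    rw [h4, inv_pow, ← map_pow, hprod, map_one, inv_one]⟩ v₀ hv₀
  have hψ₀ : ψ σ₀⁻¹ = ψ (σ₁ v₀)⁻¹ := by
    rw [map_inv, map_inv, frob_value ψ v₀ (hin v₀ (P v₀) (hgood p₀ hp₀ v₀ hv₀)) (hQ₁ v₀).isPrime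
      hQ₀.isPrime (hQ₁v v₀) hQ₀v (hσ₁ v₀) hσ₀]
  have hψm : jE (ψ σ₀⁻¹ : E) ^ m' = 1 := by
    rw [hψ₀, ← (hu v₀ hv₀).2, ← Units.val_pow_eq_pow_val, hm'', Units.val_one]
  obtain ⟨-, -, -, R, hR1, hR2, hR3, hR4, hR5⟩ := hval σ₀⁻¹ (P v₀ i) ((q v₀ : ℝ) ^ w i) (hq v₀)
    ((hgood p₀ hp₀ v₀ hv₀).frobenius i Q₀ ⟨hQ₀.isPrime, hQ₀v⟩ σ₀ hσ₀)
    ((hgood p₀ hp₀ v₀ hv₀).pure i)
  refine ⟨R, hR2, ?_⟩
  rcases Nat.eq_zero_or_pos (n i) with h0 | h0
  · refine ⟨1, Nat.one_pos, ?_⟩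
    have h1 : Multiset.card R = 0 := by
      have h2 : finrank ℂ (LinearMap.range e) ≤ n i :=
        (Submodule.finrank_le (LinearMap.range e)).trans
          (by rw [Module.finrank_baseChange, Module.finrank_fin_fun])
      rw [hR1, hr]
      omega
    rw [Multiset.card_eq_zero.1 h1, Multiset.prod_zero, one_pow, Multiset.card_zero, mul_zero,
      pow_zero]
  · refine ⟨n i * m', Nat.mul_pos h0 hm', ?_⟩
    have h1 : R.prod ^ (2 * (n i * m')) = ((R.prod ^ n i) ^ m') ^ 2 := by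
      rw [← pow_mul, ← pow_mul]
      congr 1
      ring
    have h2 : (((P v₀ i).aroots ℂ).prod ^ r) ^ m' * (((P v₀ i).aroots ℂ).prod ^ r) ^ m' =
        (((P v₀ i).aroots ℂ).prod ^ 2) ^ (r * m') := by
      rw [← pow_mul, ← pow_mul, ← pow_add]
      congr 1
      ring
    rw [h1, ← hR3, mul_pow, hψm, one_mul, sq, h2, hR4, ← pow_mul, hR1]
    congr 1
    ring

end tor

end Pool.Agent.Q65.KL
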