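import Pool.Agent.Q65.TE3

/-!
# Balanced classes of eigenvalues
-/

set_option autoImplicit false
set_option linter.unusedSectionVars false
set_option linter.unusedVariables false

namespace Pool.Agent.Q65.KL

open NumberField IsDedekindDomain Module Polynomial TensorProduct Pool.Agent.TH118.SG
  Pool.Agent.Y114.MU Pool.Agent.Y114.TF Pool.Agent.Y114.GF Pool.Agent.H204R3.GP Pool.Agent.Y114.RM
  Pool.Agent.Y212.RM
open Pool.Agent.W569.FM Pool.Agent.W571.FM Pool.Agent.Y115.R Pool.Agent.Y115.T Pool.Agent.Y115.Chi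
  Pool.Agent.Y115.CQ

section inter

variable {K : Type} [Field K] {V W : Type} [AddCommGroup V] [Module K V] [AddCommGroup W]
  [Module K W]

theorem aeval_inter {A : V →ₗ[K] W} {f : End K V} {g : End K W} (h : ∀ x, A (f x) = g (A x))
    (p : K[X]) (x : V) : A (aeval f p x) = aeval g p (A x) := by
  have hpow : ∀ (m : ℕ) (x : V), A ((f ^ m) x) = (g ^ m) (A x) := by
    intro m
    induction m with
    | zero => intro x; rfl
    | succ m ih =>
      intro x
      rw [pow_succ', pow_succ', Module.End.mul_apply, Module.End.mul_apply, h, ih]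
  rw [aeval_eq_sum_range, aeval_eq_sum_range, LinearMap.sum_apply, LinearMap.sum_apply, map_sum]
  refine Finset.sum_congr rfl fun m _ => ?_
  rw [LinearMap.smul_apply, LinearMap.smul_apply, map_smul, hpow]

theorem gen_inter {A : V →ₗ[K] W} {f : End K V} {g : End K W} (h : ∀ x, A (f x) = g (A x)) {c : K}
    {x : V} (hx : x ∈ f.maxGenEigenspace c) : A x ∈ g.maxGenEigenspace c := by
  obtain ⟨m, hm⟩ := (Module.End.mem_maxGenEigenspace f c x).1 hx
  refine (Module.End.mem_maxGenEigenspace g c _).2 ⟨m, ?_⟩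
  have h1 : ∀ (m : ℕ) (x : V), A (((f - c • (1 : End K V)) ^ m) x) =
      ((g - c • (1 : End K W)) ^ m) (A x) := by
    intro m
    induction m with
    | zero => intro x; rfl
    | succ m ih =>
      intro x
      rw [pow_succ, pow_succ, Module.End.mul_apply, Module.End.mul_apply, ih]
      congr 1
      rw [LinearMap.sub_apply, LinearMap.sub_apply, map_sub, h, LinearMap.smul_apply,
        LinearMap.smul_apply, map_smul]
      rfl
  rw [← h1, hm, map_zero]

end inter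

section blk

variable {k : Type} [Field k] [CharZero k] [Algebra k ℂ] {ι : Type} [Fintype ι] [DecidableEq ι]
  {V : ι → Type} [∀ i, AddCommGroup (V i)] [∀ i, Module k (V i)] [∀ i, FiniteDimensional k (V i)]
  {Γ : Type} [Group Γ] (ρ : ∀ i, Representation k Γ (V i))

variable (k V) in
/-- the inclusion of a summand, over `ℂ` -/
noncomputable def inc (i : ι) : (ℂ ⊗[k] V i) →ₗ[ℂ] (ℂ ⊗[k] (∀ i, V i)) :=
  (LinearMap.single k V i).baseChange ℂ

variable (k V) in
/-- the projection on a summand, over `ℂ` -/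
noncomputable def prj (i : ι) : (ℂ ⊗[k] (∀ i, V i)) →ₗ[ℂ] (ℂ ⊗[k] V i) :=
  (LinearMap.proj i : (∀ i, V i) →ₗ[k] V i).baseChange ℂ

theorem prj_inc (i : ι) (x : ℂ ⊗[k] V i) : prj k V i (inc k V i x) = x := by
  induction x with
  | zero => simp only [map_zero]
  | add x y hx hy => rw [map_add, map_add, hx, hy]
  | tmul c v =>
    rw [inc, prj, LinearMap.baseChange_tmul, LinearMap.baseChange_tmul]
    congr 1
    exact Pi.single_eq_same i v

theorem sum_inc (z : ℂ ⊗[k] (∀ i, V i)) : ∑ i, inc k V i (prj k V i z) = z := by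
  induction z with
  | zero => simp only [map_zero, Finset.sum_const_zero]
  | add x y hx hy =>
    simp only [map_add]
    rw [Finset.sum_add_distrib, hx, hy]
  | tmul c v =>
    have h1 : ∀ i, inc k V i (prj k V i (c ⊗ₜ[k] v)) = c ⊗ₜ[k] (Pi.single i (v i) : ∀ i, V i) := by
      intro i
      rw [inc, prj, LinearMap.baseChange_tmul, LinearMap.baseChange_tmul]
      rfl
    rw [Finset.sum_congr rfl fun i _ => h1 i, ← tmul_sum, Finset.univ_sum_single]

theorem inc_rep (γ : Γ) (i : ι) (x : ℂ ⊗[k] V i) :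
    inc k V i ((ρ i γ).baseChange ℂ x) = (sumRep ρ γ).baseChange ℂ (inc k V i x) := by
  induction x with
  | zero => simp only [map_zero]
  | add x y hx hy => simp only [map_add, hx, hy]
  | tmul c v =>
    rw [inc, LinearMap.baseChange_tmul, LinearMap.baseChange_tmul, LinearMap.baseChange_tmul,
      LinearMap.baseChange_tmul]
    congr 1
    exact (sumRep_single ρ γ i v).symm

theorem inc_blk {X : End k (∀ i, V i)} (hX : ∀ x i, X x i = X (Pi.single i (x i)) i) (i : ι)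
    (x : ℂ ⊗[k] V i) : inc k V i ((blk i X).baseChange ℂ x) = X.baseChange ℂ (inc k V i x) := by
  induction x with
  | zero => simp only [map_zero]
  | add x y hx hy => simp only [map_add, hx, hy]
  | tmul c v =>
    rw [inc, LinearMap.baseChange_tmul, LinearMap.baseChange_tmul, LinearMap.baseChange_tmul,
      LinearMap.baseChange_tmul]
    congr 1
    exact (single_parts' hX i v).symm

/-- the block of a polynomial -/
theorem blk_pM_aeval (γ : Γ) (i : ι) (p : ℂ[X]) (π : ℂ →ₗ[k] k) :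
    blk i (pM π (aeval ((sumRep ρ γ).baseChange ℂ) p) : End k (∀ i, V i)) =
      pM π (aeval ((ρ i γ).baseChange ℂ) p) := by
  rw [pM_aeval, pM_aeval]
  refine LinearMap.ext fun x => ?_
  rw [blk_apply, aeval_single, Pi.single_eq_same]

/-- the action on the generalized eigenspaces of the block -/
theorem blk_scal {γ : Γ} {p : ℂ[X]} {s : ℂ → ℂ}
    (hP : ∀ c, ∀ x ∈ Module.End.maxGenEigenspace ((sumRep ρ γ).baseChange ℂ) c,
      aeval ((sumRep ρ γ).baseChange ℂ) p x = s c • x) (i : ι) :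
    ∀ c, ∀ x ∈ Module.End.maxGenEigenspace ((ρ i γ).baseChange ℂ) c,
      aeval ((ρ i γ).baseChange ℂ) p x = s c • x := by
  intro c x hx
  have h1 := hP c _ (gen_inter (inc_rep ρ γ i) hx)
  rw [← aeval_inter (inc_rep ρ γ i) p x, ← map_smul] at h1
  have h2 := congrArg (prj k V i) h1
  rwa [prj_inc, prj_inc] at h2

end blk

section num

/-- the dimensions of the joint eigenspaces -/
noncomputable def Joint {W : Type} [AddCommGroup W] [Module ℂ W] (g b : End ℂ W) (a β : ℂ) : ℕ :=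
  finrank ℂ ↥(g.maxGenEigenspace a ⊓ b.eigenspace β)

/-- the numerical condition -/
def OneClassC {ι : Type} (c : ι → ℝ) (m : ι → ℂ → ℂ → ℕ) : Prop :=
  ∀ Λ : Subgroup ℂˣ, (∀ ζ : ℂˣ, IsOfFinOrder ζ → ζ ∈ Λ) →
    (∀ i β (a₀ : ℂˣ), ∃ R : Multiset ℂ, (∀ u : ℂˣ, u / a₀ ∈ Λ → R.count (u : ℂ) = m i u β) ∧
      (∀ u : ℂˣ, u / a₀ ∉ Λ → (u : ℂ) ∉ R) ∧ (0 : ℂ) ∉ R ∧
      ∃ k : ℕ, 0 < k ∧ R.prod ^ (2 * k) = (c i : ℂ) ^ (k * Multiset.card R)) →
    ∀ i β (a b : ℂˣ), m i a β ≠ 0 → m i b β ≠ 0 → a / b ∈ Λ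

variable {k : Type} [Field k] [CharZero k] [Algebra k ℂ] {ι : Type} [Fintype ι] [DecidableEq ι]
  {V : ι → Type} [∀ i, AddCommGroup (V i)] [∀ i, Module k (V i)] [∀ i, FiniteDimensional k (V i)]
  {Γ : Type} [Group Γ] (ρ : ∀ i, Representation k Γ (V i))

theorem full_of_balanced (h : Inputs) {L G : Submodule k (End k (∀ i, V i))} (hL : IsLie L)
    (hG : IsLie G) (hndG : NonDeg G) (hndL : NonDeg L) (hLG : L ≤ G)
    (hparts : ∀ X ∈ G, ∀ x i, X x i = X (Pi.single i (x i)) i) (γ₂ : Γ)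
    (ht₂ : tor ((sumRep ρ γ₂).baseChange ℂ) ≤ bcS ℂ L)
    (hcen₂ : ∀ x ∈ bcS ℂ G, (∀ a ∈ tor ((sumRep ρ γ₂).baseChange ℂ), a * x = x * a) →
      x ∈ tor ((sumRep ρ γ₂).baseChange ℂ))
    (b : ∀ i, End k (V i)) (hbγ : ∀ i, b i * ρ i γ₂ = ρ i γ₂ * b i)
    (hbG : ∀ i, ∀ X ∈ G, b i * blk i X = blk i X * b i)
    (hbd : ∀ i, ⨆ β, Module.End.eigenspace ((b i).baseChange ℂ) β = ⊤) (c : ι → ℝ)
    (hone : OneClassC c fun i a β => Joint ((ρ i γ₂).baseChange ℂ) ((b i).baseChange ℂ) a β)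
    (htors : ∀ (s : ℂ → ℂ) (P : End ℂ (ℂ ⊗[k] (∀ i, V i))), (∀ c, s c = 1 ∨ s c = 0) →
      (∀ c, ∀ x ∈ Module.End.maxGenEigenspace ((sumRep ρ γ₂).baseChange ℂ) c, P x = s c • x) →
      (∀ X ∈ bcS ℂ L, P * X = X * P) →
      (∀ Q : End ℂ (ℂ ⊗[k] (∀ i, V i)), (∀ X ∈ bcS ℂ L, X * Q = Q * X) → P * Q = Q * P) →
      ∀ i β, ∃ R : Multiset ℂ,
        (∀ a, s a = 1 → R.count a = Joint ((ρ i γ₂).baseChange ℂ) ((b i).baseChange ℂ) a β) ∧
        (∀ a, s a = 0 → a ∉ R) ∧
        ∃ k : ℕ, 0 < k ∧ R.prod ^ (2 * k) = (c i : ℂ) ^ (k * Multiset.card R)) : L = G := by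
  classical
  have hLG' : bcS ℂ L ≤ bcS ℂ G := bcS_mono hLG
  have hLC : IsLie (bcS ℂ L) := (h.bc k ℂ _ L).2.1 hL
  have hLndC : NonDeg (bcS ℂ L) := (h.bc k ℂ _ L).2.2.1 hndL
  have T₂ : Tor (bcS ℂ L) (tor ((sumRep ρ γ₂).baseChange ℂ)) :=
    ⟨hLC, hLndC, ht₂, tor_diag _, tor_comm _, fun x hx => hcen₂ x (hLG' hx)⟩
  refine (h.bc k ℂ _ G).2.2.2.2.1 L hLG ?_
  refine eq_of_classes ((h.bc k ℂ _ G).2.1 hG) ((h.bc k ℂ _ G).2.2.1 hndG) hLG' hLC hLndC ht₂
    (tor_diag _) (tor_comm _) hcen₂ ?_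
  -- the weights
  have h1 : ∀ a : tor ((sumRep ρ γ₂).baseChange ℂ), ∃ θ : Additive ℂˣ →+ ℂ,
      IsOp θ ((sumRep ρ γ₂).baseChange ℂ) a := fun a => a.2
  choose θ hθ using h1
  obtain ⟨wt, hwt⟩ : ∃ wt : ℂ → (tor ((sumRep ρ γ₂).baseChange ℂ) → ℂ),
    wt = fun c a => ext0 (θ a) c := ⟨_, rfl⟩
  have hwtx : ∀ c, ∀ x ∈ Module.End.maxGenEigenspace ((sumRep ρ γ₂).baseChange ℂ) c,
      ∀ a : tor ((sumRep ρ γ₂).baseChange ℂ), (a : End ℂ (ℂ ⊗[k] (∀ i, V i))) x = wt c a • x := by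
    intro c x hx a
    rw [hwt]
    exact hθ a c x hx
  have hwtmul : ∀ x y : ℂ, x ≠ 0 → y ≠ 0 → wt (x * y) = wt x + wt y := by
    intro x y hx hy
    rw [hwt]
    funext a
    exact ext0_mul' (θ a) hx hy
  have hwt1 : wt 1 = 0 := by
    have h3 := hwtmul 1 1 one_ne_zero one_ne_zero
    rw [mul_one] at h3
    exact left_eq_add.1 h3
  have hwtpow : ∀ (x : ℂ) (m : ℕ), x ≠ 0 → wt (x ^ m) = (m : ℂ) • wt x := by
    intro x m hx
    induction m with
    | zero => rw [pow_zero, Nat.cast_zero, zero_smul, hwt1]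
    | succ m ih =>
      rw [pow_succ, hwtmul _ _ (pow_ne_zero m hx) hx, ih, Nat.cast_succ, add_smul, one_smul]
  obtain ⟨R, hR⟩ : ∃ R : AddSubgroup (tor ((sumRep ρ γ₂).baseChange ℂ) → ℂ),
    R = AddSubgroup.closure (Wts (tor ((sumRep ρ γ₂).baseChange ℂ)) (bcS ℂ L)) := ⟨_, rfl⟩
  -- class projections commute with the commutant
  have hPQ : ∀ (χ₀ : tor ((sumRep ρ γ₂).baseChange ℂ) → ℂ) (P : End ℂ (ℂ ⊗[k] (∀ i, V i))),
      (∀ (χ : tor ((sumRep ρ γ₂).baseChange ℂ) → ℂ) x, (∀ a : tor ((sumRep ρ γ₂).baseChange ℂ),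
        (a : End ℂ (ℂ ⊗[k] (∀ i, V i))) x = χ a • x) →
        P x = (if χ - χ₀ ∈ R then (1 : ℂ) else 0) • x) →
      ∀ Q : End ℂ (ℂ ⊗[k] (∀ i, V i)), (∀ X ∈ bcS ℂ L, X * Q = Q * X) → P * Q = Q * P := by
    intro χ₀ P hP Q hQ
    refine op_ext ((sumRep ρ γ₂).baseChange ℂ) fun c x hx => ?_
    rw [Module.End.mul_apply, Module.End.mul_apply, hP (wt c) x (hwtx c x hx),
      hP (wt c) (Q x), map_smul]
    intro a
    have h1 := LinearMap.congr_fun (hQ a (ht₂ a.2)) x
    rw [Module.End.mul_apply, Module.End.mul_apply, hwtx c x hx, map_smul] at h1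
    exact h1
  -- the group of the numbers with weight in `R`
  obtain ⟨Λ, hΛ⟩ : ∃ Λ : Subgroup ℂˣ, ∀ u : ℂˣ, u ∈ Λ ↔ wt (u : ℂ) ∈ R := by
    refine ⟨{ carrier := {u | wt (u : ℂ) ∈ R}, mul_mem' := ?_, one_mem' := ?_, inv_mem' := ?_ },
      fun u => Iff.rfl⟩
    · intro u v hu hv
      show wt ((u * v : ℂˣ) : ℂ) ∈ R
      rw [Units.val_mul, hwtmul _ _ u.ne_zero v.ne_zero]
      exact R.add_mem hu hv
    · show wt ((1 : ℂˣ) : ℂ) ∈ R
      rw [Units.val_one, hwt1]
      exact R.zero_mem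
    · intro u hu
      show wt ((u⁻¹ : ℂˣ) : ℂ) ∈ R
      have h4 := hwtmul (u : ℂ) ((u⁻¹ : ℂˣ) : ℂ) u.ne_zero (u⁻¹).ne_zero
      rw [← Units.val_mul, mul_inv_cancel, Units.val_one, hwt1] at h4
      rw [eq_neg_of_add_eq_zero_right h4.symm]
      exact R.neg_mem hu
  have hdiv : ∀ u v : ℂˣ, u / v ∈ Λ ↔ wt (u : ℂ) - wt (v : ℂ) ∈ R := by
    intro u v
    rw [hΛ]
    have h4 := hwtmul ((u / v : ℂˣ) : ℂ) (v : ℂ) (u / v).ne_zero v.ne_zero
    rw [← Units.val_mul, div_mul_cancel] at h4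
    rw [h4, add_sub_cancel_right]
  have hgen0 : ∀ i, Module.End.maxGenEigenspace ((ρ i γ₂).baseChange ℂ) 0 = ⊥ := by
    intro i
    rw [eq_bot_iff]
    intro x hx
    obtain ⟨m, hm⟩ := (Module.End.mem_maxGenEigenspace _ _ x).1 hx
    rw [zero_smul, sub_zero] at hm
    have h4 : (ρ i γ₂⁻¹).baseChange ℂ * (ρ i γ₂).baseChange ℂ = 1 := by
      rw [← bc_mul, ← map_mul, inv_mul_cancel, map_one, bc_one]
    have h5 : (ρ i γ₂).baseChange ℂ * (ρ i γ₂⁻¹).baseChange ℂ = 1 := by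
      rw [← bc_mul, ← map_mul, mul_inv_cancel, map_one, bc_one]
    have h6 : ((ρ i γ₂⁻¹).baseChange ℂ) ^ m * ((ρ i γ₂).baseChange ℂ) ^ m = 1 := by
      have h7 : Commute ((ρ i γ₂⁻¹).baseChange ℂ) ((ρ i γ₂).baseChange ℂ) := h4.trans h5.symm
      rw [← h7.mul_pow, h4, one_pow]
    have h7 := LinearMap.congr_fun h6 x
    rw [Module.End.mul_apply, hm, map_zero, Module.End.one_apply] at h7
    exact (Submodule.mem_bot ℂ).2 h7.symm
  -- all eigenvalues of a part have the same class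
  have hall := hone Λ (by
    intro ζ hζ
    obtain ⟨m, hm, h4⟩ := isOfFinOrder_iff_pow_eq_one.1 hζ
    rw [hΛ]
    have h5 := hwtpow (ζ : ℂ) m ζ.ne_zero
    rw [← Units.val_pow_eq_pow_val, h4, Units.val_one, hwt1] at h5
    have h6 : (m : ℂ) ≠ 0 := Nat.cast_ne_zero.2 hm.ne'
    rw [(smul_eq_zero.1 h5.symm).resolve_left h6]
    exact R.zero_mem) (by
    intro i β a₀
    obtain ⟨P, hP, hPL⟩ := exists_classProj T₂ (wt (a₀ : ℂ))
    rw [← hR] at hP
    obtain ⟨R', h4, h5, h6⟩ := htors (fun c => if wt c - wt (a₀ : ℂ) ∈ R then 1 else 0) P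
      (fun c => by
        by_cases hc : wt c - wt (a₀ : ℂ) ∈ R
        · left; exact if_pos hc
        · right; exact if_neg hc)
      (fun c x hx => hP (wt c) x (hwtx c x hx)) hPL (hPQ _ P hP) i β
    refine ⟨R', fun u hu => h4 u (if_pos ((hdiv u a₀).1 hu)), fun u hu => h5 u (if_neg fun h7 =>
      hu ((hdiv u a₀).2 h7)), ?_, h6⟩
    by_cases h0 : wt 0 - wt (a₀ : ℂ) ∈ R
    · have h7 := h4 0 (if_pos h0)
      rw [Joint, hgen0, bot_inf_eq, finrank_bot] at h7
      exact Multiset.count_eq_zero.1 h7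
    · exact h5 0 (if_neg h0))
  -- class projections commute with `G`
  rintro P ⟨χ₀, hP⟩ hPL
  rw [← hR] at hP
  obtain ⟨s, hs⟩ : ∃ s : ℂ → ℂ, s = fun c => if wt c - χ₀ ∈ R then 1 else 0 := ⟨_, rfl⟩
  have hs01 : ∀ c, s c = 1 ∨ s c = 0 := by
    intro c
    rw [hs]
    by_cases hc : wt c - χ₀ ∈ R
    · left; exact if_pos hc
    · right; exact if_neg hc
  have hPs : ∀ c, ∀ x ∈ Module.End.maxGenEigenspace ((sumRep ρ γ₂).baseChange ℂ) c,
      P x = s c • x := by
    intro c x hx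
    rw [hs]
    exact hP (wt c) x (hwtx c x hx)
  obtain ⟨p, hp⟩ := exists_poly hs01 hPs
  rw [← hp] at hPs
  have hblk : ∀ i, ∀ X ∈ G, ∀ y, aeval ((ρ i γ₂).baseChange ℂ) p ((blk i X).baseChange ℂ y) =
      (blk i X).baseChange ℂ (aeval ((ρ i γ₂).baseChange ℂ) p y) := by
    intro i X hX
    have hsc := blk_scal ρ hPs i
    obtain ⟨E, hE, hEmem, hEsum, hEcomm⟩ := exists_gproj ((ρ i γ₂).baseChange ℂ)
    have hbγ' : (b i).baseChange ℂ * (ρ i γ₂).baseChange ℂ =
        (ρ i γ₂).baseChange ℂ * (b i).baseChange ℂ := by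
      rw [← bc_mul, ← bc_mul, hbγ]
    -- on each part the projection is a scalar
    have hscal : ∀ β, ∃ t : ℂ, ∀ x ∈ Module.End.eigenspace ((b i).baseChange ℂ) β,
        aeval ((ρ i γ₂).baseChange ℂ) p x = t • x := by
      intro β
      have hEβ : ∀ a, ∀ x ∈ Module.End.eigenspace ((b i).baseChange ℂ) β,
          E a x ∈ Module.End.eigenspace ((b i).baseChange ℂ) β := by
        intro a x hx
        rw [Module.End.mem_eigenspace_iff] at hx ⊢
        rw [hEcomm a _ (fun c y hy => Module.End.mapsTo_maxGenEigenspace_of_comm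
          (show Commute ((ρ i γ₂).baseChange ℂ) ((b i).baseChange ℂ) from hbγ'.symm) c hy), hx,
          map_smul]
      by_cases hex : ∃ a : ℂˣ, Joint ((ρ i γ₂).baseChange ℂ) ((b i).baseChange ℂ) (a : ℂ) β ≠ 0
      · obtain ⟨a₀, ha₀⟩ := hex
        refine ⟨s a₀, fun x hx => ?_⟩
        have key : ∀ a, aeval ((ρ i γ₂).baseChange ℂ) p (E a x) = s a₀ • E a x := by
          intro a
          by_cases h0 : E a x = 0
          · rw [h0, map_zero, smul_zero]
          have ha0 : a ≠ 0 := by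
            rintro rfl
            have h7 := hEmem 0 x
            rw [hgen0, Submodule.mem_bot] at h7
            exact h0 h7
          have h7 : Joint ((ρ i γ₂).baseChange ℂ) ((b i).baseChange ℂ)
              ((Units.mk0 a ha0 : ℂˣ) : ℂ) β ≠ 0 := by
            intro h8
            rw [Joint, Submodule.finrank_eq_zero, Units.val_mk0] at h8
            have h9 : E a x ∈ (⊥ : Submodule ℂ (ℂ ⊗[k] V i)) := by
              rw [← h8]
              exact ⟨hEmem a x, hEβ a x hx⟩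
            exact h0 ((Submodule.mem_bot ℂ).1 h9)
          have h8 := (hdiv _ _).1 (hall i β (Units.mk0 a ha0) a₀ h7 ha₀)
          rw [Units.val_mk0] at h8
          rw [hsc a _ (hEmem a x)]
          congr 1
          rw [hs]
          have h9 : wt a - χ₀ ∈ R ↔ wt (a₀ : ℂ) - χ₀ ∈ R := by
            rw [show wt a - χ₀ = (wt a - wt (a₀ : ℂ)) + (wt (a₀ : ℂ) - χ₀) by abel]
            exact R.add_mem_cancel_left h8
          simp only [h9]
        have h6 := hEsum x
        rw [← h6, map_sum, Finset.smul_sum]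
        exact Finset.sum_congr rfl fun a _ => key a
      · refine ⟨0, fun x hx => ?_⟩
        have h7 : x = 0 := by
          have h6 := hEsum x
          rw [← h6]
          refine Finset.sum_eq_zero fun a _ => ?_
          by_contra h0
          have ha0 : a ≠ 0 := by
            rintro rfl
            have h7 := hEmem 0 x
            rw [hgen0, Submodule.mem_bot] at h7
            exact h0 h7
          apply hex
          refine ⟨Units.mk0 a ha0, fun h8 => ?_⟩
          rw [Joint, Submodule.finrank_eq_zero, Units.val_mk0] at h8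
          have h9 : E a x ∈ (⊥ : Submodule ℂ (ℂ ⊗[k] V i)) := by
            rw [← h8]
            exact ⟨hEmem a x, hEβ a x hx⟩
          exact h0 ((Submodule.mem_bot ℂ).1 h9)
        rw [h7, map_zero, smul_zero]
    intro y
    have hy : y ∈ ⨆ β, Module.End.eigenspace ((b i).baseChange ℂ) β := by
      rw [hbd i]
      exact Submodule.mem_top
    induction hy using Submodule.iSup_induction' with
    | mem β x hx =>
      obtain ⟨t, ht⟩ := hscal β
      rw [ht x hx, map_smul]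
      refine ht _ ?_
      rw [Module.End.mem_eigenspace_iff] at hx ⊢
      have h7 : (b i).baseChange ℂ * (blk i X).baseChange ℂ =
          (blk i X).baseChange ℂ * (b i).baseChange ℂ := by
        rw [← bc_mul, ← bc_mul, hbG i X hX]
      have h8 := LinearMap.congr_fun h7 x
      rw [Module.End.mul_apply, Module.End.mul_apply, hx, map_smul] at h8
      exact h8
    | zero => simp only [map_zero]
    | add x y _ _ hx hy => simp only [map_add, hx, hy]
  have hbase : ∀ X ∈ G, P * X.baseChange ℂ = X.baseChange ℂ * P := by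
    intro X hX
    refine LinearMap.ext fun z => ?_
    rw [Module.End.mul_apply, Module.End.mul_apply, ← sum_inc z, map_sum, map_sum, map_sum, map_sum]
    refine Finset.sum_congr rfl fun i _ => ?_
    rw [← inc_blk (hparts X hX), ← hp, ← aeval_inter (inc_rep ρ γ₂ i),
      ← aeval_inter (inc_rep ρ γ₂ i), ← inc_blk (hparts X hX), hblk i X hX]
  intro X hX
  induction hX using Submodule.span_induction with
  | mem X hX =>
    obtain ⟨Y, hY, rfl⟩ := hX
    exact hbase Y hY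
  | zero => rw [mul_zero, zero_mul]
  | add X Y _ _ hX hY => rw [mul_add, add_mul, hX, hY]
  | smul c X _ hX => rw [mul_smul_comm, smul_mul_assoc, hX]

end num

end Pool.Agent.Q65.KL
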