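import Pool.Agent.Q65.TE4
import Pool.Agent.Q65.CENT

/-!
# Balanced classes of eigenvalues: the main theorem
-/

set_option autoImplicit false
set_option linter.unusedSectionVars false
set_option linter.unusedVariables false

namespace Pool.Agent.Q65.KL

open NumberField IsDedekindDomain Module Polynomial TensorProduct Pool.Agent.TH118.SG
  Pool.Agent.Y114.MU Pool.Agent.Y114.TF Pool.Agent.Y114.GF Pool.Agent.H204R3.GP Pool.Agent.Y114.RM
  Pool.Agent.Y212.RM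
open Pool.Agent.W569.FM Pool.Agent.W571.FM Pool.Agent.Y115.R Pool.Agent.Y115.T Pool.Agent.Y115.Chi
  Pool.Agent.Y115.CQ

section joint

variable {W : Type} [AddCommGroup W] [Module ℂ W] [FiniteDimensional ℂ W]

theorem inter_range {g b P B : End ℂ W} {s : ℂ → ℂ} {β : ℂ} (hs : ∀ c, s c = 1 ∨ s c = 0)
    (hP : ∀ c, ∀ x ∈ g.maxGenEigenspace c, P x = s c • x)
    (hB : ∀ x ∈ b.eigenspace β, B x = x) (hBr : ∀ x, B x ∈ b.eigenspace β) (hPB : P * B = B * P)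
    (a : ℂ) : (s a = 1 → g.maxGenEigenspace a ⊓ LinearMap.range (P * B) =
        g.maxGenEigenspace a ⊓ b.eigenspace β) ∧
      (s a = 0 → g.maxGenEigenspace a ⊓ LinearMap.range (P * B) = ⊥) := by
  have hPP : P * P = P := by
    refine op_ext g fun c x hx => ?_
    rw [Module.End.mul_apply, hP c x hx, map_smul, hP c x hx, smul_smul]
    rcases hs c with h | h <;> rw [h] <;> simp
  refine ⟨fun ha => ?_, fun ha => ?_⟩
  · ext x
    refine ⟨?_, ?_⟩
    · rintro ⟨hx, y, rfl⟩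
      refine ⟨hx, ?_⟩
      rw [hPB]
      exact hBr _
    · rintro ⟨hx, hx'⟩
      refine ⟨hx, x, ?_⟩
      rw [Module.End.mul_apply, hB x hx', hP a x hx, ha, one_smul]
  · rw [eq_bot_iff]
    rintro x ⟨hx, y, rfl⟩
    have h1 : P ((P * B) y) = (P * B) y := by
      rw [← Module.End.mul_apply, ← mul_assoc, hPP]
    rw [hP a _ hx, ha, zero_smul] at h1
    exact (Submodule.mem_bot ℂ).2 h1.symm

end joint

section cent

variable {Γ : Type} [Group Γ] {ι : Type} [Fintype ι] [DecidableEq ι] {n : ι → ℕ} {ℓ : ℕ}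
  [hℓ : Fact ℓ.Prime] (ρ : ∀ i, Representation ℚ_[ℓ] Γ (Fin (n i) → ℚ_[ℓ]))

/-- the blocks of the elements of the centre of the commutant are central Tate endomorphisms -/
theorem central_tate {L : Submodule ℚ_[ℓ] (End ℚ_[ℓ] (∀ i, Fin (n i) → ℚ_[ℓ]))}
    (hL : ∀ X ∈ L, ∀ (m : ℕ) (φ : Tensor ℚ_[ℓ] (∀ i, Fin (n i) → ℚ_[ℓ]) m),
      TateTensor (sumRep ρ) φ → KillsTensor X φ)
    {Δ : Subgroup Γ} (hΔ : Δ.FiniteIndex)
    (hΔL : ∀ s ∈ Δ, ∀ Q, (∀ X ∈ L, X * Q = Q * X) → sumRep ρ s * Q = Q * sumRep ρ s)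
    (z : End ℚ_[ℓ] (∀ i, Fin (n i) → ℚ_[ℓ]))
    (hz1 : ∀ x i, z x i = z (Pi.single i (x i)) i) (hz2 : ∀ X ∈ L, X * z = z * X)
    (hz3 : ∀ Q, (∀ X ∈ L, X * Q = Q * X) → z * Q = Q * z) (i : ι) :
    TateEnd1 ρ i (blk i z) ∧ ∀ y, TateEnd1 ρ i y → blk i z * y = y * blk i z := by
  have hzs := fun i y => single_parts' hz1 i y
  refine ⟨⟨Δ, hΔ, fun s hs => ?_⟩, ?_⟩
  · refine LinearMap.ext fun x => ?_
    have h2 := congrFun (LinearMap.congr_fun (hΔL s hs z hz2) (Pi.single i x)) i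
    rw [Module.End.mul_apply, Module.End.mul_apply, sumRep_single, sumRep_app] at h2
    rw [Module.End.mul_apply, Module.End.mul_apply, blk_apply, blk_apply, h2]
  · rintro y ⟨Δ', hΔ', hy⟩
    have h2 : ∀ X ∈ L, X * ext i y = ext i y * X := fun X hX =>
      tate_comm (sumRep ρ) (hL X hX) hΔ' fun s hs => ext_comm ρ (hy s hs)
    refine LinearMap.ext fun x => ?_
    have h3 := congrFun (LinearMap.congr_fun (hz3 _ h2) (Pi.single i x)) i
    rw [Module.End.mul_apply, Module.End.mul_apply, ext_apply, ext_apply, Pi.single_eq_same,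
      Pi.single_eq_same] at h3
    rw [Module.End.mul_apply, Module.End.mul_apply, blk_apply, blk_apply, h3]

end cent

section defs

variable {k : Type} [Field k] (j : k →+* ℂ) {V : Type} [AddCommGroup V] [Module k V]

/-- the dimension of the joint eigenspace for the embedding `j` -/
noncomputable def JointJ (g b : End k V) (a β : ℂ) : ℕ :=
  letI := j.toAlgebra
  Joint (g.baseChange ℂ) (b.baseChange ℂ) a β

/-- diagonalizable over `ℂ` -/
def DiagJ (b : End k V) : Prop :=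
  letI := j.toAlgebra
  ⨆ β, Module.End.eigenspace (b.baseChange ℂ) β = ⊤

end defs

section img

variable {ι : Type} [DecidableEq ι] {n : ι → ℕ} {ℓ : ℕ} [hℓ : Fact ℓ.Prime]

/-- the endomorphisms `b i` commute with the images of `𝔤` -/
def CommImg (b : ∀ i, End ℚ_[ℓ] (Fin (n i) → ℚ_[ℓ]))
    (𝔤 : Submodule ℚ_[ℓ] (End ℚ_[ℓ] (∀ i, Fin (n i) → ℚ_[ℓ]))) : Prop :=
  ∀ i, ∀ X ∈ 𝔤, b i * blk i X = blk i X * b i

end img

section main

variable {Γ : Type} [Group Γ] [TopologicalSpace Γ] [IsTopologicalGroup Γ] [CompactSpace Γ]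
  {ι : Type} [Fintype ι] [DecidableEq ι] {n : ι → ℕ} {ℓ : ℕ} [hℓ : Fact ℓ.Prime]
  {F : Type} [Field F] [NumberField F] {w : ι → ℤ}

/-- **Balanced classes of eigenvalues.** -/
theorem main_bal (h : Inputs) (h2 : Inputs2) (ρ : Reps Γ n ℓ) (hρ : Conts ρ) (𝔤 : EndSpace n ℓ)
    (h𝔤 : Motivic ρ 𝔤)
    (s : Gal(AlgebraicClosure F/F) →* Γ) (hs : Continuous s)
    (P : HeightOneSpectrum (𝓞 F) → ι → ℚ[X])
    (T : Set ℕ) (hT3 : 3 ≤ T.encard) (hT : ∀ p ∈ T, p.Prime ∧ p ≠ ℓ ∧ UnramifiedIn F p)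
    (hgood : ∀ p ∈ T, ∀ v, Above v p → GoodPlace (restrictTo ρ s) w v (P v))
    {p₀ : ℕ} (hp₀ : p₀ ∈ T) (hind₀ : IndependentPlaces P p₀) {v₀ : HeightOneSpectrum (𝓞 F)}
    (hv₀ : Above v₀ p₀) (r : ℕ) (hr : IndependentRoots r (P v₀)) (hrk : RankLE 𝔤 r)
    (hC : ∀ i z, TateEnd1 ρ i z → (∀ y, TateEnd1 ρ i y → z * y = y * z) →
      ∀ σ, z * ρ i (s σ) = ρ i (s σ) * z)
    (b : ∀ i, End ℚ_[ℓ] (Fin (n i) → ℚ_[ℓ])) (hbρ : ∀ i γ, b i * ρ i γ = ρ i γ * b i)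
    (hbG : CommImg b 𝔤) (j : ℚ_[ℓ] →+* ℂ)
    (hbd : ∀ i, DiagJ j (b i))
    (hone : ∀ Q, PrimeOver Q v₀ → ∀ σ, IsFrobAt Q (q v₀) σ →
      OneClassC (fun i => (q v₀ : ℝ) ^ w i) fun i a β => JointJ j (ρ i (s σ⁻¹)) (b i) a β) :
    Semisimple ρ ∧ TateTensorsOf ρ 𝔤 := by
  classical
  let _ : Algebra ℚ_[ℓ] ℂ := j.toAlgebra
  have hinj : FaithfulSMul ℚ_[ℓ] ℂ := (faithfulSMul_iff_algebraMap_injective ℚ_[ℓ] ℂ).2 j.injective
  obtain ⟨ι₁⟩ : Nonempty (PadicAlgCl ℓ →ₐ[ℚ_[ℓ]] ℂ) := ⟨IsAlgClosed.lift⟩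
  obtain ⟨ι₀, hι₀⟩ : ∃ ι₀ : PadicAlgCl ℓ →+* ℂ, ι₀ = (ι₁ : PadicAlgCl ℓ →+* ℂ) := ⟨_, rfl⟩
  have hι : ι₀.comp (algebraMap ℚ_[ℓ] (PadicAlgCl ℓ)) = algebraMap ℚ_[ℓ] ℂ := by
    rw [hι₀]
    exact ι₁.comp_algebraMap
  obtain ⟨L, hL, hLie, hAd, hlog⟩ := h.lie ℚ_[ℓ] (∀ i, Fin (n i) → ℚ_[ℓ]) _ (sumRep ρ)
  have h𝔤' : IsMotivic ρ 𝔤 := h𝔤
  have hLG : L ≤ 𝔤 := fun X hX => h𝔤'.algebraic X fun m φ hφ =>
    ((hL X).1 hX).2 m φ (h𝔤'.tate m φ hφ)
  have hρs : ∀ i, Continuous fun g => LinearMap.toMatrix' ((restrictTo ρ s) i g) := fun i =>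
    (hρ i).comp hs
  have hAdS : ∀ γ, ∀ X ∈ L, AdE (sumRep (restrictTo ρ s) γ) (sumRep (restrictTo ρ s) γ⁻¹) X ∈ L := by
    intro γ X hX
    have h1 := hAd (s γ) X hX
    rwa [← map_inv s] at h1
  obtain ⟨Q₀, σ₀, hQ₀, hQ₀v, hσ₀, htor⟩ := det_torsion (restrictTo ρ s) h h2 hρs j L
    (fun X hX => h𝔤'.parts X (hLG hX)) hAdS P T hT3 hT hgood hp₀ hind₀ hv₀
  obtain ⟨g₀, hg₀⟩ : ∃ g₀ : Γ, g₀ = s σ₀⁻¹ := ⟨_, rfl⟩
  obtain ⟨z, hz, hind⟩ := hr
  have hG₀ := hgood p₀ hp₀ v₀ hv₀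
  have hz' : ∀ i, End.HasEigenvalue ((sumRep ρ g₀).baseChange ℂ) (z i) := by
    intro i
    obtain ⟨a, ha⟩ := hz i
    rw [hg₀]
    exact sumRep_eigen ρ (s σ₀⁻¹) (hG₀.frobenius a Q₀ ⟨hQ₀.isPrime, hQ₀v⟩ σ₀ hσ₀) ha
  have hcen := torus_cen (sumRep ρ) h h2.jord h2.cartan hL hLG h𝔤'.bracket h𝔤'.nondeg
    h𝔤'.algebraic hrk g₀ z hz' hind
  have htL := tor_le (sumRep ρ) h hL g₀
  have hgg' : sumRep ρ g₀ * sumRep ρ (s (σ₀⁻¹)⁻¹) = 1 := by
    rw [← map_mul, hg₀, ← map_mul, mul_inv_cancel, map_one, map_one]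
  have hg'g : sumRep ρ (s (σ₀⁻¹)⁻¹) * sumRep ρ g₀ = 1 := by
    rw [← map_mul, hg₀, ← map_mul, inv_mul_cancel, map_one, map_one]
  have hAd₀ : ∀ X ∈ L, AdE (sumRep ρ g₀) (sumRep ρ (s (σ₀⁻¹)⁻¹)) X ∈ L := by
    intro X hX
    have h1 := hAd g₀ X hX
    rw [hg₀] at h1 ⊢
    rwa [← map_inv s] at h1
  have htr := trace_torus h hLie hgg' hg'g htL hAd₀ (by
    obtain ⟨m, hm, h1⟩ := htor
    subst hg₀
    exact ⟨m, hm, h1⟩)
  obtain ⟨hND, hproj⟩ := exists_proj h h2 hLie hLG h𝔤'.bracket h𝔤'.nondeg htL (tor_diag _)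
    (tor_comm _) hcen htr
  obtain ⟨Δ', hΔ', hcomm⟩ := h2.tfr ℓ ι n _ ρ hρ (comm L) (comm_conj (sumRep ρ) hAd)
    (comm_order (sumRep ρ) h h2 hL)
  have hss : FiniteIndexSemisimple (sumRep ρ) := by
    intro Δ hΔ U hU
    obtain ⟨P, hP1, hP2, hP3⟩ := hproj U fun X hX => ((hL X).1 hX).1 U ⟨Δ, hΔ, hU⟩
    exact Pool.Agent.Y41.RM.exists_compl_of_commute (sumRep ρ) Δ Δ' hΔ' U hU P hP2 hP3
      fun s hs => (hcomm s hs P hP1).symm
  have hNDL : NonDeg L := by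
    intro X hX hXY
    have h1 : X.baseChange ℂ = 0 := by
      refine hND _ (mem_bcS hX) fun Y hY => ?_
      induction hY using Submodule.span_induction with
      | mem Y hY =>
        obtain ⟨Z, hZ, rfl⟩ := hY
        rw [← bc_mul, LinearMap.trace_baseChange, hXY Z hZ, map_zero]
      | zero => rw [mul_zero, map_zero]
      | add Y Z _ _ hY hZ => rw [mul_add, map_add, hY, hZ, add_zero]
      | smul c Y _ hY => rw [mul_smul_comm, map_smul, hY, smul_zero]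
    exact bc_inj (h1.trans LinearMap.baseChange_zero.symm)
  have hfull : L = 𝔤 := by
    refine full_of_balanced ρ h hLie h𝔤'.bracket h𝔤'.nondeg hNDL hLG h𝔤'.parts g₀ htL hcen b
      (fun i => hbρ i g₀) hbG hbd (fun i => (q v₀ : ℝ) ^ w i)
      (by rw [hg₀]; exact hone Q₀ ⟨hQ₀.isPrime, hQ₀v⟩ σ₀ hσ₀) ?_
    intro s₁ P₁ hs₁ hP₁ hP₁L hP₁Q i β
    -- the class projection as a polynomial with algebraic coefficients
    obtain ⟨p, hp⟩ := exists_polyC ι₀ hι hs₁ hP₁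
    have hP₂ : ∀ c, ∀ x ∈ Module.End.maxGenEigenspace ((ρ i g₀).baseChange ℂ) c,
        aeval ((ρ i g₀).baseChange ℂ) (p.map ι₀) x = s₁ c • x :=
      blk_scal ρ (by rw [hp]; exact hP₁) i
    -- it commutes with the Galois group
    have hPσ : ∀ σ, (ρ i (s σ)).baseChange ℂ * aeval ((ρ i g₀).baseChange ℂ) (p.map ι₀) =
        aeval ((ρ i g₀).baseChange ℂ) (p.map ι₀) * (ρ i (s σ)).baseChange ℂ := by
      intro σ
      rw [← sub_eq_zero]
      apply pM_sep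
      intro π
      have h5 := blk_pM_aeval (V := fun i => Fin (n i) → ℚ_[ℓ]) ρ g₀ i (p.map ι₀) π
      rw [hp] at h5
      rw [pM_sub, pM_bc_mul, pM_mul_bc, ← h5, sub_eq_zero]
      obtain ⟨h3, h4⟩ := central_tate ρ (fun X hX => ((hL X).1 hX).2) hΔ'
        (fun s hs Q hQ => hcomm s hs Q hQ) (pM π P₁) (by
          intro x i
          rw [← hp, pM_aeval]
          have e1 := aeval_sumRep (V := fun i => Fin (n i) → ℚ_[ℓ]) ρ g₀ (pc π (p.map ι₀)) x i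
          have e2 := aeval_sumRep (V := fun i => Fin (n i) → ℚ_[ℓ]) ρ g₀ (pc π (p.map ι₀))
            (Pi.single i (x i)) i
          rw [Pi.single_eq_same] at e2
          exact e1.trans e2.symm) (by
          intro X hX
          rw [← pM_bc_mul, ← pM_mul_bc, hP₁L _ (mem_bcS hX)]) (by
          intro Q hQ
          rw [← pM_bc_mul, ← pM_mul_bc, hP₁Q _ (bcS_comm hQ)]) i
      exact (hC i _ h3 h4 σ).symm
    -- the projection on the part
    obtain ⟨E, hE, hEmem, hEsum, hEcomm⟩ := exists_gproj ((b i).baseChange ℂ)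
    obtain ⟨p', hp'⟩ := exists_polyC (g := b i) (P := E β) ι₀ hι
      (s := fun c => if c = β then (1 : ℂ) else 0) (fun c => by
        by_cases hc : c = β
        · left; exact if_pos hc
        · right; exact if_neg hc) (hE β)
    have hEβ : ∀ x ∈ Module.End.eigenspace ((b i).baseChange ℂ) β, E β x = x := by
      intro x hx
      rw [hE β β x ?_, if_pos rfl, one_smul]
      exact Module.End.mem_maxGenEigenspace _ _ x |>.2 ⟨1, by
        rw [Module.End.mem_eigenspace_iff] at hx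
        rw [pow_one, LinearMap.sub_apply, hx, LinearMap.smul_apply, Module.End.one_apply,
          sub_self]⟩
    have hEr : ∀ x, E β x ∈ Module.End.eigenspace ((b i).baseChange ℂ) β := by
      intro x
      have hx : x ∈ ⨆ β, Module.End.eigenspace ((b i).baseChange ℂ) β := by
        have h3 : ⨆ β, Module.End.eigenspace ((b i).baseChange ℂ) β = ⊤ := hbd i
        rw [h3]
        exact Submodule.mem_top
      induction hx using Submodule.iSup_induction' with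
      | mem c x hx =>
        have h3 : x ∈ Module.End.maxGenEigenspace ((b i).baseChange ℂ) c :=
          Module.End.mem_maxGenEigenspace _ _ x |>.2 ⟨1, by
            rw [Module.End.mem_eigenspace_iff] at hx
            rw [pow_one, LinearMap.sub_apply, hx, LinearMap.smul_apply, Module.End.one_apply,
              sub_self]⟩
        rw [hE β c x h3]
        by_cases hc : c = β
        · rw [if_pos hc, one_smul, ← hc]
          exact hx
        · rw [if_neg hc, zero_smul]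
          exact Submodule.zero_mem _
      | zero => rw [map_zero]; exact Submodule.zero_mem _
      | add x y _ _ hx hy => rw [map_add]; exact Submodule.add_mem _ hx hy
    have hbσ : ∀ γ, (ρ i γ).baseChange ℂ * E β = E β * (ρ i γ).baseChange ℂ := by
      intro γ
      have h3 : (ρ i γ).baseChange ℂ * (b i).baseChange ℂ =
          (b i).baseChange ℂ * (ρ i γ).baseChange ℂ := by
        rw [← bc_mul, ← bc_mul, hbρ]
      rw [← hp']
      exact aeval_comm' h3 _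
    have hPE : aeval ((ρ i g₀).baseChange ℂ) (p.map ι₀) * E β =
        E β * aeval ((ρ i g₀).baseChange ℂ) (p.map ι₀) :=
      (aeval_comm' (hbσ g₀).symm _).symm
    have hPP : aeval ((ρ i g₀).baseChange ℂ) (p.map ι₀) *
        aeval ((ρ i g₀).baseChange ℂ) (p.map ι₀) = aeval ((ρ i g₀).baseChange ℂ) (p.map ι₀) := by
      refine op_ext ((ρ i g₀).baseChange ℂ) fun c x hx => ?_
      rw [Module.End.mul_apply, hP₂ c x hx, map_smul, hP₂ c x hx, smul_smul]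
      rcases hs₁ c with h3 | h3 <;> rw [h3] <;> simp
    have hEE : E β * E β = E β := by
      refine LinearMap.ext fun x => ?_
      rw [Module.End.mul_apply]
      exact hEβ _ (hEr x)
    obtain ⟨m₁, hm₁⟩ : ∃ m₁ : Matrix (Fin (n i)) (Fin (n i)) (PadicAlgCl ℓ),
      m₁ = aeval ((LinearMap.toMatrix' (ρ i g₀)).map (algebraMap ℚ_[ℓ] (PadicAlgCl ℓ))) p *
        aeval ((LinearMap.toMatrix' (b i)).map (algebraMap ℚ_[ℓ] (PadicAlgCl ℓ))) p' := ⟨_, rfl⟩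
    obtain ⟨R, hR1, hR2⟩ := class_torsion (restrictTo ρ s) hρs ι₀ hι P T hT3 hT hgood hp₀ hind₀ hv₀
      i (aeval ((ρ i g₀).baseChange ℂ) (p.map ι₀) * E β) (by
        rw [mul_assoc, ← mul_assoc (E β), ← hPE, mul_assoc _ (E β) (E β), hEE, ← mul_assoc, hPP])
      m₁ (by
        rw [map_mul, ← hp', mtx_aeval ι₀ hι, mtx_aeval ι₀ hι, hm₁, Matrix.map_mul]) (by
        intro σ
        have h3 := hPσ σ
        have h4 := hbσ (s σ)
        show (ρ i (s σ)).baseChange ℂ * _ = _ * (ρ i (s σ)).baseChange ℂ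
        rw [← mul_assoc, h3, mul_assoc, h4, mul_assoc]) hQ₀ hQ₀v hσ₀
    have hint := inter_range hs₁ hP₂ hEβ hEr hPE
    have hR1' : ∀ a, R.count a = finrank ℂ
        ↥(Module.End.maxGenEigenspace ((ρ i g₀).baseChange ℂ) a ⊓
          LinearMap.range (aeval ((ρ i g₀).baseChange ℂ) (p.map ι₀) * E β)) := by
      rw [hg₀] at hR1 ⊢
      exact hR1
    refine ⟨R, fun a ha => ?_, fun a ha => ?_, ?_⟩
    · rw [hR1', (hint a).1 ha]
      rfl
    · rw [← Multiset.count_eq_zero, hR1', (hint a).2 ha, finrank_bot]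
    · obtain ⟨k, hk, h3⟩ := hR2
      refine ⟨k, hk, ?_⟩
      rw [h3]
  refine ⟨hss, fun m φ => ⟨fun hφ X hX => ?_, h𝔤'.tate m φ⟩⟩
  exact ((hL X).1 (hfull ▸ hX)).2 m φ hφ

end main

end Pool.Agent.Q65.KL
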