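import Pool.Agent.Q65.SP
import Pool.Agent.Q65.SEMI

/-!
# Split places and places with conjugate eigenvalues
-/

set_option autoImplicit false
set_option linter.unusedSectionVars false
set_option linter.unusedVariables false

namespace Pool.Agent.Q65.KL

open Module Polynomial TensorProduct Pool.Agent.TH118.SG Pool.Agent.Y114.MU Pool.Agent.Y114.TF
  Pool.Agent.Y114.RM Pool.Agent.Y212.RM

section quot

/-- the numbers `u` with `u * b = a` for conjugate roots `a`, `b` of `Q` -/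
def ratioSet {k : Type} [Field k] [Algebra k ℂ] (Q : k[X]) : Set ℂˣ :=
  {u | ∃ a b : ℂ, aeval a Q = 0 ∧ aeval b Q = 0 ∧
    (∃ B : k[X], Irreducible B ∧ aeval a B = 0 ∧ aeval b B = 0) ∧ (u : ℂ) * b = a}

/-- the quotients of the roots are generated by the quotients of conjugate roots, up to roots of
unity -/
def QuotC {k : Type} [Field k] [Algebra k ℂ] (Q : k[X]) : Prop :=
  ∀ x y : ℂ, aeval x Q = 0 → aeval y Q = 0 → ∃ m : ℕ, 0 < m ∧
    ∃ u ∈ Subgroup.closure (ratioSet Q), x ^ m = ((u : ℂ) * y) ^ m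

end quot

section add

theorem ext0_mul' (θ : Additive ℂˣ →+ ℂ) {x y : ℂ} (hx : x ≠ 0) (hy : y ≠ 0) :
    ext0 θ (x * y) = ext0 θ x + ext0 θ y := by
  rw [ext0_ne _ hx, ext0_ne _ hy, ext0_ne _ (mul_ne_zero hx hy), ← map_add]
  congr 1
  have h1 : Units.mk0 (x * y) (mul_ne_zero hx hy) = Units.mk0 x hx * Units.mk0 y hy :=
    Units.ext rfl
  rw [h1]
  rfl

end add

section blk

variable {k : Type} [Field k] [CharZero k] [Algebra k ℂ] {ι : Type} [Fintype ι] [DecidableEq ι]
  {V : ι → Type} [∀ i, AddCommGroup (V i)] [∀ i, Module k (V i)] [∀ i, FiniteDimensional k (V i)]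
  {Γ : Type} [Group Γ] (ρ : ∀ i, Representation k Γ (V i))

theorem sumRep_apply' (γ : Γ) (x : ∀ i, V i) (i : ι) : sumRep ρ γ x i = ρ i γ (x i) := rfl

theorem aeval_sumRep (γ : Γ) (q : k[X]) (x : ∀ i, V i) (i : ι) :
    aeval (sumRep ρ γ) q x i = aeval (ρ i γ) q (x i) := by
  rw [aeval_eq_sum_range, aeval_eq_sum_range, LinearMap.sum_apply, LinearMap.sum_apply,
    Finset.sum_apply]
  refine Finset.sum_congr rfl fun n _ => ?_
  rw [LinearMap.smul_apply, LinearMap.smul_apply, Pi.smul_apply, ← map_pow, ← map_pow,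
    sumRep_apply']

theorem aeval_single (γ : Γ) (q : k[X]) (i : ι) (y : V i) :
    aeval (sumRep ρ γ) q (Pi.single i y) = Pi.single i (aeval (ρ i γ) q y) := by
  funext j
  rw [aeval_sumRep]
  by_cases hj : j = i
  · subst hj
    rw [Pi.single_eq_same, Pi.single_eq_same]
  · rw [Pi.single_eq_of_ne hj, Pi.single_eq_of_ne hj, map_zero]

theorem single_parts {X : End k (∀ i, V i)} (hX : ∀ x i, X x i = X (Pi.single i (x i)) i) (i : ι)
    (y : V i) : X (Pi.single i y) = Pi.single i (X (Pi.single i y) i) := by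
  funext j
  by_cases hj : j = i
  · subst hj
    rw [Pi.single_eq_same]
  · rw [Pi.single_eq_of_ne hj, hX, Pi.single_eq_of_ne hj, Pi.single_zero, map_zero, Pi.zero_apply]

/-- vectors in the block killed by an irreducible polynomial -/
theorem exists_block_vec (γ : Γ) (i : ι) {B : k[X]} {a : ℂ} (ha : aeval a (ρ i γ).charpoly = 0)
    (hB : aeval a B = 0) : ∃ v : V i, v ≠ 0 ∧ aeval (ρ i γ) B v = 0 := by
  have h1 : End.HasEigenvalue ((ρ i γ).baseChange ℂ) a := by
    rw [Module.End.hasEigenvalue_iff_isRoot_charpoly, LinearMap.charpoly_baseChange, IsRoot.def,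
      eval_map_algebraMap]
    exact ha
  obtain ⟨w, hw⟩ := h1.exists_hasEigenvector
  obtain ⟨π, hπ⟩ : ∃ π : ℂ →ₗ[k] k, pv π w ≠ 0 := by
    by_contra hcon
    push Not at hcon
    exact hw.2 (pv_sep hcon)
  refine ⟨pv π w, hπ, ?_⟩
  rw [← pv_bc]
  have h2 : (aeval (ρ i γ) B).baseChange ℂ w = 0 := by
    have h3 : (aeval (ρ i γ) B).baseChange ℂ =
        aeval ((ρ i γ).baseChange ℂ) (B.map (algebraMap k ℂ)) := by
      rw [aeval_map_algebraMap]
      exact (aeval_algHom_apply (Module.End.baseChangeHom k ℂ (V i)) (ρ i γ) B).symm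
    rw [h3, Module.End.aeval_apply_of_hasEigenvector hw, eval_map_algebraMap, hB, zero_smul]
  rw [h2, map_zero]

theorem full_two (h : Inputs) (h2 : Inputs2) {L G : Submodule k (End k (∀ i, V i))} (hL : IsLie L)
    (hG : IsLie G) (hndG : NonDeg G) (hndL : NonDeg L) (hLG : L ≤ G)
    (hparts : ∀ X ∈ G, ∀ x i, X x i = X (Pi.single i (x i)) i)
    (γ₁ : ι → Γ) (hT₁ : ∀ i, Tor (bcS ℂ L) (tor ((sumRep ρ (γ₁ i)).baseChange ℂ)))
    (hA : ∀ i (c : ℂ), aeval c (ρ i (γ₁ i)).charpoly = 0 → ∃ x : k, algebraMap k ℂ x = c)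
    (γ₂ : Γ) (ht₂ : tor ((sumRep ρ γ₂).baseChange ℂ) ≤ bcS ℂ L)
    (hcen₂ : ∀ x ∈ bcS ℂ G, (∀ a ∈ tor ((sumRep ρ γ₂).baseChange ℂ), a * x = x * a) →
      x ∈ tor ((sumRep ρ γ₂).baseChange ℂ))
    (hQ : ∀ i, QuotC (ρ i γ₂).charpoly) : L = G := by
  classical
  have hLG' : bcS ℂ L ≤ bcS ℂ G := bcS_mono hLG
  have hLC : IsLie (bcS ℂ L) := (h.bc k ℂ _ L).2.1 hL
  have hLndC : NonDeg (bcS ℂ L) := (h.bc k ℂ _ L).2.2.1 hndL
  have T₂ : Tor (bcS ℂ L) (tor ((sumRep ρ γ₂).baseChange ℂ)) :=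
    ⟨hLC, hLndC, ht₂, tor_diag _, tor_comm _, fun x hx => hcen₂ x (hLG' hx)⟩
  refine (h.bc k ℂ _ G).2.2.2.2.1 L hLG ?_
  refine eq_of_classes ((h.bc k ℂ _ G).2.1 hG) ((h.bc k ℂ _ G).2.2.1 hndG) hLG' hLC hLndC ht₂
    (tor_diag _) (tor_comm _) hcen₂ ?_
  obtain ⟨g, hg⟩ : ∃ g, g = (sumRep ρ γ₂).baseChange ℂ := ⟨_, rfl⟩
  -- the weights
  have h1 : ∀ a : tor ((sumRep ρ γ₂).baseChange ℂ), ∃ θ : Additive ℂˣ →+ ℂ,
      IsOp θ ((sumRep ρ γ₂).baseChange ℂ) a := fun a => a.2
  choose θ hθ using h1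
  obtain ⟨wt, hwt⟩ : ∃ wt : ℂ → (tor ((sumRep ρ γ₂).baseChange ℂ) → ℂ),
    wt = fun c a => ext0 (θ a) c := ⟨_, rfl⟩
  have hwtx : ∀ c, ∀ x ∈ Module.End.maxGenEigenspace ((sumRep ρ γ₂).baseChange ℂ) c,
      ∀ a : tor ((sumRep ρ γ₂).baseChange ℂ), (a : End ℂ (ℂ ⊗[k] (∀ i, V i))) x = wt c a • x := by
    intro c x hx a
    rw [hwt]
    exact hθ a c x hx
  obtain ⟨R, hR⟩ : ∃ R : AddSubgroup (tor ((sumRep ρ γ₂).baseChange ℂ) → ℂ),
    R = AddSubgroup.closure (Wts (tor ((sumRep ρ γ₂).baseChange ℂ)) (bcS ℂ L)) := ⟨_, rfl⟩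
  -- the blocks
  obtain ⟨W, hW⟩ : ∃ W : ι → Submodule k (∀ i, V i), W = fun i =>
    LinearMap.range (LinearMap.single k V i) := ⟨_, rfl⟩
  have hWmem : ∀ i (y : V i), Pi.single i y ∈ W i := by
    intro i y
    rw [hW]
    exact ⟨y, rfl⟩
  have hWL : ∀ i, ∀ X ∈ L, ∀ x ∈ W i, X x ∈ W i := by
    intro i X hX x hx
    rw [hW] at hx
    obtain ⟨y, rfl⟩ := hx
    have h3 := single_parts (hparts X (hLG hX)) i y
    show X (Pi.single i y) ∈ W i
    rw [h3]
    exact hWmem i _
  -- conjugate eigenvalues have the same class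
  have hconj : ∀ i, ∀ a b : ℂ, aeval a (ρ i γ₂).charpoly = 0 → aeval b (ρ i γ₂).charpoly = 0 →
      (∃ B : k[X], Irreducible B ∧ aeval a B = 0 ∧ aeval b B = 0) → wt b - wt a ∈ R := by
    rintro i a b ha hb ⟨B, hB, haB, hbB⟩
    obtain ⟨P, hP, hPL⟩ := exists_classProj T₂ (wt a)
    rw [← hR] at hP
    obtain ⟨v, hv0, hBv⟩ := exists_block_vec ρ γ₂ i ha haB
    have hs := conj_class h h2 (σ₁ := sumRep ρ (γ₁ i)) (σ₂ := sumRep ρ γ₂) (hT₁ i) T₂
      (A := (ρ i (γ₁ i)).charpoly) (hA i) (hWL i)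
      (by
        intro x hx
        rw [hW] at hx
        obtain ⟨y, rfl⟩ := hx
        show aeval (sumRep ρ (γ₁ i)) (ρ i (γ₁ i)).charpoly (Pi.single i y) = 0
        rw [aeval_single, LinearMap.aeval_self_charpoly, LinearMap.zero_apply, Pi.single_zero])
      (by
        intro x hx
        rw [hW] at hx
        obtain ⟨y, rfl⟩ := hx
        have h3 := aeval_single ρ γ₂ X i y
        rw [aeval_X, aeval_X] at h3
        show sumRep ρ γ₂ (Pi.single i y) ∈ W i
        rw [h3]
        exact hWmem i _)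
      (P := P) ⟨wt a, by rw [← hR]; exact hP⟩ hPL hB (v := Pi.single i v) (hWmem i v)
      (fun h0 => hv0 (by
        have h3 := congrFun h0 i
        rwa [Pi.single_eq_same] at h3))
      (by rw [aeval_single, hBv, Pi.single_zero]) haB hbB
      (s := fun c => if wt c - wt a ∈ R then 1 else 0)
      (fun c => by
        by_cases hc : wt c - wt a ∈ R
        · left; exact if_pos hc
        · right; exact if_neg hc)
      (fun c x hx => hP (wt c) x (hwtx c x hx))
    simp only [sub_self] at hs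
    rw [if_pos R.zero_mem] at hs
    by_contra hne
    rw [if_neg hne] at hs
    exact one_ne_zero hs
  -- all eigenvalues of a block have the same class
  have hne0 : ∀ i (a : ℂ), aeval a (ρ i γ₂).charpoly = 0 → a ≠ 0 := by
    rintro i a ha rfl
    have h3 : End.HasEigenvalue ((ρ i γ₂).baseChange ℂ) 0 := by
      rw [Module.End.hasEigenvalue_iff_isRoot_charpoly, LinearMap.charpoly_baseChange, IsRoot.def,
        eval_map_algebraMap]
      exact ha
    obtain ⟨w, hw⟩ := h3.exists_hasEigenvector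
    have h4 : (ρ i γ₂⁻¹).baseChange ℂ * (ρ i γ₂).baseChange ℂ = 1 := by
      rw [← bc_mul, ← map_mul, inv_mul_cancel, map_one, bc_one]
    have h5 := LinearMap.congr_fun h4 w
    rw [Module.End.mul_apply, hw.apply_eq_smul, zero_smul, map_zero, Module.End.one_apply] at h5
    exact hw.2 h5.symm
  have hwtmul : ∀ x y : ℂ, x ≠ 0 → y ≠ 0 → wt (x * y) = wt x + wt y := by
    intro x y hx hy
    rw [hwt]
    funext a
    exact ext0_mul' (θ a) hx hy
  have hwtpow : ∀ (x : ℂ) (m : ℕ), x ≠ 0 → wt (x ^ m) = (m : ℂ) • wt x := by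
    intro x m hx
    induction m with
    | zero =>
      rw [pow_zero, Nat.cast_zero, zero_smul]
      have h3 := hwtmul 1 1 one_ne_zero one_ne_zero
      rw [mul_one] at h3
      exact left_eq_add.1 h3
    | succ m ih =>
      rw [pow_succ, hwtmul _ _ (pow_ne_zero m hx) hx, ih, Nat.cast_succ, add_smul, one_smul]
  have hall : ∀ i, ∀ x y : ℂ, aeval x (ρ i γ₂).charpoly = 0 → aeval y (ρ i γ₂).charpoly = 0 →
      wt x - wt y ∈ R := by
    intro i x y hx hy
    have huR' : ∀ u ∈ Subgroup.closure (ratioSet (ρ i γ₂).charpoly), wt (u : ℂ) ∈ R := by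
      intro u hu
      induction hu using Subgroup.closure_induction with
      | mem u hu =>
        obtain ⟨a, b, ha, hb, hB, hab⟩ := hu
        have h3 := hconj i b a hb ha (by
          obtain ⟨B, h4, h5, h6⟩ := hB
          exact ⟨B, h4, h6, h5⟩)
        rw [← hab, hwtmul _ _ u.ne_zero (hne0 i b hb), add_sub_cancel_right] at h3
        exact h3
      | one =>
        have h3 := hwtpow 1 0 one_ne_zero
        rw [pow_zero, Nat.cast_zero, zero_smul] at h3
        rw [Units.val_one, h3]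
        exact R.zero_mem
      | mul u v _ _ h3 h4 =>
        rw [Units.val_mul, hwtmul _ _ u.ne_zero v.ne_zero]
        exact R.add_mem h3 h4
      | inv u _ h3 =>
        have h4 := hwtmul (u : ℂ) ((u⁻¹ : ℂˣ) : ℂ) u.ne_zero (u⁻¹).ne_zero
        have h5 := hwtpow 1 0 one_ne_zero
        rw [pow_zero, Nat.cast_zero, zero_smul] at h5
        rw [← Units.val_mul, mul_inv_cancel, Units.val_one, h5] at h4
        rw [eq_neg_of_add_eq_zero_right h4.symm]
        exact R.neg_mem h3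
    obtain ⟨m, hm, u, hu, hxy⟩ := hQ i x y hx hy
    have huR := huR' u hu
    have h3 := congrArg wt hxy
    rw [hwtpow _ _ (hne0 i x hx), hwtpow _ _ (mul_ne_zero u.ne_zero (hne0 i y hy)),
      hwtmul _ _ u.ne_zero (hne0 i y hy)] at h3
    have h4 : wt x = wt (u : ℂ) + wt y := by
      have hm' : (m : ℂ) ≠ 0 := Nat.cast_ne_zero.2 hm.ne'
      exact smul_right_injective _ hm' h3
    rw [h4, add_sub_cancel_right]
    exact huR
  -- class projections commute with `G`
  rintro P ⟨χ₀, hP⟩ hPL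
  rw [← hR] at hP
  have hblock : ∀ i, ∃ s : ℂ, ∀ y : V i, P ((1 : ℂ) ⊗ₜ[k] (Pi.single i y : ∀ i, V i)) =
      s • ((1 : ℂ) ⊗ₜ[k] (Pi.single i y : ∀ i, V i)) := by
    intro i
    by_cases hex : ∃ x₀ : ℂ, aeval x₀ (ρ i γ₂).charpoly = 0
    · obtain ⟨x₀, hx₀⟩ := hex
      refine ⟨if wt x₀ - χ₀ ∈ R then 1 else 0, fun y => ?_⟩
      obtain ⟨E, hE, hEmem, hEsum, hEcomm⟩ := exists_gproj ((sumRep ρ γ₂).baseChange ℂ)
      obtain ⟨w, hw⟩ : ∃ w, w = (1 : ℂ) ⊗ₜ[k] (Pi.single i y : ∀ i, V i) := ⟨_, rfl⟩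
      rw [← hw]
      have hAw : aeval ((sumRep ρ γ₂).baseChange ℂ) ((ρ i γ₂).charpoly.map (algebraMap k ℂ)) w =
          0 := by
        have h3 : aeval ((sumRep ρ γ₂).baseChange ℂ) ((ρ i γ₂).charpoly.map (algebraMap k ℂ)) =
            (aeval (sumRep ρ γ₂) (ρ i γ₂).charpoly).baseChange ℂ := by
          rw [aeval_map_algebraMap]
          exact aeval_algHom_apply (Module.End.baseChangeHom k ℂ _) (sumRep ρ γ₂) _
        rw [h3, hw, LinearMap.baseChange_tmul, aeval_single, LinearMap.aeval_self_charpoly,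
          LinearMap.zero_apply, Pi.single_zero, tmul_zero]
      have hcommA : Commute ((sumRep ρ γ₂).baseChange ℂ) (aeval ((sumRep ρ γ₂).baseChange ℂ)
          ((ρ i γ₂).charpoly.map (algebraMap k ℂ))) :=
        aeval_comm' (rfl : (sumRep ρ γ₂).baseChange ℂ * (sumRep ρ γ₂).baseChange ℂ = _) _
      have key : ∀ β, P (E β w) = (if wt x₀ - χ₀ ∈ R then (1 : ℂ) else 0) • E β w := by
        intro β
        by_cases h0 : E β w = 0
        · rw [h0, map_zero, smul_zero]
        have h3 : aeval ((sumRep ρ γ₂).baseChange ℂ) ((ρ i γ₂).charpoly.map (algebraMap k ℂ))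
            (E β w) = 0 := by
          rw [hEcomm β _ (fun c x hx => Module.End.mapsTo_maxGenEigenspace_of_comm hcommA c hx),
            hAw, map_zero]
        have h4 : aeval β (ρ i γ₂).charpoly = 0 := by
          rw [← eval_map_algebraMap]
          by_contra hne
          exact h0 (gen_inj hne (hEmem β w) h3)
        rw [hP (wt β) _ (hwtx β _ (hEmem β w))]
        congr 1
        have h5 : wt β - χ₀ ∈ R ↔ wt x₀ - χ₀ ∈ R := by
          rw [show wt β - χ₀ = (wt β - wt x₀) + (wt x₀ - χ₀) by abel]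
          exact R.add_mem_cancel_left (hall i β x₀ h4 hx₀)
        simp only [h5]
      have h6 := hEsum w
      rw [← h6, map_sum, Finset.smul_sum]
      exact Finset.sum_congr rfl fun β _ => key β
    · refine ⟨0, fun y => ?_⟩
      have h3 : y = 0 := by
        by_contra hy
        apply hex
        obtain ⟨c, hc⟩ := IsAlgClosed.exists_aeval_eq_zero ℂ (ρ i γ₂).charpoly (by
          intro h0
          have h4 : (ρ i γ₂).charpoly = 1 := by
            have h5 := (LinearMap.charpoly_monic (ρ i γ₂)).natDegree_eq_zero.1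
              (natDegree_eq_zero_iff_degree_le_zero.2 h0.le)
            exact h5
          have h5 := LinearMap.aeval_self_charpoly (ρ i γ₂)
          rw [h4, map_one] at h5
          exact hy (by rw [← Module.End.one_apply (R := k) y, h5, LinearMap.zero_apply]))
        exact ⟨c, hc⟩
      rw [h3, Pi.single_zero, tmul_zero, map_zero, smul_zero]
  choose s hs using hblock
  have hbase : ∀ X ∈ G, P * X.baseChange ℂ = X.baseChange ℂ * P := by
    intro X hX
    refine LinearMap.ext fun z => ?_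
    rw [Module.End.mul_apply, Module.End.mul_apply]
    induction z with
    | zero => simp only [map_zero]
    | add x y hx hy => simp only [map_add, hx, hy]
    | tmul c v =>
      have h3 : c ⊗ₜ[k] v = ∑ i, c • ((1 : ℂ) ⊗ₜ[k] (Pi.single i (v i) : ∀ i, V i)) := by
        rw [← Finset.smul_sum, ← tmul_sum, Finset.univ_sum_single, TensorProduct.smul_tmul',
          smul_eq_mul, mul_one]
      rw [h3, map_sum, map_sum, map_sum, map_sum]
      refine Finset.sum_congr rfl fun i _ => ?_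
      rw [map_smul, map_smul, map_smul, map_smul, hs i, map_smul, LinearMap.baseChange_tmul,
        single_parts (hparts X hX) i (v i), hs i]
  intro X hX
  induction hX using Submodule.span_induction with
  | mem X hX =>
    obtain ⟨Y, hY, rfl⟩ := hX
    exact hbase Y hY
  | zero => rw [mul_zero, zero_mul]
  | add X Y _ _ hX hY => rw [mul_add, add_mul, hX, hY]
  | smul c X _ hX => rw [mul_smul_comm, smul_mul_assoc, hX]

end blk

end Pool.Agent.Q65.KL
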