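import Pool.Agent.Q65.ST

/-!
# Products with arbitrary representations: the Lie algebra of a sum
-/

set_option autoImplicit false
set_option linter.unusedSectionVars false
set_option linter.unusedVariables false

namespace Pool.Agent.Q65.KL

open NumberField IsDedekindDomain Module Polynomial TensorProduct Pool.Agent.TH118.SG
  Pool.Agent.Y114.MU Pool.Agent.Y114.TF Pool.Agent.Y114.GF Pool.Agent.H204R3.GP Pool.Agent.Y114.RM
  Pool.Agent.Y212.RM
open Pool.Agent.W569.FM Pool.Agent.W571.FM Pool.Agent.Y115.R Pool.Agent.Y115.T Pool.Agent.Y115.Chi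

/-- **Ideals which contain the part of a maximal torus in `K ⊇ [G, G]`.** -/
theorem ideal_full {K : Type} [Field K] [CharZero K] [IsAlgClosed K] {V : Type} [AddCommGroup V]
    [Module K V] [FiniteDimensional K V] {G t N Q : Submodule K (End K V)} (T : Tor G t)
    (hN : ∀ X ∈ G, ∀ Y ∈ N, X * Y - Y * X ∈ N) (hQ : ∀ X ∈ G, ∀ Y ∈ G, X * Y - Y * X ∈ Q)
    (ht : ∀ a ∈ t, a ∈ Q → a ∈ N) : ∀ X ∈ G, X ∈ Q → X ∈ N := by
  have key : ∀ X ∈ G, ∃ n ∈ N ⊓ Q, ∃ y ∈ t, X = n + y := by
    refine wt_induction t T.diag T.comm G (fun a ha X hX => T.lie a (T.le ha) X hX)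
      (P := fun X => ∃ n ∈ N ⊓ Q, ∃ y ∈ t, X = n + y) ?_ ?_ ?_
    · exact ⟨0, (N ⊓ Q).zero_mem, 0, t.zero_mem, (add_zero _).symm⟩
    · rintro X Y _ _ ⟨n, hn, y, hy, rfl⟩ ⟨n', hn', y', hy', rfl⟩
      exact ⟨n + n', (N ⊓ Q).add_mem hn hn', y + y', t.add_mem hy hy', by abel⟩
    · intro χ e he hwt
      show ∃ n ∈ N ⊓ Q, ∃ y ∈ t, e = n + y
      by_cases he0 : e = 0
      · exact ⟨0, (N ⊓ Q).zero_mem, 0, t.zero_mem, by rw [he0, add_zero]⟩
      by_cases hχ : ∃ a0 : t, χ a0 ≠ 0
      · obtain ⟨a0, ha0⟩ := hχ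
        obtain ⟨f, hf, hfw, htr, h, hht, hh0, hef, hhe, hhf⟩ := T.exists_triple he hwt he0 ha0
        have hhQ : h ∈ Q := by rw [← hef]; exact hQ e he f hf
        have hhN : h ∈ N := ht h hht hhQ
        have h1 : (2 : K) • e ∈ N ⊓ Q := by
          have h2 : (2 : K) • e = 2 • e := by rw [two_smul, two_smul]
          rw [h2, ← hhe]
          refine ⟨?_, hQ h (T.le hht) e he⟩
          have h3 := N.neg_mem (hN e he h hhN)
          rwa [neg_sub] at h3
        refine ⟨e, ?_, 0, t.zero_mem, (add_zero _).symm⟩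
        have h2 := (N ⊓ Q).smul_mem (2 : K)⁻¹ h1
        rwa [smul_smul, inv_mul_cancel₀ (two_ne_zero), one_smul] at h2
      · push Not at hχ
        refine ⟨0, (N ⊓ Q).zero_mem, e, T.cen e he fun a ha => ?_, (zero_add _).symm⟩
        have h1 := hwt ⟨a, ha⟩
        rw [hχ, zero_smul, sub_eq_zero] at h1
        exact h1
  intro X hX hXQ
  obtain ⟨n, hn, y, hy, rfl⟩ := key X hX
  refine N.add_mem hn.1 (ht y hy ?_)
  have h1 := Q.sub_mem hXQ hn.2
  rwa [add_sub_cancel_left] at h1

section prod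

variable {k : Type} [Field k] {V U : Type} [AddCommGroup V] [Module k V] [AddCommGroup U]
  [Module k U] {Γ : Type} [Group Γ] (ρ : Representation k Γ V) (σ : Representation k Γ U)

/-- the sum of two representations -/
def sumR : Representation k Γ (V × U) where
  toFun γ := (ρ γ).prodMap (σ γ)
  map_one' := by rw [map_one, map_one]; rfl
  map_mul' a b := by rw [map_mul, map_mul]; rfl

theorem sumR_apply (γ : Γ) (x : V × U) : sumR ρ σ γ x = (ρ γ x.1, σ γ x.2) := rfl

/-- the block on `V` -/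
def blkV : End k (V × U) →ₗ[k] End k V where
  toFun X := LinearMap.fst k V U ∘ₗ X ∘ₗ LinearMap.inl k V U
  map_add' X Y := rfl
  map_smul' c X := rfl

theorem blkV_apply (X : End k (V × U)) (v : V) : blkV X v = (X (v, 0)).1 := rfl

/-- the block on `U` -/
def blkU : End k (V × U) →ₗ[k] End k U where
  toFun X := LinearMap.snd k V U ∘ₗ X ∘ₗ LinearMap.inr k V U
  map_add' X Y := rfl
  map_smul' c X := rfl

theorem blkU_apply (X : End k (V × U)) (u : U) : blkU X u = (X (0, u)).2 := rfl

/-- block diagonal endomorphisms -/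
def Diag (X : End k (V × U)) : Prop := X = (blkV X).prodMap (blkU X)

theorem diag_of_LT {X : End k (V × U)} (hX : X ∈ LT (sumR ρ σ)) : Diag X := by
  have h1 : ∀ v : V, (X (v, 0)).2 = 0 := by
    intro v
    have h2 := hX.1 (LinearMap.ker (LinearMap.snd k V U)) ⟨⊤, inferInstance, fun γ _ x hx => by
      rw [LinearMap.mem_ker, LinearMap.snd_apply] at hx ⊢
      rw [sumR_apply, hx, map_zero]⟩ (v, 0) (by
        rw [LinearMap.mem_ker, LinearMap.snd_apply])
    rwa [LinearMap.mem_ker, LinearMap.snd_apply] at h2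
  have h2 : ∀ u : U, (X (0, u)).1 = 0 := by
    intro u
    have h2 := hX.1 (LinearMap.ker (LinearMap.fst k V U)) ⟨⊤, inferInstance, fun γ _ x hx => by
      rw [LinearMap.mem_ker, LinearMap.fst_apply] at hx ⊢
      rw [sumR_apply, hx, map_zero]⟩ (0, u) (by
        rw [LinearMap.mem_ker, LinearMap.fst_apply])
    rwa [LinearMap.mem_ker, LinearMap.fst_apply] at h2
  refine LinearMap.ext fun x => ?_
  obtain ⟨v, u⟩ := x
  have h3 : ((v, u) : V × U) = (v, 0) + (0, u) := by rw [Prod.mk_add_mk, add_zero, zero_add]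
  rw [LinearMap.prodMap_apply, blkV_apply, blkU_apply]
  refine Prod.ext ?_ ?_
  · show (X (v, u)).1 = (X (v, 0)).1
    rw [h3, map_add, Prod.fst_add, h2, add_zero]
  · show (X (v, u)).2 = (X (0, u)).2
    rw [h3, map_add, Prod.snd_add, h1, zero_add]

theorem Diag.apply {X : End k (V × U)} (hX : Diag X) (x : V × U) :
    X x = (blkV X x.1, blkU X x.2) := by
  conv_lhs => rw [hX]
  rfl

theorem Diag.blkV_mul {X Y : End k (V × U)} (hX : Diag X) (hY : Diag Y) :
    blkV (X * Y) = blkV X * blkV Y := by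
  refine LinearMap.ext fun v => ?_
  rw [blkV_apply, Module.End.mul_apply, hY.apply, hX.apply, Module.End.mul_apply]

theorem Diag.mul_prodMap {X : End k (V × U)} (hX : Diag X) (Y : End k V) :
    X * Y.prodMap (0 : End k U) = (blkV X * Y).prodMap 0 := by
  refine LinearMap.ext fun x => ?_
  rw [Module.End.mul_apply, LinearMap.prodMap_apply, hX.apply, LinearMap.zero_apply, map_zero]
  rfl

theorem Diag.prodMap_mul {X : End k (V × U)} (hX : Diag X) (Y : End k V) :
    Y.prodMap (0 : End k U) * X = (Y * blkV X).prodMap 0 := by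
  refine LinearMap.ext fun x => ?_
  rw [Module.End.mul_apply, hX.apply, LinearMap.prodMap_apply]
  rfl

/-- the image of `L` in the endomorphisms of `V` -/
def prV (L : Submodule k (End k (V × U))) : Submodule k (End k V) := L.map blkV

theorem mem_prV {L : Submodule k (End k (V × U))} {X : End k V} :
    X ∈ prV L ↔ ∃ Y ∈ L, blkV Y = X := Submodule.mem_map

/-- the elements of `L` which act only on `V` -/
def inV (L : Submodule k (End k (V × U))) : Submodule k (End k V) where
  carrier := {X | X.prodMap (0 : End k U) ∈ L}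
  add_mem' := by
    intro a b ha hb
    have h1 : (a + b).prodMap (0 : End k U) = a.prodMap 0 + b.prodMap 0 := by
      refine LinearMap.ext fun x => Prod.ext rfl ?_
      show (0 : U) = 0 + 0
      rw [add_zero]
    show (a + b).prodMap (0 : End k U) ∈ L
    rw [h1]
    exact L.add_mem ha hb
  zero_mem' := by
    have h1 : (0 : End k V).prodMap (0 : End k U) = 0 := LinearMap.ext fun x => rfl
    show (0 : End k V).prodMap (0 : End k U) ∈ L
    rw [h1]
    exact L.zero_mem
  smul_mem' := by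
    intro c a ha
    have h1 : (c • a).prodMap (0 : End k U) = c • a.prodMap 0 := by
      refine LinearMap.ext fun x => Prod.ext rfl ?_
      show (0 : U) = c • 0
      rw [smul_zero]
    show (c • a).prodMap (0 : End k U) ∈ L
    rw [h1]
    exact L.smul_mem c ha

theorem mem_inV {L : Submodule k (End k (V × U))} {X : End k V} :
    X ∈ inV L ↔ X.prodMap (0 : End k U) ∈ L := Iff.rfl

theorem inV_ideal {L : Submodule k (End k (V × U))} (hL : IsLie L) (hd : ∀ X ∈ L, Diag X) :
    ∀ X ∈ prV L, ∀ Y ∈ inV L, X * Y - Y * X ∈ inV L := by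
  intro X hX Y hY
  obtain ⟨X', hX', rfl⟩ := mem_prV.1 hX
  have h1 := hL X' hX' _ hY
  rw [(hd X' hX').mul_prodMap, (hd X' hX').prodMap_mul] at h1
  have h2 : (blkV X' * Y - Y * blkV X').prodMap (0 : End k U) =
      (blkV X' * Y).prodMap 0 - (Y * blkV X').prodMap 0 := by
    refine LinearMap.ext fun x => Prod.ext rfl ?_
    show (0 : U) = 0 - 0
    rw [sub_zero]
  rw [mem_inV, h2]
  exact h1

theorem prV_lie {L : Submodule k (End k (V × U))} (hL : IsLie L) (hd : ∀ X ∈ L, Diag X) :
    IsLie (prV L) := by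
  intro X hX Y hY
  obtain ⟨X', hX', rfl⟩ := mem_prV.1 hX
  obtain ⟨Y', hY', rfl⟩ := mem_prV.1 hY
  rw [← (hd X' hX').blkV_mul (hd Y' hY'), ← (hd Y' hY').blkV_mul (hd X' hX'), ← map_sub]
  exact mem_prV.2 ⟨_, hL X' hX' Y' hY', rfl⟩

theorem prV_ad {L : Submodule k (End k (V × U))}
    (hAd : ∀ γ, ∀ X ∈ L, AdE (sumR ρ σ γ) (sumR ρ σ γ⁻¹) X ∈ L) :
    ∀ γ, ∀ X ∈ prV L, AdE (ρ γ) (ρ γ⁻¹) X ∈ prV L := by
  intro γ X hX
  obtain ⟨X', hX', rfl⟩ := mem_prV.1 hX
  refine mem_prV.2 ⟨_, hAd γ X' hX', LinearMap.ext fun v => ?_⟩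
  rw [blkV_apply, AdE_apply, AdE_apply, Module.End.mul_apply, Module.End.mul_apply,
    Module.End.mul_apply, Module.End.mul_apply, sumR_apply, sumR_apply, map_zero, blkV_apply]

/-- the restriction of the arguments to `V` -/
def resV : ((V × U) × Dual k (V × U)) →ₗ[k] V × Dual k V :=
  (LinearMap.fst k V U).prodMap (LinearMap.inl k V U).dualMap

theorem resV_apply (x : (V × U) × Dual k (V × U)) :
    (resV x : V × Dual k V) = (x.1.1, x.2 ∘ₗ LinearMap.inl k V U) := rfl

theorem resV_grp (γ : Γ) (x : (V × U) × Dual k (V × U)) :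
    (resV (grp (sumR ρ σ γ) (sumR ρ σ γ⁻¹) x) : V × Dual k V) = grp (ρ γ) (ρ γ⁻¹) (resV x) := by
  refine Prod.ext rfl ?_
  refine LinearMap.ext fun v => ?_
  show x.2 (sumR ρ σ γ⁻¹ (v, 0)) = x.2 (ρ γ⁻¹ v, 0)
  rw [sumR_apply, map_zero]

theorem resV_lie {X : End k (V × U)} (hX : Diag X) (x : (V × U) × Dual k (V × U)) :
    (resV (lie X x) : V × Dual k V) = lie (blkV X) (resV x) := by
  refine Prod.ext ?_ ?_
  · show (X x.1).1 = blkV X x.1.1
    rw [hX.apply]
  · refine LinearMap.ext fun v => ?_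
    show -(x.2 (X (v, 0))) = -(x.2 (blkV X v, 0))
    rw [hX.apply, map_zero]

/-- a section of `resV` -/
def secV : (V × Dual k V) →ₗ[k] (V × U) × Dual k (V × U) :=
  (LinearMap.inl k V U).prodMap (LinearMap.fst k V U).dualMap

theorem res_sec (x : V × Dual k V) : (resV (secV x : (V × U) × Dual k (V × U))) = x := by
  refine Prod.ext rfl ?_
  exact LinearMap.ext fun v => rfl

/-- the blocks of the killers of the Tate tensors kill the Tate tensors -/
theorem prV_kills {X : End k (V × U)} (hX : X ∈ LT (sumR ρ σ)) (m : ℕ) (φ : Tensor k V m)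
    (hφ : TateTensor ρ φ) : KillsTensor (blkV X) φ := by
  obtain ⟨Δ, hΔ, h1⟩ := hφ
  have hd := diag_of_LT ρ σ hX
  have h2 := hX.2 m (φ.compLinearMap fun _ => resV) ⟨Δ, hΔ, fun γ hγ v => by
    rw [MultilinearMap.compLinearMap_apply, MultilinearMap.compLinearMap_apply]
    simp only [resV_grp]
    exact h1 γ hγ _⟩
  intro v
  have h3 := h2 fun l => secV (v l)
  rw [← h3]
  refine Finset.sum_congr rfl fun l _ => ?_
  rw [MultilinearMap.compLinearMap_apply]
  congr 1
  funext i
  by_cases hi : i = l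
  · subst hi
    rw [Function.update_self, Function.update_self, resV_lie hd, res_sec]
  · rw [Function.update_of_ne hi, Function.update_of_ne hi, res_sec]

theorem prV_LT {X : End k (V × U)} (hX : X ∈ LT (sumR ρ σ)) : blkV X ∈ LT ρ := by
  refine ⟨?_, prV_kills ρ σ hX⟩
  rintro W ⟨Δ, hΔ, hW⟩ x hx
  have h1 := hX.1 (W.comap (LinearMap.fst k V U)) ⟨Δ, hΔ, fun γ hγ y hy => ?_⟩ (x, 0) hx
  · exact h1
  · exact hW γ hγ _ hy

/-- the `U`-valued tensors which are fixed by a subgroup of finite index -/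
def TateVal {m : ℕ} (φ : MultilinearMap k (fun _ : Fin m => V × Dual k V) U) : Prop :=
  ∃ Δ : Subgroup Γ, Δ.FiniteIndex ∧ ∀ γ ∈ Δ, ∀ v,
    φ (fun l => grp (ρ γ) (ρ γ⁻¹) (v l)) = σ γ (φ v)

/-- the tensor on the sum attached to a `U`-valued tensor -/
noncomputable def valT {m : ℕ} (φ : MultilinearMap k (fun _ : Fin m => V × Dual k V) U) :
    Tensor k (V × U) (m + 1) :=
  LinearMap.uncurryLeft (M := fun _ : Fin (m + 1) => (V × U) × Dual k (V × U))
    { toFun := fun x => (x.2 ∘ₗ LinearMap.inr k V U).compMultilinearMap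
        (φ.compLinearMap fun _ => resV)
      map_add' := fun x y => by
        ext v
        simp
      map_smul' := fun c x => by
        ext v
        simp }

theorem valT_apply {m : ℕ} (φ : MultilinearMap k (fun _ : Fin m => V × Dual k V) U)
    (v : Fin (m + 1) → (V × U) × Dual k (V × U)) :
    valT φ v = (v 0).2 (0, φ fun l => resV (v l.succ)) := rfl

/-- the endomorphisms of `V` which kill the Tate tensors on the sum kill the `U`-valued Tate
tensors -/
theorem inV_kills {X : End k V} (hX : X.prodMap (0 : End k U) ∈ LT (sumR ρ σ)) {m : ℕ}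
    (φ : MultilinearMap k (fun _ : Fin m => V × Dual k V) U) (hφ : TateVal ρ σ φ)
    (v : Fin m → V × Dual k V) : ∑ l, φ (Function.update v l (lie X (v l))) = 0 := by
  obtain ⟨Δ, hΔ, h1⟩ := hφ
  have hd := diag_of_LT ρ σ hX
  have hb : blkV (X.prodMap (0 : End k U)) = X := LinearMap.ext fun v => rfl
  have h2 := hX.2 (m + 1) (valT φ) ⟨Δ, hΔ, fun γ hγ v => by
    rw [valT_apply, valT_apply]
    simp only [resV_grp]
    rw [h1 γ hγ]
    have h5 : σ γ⁻¹ (σ γ (φ fun l => resV (v l.succ))) = φ fun l => resV (v l.succ) := by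
      rw [← Module.End.mul_apply, ← map_mul, inv_mul_cancel, map_one, Module.End.one_apply]
    show (v 0).2 (sumR ρ σ γ⁻¹ (0, σ γ (φ fun l => resV (v l.succ)))) = _
    rw [sumR_apply, map_zero]
    exact congrArg (fun z => (v 0).2 (0, z)) h5⟩
  rw [← sub_eq_zero, sub_zero]
  refine (Module.forall_dual_apply_eq_zero_iff k _).1 fun ξ => ?_
  have h3 := h2 (Fin.cons (0, ξ ∘ₗ LinearMap.snd k V U) fun l => secV (v l))
  rw [Fin.sum_univ_succ] at h3
  have h4 : valT φ (Function.update (Fin.cons ((0 : V × U), ξ ∘ₗ LinearMap.snd k V U)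
      fun l => secV (v l) : Fin (m + 1) → (V × U) × Dual k (V × U)) 0
      (lie (X.prodMap (0 : End k U)) ((Fin.cons ((0 : V × U), ξ ∘ₗ LinearMap.snd k V U)
      fun l => secV (v l) : Fin (m + 1) → (V × U) × Dual k (V × U)) 0))) = 0 := by
    have h5 : ∀ u : U, (lie (X.prodMap (0 : End k U)) ((0 : V × U),
        ξ ∘ₗ LinearMap.snd k V U)).2 ((0 : V), u) = 0 := fun u => by
      show -(ξ ((0 : End k U) u)) = 0
      rw [LinearMap.zero_apply, map_zero, neg_zero]
    rw [valT_apply, Function.update_self, Fin.cons_zero]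
    exact h5 _
  rw [h4, zero_add] at h3
  rw [map_sum, ← h3]
  refine Finset.sum_congr rfl fun l _ => ?_
  rw [valT_apply, Function.update_of_ne (Fin.succ_ne_zero l).symm, Fin.cons_zero]
  show _ = ξ (φ _)
  congr 2
  funext i
  by_cases hi : i = l
  · subst hi
    rw [Function.update_self, Function.update_self, Fin.cons_succ, resV_lie hd, res_sec, hb]
  · rw [Function.update_of_ne hi, Function.update_of_ne (fun h => hi (Fin.succ_injective _ h)),
      Fin.cons_succ, res_sec]

end prod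

end Pool.Agent.Q65.KL
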