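import Pool.Agent.Q65.US1

/-!
# Products with arbitrary representations: base change
-/

set_option autoImplicit false
set_option linter.unusedSectionVars false
set_option linter.unusedVariables false

namespace Pool.Agent.Q65.KL

open NumberField IsDedekindDomain Module Polynomial TensorProduct Pool.Agent.TH118.SG
  Pool.Agent.Y114.MU Pool.Agent.Y114.TF Pool.Agent.Y114.GF Pool.Agent.H204R3.GP Pool.Agent.Y114.RM
  Pool.Agent.Y212.RM
open Pool.Agent.W569.FM Pool.Agent.W571.FM Pool.Agent.Y115.R Pool.Agent.Y115.T Pool.Agent.Y115.Chi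

section bc

variable {k : Type} [Field k] {C : Type} [Field C] [Algebra k C] {V W : Type} [AddCommGroup V]
  [Module k V] [AddCommGroup W] [Module k W]

theorem pv_bc' (π : C →ₗ[k] k) (f : V →ₗ[k] W) (z : C ⊗[k] V) :
    pv π (f.baseChange C z) = f (pv π z) := by
  induction z with
  | zero => simp only [map_zero]
  | add x y hx hy => simp only [map_add, hx, hy]
  | tmul c v => rw [LinearMap.baseChange_tmul, pv_tmul, pv_tmul, map_smul]

/-- intertwining maps preserve the generalized eigenspaces -/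
theorem gen_map {A : Type} [AddCommGroup A] [Module C A] {B : Type} [AddCommGroup B] [Module C B]
    {f : End C A} {g : End C B} (u : A →ₗ[C] B) (hu : ∀ x, u (f x) = g (u x)) (β : C) :
    ∀ x ∈ f.maxGenEigenspace β, u x ∈ g.maxGenEigenspace β := by
  intro x hx
  rw [Module.End.mem_maxGenEigenspace] at hx ⊢
  obtain ⟨N, hN⟩ := hx
  refine ⟨N, ?_⟩
  have h1 : ∀ (N : ℕ) (x : A), u (((f - β • (1 : End C A)) ^ N) x) =
      ((g - β • (1 : End C B)) ^ N) (u x) := by
    intro N
    induction N with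
    | zero => intro x; rw [pow_zero, pow_zero]; rfl
    | succ N ih =>
      intro x
      rw [pow_succ, pow_succ, Module.End.mul_apply, Module.End.mul_apply, ih]
      congr 1
      rw [LinearMap.sub_apply, LinearMap.sub_apply, map_sub, hu, LinearMap.smul_apply,
        LinearMap.smul_apply, Module.End.one_apply, Module.End.one_apply, map_smul]
  rw [← h1, hN, map_zero]

theorem hasEigen_of_gen {A : Type} [AddCommGroup A] [Module C A] {f : End C A} {β : C} {x : A}
    (hx : x ∈ f.maxGenEigenspace β) (hx0 : x ≠ 0) : f.HasEigenvalue β := by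
  classical
  rw [Module.End.mem_maxGenEigenspace] at hx
  have h1 := Nat.find_spec hx
  have h2 : Nat.find hx ≠ 0 := by
    intro h0
    rw [h0, pow_zero] at h1
    exact hx0 h1
  obtain ⟨N, hN⟩ := Nat.exists_eq_succ_of_ne_zero h2
  have h3 : ((f - β • (1 : End C A)) ^ N) x ≠ 0 := by
    intro h0
    have h4 := Nat.find_min hx (m := N) (by omega)
    exact h4 h0
  refine Module.End.hasEigenvalue_of_hasEigenvector (x := ((f - β • (1 : End C A)) ^ N) x) ⟨?_, h3⟩
  rw [Module.End.mem_eigenspace_iff, ← sub_eq_zero]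
  rw [hN, Nat.succ_eq_add_one, pow_succ', Module.End.mul_apply, LinearMap.sub_apply,
    LinearMap.smul_apply, Module.End.one_apply] at h1
  exact h1

end bc

section prod

variable {k : Type} [Field k] [CharZero k] [Algebra k ℂ] {V U : Type} [AddCommGroup V] [Module k V]
  [FiniteDimensional k V] [AddCommGroup U] [Module k U] [FiniteDimensional k U] {Γ : Type}
  [Group Γ] (ρ : Representation k Γ V) (σ : Representation k Γ U)

theorem bc_inl (γ : Γ) (x : ℂ ⊗[k] V) :
    (LinearMap.inl k V U).baseChange ℂ ((ρ γ).baseChange ℂ x) =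
      (sumR ρ σ γ).baseChange ℂ ((LinearMap.inl k V U).baseChange ℂ x) := by
  rw [← LinearMap.comp_apply, ← LinearMap.comp_apply, ← LinearMap.baseChange_comp,
    ← LinearMap.baseChange_comp]
  congr 2
  refine LinearMap.ext fun v => ?_
  show (ρ γ v, 0) = sumR ρ σ γ (v, 0)
  rw [sumR_apply, map_zero]

theorem bc_inr (γ : Γ) (x : ℂ ⊗[k] U) :
    (LinearMap.inr k V U).baseChange ℂ ((σ γ).baseChange ℂ x) =
      (sumR ρ σ γ).baseChange ℂ ((LinearMap.inr k V U).baseChange ℂ x) := by
  rw [← LinearMap.comp_apply, ← LinearMap.comp_apply, ← LinearMap.baseChange_comp,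
    ← LinearMap.baseChange_comp]
  congr 2
  refine LinearMap.ext fun v => ?_
  show (0, σ γ v) = sumR ρ σ γ (0, v)
  rw [sumR_apply, map_zero]

theorem fst_inl (x : ℂ ⊗[k] V) : (LinearMap.fst k V U).baseChange ℂ
    ((LinearMap.inl k V U).baseChange ℂ x) = x := by
  rw [← LinearMap.comp_apply, ← LinearMap.baseChange_comp, LinearMap.fst_comp_inl,
    LinearMap.baseChange_id, LinearMap.id_apply]

theorem snd_inr (x : ℂ ⊗[k] U) : (LinearMap.snd k V U).baseChange ℂ
    ((LinearMap.inr k V U).baseChange ℂ x) = x := by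
  rw [← LinearMap.comp_apply, ← LinearMap.baseChange_comp, LinearMap.snd_comp_inr,
    LinearMap.baseChange_id, LinearMap.id_apply]

theorem pM_blkV (π : ℂ →ₗ[k] k) (Y' : End ℂ (ℂ ⊗[k] (V × U))) :
    blkV (pM π Y') = pM π ((LinearMap.fst k V U).baseChange ℂ ∘ₗ Y' ∘ₗ
      (LinearMap.inl k V U).baseChange ℂ) := by
  refine LinearMap.ext fun v => ?_
  rw [blkV_apply, pM_apply, pM_apply, LinearMap.comp_apply, LinearMap.comp_apply, pv_bc',
    LinearMap.baseChange_tmul, LinearMap.fst_apply, LinearMap.inl_apply]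

theorem pM_blkU (π : ℂ →ₗ[k] k) (Y' : End ℂ (ℂ ⊗[k] (V × U))) :
    blkU (pM π Y') = pM π ((LinearMap.snd k V U).baseChange ℂ ∘ₗ Y' ∘ₗ
      (LinearMap.inr k V U).baseChange ℂ) := by
  refine LinearMap.ext fun v => ?_
  rw [blkU_apply, pM_apply, pM_apply, LinearMap.comp_apply, LinearMap.comp_apply, pv_bc',
    LinearMap.baseChange_tmul, LinearMap.snd_apply, LinearMap.inr_apply]

/-- the block on `V` of an operator of the sum -/
theorem op_fst {γ : Γ} {θ θ' : Additive ℂˣ →+ ℂ} {Y : End ℂ (ℂ ⊗[k] V)}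
    (hY : IsOp θ' ((ρ γ).baseChange ℂ) Y) {Y' : End ℂ (ℂ ⊗[k] (V × U))}
    (hY' : IsOp θ ((sumR ρ σ γ).baseChange ℂ) Y')
    (hθ : ∀ β, End.HasEigenvalue ((ρ γ).baseChange ℂ) β → ext0 θ β = ext0 θ' β) :
    (LinearMap.fst k V U).baseChange ℂ ∘ₗ Y' ∘ₗ (LinearMap.inl k V U).baseChange ℂ = Y := by
  refine op_ext ((ρ γ).baseChange ℂ) fun β x hx => ?_
  by_cases hx0 : x = 0
  · rw [hx0, map_zero, map_zero]
  have h1 := hY' β _ (gen_map _ (bc_inl ρ σ γ) β x hx)
  have h2 : End.HasEigenvalue ((ρ γ).baseChange ℂ) β := hasEigen_of_gen hx hx0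
  rw [LinearMap.comp_apply, LinearMap.comp_apply, h1, map_smul, fst_inl, hY β x hx, hθ β h2]

end prod

end Pool.Agent.Q65.KL
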