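import Pool.Agent.Q65.US2

/-!
# Products with arbitrary representations: the operators
-/

set_option autoImplicit false
set_option linter.unusedSectionVars false
set_option linter.unusedVariables false

namespace Pool.Agent.Q65.KL

open NumberField IsDedekindDomain Module Polynomial TensorProduct Pool.Agent.TH118.SG
  Pool.Agent.Y114.MU Pool.Agent.Y114.TF Pool.Agent.Y114.GF Pool.Agent.H204R3.GP Pool.Agent.Y114.RM
  Pool.Agent.Y212.RM
open Pool.Agent.W569.FM Pool.Agent.W571.FM Pool.Agent.Y115.R Pool.Agent.Y115.T Pool.Agent.Y115.Chi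

/-- extension of a logarithm which vanishes on `A ∩ B` by zero on `B` -/
theorem exists_theta (A B : Subgroup ℂˣ) (θ' : Additive ℂˣ →+ ℂ)
    (hAB : ∀ x ∈ A, x ∈ B → θ' (Additive.ofMul x) = 0) :
    ∃ θ : Additive ℂˣ →+ ℂ, (∀ x ∈ A, θ (Additive.ofMul x) = θ' (Additive.ofMul x)) ∧
      ∀ x ∈ B, θ (Additive.ofMul x) = 0 := by
  have hB : Module.Baer ℤ ℂ := Module.Baer.of_divisible ℂ
  let S : AddSubgroup (Additive ℂˣ) := Subgroup.toAddSubgroup (A ⊔ B)
  have hS : ∀ s : S, ∃ a ∈ A, ∃ b ∈ B, a * b = Additive.toMul (s : Additive ℂˣ) :=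
    fun s => Subgroup.mem_sup.1 s.2
  choose a ha b hb hab using hS
  have key : ∀ (s : S) (x y : ℂˣ), x ∈ A → y ∈ B → x * y = Additive.toMul (s : Additive ℂˣ) →
      θ' (Additive.ofMul (a s)) = θ' (Additive.ofMul x) := by
    intro s x y hx hy hxy
    have h1 : x⁻¹ * a s = y * (b s)⁻¹ := by
      rw [← hab s] at hxy
      rw [inv_mul_eq_iff_eq_mul, ← mul_assoc, hxy, mul_assoc, mul_inv_cancel, mul_one]
    have h2 := hAB (x⁻¹ * a s) (A.mul_mem (A.inv_mem hx) (ha s))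
      (by rw [h1]; exact B.mul_mem hy (B.inv_mem (hb s)))
    rw [ofMul_mul, map_add, ofMul_inv, map_neg, neg_add_eq_zero] at h2
    exact h2.symm
  let g : S →+ ℂ :=
    { toFun := fun s => θ' (Additive.ofMul (a s))
      map_zero' := by
        rw [key 0 1 1 A.one_mem B.one_mem (by rw [mul_one]; rfl), ofMul_one, map_zero]
      map_add' := fun s t => by
        rw [key (s + t) (a s * a t) (b s * b t) (A.mul_mem (ha s) (ha t))
          (B.mul_mem (hb s) (hb t)) (by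
            rw [mul_mul_mul_comm, hab, hab]
            rfl), ofMul_mul, map_add] }
  let f : S →ₗ[ℤ] Additive ℂˣ := S.subtype.toIntLinearMap
  have hf : Function.Injective f := Subtype.coe_injective
  obtain ⟨θ, hθ⟩ := Module.Baer.extension_property hB f hf g.toIntLinearMap
  have h3 : ∀ s : S, θ (s : Additive ℂˣ) = θ' (Additive.ofMul (a s)) := fun s =>
    congrArg (fun F : S →ₗ[ℤ] ℂ => F s) hθ
  refine ⟨θ.toAddMonoidHom, fun x hx => ?_, fun x hx => ?_⟩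
  · have h4 : x ∈ A ⊔ B := Subgroup.mem_sup_left hx
    have h5 := h3 ⟨Additive.ofMul x, h4⟩
    change θ (Additive.ofMul x) = _
    rw [h5, key ⟨Additive.ofMul x, h4⟩ x 1 hx B.one_mem (mul_one _)]
  · have h4 : x ∈ A ⊔ B := Subgroup.mem_sup_right hx
    have h5 := h3 ⟨Additive.ofMul x, h4⟩
    change θ (Additive.ofMul x) = _
    rw [h5, key ⟨Additive.ofMul x, h4⟩ 1 x A.one_mem hx (one_mul _), ofMul_one, map_zero]

section prod

variable {k : Type} [Field k] [CharZero k] [Algebra k ℂ] {V U : Type} [AddCommGroup V] [Module k V]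
  [FiniteDimensional k V] [AddCommGroup U] [Module k U] [FiniteDimensional k U] {Γ : Type}
  [Group Γ] (ρ : Representation k Γ V) (σ : Representation k Γ U)

theorem tor_prV (h : Inputs) {L : Submodule k (End k (V × U))}
    (hL : ∀ X, X ∈ L ↔ X ∈ LT (sumR ρ σ)) (γ : Γ) :
    tor ((ρ γ).baseChange ℂ) ≤ bcS ℂ (prV L) := by
  rintro Y ⟨θ, hY⟩
  obtain ⟨Y', hY'⟩ := exists_op ((sumR ρ σ γ).baseChange ℂ) (fun z => ext0 θ z)
  have h1 := op_mem (sumR ρ σ) h hL γ θ Y' hY'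
  rw [(h.bc k ℂ V (prV L)).1]
  intro π
  refine mem_prV.2 ⟨pM π Y', (h.bc k ℂ (V × U) L).1 Y' |>.1 h1 π, ?_⟩
  rw [pM_blkV, op_fst ρ σ hY hY' fun β _ => rfl]

theorem op_inV (h : Inputs) {L : Submodule k (End k (V × U))}
    (hL : ∀ X, X ∈ L ↔ X ∈ LT (sumR ρ σ)) (γ : Γ) {θ θ' : Additive ℂˣ →+ ℂ}
    {Y : End ℂ (ℂ ⊗[k] V)} (hY : IsOp θ' ((ρ γ).baseChange ℂ) Y)
    (hθ : ∀ β, End.HasEigenvalue ((ρ γ).baseChange ℂ) β → ext0 θ β = ext0 θ' β)
    (hθU : ∀ β, End.HasEigenvalue ((σ γ).baseChange ℂ) β → ext0 θ β = 0) :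
    Y ∈ bcS ℂ (inV L) := by
  obtain ⟨Y', hY'⟩ := exists_op ((sumR ρ σ γ).baseChange ℂ) (fun z => ext0 θ z)
  have h1 := op_mem (sumR ρ σ) h hL γ θ Y' hY'
  have hU : (LinearMap.snd k V U).baseChange ℂ ∘ₗ Y' ∘ₗ (LinearMap.inr k V U).baseChange ℂ = 0 := by
    refine op_ext ((σ γ).baseChange ℂ) fun β x hx => ?_
    by_cases hx0 : x = 0
    · rw [hx0, map_zero, map_zero]
    have h2 := hY' β _ (gen_map _ (bc_inr ρ σ γ) β x hx)
    rw [LinearMap.comp_apply, LinearMap.comp_apply, h2, hθU β (hasEigen_of_gen hx hx0), zero_smul,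
      map_zero, LinearMap.zero_apply]
  rw [(h.bc k ℂ V (inV L)).1]
  intro π
  have h3 := (h.bc k ℂ (V × U) L).1 Y' |>.1 h1 π
  have h4 := diag_of_LT ρ σ ((hL _).1 h3)
  rw [Diag, pM_blkV, pM_blkU, op_fst ρ σ hY hY' hθ, hU] at h4
  have h5 : (pM π (0 : End ℂ (ℂ ⊗[k] U)) : End k U) = 0 := by
    refine LinearMap.ext fun u => ?_
    rw [pM_apply, LinearMap.zero_apply, map_zero, LinearMap.zero_apply]
  rw [h5] at h4
  rw [mem_inV, ← h4]
  exact h3

theorem comm_order_prV (h : Inputs) (h2 : Inputs2) {L : Submodule k (End k (V × U))}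
    (hL : ∀ X, X ∈ L ↔ X ∈ LT (sumR ρ σ)) (γ : Γ) :
    ∃ M : ℕ, 0 < M ∧ ∀ Y ∈ comm (prV L), ρ γ ^ M * Y = Y * ρ γ ^ M := by
  obtain ⟨M, hM, h1⟩ := comm_order (sumR ρ σ) h h2 hL γ
  refine ⟨M, hM, fun Y hY => ?_⟩
  have h3 := h1 (Y.prodMap (0 : End k U)) fun X hX => by
    have hd := diag_of_LT ρ σ ((hL X).1 hX)
    rw [hd.mul_prodMap, hd.prodMap_mul, hY _ (mem_prV.2 ⟨X, hX, rfl⟩)]
  refine LinearMap.ext fun v => ?_
  have h4 := congrArg Prod.fst (LinearMap.congr_fun h3 ((v, 0) : V × U))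
  rw [← map_pow] at h4 ⊢
  exact h4

/-- the trace form on the image in the endomorphisms of `V` -/
theorem nonDeg_prV (h : Inputs) {L : Submodule k (End k (V × U))} {G : Submodule k (End k V)}
    (hL : ∀ X, X ∈ L ↔ X ∈ LT (sumR ρ σ)) (hLie : IsLie L)
    (hAd : ∀ γ, ∀ X ∈ L, AdE (sumR ρ σ γ) (sumR ρ σ γ⁻¹) X ∈ L) (hG : IsLie G)
    (hnd : NonDeg G) (hLG : prV L ≤ G) {t : Submodule ℂ (End ℂ (ℂ ⊗[k] V))}
    (htL : t ≤ bcS ℂ (prV L))
    (hdiag : ∀ a ∈ t, ⨆ μ, End.eigenspace a μ = ⊤) (hct : ∀ a ∈ t, ∀ b ∈ t, a * b = b * a)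
    (hcen : ∀ x ∈ bcS ℂ G, (∀ a ∈ t, a * x = x * a) → x ∈ t)
    (hss : ∀ W : Submodule k V, (∀ γ, ∀ x ∈ W, ρ γ x ∈ W) →
      ∃ W' : Submodule k V, (∀ γ, ∀ x ∈ W', ρ γ x ∈ W') ∧ IsCompl W W') : NonDeg (prV L) := by
  have hL' : IsLie (prV L) := prV_lie hLie fun X hX => diag_of_LT ρ σ ((hL X).1 hX)
  refine nonDeg_of_cr h hL' hG hnd hLG htL hdiag hct hcen ?_
  obtain ⟨W', hW', hc⟩ := hss (kr (prV L)) (kr_stable ρ (prV_ad ρ σ hAd))
  refine ⟨W', fun X hX => ?_, hc⟩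
  obtain ⟨X', hX', rfl⟩ := mem_prV.1 hX
  exact (prV_LT ρ σ ((hL X').1 hX')).1 W' ⟨⊤, inferInstance, fun γ _ => hW' γ⟩

end prod

section sums

variable {k : Type} [Field k] [CharZero k] [Algebra k ℂ] {ι : Type} [Fintype ι] [DecidableEq ι]
  {V : ι → Type} [∀ i, AddCommGroup (V i)] [∀ i, Module k (V i)] [∀ i, FiniteDimensional k (V i)]
  {Γ : Type} [Group Γ] (ρ : ∀ i, Representation k Γ (V i))

theorem bc_sum_single (x : ℂ ⊗[k] (∀ i, V i)) :
    x = ∑ i, (LinearMap.single k V i).baseChange ℂ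
      ((LinearMap.proj (R := k) (φ := V) i).baseChange ℂ x) := by
  induction x with
  | zero => simp
  | add x y hx hy =>
    conv_lhs => rw [hx, hy]
    rw [← Finset.sum_add_distrib]
    exact Finset.sum_congr rfl fun i _ => by rw [map_add, map_add]
  | tmul c v =>
    have h1 : ∀ i, (LinearMap.single k V i).baseChange ℂ
        ((LinearMap.proj (R := k) (φ := V) i).baseChange ℂ (c ⊗ₜ[k] v)) =
        c ⊗ₜ[k] Pi.single i (v i) := fun i => by
      rw [LinearMap.baseChange_tmul, LinearMap.baseChange_tmul]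
      rfl
    rw [Finset.sum_congr rfl fun i _ => h1 i, ← TensorProduct.tmul_sum]
    congr 1
    exact (Finset.univ_sum_single v).symm

/-- the eigenvalues of a sum -/
theorem sumRep_eigen_of (γ : Γ) {β : ℂ}
    (hβ : End.HasEigenvalue ((sumRep ρ γ).baseChange ℂ) β) :
    ∃ i, End.HasEigenvalue ((ρ i γ).baseChange ℂ) β := by
  obtain ⟨x, hx, hx0⟩ := hβ.exists_hasEigenvector
  obtain ⟨i, hi⟩ : ∃ i, (LinearMap.proj (R := k) (φ := V) i).baseChange ℂ x ≠ 0 := by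
    by_contra hcon
    push Not at hcon
    apply hx0
    rw [bc_sum_single x]
    exact Finset.sum_eq_zero fun i _ => by rw [hcon i, map_zero]
  refine ⟨i, Module.End.hasEigenvalue_of_hasEigenvector
    (x := (LinearMap.proj (R := k) (φ := V) i).baseChange ℂ x) ⟨?_, hi⟩⟩
  rw [Module.End.mem_eigenspace_iff]
  have h2 : (ρ i γ).baseChange ℂ ∘ₗ (LinearMap.proj (R := k) (φ := V) i).baseChange ℂ =
      (LinearMap.proj (R := k) (φ := V) i).baseChange ℂ ∘ₗ (sumRep ρ γ).baseChange ℂ := by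
    rw [← LinearMap.baseChange_comp, ← LinearMap.baseChange_comp]
    congr 1
  rw [← LinearMap.comp_apply, h2, LinearMap.comp_apply, Module.End.mem_eigenspace_iff.1 hx,
    map_smul]

end sums

end Pool.Agent.Q65.KL
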